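import Mathlib

set_option autoImplicit false

namespace Pool.Agent.Helper184.Chapman

open Finset Polynomial

section core

variable {p : ℕ} [Fact p.Prime] {K : Type*} [Field K]

/-- the quadratic character with values in `K`. -/
noncomputable def chi (p : ℕ) [Fact p.Prime] (K : Type*) [Field K] : MulChar (ZMod p) K :=
  (quadraticChar (ZMod p)).ringHomComp (Int.castRingHom K)

lemma chi_apply (k : ZMod p) : chi p K k = ((quadraticChar (ZMod p) k : ℤ) : K) := rfl

lemma chi_sq {k : ZMod p} (hk : k ≠ 0) : chi p K k * chi p K k = 1 := by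
  have := quadraticChar_sq_one (F := ZMod p) hk
  rw [chi_apply, ← Int.cast_mul, ← sq, this, Int.cast_one]

lemma chi_neg (h3 : p % 4 = 3) (k : ZMod p) : chi p K (-k) = - chi p K k := by
  have hp2 : p ≠ 2 := by rintro rfl; omega
  have h1 : quadraticChar (ZMod p) (-1) = -1 := by
    rw [quadraticChar_neg_one (by rw [ZMod.ringChar_zmod_n]; exact hp2), ZMod.card]
    exact ZMod.χ₄_nat_three_mod_four h3
  have : chi p K (-k) = chi p K (-1) * chi p K k := by rw [← map_mul]; simp
  rw [this, chi_apply (-1), h1]; simp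

lemma chi_ne_one (h3 : p % 4 = 3) (h2 : (2 : K) ≠ 0) : chi p K ≠ 1 := by
  intro h
  have h1 : chi p K (-1) = -1 := by
    have := chi_neg (K := K) h3 1
    rw [this]; simp
  rw [h, MulChar.one_apply (by simp : IsUnit (-1 : ZMod p))] at h1
  apply h2
  linear_combination h1

lemma chi_quad : (chi p K).IsQuadratic := by
  intro a
  have := quadraticChar_isQuadratic (ZMod p) a
  rw [chi_apply]
  rcases this with h | h | h
  · left; rw [h]; simp
  · right; left; rw [h]; simp
  · right; right; rw [h]; simp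

end core


section main

variable {p : ℕ} [Fact p.Prime] {K : Type*} [Field K]

lemma gauss_shift (h3 : p % 4 = 3) (h2 : (2 : K) ≠ 0) (ψ : AddChar (ZMod p) K) (a : ZMod p) :
    ∑ k : ZMod p, chi p K k * ψ (a * k) = chi p K a * gaussSum (chi p K) ψ := by
  by_cases ha : a = 0
  · subst ha
    simp only [zero_mul, AddChar.map_zero_eq_one, mul_one]
    rw [MulChar.map_zero, zero_mul]
    exact MulChar.sum_eq_zero_of_ne_one (chi_ne_one h3 h2)
  · have h := gaussSum_mulShift (chi p K) ψ (Units.mk0 a ha)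
    rw [← h, Units.val_mk0, ← mul_assoc, chi_sq ha, one_mul]
    rfl

lemma prod_chi (h3 : p % 4 = 3) :
    ∏ k ∈ univ.erase (0 : ZMod p), chi p K k = -1 := by
  rw [← map_prod]
  have hw : ∏ k ∈ univ.erase (0 : ZMod p), k = -1 := by
    have h := FiniteField.prod_univ_units_id_eq_neg_one (K := ZMod p)
    have h2 : (∏ x : (ZMod p)ˣ, (x : ZMod p)) = -1 := by
      rw [← Units.coe_prod, h]; simp
    rw [← h2]
    symm
    apply Finset.prod_bij (fun (x : (ZMod p)ˣ) _ => (x : ZMod p))
    · intro a _; simp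
    · intro a _ b _ hab; exact Units.ext hab
    · intro b hb
      exact ⟨Units.mk0 b (by simpa using hb), by simp, rfl⟩
    · intro a _; rfl
  rw [hw, chi_neg h3]; simp

lemma prod_psi (hp2 : p ≠ 2) (ψ : AddChar (ZMod p) K) :
    ∏ k ∈ univ.erase (0 : ZMod p), ψ (-k) = 1 := by
  have h1 : ∏ k : ZMod p, ψ (-k) = ψ (∑ k : ZMod p, -k) := by
    have := map_prod (AddChar.toMonoidHom ψ) (fun k : ZMod p => Multiplicative.ofAdd (-k)) univ
    simp only [AddChar.toMonoidHom_apply, toAdd_ofAdd] at this
    rw [← this]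
    congr 1
  have h2 : ∑ k : ZMod p, -k = 0 := by
    have h3 : ∑ k : ZMod p, -k = ∑ k : ZMod p, k := by
      exact Fintype.sum_equiv (Equiv.neg _) _ _ (fun x => by simp)
    have h4 : ∑ k : ZMod p, -k = - ∑ k : ZMod p, k := Finset.sum_neg_distrib _
    have h5 : (2 : ZMod p) * ∑ k : ZMod p, k = 0 := by
      rw [h3] at h4
      linear_combination h4
    have h6 : (2 : ZMod p) ≠ 0 := by
      intro h
      have : ((2 : ℕ) : ZMod p) = 0 := by exact_mod_cast h
      rw [ZMod.natCast_eq_zero_iff] at this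
      exact hp2 ((Nat.prime_dvd_prime_iff_eq (Fact.out : p.Prime) Nat.prime_two).mp this)
    rcases mul_eq_zero.mp h5 with h | h
    · exact absurd h h6
    · rw [h3, h]
  rw [h2, AddChar.map_zero_eq_one] at h1
  rw [← h1, ← Finset.mul_prod_erase univ _ (Finset.mem_univ (0 : ZMod p))]
  simp

end main

section main2

variable {p : ℕ} [Fact p.Prime] {K : Type*} [Field K]

/-- Fourier inversion on `ZMod p`. -/
lemma inversion (hp2 : p ≠ 2) (hpK : (p : K) ≠ 0) (ψ : AddChar (ZMod p) K) (hψ : ψ.IsPrimitive)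
    (h : ZMod p → K) (k : ZMod p) :
    ∑ i : ZMod p, ((p : K)⁻¹ * ∑ k' : ZMod p, h k' * ψ (-(2 * i * k'))) * ψ (2 * i * k) = h k := by
  have h6 : (2 : ZMod p) ≠ 0 := by
    intro h
    have : ((2 : ℕ) : ZMod p) = 0 := by exact_mod_cast h
    rw [ZMod.natCast_eq_zero_iff] at this
    exact hp2 ((Nat.prime_dvd_prime_iff_eq (Fact.out : p.Prime) Nat.prime_two).mp this)
  have step : ∀ i : ZMod p,
      ((p : K)⁻¹ * ∑ k' : ZMod p, h k' * ψ (-(2 * i * k'))) * ψ (2 * i * k) =
      (p : K)⁻¹ * ∑ k' : ZMod p, h k' * ψ (i * (2 * (k - k'))) := by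
    intro i
    rw [mul_assoc, Finset.sum_mul]
    congr 1
    apply Finset.sum_congr rfl
    intro k' _
    rw [mul_assoc, ← AddChar.map_add_eq_mul]
    congr 2
    ring
  rw [Finset.sum_congr rfl (fun i _ => step i), ← Finset.mul_sum, Finset.sum_comm]
  have step2 : ∀ k' : ZMod p, ∑ i : ZMod p, h k' * ψ (i * (2 * (k - k'))) =
      if k' = k then h k * p else 0 := by
    intro k'
    rw [← Finset.mul_sum, AddChar.sum_mulShift _ hψ]
    by_cases hk : k' = k
    · subst hk; simp
    · have : 2 * (k - k') ≠ 0 := mul_ne_zero h6 (sub_ne_zero.mpr (Ne.symm hk))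
      simp [this, hk]
  rw [Finset.sum_congr rfl (fun k' _ => step2 k')]
  simp only [Finset.sum_ite_eq', Finset.mem_univ, if_true]
  field_simp

lemma sum_zmod_range (m : ℕ) (hm : p = 2 * m + 1) (f : ZMod p → K) :
    ∑ i : ZMod p, f i = ∑ i ∈ range (m + 1), f (i : ZMod p)
      + ∑ l ∈ range m, f ((m + 1 + l : ℕ) : ZMod p) := by
  have h1 : ∑ i : ZMod p, f i = ∑ i ∈ range p, f (i : ZMod p) := by
    symm
    apply Finset.sum_bij (fun (i : ℕ) _ => (i : ZMod p))
    · intro a _; simp
    · intro a ha b hb hab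
      rw [Finset.mem_range] at ha hb
      have := congrArg ZMod.val hab
      rwa [ZMod.val_natCast_of_lt ha, ZMod.val_natCast_of_lt hb] at this
    · intro b _
      exact ⟨b.val, by simpa using ZMod.val_lt b, by simp⟩
    · intro a _; rfl
  have h2 : p = (m + 1) + m := by omega
  have h3 : ∑ i ∈ range p, f (i : ZMod p) = ∑ i ∈ range ((m + 1) + m), f (i : ZMod p) := by
    rw [← h2]
  rw [h1, h3, Finset.sum_range_add]

/-- The key lemma: solutions of the Toeplitz system over a field. -/
theorem core (h3 : p % 4 = 3) (m : ℕ) (hm : p = 2 * m + 1)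
    (h2 : (2 : K) ≠ 0) (hpK : (p : K) ≠ 0) (ψ : AddChar (ZMod p) K) (hψ : ψ.IsPrimitive)
    (v : ℕ → K) (c : K)
    (hv : ∀ i ∈ range (m + 1),
      ∑ j ∈ range (m + 1), chi p K ((i : ZMod p) - (j : ZMod p)) * v j = if i = 0 then c else 0) :
    v m = chi p K 2 * c ∧ (c = 0 → ∀ j ∈ range (m + 1), v j = 0) := by
  have hp2 : p ≠ 2 := by rintro rfl; omega
  have hm1 : 1 ≤ m := by
    have := (Fact.out : p.Prime).two_le; omega
  set g : K := gaussSum (chi p K) ψ with hg
  have hg2 : g ^ 2 = - (p : K) := by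
    have e := gaussSum_sq (χ := chi p K) (chi_ne_one h3 h2) chi_quad hψ
    rw [chi_neg h3, ZMod.card] at e
    rw [hg, e]; simp
  set xval : ZMod p → K := fun k => ∑ j ∈ range (m + 1), v j * ψ k ^ (2 * j) with hx
  set h : ZMod p → K := fun k => chi p K k * xval k with hh
  set hhat : ZMod p → K := fun i => (p : K)⁻¹ * ∑ k' : ZMod p, h k' * ψ (-(2 * i * k')) with hhh
  set a : K := - (p : K)⁻¹ * chi p K 2 * g * c with ha
  have hpow : ∀ (k : ZMod p) (n : ℕ), ψ k ^ n = ψ ((n : ZMod p) * k) := by
    intro k n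
    rw [← AddChar.map_nsmul_eq_pow, nsmul_eq_mul]
  -- values of the transform
  have hhat_eq : ∀ i : ZMod p, hhat i =
      - (p : K)⁻¹ * chi p K 2 * g * ∑ j ∈ range (m + 1), chi p K (i - (j : ZMod p)) * v j := by
    intro i
    have e1 : ∑ k' : ZMod p, h k' * ψ (-(2 * i * k')) =
        ∑ j ∈ range (m + 1), v j * (chi p K (2 * ((j : ZMod p) - i)) * g) := by
      have : ∀ k' : ZMod p, h k' * ψ (-(2 * i * k')) =
          ∑ j ∈ range (m + 1), v j * (chi p K k' * ψ (2 * ((j : ZMod p) - i) * k')) := by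
        intro k'
        rw [hh, hx]
        simp only
        rw [Finset.mul_sum, Finset.sum_mul]
        apply Finset.sum_congr rfl
        intro j _
        have e2 : ψ (2 * ((j : ZMod p) - i) * k') = ψ k' ^ (2 * j) * ψ (-(2 * i * k')) := by
          rw [hpow, ← AddChar.map_add_eq_mul]
          congr 1
          push_cast
          ring
        rw [e2]; ring
      rw [Finset.sum_congr rfl (fun k' _ => this k'), Finset.sum_comm]
      apply Finset.sum_congr rfl
      intro j _
      rw [← Finset.mul_sum, gauss_shift h3 h2]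
    rw [hhh]
    simp only
    rw [e1, Finset.mul_sum, Finset.mul_sum]
    apply Finset.sum_congr rfl
    intro j _
    have e3 : chi p K (2 * ((j : ZMod p) - i)) = - (chi p K 2 * chi p K (i - (j : ZMod p))) := by
      rw [map_mul, ← neg_sub i (j : ZMod p), chi_neg h3]; ring
    rw [e3]; ring
  have hhat_low : ∀ i ∈ range (m + 1), hhat (i : ZMod p) = if i = 0 then a else 0 := by
    intro i hi
    rw [hhat_eq, hv i hi]
    split_ifs
    · rfl
    · simp
  set y : ℕ → K := fun l => hhat ((m + 1 + l : ℕ) : ZMod p) with hy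
  have hinv : ∀ k : ZMod p, h k = a + ∑ l ∈ range m, y l * ψ k ^ (2 * l + 1) := by
    intro k
    have e1 := inversion hp2 hpK ψ hψ h k
    have e2 : ∑ i : ZMod p, hhat i * ψ (2 * i * k) = h k := e1
    rw [← e2, sum_zmod_range m hm (fun i => hhat i * ψ (2 * i * k))]
    congr 1
    · rw [Finset.sum_eq_single 0]
      · rw [hhat_low 0 (by simp)]; simp
      · intro b hb hb0
        rw [hhat_low b hb, if_neg hb0, zero_mul]
      · intro h0; simp at h0
    · apply Finset.sum_congr rfl
      intro l _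
      rw [hpow]
      congr 2
      have hp0 : ((2 * m + 1 : ℕ) : ZMod p) = 0 := by
        rw [← hm]; simp
      push_cast at hp0 ⊢
      linear_combination k * hp0
  -- the points and the polynomials
  set s : ZMod p → K := fun k => chi p K k * ψ k with hs
  set S : Finset (ZMod p) := univ.erase 0 with hS
  have hScard : S.card = 2 * m := by
    rw [hS, Finset.card_erase_of_mem (Finset.mem_univ _), Finset.card_univ, ZMod.card]
    omega
  have hs2 : ∀ k ∈ S, s k ^ 2 = ψ (2 * k) := by
    intro k hk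
    have hk0 : k ≠ 0 := by simpa [hS] using hk
    have := chi_sq (K := K) hk0
    have e := hpow k 2
    push_cast at e
    rw [← e, hs]
    simp only
    linear_combination (ψ k ^ 2) * this
  have h6 : (2 : ZMod p) ≠ 0 := by
    intro h
    have : ((2 : ℕ) : ZMod p) = 0 := by exact_mod_cast h
    rw [ZMod.natCast_eq_zero_iff] at this
    exact hp2 ((Nat.prime_dvd_prime_iff_eq (Fact.out : p.Prime) Nat.prime_two).mp this)
  have hψinj : ∀ k : ZMod p, ψ k = 1 → k = 0 := fun k hk => (hψ.zmod_char_eq_one_iff p k).mp hk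
  have hsinj : Set.InjOn s S := by
    intro k hk l hl hkl
    have e : ψ (2 * k) = ψ (2 * l) := by rw [← hs2 k hk, ← hs2 l hl, hkl]
    have e2 : ψ (2 * k - 2 * l) = 1 := by
      rw [AddChar.map_sub_eq_div, e, div_self]
      intro h0
      have := AddChar.map_zero_eq_one ψ
      rw [← add_neg_cancel (2 * l), AddChar.map_add_eq_mul, h0, zero_mul] at this
      exact zero_ne_one this
    have e3 := hψinj _ e2
    have e4 : 2 * (k - l) = 0 := by linear_combination e3
    rcases mul_eq_zero.mp e4 with h | h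
    · exact absurd h h6
    · exact sub_eq_zero.mp h
  set P : K[X] := ∏ k ∈ S, (X - C (s k)) with hP
  have hPmonic : P.Monic := by
    rw [hP]; exact monic_prod_of_monic _ _ (fun k _ => monic_X_sub_C _)
  have hPdeg : P.natDegree = 2 * m := by
    rw [hP, natDegree_prod_of_monic _ _ (fun k _ => monic_X_sub_C _)]
    simp [hScard]
  have hPcoeff : P.coeff (2 * m - 1) = - g := by
    have e1 : P.nextCoeff = - ∑ k ∈ S, s k := by
      rw [hP]; exact prod_X_sub_C_nextCoeff s
    have e2 : P.nextCoeff = P.coeff (2 * m - 1) := by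
      rw [nextCoeff_of_natDegree_pos (by rw [hPdeg]; omega), hPdeg]
    rw [← e2, e1, hg, gaussSum]
    congr 1
    rw [← Finset.add_sum_erase univ _ (Finset.mem_univ (0 : ZMod p))]
    rw [MulChar.map_zero]
    simp [hs, hS]
  have hProot : ∀ k ∈ S, P.eval (s k) = 0 := by
    intro k hk
    rw [hP, eval_prod]
    exact Finset.prod_eq_zero hk (by simp)
  have hP1 : P.eval 1 = ∏ k ∈ S, (1 - s k) := by
    rw [hP, eval_prod]; simp
  have hP1ne : P.eval 1 ≠ 0 := by
    rw [hP1, Finset.prod_ne_zero_iff]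
    intro k hk h0
    have e : s k = 1 := by linear_combination -h0
    have e2 := hs2 k hk
    rw [e, one_pow] at e2
    have e3 := hψinj _ e2.symm
    have hk0 : k ≠ 0 := by simpa [hS] using hk
    rcases mul_eq_zero.mp e3 with h | h
    · exact h6 h
    · exact hk0 h
  have hPm1 : P.eval (-1) = - P.eval 1 := by
    have e1 : P.eval (-1) = ∏ k ∈ S, (-1 - s k) := by
      rw [hP, eval_prod]; simp
    have e2 : ∏ k ∈ S, (-1 - s k) = ∏ k ∈ S, (1 + s k) := by
      have : ∀ k ∈ S, (-1 - s k) = (-1) * (1 + s k) := by intro k _; ring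
      rw [Finset.prod_congr rfl this, Finset.prod_mul_distrib, Finset.prod_const, hScard]
      simp
    have e3 : ∏ k ∈ S, (1 + s k) = ∏ k ∈ S, (1 + s (-k)) := by
      apply Finset.prod_bij (fun k _ => -k)
      · intro k hk; simpa [hS] using hk
      · intro k _ l _ h; exact neg_injective h
      · intro k hk; exact ⟨-k, by simpa [hS] using hk, by simp⟩
      · intro k _; simp
    have e4 : ∀ k ∈ S, (1 + s (-k)) = (-1) * chi p K k * ψ (-k) * (1 - s k) := by
      intro k hk
      have hk0 : k ≠ 0 := by simpa [hS] using hk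
      have e5 := chi_sq (K := K) hk0
      have e6 : ψ (-k) * ψ k = 1 := by
        rw [← AddChar.map_add_eq_mul]; simp
      rw [hs]
      simp only
      rw [chi_neg h3]
      linear_combination (-1 : K) * e5 * (1 : K) - (chi p K k * chi p K k) * e6
    rw [e1, e2, e3, Finset.prod_congr rfl e4, Finset.prod_mul_distrib, Finset.prod_mul_distrib,
      Finset.prod_mul_distrib, Finset.prod_const, hScard, prod_chi h3, prod_psi hp2, hP1]
    simp
  set F : K[X] := ∑ j ∈ range (m + 1), C (v j) * X ^ (2 * j)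
    - ∑ l ∈ range m, C (y l) * X ^ (2 * l + 1) with hF
  set G : K[X] := F + C a * X * (P - X ^ (2 * m)) with hG
  -- degree of G
  have hQcoeff : ∀ n, 2 * m - 1 < n → (P - X ^ (2 * m)).coeff n = 0 := by
    intro n hn
    rw [coeff_sub, coeff_X_pow]
    rcases Nat.lt_or_ge (2 * m) n with h | h
    · rw [coeff_eq_zero_of_natDegree_lt (by rw [hPdeg]; exact h), if_neg (by omega)]; simp
    · have hn2 : n = 2 * m := by omega
      subst hn2
      have e : P.coeff (2 * m) = 1 := by
        have := hPmonic.coeff_natDegree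
        rwa [hPdeg] at this
      rw [e]; simp
  have hQdeg : (P - X ^ (2 * m)).natDegree ≤ 2 * m - 1 := natDegree_le_iff_coeff_eq_zero.mpr hQcoeff
  have hFdeg : F.natDegree ≤ 2 * m := by
    rw [hF]
    refine (natDegree_sub_le_of_le (m := 2 * m) (n := 2 * m) ?_ ?_).trans (by simp)
    · apply natDegree_sum_le_of_forall_le
      intro j hj
      rw [Finset.mem_range] at hj
      exact (natDegree_C_mul_X_pow_le _ _).trans (by omega)
    · apply natDegree_sum_le_of_forall_le
      intro j hj
      rw [Finset.mem_range] at hj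
      exact (natDegree_C_mul_X_pow_le _ _).trans (by omega)
  have hRdeg : (C a * X * (P - X ^ (2 * m))).natDegree ≤ 2 * m := by
    refine natDegree_mul_le.trans ?_
    have h0 : (C a * X : K[X]).natDegree ≤ 1 := by
      simpa using natDegree_C_mul_X_pow_le a 1
    omega
  have hGdeg : G.natDegree ≤ 2 * m := by
    rw [hG]
    exact natDegree_add_le_of_degree_le hFdeg hRdeg
  have hGroot : ∀ k ∈ S, G.eval (s k) = 0 := by
    intro k hk
    have hk0 : k ≠ 0 := by simpa [hS] using hk
    have e1 := chi_sq (K := K) hk0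
    have e2 := hinv k
    have hψp : ψ k ^ (2 * m + 1) = 1 := by
      rw [hpow]
      have hp0 : ((2 * m + 1 : ℕ) : ZMod p) = 0 := by
        rw [← hm]; simp
      rw [hp0, zero_mul, AddChar.map_zero_eq_one]
    have hsq : ∀ n : ℕ, s k ^ (2 * n) = ψ k ^ (2 * n) := by
      intro n
      rw [pow_mul, pow_mul, hs]
      simp only
      congr 1
      linear_combination (ψ k ^ 2) * e1
    have hsodd : ∀ n : ℕ, s k ^ (2 * n + 1) = chi p K k * ψ k ^ (2 * n + 1) := by
      intro n
      rw [pow_succ, hsq, pow_succ, hs]; ring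
    have e3 : F.eval (s k) = xval k - chi p K k * ∑ l ∈ range m, y l * ψ k ^ (2 * l + 1) := by
      rw [hF]
      simp only [eval_sub, eval_finsetSum, eval_mul, eval_C, eval_pow, eval_X]
      rw [hx, Finset.mul_sum]
      congr 1
      · apply Finset.sum_congr rfl
        intro j _
        rw [hsq]
      · apply Finset.sum_congr rfl
        intro l _
        rw [hsodd]; ring
    have e4 : xval k = chi p K k * h k := by
      rw [hh]; simp only; linear_combination (-xval k) * e1
    have e5 : (C a * X * (P - X ^ (2 * m))).eval (s k) = - a * chi p K k := by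
      simp only [eval_sub, eval_mul, eval_C, eval_pow, eval_X]
      rw [hProot k hk]
      have := hsodd m
      rw [hψp] at this
      linear_combination (-a) * this
    rw [hG, eval_add, e3, e5, e4, e2]
    ring
  have hG1 : G.eval 1 = G.eval (-1) := by
    have e2 := hinv 0
    have e3 : h 0 = 0 := by rw [hh]; simp only; rw [MulChar.map_zero, zero_mul]
    rw [e3] at e2
    simp only [AddChar.map_zero_eq_one, one_pow, mul_one] at e2
    have ee : ∀ n : ℕ, (-1 : K) ^ (2 * n) = 1 := fun n => by rw [pow_mul]; simp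
    have eo : ∀ n : ℕ, (-1 : K) ^ (2 * n + 1) = -1 := fun n => by rw [pow_succ, ee]; simp
    rw [hG, hF]
    simp only [eval_add, eval_sub, eval_finsetSum, eval_mul, eval_C, eval_pow, eval_X, one_pow,
      mul_one, ee, eo, hPm1]
    rw [← Finset.sum_mul]
    linear_combination 2 * e2
  have hG0 : G = 0 := by
    set β : K := G.coeff (2 * m) with hβ
    have e1 : G - C β * P = 0 := by
      have hd : ∀ n, 2 * m - 1 < n → (G - C β * P).coeff n = 0 := by
        intro n hn
        rw [coeff_sub, coeff_C_mul]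
        rcases Nat.lt_or_ge (2 * m) n with h | h
        · have e5 : P.coeff n = 0 := coeff_eq_zero_of_natDegree_lt (by rw [hPdeg]; exact h)
          have e6 : G.coeff n = 0 := coeff_eq_zero_of_natDegree_lt (lt_of_le_of_lt hGdeg h)
          rw [e5, e6]; simp
        · have hn2 : n = 2 * m := by omega
          subst hn2
          have e : P.coeff (2 * m) = 1 := by
            have := hPmonic.coeff_natDegree
            rwa [hPdeg] at this
          rw [e]; simp [hβ]
      have hd2 : (G - C β * P).natDegree ≤ 2 * m - 1 := natDegree_le_iff_coeff_eq_zero.mpr hd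
      classical
      apply eq_zero_of_natDegree_lt_card_of_eval_eq_zero' (G - C β * P) (S.image s)
      · intro x hx
        rw [Finset.mem_image] at hx
        obtain ⟨k, hk, rfl⟩ := hx
        rw [eval_sub, eval_mul, hGroot k hk, hProot k hk]; simp
      · rw [Finset.card_image_of_injOn hsinj, hScard]; omega
    have e2 : G = C β * P := sub_eq_zero.mp e1
    have e3 : β * P.eval 1 = β * P.eval (-1) := by
      have := hG1
      rw [e2] at this
      simpa using this
    rw [hPm1] at e3
    have e4 : 2 * (β * P.eval 1) = 0 := by linear_combination e3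
    have e5 : β = 0 := by
      rcases mul_eq_zero.mp e4 with h | h
      · exact absurd h h2
      · rcases mul_eq_zero.mp h with h | h
        · exact h
        · exact absurd h hP1ne
    rw [e2, e5]; simp
  have hFcoeff : ∀ j ∈ range (m + 1), F.coeff (2 * j) = v j := by
    intro j hj
    rw [hF, coeff_sub, finsetSum_coeff, finsetSum_coeff]
    simp only [coeff_C_mul_X_pow]
    rw [Finset.sum_eq_single j]
    · rw [Finset.sum_eq_zero]
      · simp
      · intro l _
        rw [if_neg (by omega)]
    · intro b _ hb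
      rw [if_neg (by omega)]
    · intro hj'; exact absurd hj hj'
  constructor
  · have e1 : G.coeff (2 * m) = v m + a * (- g) := by
      rw [hG, coeff_add, hFcoeff m (by simp)]
      congr 1
      have e : 2 * m = (2 * m - 1) + 1 := by omega
      rw [mul_assoc, coeff_C_mul]
      congr 1
      conv_lhs => rw [e]
      rw [coeff_X_mul, coeff_sub, hPcoeff, coeff_X_pow, if_neg (by omega)]
      simp
    rw [hG0, coeff_zero] at e1
    have e2 : v m = a * g := by linear_combination -e1
    rw [e2, ha]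
    field_simp
    linear_combination (-chi p K 2 * c) * hg2
  · intro hc j hj
    have ha0 : a = 0 := by rw [ha, hc, mul_zero]
    have e1 : G.coeff (2 * j) = v j := by
      rw [hG, ha0]
      simp only [C_0, zero_mul, add_zero]
      exact hFcoeff j hj
    rw [← e1, hG0, coeff_zero]

end main2

section modell

variable {p : ℕ} [Fact p.Prime]

lemma chi_map {K L : Type*} [Field K] [Field L] (f : K →+* L) (a : ZMod p) :
    f (chi p K a) = chi p L a := by
  rw [chi_apply, chi_apply, map_intCast]

/-- odd primes different from `p`, and also characteristic zero. -/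
lemma sys_field {F : Type*} [Field F] (h3 : p % 4 = 3) (m : ℕ) (hm : p = 2 * m + 1)
    (h2 : (2 : F) ≠ 0) (hpF : (p : F) ≠ 0) (v : ℕ → F) (c : F)
    (hv : ∀ i ∈ range (m + 1),
      ∑ j ∈ range (m + 1), chi p F ((i : ZMod p) - (j : ZMod p)) * v j = if i = 0 then c else 0) :
    v m = chi p F 2 * c ∧ (c = 0 → ∀ j ∈ range (m + 1), v j = 0) := by
  have hp : p.Prime := Fact.out
  let pp : ℕ+ := ⟨p, hp.pos⟩
  have hpp : ((pp : ℕ) : F) ≠ 0 := hpF
  let Ψ := AddChar.primitiveZModChar pp F hpp
  let L := CyclotomicField Ψ.n F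
  let f : F →+* L := algebraMap F L
  have hf : Function.Injective f := f.injective
  have h2L : (2 : L) ≠ 0 := by
    intro h
    apply h2
    apply hf
    rw [map_zero, ← h]
    exact map_ofNat f 2
  have hpL : (p : L) ≠ 0 := by
    intro h
    apply hpF
    apply hf
    rw [map_zero, ← h]
    exact map_natCast f p
  have key := core (p := p) (K := L) h3 m hm h2L hpL Ψ.char Ψ.prim (fun j => f (v j)) (f c) (by
    intro i hi
    have h := congrArg f (hv i hi)
    rw [map_sum] at h
    have e : ∀ j ∈ range (m + 1), f (chi p F ((i : ZMod p) - (j : ZMod p)) * v j) =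
        chi p L ((i : ZMod p) - (j : ZMod p)) * f (v j) := by
      intro j _
      rw [map_mul, chi_map]
    rw [Finset.sum_congr rfl e] at h
    rw [h]
    split_ifs
    · rfl
    · exact map_zero f)
  obtain ⟨k1, k2⟩ := key
  constructor
  · apply hf
    rw [map_mul, chi_map]
    exact k1
  · intro hc j hj
    apply hf
    rw [map_zero]
    exact k2 (by rw [hc, map_zero]) j hj

lemma sys_two (h3 : p % 4 = 3) (m : ℕ) (hm : p = 2 * m + 1) (v : ℕ → ZMod 2)
    (hv : ∀ i ∈ range (m + 1),
      ∑ j ∈ range (m + 1), chi p (ZMod 2) ((i : ZMod p) - (j : ZMod p)) * v j = 0) :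
    ∀ j ∈ range (m + 1), v j = 0 := by
  have hchi : ∀ i ∈ range (m + 1), ∀ j ∈ range (m + 1),
      chi p (ZMod 2) ((i : ZMod p) - (j : ZMod p)) = if i = j then 0 else 1 := by
    intro i hi j hj
    rw [Finset.mem_range] at hi hj
    split_ifs with hij
    · subst hij; rw [sub_self, MulChar.map_zero]
    · have hne : (i : ZMod p) - (j : ZMod p) ≠ 0 := by
        intro h
        apply hij
        have h := sub_eq_zero.mp h
        have := congrArg ZMod.val h
        rwa [ZMod.val_natCast_of_lt (by omega), ZMod.val_natCast_of_lt (by omega)] at this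
      rw [chi_apply]
      rcases quadraticChar_dichotomy hne with h | h
      · rw [h]; simp
      · rw [h]; decide
  have hS : ∀ i ∈ range (m + 1), v i = ∑ j ∈ range (m + 1), v j := by
    intro i hi
    have h := hv i hi
    have e : ∀ j ∈ range (m + 1), chi p (ZMod 2) ((i : ZMod p) - (j : ZMod p)) * v j
        = v j - if j = i then v i else 0 := by
      intro j hj
      rw [hchi i hi j hj]
      by_cases hij : i = j
      · subst hij; simp
      · simp [hij, Ne.symm hij]
    rw [Finset.sum_congr rfl e, Finset.sum_sub_distrib, Finset.sum_ite_eq' , if_pos hi] at h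
    exact (sub_eq_zero.mp h).symm
  have hS2 : ∑ j ∈ range (m + 1), v j = 0 := by
    have e : ∑ i ∈ range (m + 1), v i = ∑ i ∈ range (m + 1), ∑ j ∈ range (m + 1), v j :=
      Finset.sum_congr rfl hS
    rw [Finset.sum_const, Finset.card_range] at e
    have h4 : (m + 1) % 2 = 0 := by omega
    have h5 : ((m + 1 : ℕ) : ZMod 2) = 0 := by
      rw [ZMod.natCast_eq_zero_iff]; omega
    rw [nsmul_eq_mul, h5, zero_mul] at e
    exact e
  intro j hj
  rw [hS j hj, hS2]

lemma sys_p (h3 : p % 4 = 3) (m : ℕ) (hm : p = 2 * m + 1) (v : ℕ → ZMod p)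
    (hv : ∀ i ∈ range (m + 1),
      ∑ j ∈ range (m + 1), chi p (ZMod p) ((i : ZMod p) - (j : ZMod p)) * v j = 0) :
    ∀ j ∈ range (m + 1), v j = 0 := by
  have hp2 : p ≠ 2 := by rintro rfl; omega
  have hp : p.Prime := Fact.out
  have hchi : ∀ a : ZMod p, chi p (ZMod p) a = a ^ m := by
    intro a
    rw [chi_apply, quadraticChar_eq_pow_of_char_ne_two' (by rw [ZMod.ringChar_zmod_n]; exact hp2),
      ZMod.card]
    congr 1
    omega
  -- the polynomial `f(t) = ∑ v_j (t - j)^m` vanishes
  set f : (ZMod p)[X] := ∑ j ∈ range (m + 1), C (v j) * (X - C (j : ZMod p)) ^ m with hf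
  have hfdeg : f.natDegree ≤ m := by
    rw [hf]
    apply natDegree_sum_le_of_forall_le
    intro j _
    refine (natDegree_C_mul_le _ _).trans ?_
    rw [natDegree_pow, natDegree_X_sub_C, mul_one]
  have hinj : Set.InjOn (fun i : ℕ => (i : ZMod p)) (range (m + 1)) := by
    intro i hi j hj h
    rw [Finset.mem_coe, Finset.mem_range] at hi hj
    have := congrArg ZMod.val h
    simp only at this
    rwa [ZMod.val_natCast_of_lt (by omega), ZMod.val_natCast_of_lt (by omega)] at this
  have hf0 : f = 0 := by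
    apply eq_zero_of_natDegree_lt_card_of_eval_eq_zero' f
      ((range (m + 1)).image (fun i : ℕ => (i : ZMod p)))
    · intro x hx
      rw [Finset.mem_image] at hx
      obtain ⟨i, hi, rfl⟩ := hx
      have := hv i hi
      rw [hf, eval_finsetSum]
      rw [← this]
      apply Finset.sum_congr rfl
      intro j _
      rw [hchi]
      simp
      ring
    · rw [Finset.card_image_of_injOn hinj, Finset.card_range]; omega
  have hmom : ∀ s ∈ range (m + 1), ∑ j ∈ range (m + 1), v j * (j : ZMod p) ^ s = 0 := by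
    intro s hs
    rw [Finset.mem_range] at hs
    have h := congrArg (fun q => q.coeff (m - s)) hf0
    simp only [coeff_zero] at h
    rw [hf, finsetSum_coeff] at h
    have e : ∀ j ∈ range (m + 1), (C (v j) * (X - C (j : ZMod p)) ^ m).coeff (m - s) =
        ((-1) ^ s * (m.choose (m - s) : ZMod p)) * (v j * (j : ZMod p) ^ s) := by
      intro j _
      rw [coeff_C_mul, sub_eq_add_neg, ← C_neg, coeff_X_add_C_pow]
      have : m - (m - s) = s := by omega
      rw [this, neg_pow]
      ring
    rw [Finset.sum_congr rfl e, ← Finset.mul_sum] at h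
    rcases mul_eq_zero.mp h with h | h
    · exfalso
      rcases mul_eq_zero.mp h with h | h
      · exact pow_ne_zero s (by simp) h
      · rw [ZMod.natCast_eq_zero_iff] at h
        have h5 : m.choose (m - s) ∣ m.factorial := by
          have := Nat.choose_mul_factorial_mul_factorial (n := m) (k := m - s) (by omega)
          exact ⟨(m - s).factorial * (m - (m - s)).factorial, by rw [← this]; ring⟩
        have h6 := (hp.dvd_factorial).mp (h.trans h5)
        omega
    · exact h
  have hvan := Matrix.eq_zero_of_forall_pow_sum_mul_pow_eq_zero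
    (f := fun j : Fin (m + 1) => ((j : ℕ) : ZMod p)) (v := fun j : Fin (m + 1) => v j)
    (by
      intro i j h
      simp only at h
      have := congrArg ZMod.val h
      rw [ZMod.val_natCast_of_lt (by omega), ZMod.val_natCast_of_lt (by omega)] at this
      exact Fin.ext this)
    (by
      intro i
      have := hmom i (Finset.mem_range.mpr i.2)
      rw [← Fin.sum_univ_eq_sum_range (fun j => v j * (j : ZMod p) ^ (i : ℕ))] at this
      exact this)
  intro j hj
  rw [Finset.mem_range] at hj
  exact congrFun hvan ⟨j, hj⟩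

lemma sys_mod (h3 : p % 4 = 3) (m : ℕ) (hm : p = 2 * m + 1) (l : ℕ) [Fact l.Prime]
    (v : ℕ → ZMod l)
    (hv : ∀ i ∈ range (m + 1),
      ∑ j ∈ range (m + 1), chi p (ZMod l) ((i : ZMod p) - (j : ZMod p)) * v j = 0) :
    ∀ j ∈ range (m + 1), v j = 0 := by
  have hp : p.Prime := Fact.out
  have hl : l.Prime := Fact.out
  by_cases hl2 : l = 2
  · subst hl2
    exact sys_two h3 m hm v hv
  by_cases hlp : l = p
  · subst hlp
    exact sys_p h3 m hm v hv
  have h2 : (2 : ZMod l) ≠ 0 := by
    intro h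
    have : ((2 : ℕ) : ZMod l) = 0 := by exact_mod_cast h
    rw [ZMod.natCast_eq_zero_iff] at this
    exact hl2 ((Nat.prime_dvd_prime_iff_eq hl Nat.prime_two).mp this)
  have hpl : (p : ZMod l) ≠ 0 := by
    intro h
    rw [ZMod.natCast_eq_zero_iff] at h
    exact hlp ((Nat.prime_dvd_prime_iff_eq hl hp).mp h)
  exact (sys_field h3 m hm h2 hpl v 0 (by
    intro i hi; rw [hv i hi]; simp)).2 rfl

end modell

section final

variable {p : ℕ} [Fact p.Prime]

/-- The Toeplitz matrix of the quadratic character, of order `n`. -/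
noncomputable def T (p : ℕ) [Fact p.Prime] (R : Type*) [CommRing R] (n : ℕ) :
    Matrix (Fin n) (Fin n) R :=
  Matrix.of fun i j => ((quadraticChar (ZMod p) (((i : ℕ) : ZMod p) - ((j : ℕ) : ZMod p)) : ℤ) : R)

lemma T_map (R : Type*) [CommRing R] (n : ℕ) :
    (T p ℤ n).map (Int.castRingHom R) = T p R n := by
  ext i j; simp [T]

lemma det_cast (R : Type*) [CommRing R] (n : ℕ) :
    (((T p ℤ n).det : ℤ) : R) = (T p R n).det := by
  have h := (Int.castRingHom R).map_det (T p ℤ n)
  rw [RingHom.mapMatrix_apply, T_map] at h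
  exact h

/-- extension of a vector by zero -/
def ext {R : Type*} [Zero R] {n : ℕ} (v : Fin n → R) : ℕ → R :=
  fun j => if h : j < n then v ⟨j, h⟩ else 0

lemma ext_val {R : Type*} [Zero R] {n : ℕ} (v : Fin n → R) (j : Fin n) : ext v j = v j := by
  simp [ext]

lemma mulVec_eq {K : Type*} [Field K] (n : ℕ) (v : Fin n → K) (i : Fin n) :
    (T p K n).mulVec v i =
      ∑ j ∈ range n, chi p K (((i : ℕ) : ZMod p) - (j : ZMod p)) * ext v j := by
  rw [← Fin.sum_univ_eq_sum_range
    (fun j => chi p K (((i : ℕ) : ZMod p) - (j : ZMod p)) * ext v j)]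
  simp only [Matrix.mulVec, dotProduct, T, Matrix.of_apply]
  apply Finset.sum_congr rfl
  intro j _
  rw [ext_val, chi_apply]

/-- An integer matrix `T p ℤ n` whose reductions are all injective has determinant `±1`. -/
lemma det_unit (n : ℕ)
    (h : ∀ (l : ℕ) [Fact l.Prime] (v : ℕ → ZMod l),
      (∀ i ∈ range n, ∑ j ∈ range n,
        chi p (ZMod l) ((i : ZMod p) - (j : ZMod p)) * v j = 0) → ∀ j ∈ range n, v j = 0) :
    (T p ℤ n).det.natAbs = 1 := by
  rw [Nat.eq_one_iff_not_exists_prime_dvd]
  intro l hl hdvd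
  have : Fact l.Prime := ⟨hl⟩
  have h1 : (((T p ℤ n).det : ℤ) : ZMod l) = 0 := by
    rw [ZMod.intCast_zmod_eq_zero_iff_dvd]
    exact Int.natCast_dvd.mpr hdvd
  rw [det_cast] at h1
  obtain ⟨v, hv0, hv⟩ := Matrix.exists_mulVec_eq_zero_iff.mpr h1
  apply hv0
  have h2 := h l (ext v) (by
    intro i hi
    rw [Finset.mem_range] at hi
    have := congrFun hv ⟨i, hi⟩
    rw [mulVec_eq] at this
    exact this)
  funext j
  have := h2 j (Finset.mem_range.mpr j.2)
  rw [ext_val] at this
  exact this

/-- the bilinear form is skew. -/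
lemma skew {K : Type*} [Field K] (h3 : p % 4 = 3) (n : ℕ) (a b : ℕ → K) :
    ∑ i ∈ range n, a i * ∑ j ∈ range n, chi p K ((i : ZMod p) - (j : ZMod p)) * b j =
    - ∑ j ∈ range n, b j * ∑ i ∈ range n, chi p K ((j : ZMod p) - (i : ZMod p)) * a i := by
  simp only [Finset.mul_sum]
  rw [Finset.sum_comm, ← Finset.sum_neg_distrib]
  apply Finset.sum_congr rfl
  intro j _
  rw [← Finset.sum_neg_distrib]
  apply Finset.sum_congr rfl
  intro i _
  rw [← neg_sub (i : ZMod p) (j : ZMod p), chi_neg h3]
  ring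

/-- There is an integer vector `x` with `T x = e₀`, `x₀ = 0`, `x_m = ± 1`. -/
lemma exists_x (h3 : p % 4 = 3) (m : ℕ) (hm : p = 2 * m + 1) :
    ∃ x : ℕ → ℤ, (∀ i ∈ range (m + 1),
      ∑ j ∈ range (m + 1),
        (quadraticChar (ZMod p) ((i : ZMod p) - (j : ZMod p)) : ℤ) * x j = if i = 0 then 1 else 0) ∧
      x 0 = 0 ∧ (x m = 1 ∨ x m = -1) := by
  have hp2 : p ≠ 2 := by rintro rfl; omega
  have hdet : IsUnit (T p ℤ (m + 1)).det := by
    rw [Int.isUnit_iff_natAbs_eq]
    exact det_unit (m + 1) (fun l _ v hv => sys_mod h3 m hm l v hv)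
  set xx : Fin (m + 1) → ℤ := (T p ℤ (m + 1))⁻¹.mulVec (Pi.single 0 1) with hxx
  have hTx : (T p ℤ (m + 1)).mulVec xx = Pi.single 0 1 := by
    rw [hxx, Matrix.mulVec_mulVec, Matrix.mul_nonsing_inv _ hdet, Matrix.one_mulVec]
  have hsys : ∀ i ∈ range (m + 1),
      ∑ j ∈ range (m + 1),
        (quadraticChar (ZMod p) ((i : ZMod p) - (j : ZMod p)) : ℤ) * ext xx j =
        if i = 0 then 1 else 0 := by
    intro i hi
    rw [Finset.mem_range] at hi
    have h := congrFun hTx ⟨i, hi⟩
    rw [← Fin.sum_univ_eq_sum_range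
      (fun j => (quadraticChar (ZMod p) ((i : ZMod p) - (j : ZMod p)) : ℤ) * ext xx j)]
    simp only [Matrix.mulVec, dotProduct, T, Matrix.of_apply, Int.cast_id] at h
    simp only [ext_val]
    rw [h, Pi.single_apply]
    simp [Fin.ext_iff]
  have hQ : ∀ i ∈ range (m + 1),
      ∑ j ∈ range (m + 1), chi p ℚ ((i : ZMod p) - (j : ZMod p)) * ((ext xx j : ℤ) : ℚ) =
        if i = 0 then 1 else 0 := by
    intro i hi
    have := congrArg (Int.cast : ℤ → ℚ) (hsys i hi)
    push_cast at this
    exact this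
  have h2Q : (2 : ℚ) ≠ 0 := by norm_num
  have hpQ : (p : ℚ) ≠ 0 := by
    exact_mod_cast (Fact.out : p.Prime).ne_zero
  have hxm := (sys_field (F := ℚ) h3 m hm h2Q hpQ (fun j => ((ext xx j : ℤ) : ℚ)) 1 hQ).1
  refine ⟨ext xx, hsys, ?_, ?_⟩
  · have hsk := skew (K := ℚ) h3 (m + 1) (fun j => ((ext xx j : ℤ) : ℚ)) (fun j => ((ext xx j : ℤ) : ℚ))
    have e1 : ∑ i ∈ range (m + 1), ((ext xx i : ℤ) : ℚ) *
        ∑ j ∈ range (m + 1), chi p ℚ ((i : ZMod p) - (j : ZMod p)) * ((ext xx j : ℤ) : ℚ) =
        ((ext xx 0 : ℤ) : ℚ) := by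
      rw [Finset.sum_congr rfl (fun i hi => by rw [hQ i hi])]
      simp
    rw [e1] at hsk
    have : ((ext xx 0 : ℤ) : ℚ) = 0 := by linarith
    exact_mod_cast this
  · have h6 : (2 : ZMod p) ≠ 0 := by
      intro h
      have : ((2 : ℕ) : ZMod p) = 0 := by exact_mod_cast h
      rw [ZMod.natCast_eq_zero_iff] at this
      exact hp2 ((Nat.prime_dvd_prime_iff_eq (Fact.out : p.Prime) Nat.prime_two).mp this)
    rw [mul_one, chi_apply] at hxm
    have hxm' : ext xx m = quadraticChar (ZMod p) 2 := by exact_mod_cast hxm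
    rw [hxm']
    exact quadraticChar_dichotomy h6

/-- injectivity of the middle block modulo every prime -/
lemma mid_mod (h3 : p % 4 = 3) (m : ℕ) (hm : p = 2 * m + 1) (hm1 : 1 ≤ m) (l : ℕ) [Fact l.Prime]
    (u : ℕ → ZMod l)
    (hu : ∀ i ∈ range (m - 1),
      ∑ j ∈ range (m - 1), chi p (ZMod l) ((i : ZMod p) - (j : ZMod p)) * u j = 0) :
    ∀ j ∈ range (m - 1), u j = 0 := by
  obtain ⟨x, hx, hx0, hxm⟩ := exists_x h3 m hm
  have hxl : ∀ i ∈ range (m + 1),
      ∑ j ∈ range (m + 1), chi p (ZMod l) ((i : ZMod p) - (j : ZMod p)) * (x j : ZMod l) =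
        if i = 0 then 1 else 0 := by
    intro i hi
    have := congrArg (Int.cast : ℤ → ZMod l) (hx i hi)
    push_cast at this
    exact this
  have hxm0 : (x m : ZMod l) ≠ 0 := by
    rcases hxm with h | h <;> rw [h] <;> simp
  set w : ℕ → ZMod l := fun j => if j = 0 ∨ j = m then 0 else u (j - 1) with hw
  have hw0 : w 0 = 0 := by simp [hw]
  have hwm : w m = 0 := by simp [hw]
  obtain ⟨r, rfl⟩ : ∃ r, m = r + 1 := ⟨m - 1, by omega⟩
  have hsum : ∀ g : ℕ → ZMod l, ∑ j ∈ range (r + 1 + 1), g j * w j =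
      ∑ j ∈ range r, g (j + 1) * u j := by
    intro g
    rw [Finset.sum_range_succ, hwm, mul_zero, add_zero, Finset.sum_range_succ', hw0, mul_zero,
      add_zero]
    apply Finset.sum_congr rfl
    intro j hj
    rw [Finset.mem_range] at hj
    rw [hw]
    simp only
    rw [if_neg (by omega)]
    simp
  have hmid : ∀ i ∈ range r,
      ∑ j ∈ range (r + 1 + 1), chi p (ZMod l) (((i + 1 : ℕ) : ZMod p) - (j : ZMod p)) * w j = 0 := by
    intro i hi
    rw [hsum]
    have := hu i (by simpa using hi)
    rw [← this]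
    apply Finset.sum_congr (by simp)
    intro j _
    congr 2
    push_cast
    ring
  set α := ∑ j ∈ range (r + 1 + 1), chi p (ZMod l) (((0 : ℕ) : ZMod p) - (j : ZMod p)) * w j with hα
  set β := ∑ j ∈ range (r + 1 + 1),
    chi p (ZMod l) (((r + 1 : ℕ) : ZMod p) - (j : ZMod p)) * w j with hβ
  have hsk := skew (K := ZMod l) h3 (r + 1 + 1) (fun j => (x j : ZMod l)) w
  have e1 : ∑ i ∈ range (r + 1 + 1), (x i : ZMod l) *
      ∑ j ∈ range (r + 1 + 1), chi p (ZMod l) ((i : ZMod p) - (j : ZMod p)) * w j =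
      (x (r + 1) : ZMod l) * β := by
    rw [Finset.sum_range_succ, Finset.sum_range_succ', hx0]
    rw [Finset.sum_eq_zero]
    · simp [hβ]
    · intro i hi
      rw [hmid i hi, mul_zero]
  have e2 : ∑ j ∈ range (r + 1 + 1), w j *
      ∑ i ∈ range (r + 1 + 1), chi p (ZMod l) ((j : ZMod p) - (i : ZMod p)) * (x i : ZMod l) = 0 := by
    rw [Finset.sum_congr rfl (fun i hi => by rw [hxl i hi])]
    simp [hw0]
  rw [e1, e2, neg_zero] at hsk
  have hβ0 : β = 0 := by
    rcases mul_eq_zero.mp hsk with h | h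
    · exact absurd h hxm0
    · exact h
  have hfin := sys_mod h3 (r + 1) hm l (fun j => w j - α * (x j : ZMod l)) (by
    intro i hi
    have e3 : ∑ j ∈ range (r + 1 + 1), chi p (ZMod l) ((i : ZMod p) - (j : ZMod p)) *
        (w j - α * (x j : ZMod l)) =
        ∑ j ∈ range (r + 1 + 1), chi p (ZMod l) ((i : ZMod p) - (j : ZMod p)) * w j
        - α * ∑ j ∈ range (r + 1 + 1), chi p (ZMod l) ((i : ZMod p) - (j : ZMod p)) *
          (x j : ZMod l) := by
      rw [Finset.mul_sum, ← Finset.sum_sub_distrib]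
      apply Finset.sum_congr rfl
      intro j _
      ring
    rw [e3, hxl i hi]
    rw [Finset.mem_range] at hi
    by_cases hi0 : i = 0
    · subst hi0
      rw [← hα]; simp
    by_cases him : i = r + 1
    · subst him
      rw [← hβ, hβ0]; simp
    · obtain ⟨i', rfl⟩ : ∃ i', i = i' + 1 := ⟨i - 1, by omega⟩
      rw [hmid i' (by rw [Finset.mem_range]; omega)]
      simp)
  have hα0 : α = 0 := by
    have := hfin (r + 1) (by simp)
    rw [hwm, zero_sub, neg_eq_zero] at this
    rcases mul_eq_zero.mp this with h | h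
    · exact h
    · exact absurd h hxm0
  intro j hj
  rw [Finset.mem_range] at hj
  have := hfin (j + 1) (by rw [Finset.mem_range]; omega)
  rw [hα0, zero_mul, sub_zero, hw] at this
  simp only at this
  rw [if_neg (by omega)] at this
  simpa using this

/-- A real skew-symmetric matrix has nonnegative determinant. -/
lemma det_skew_nonneg {n : ℕ} (A : Matrix (Fin n) (Fin n) ℝ) (hA : A.transpose = -A) :
    0 ≤ A.det := by
  by_contra hneg
  rw [not_le] at hneg
  set g : ℝ → ℝ := fun s => ((1 - s) • (1 : Matrix (Fin n) (Fin n) ℝ) + s • A).det with hg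
  have hcont : Continuous g := by
    apply Continuous.matrix_det
    fun_prop
  have h0 : g 0 = 1 := by simp [hg]
  have h1 : g 1 = A.det := by simp [hg]
  have hivt := intermediate_value_Icc' (zero_le_one) (hcont.continuousOn (s := Set.Icc 0 1))
  have hmem : (0 : ℝ) ∈ Set.Icc (g 1) (g 0) := by
    rw [h0, h1]; exact ⟨hneg.le, zero_le_one⟩
  obtain ⟨s, ⟨hs0, hs1⟩, hs⟩ := hivt hmem
  have hs1' : s < 1 := by
    rcases lt_or_eq_of_le hs1 with h | h
    · exact h
    · exfalso; rw [h, h1] at hs; exact hneg.ne hs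
  obtain ⟨v, hv0, hv⟩ := Matrix.exists_mulVec_eq_zero_iff.mpr hs
  have hdot : dotProduct v (((1 - s) • (1 : Matrix (Fin n) (Fin n) ℝ) + s • A).mulVec v) = 0 := by
    rw [hv]; simp
  rw [Matrix.add_mulVec, Matrix.smul_mulVec, Matrix.smul_mulVec, Matrix.one_mulVec,
    dotProduct_add, dotProduct_smul, dotProduct_smul] at hdot
  have hsk : dotProduct v (A.mulVec v) = 0 := by
    have e1 : dotProduct v (A.mulVec v) = dotProduct (A.transpose.mulVec v) v := by
      rw [Matrix.mulVec_transpose, Matrix.dotProduct_mulVec]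
    rw [hA, Matrix.neg_mulVec, neg_dotProduct, dotProduct_comm (A.mulVec v) v] at e1
    linarith
  rw [hsk] at hdot
  simp only [smul_eq_mul, mul_zero, add_zero] at hdot
  have : dotProduct v v = 0 := by
    rcases mul_eq_zero.mp hdot with h | h
    · linarith
    · exact h
  exact hv0 (dotProduct_self_eq_zero.mp this)

theorem chapman (p : ℕ) [Fact (Nat.Prime p)] (h5 : 5 ≤ p) (h3 : p % 4 = 3) :
    Matrix.det (Matrix.of (fun j k : Fin ((p - 3) / 2) =>
        legendreSym p (((j : ℕ) : ℤ) - ((k : ℕ) : ℤ)))) = 1 := by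
  have hM : Matrix.of (fun j k : Fin ((p - 3) / 2) =>
      legendreSym p (((j : ℕ) : ℤ) - ((k : ℕ) : ℤ))) = T p ℤ ((p - 3) / 2) := by
    ext j k
    simp [T, legendreSym]
  rw [hM]
  obtain ⟨m, hm⟩ : ∃ m, p = 2 * m + 1 := ⟨p / 2, by omega⟩
  have hn : (p - 3) / 2 = m - 1 := by omega
  rw [hn]
  have habs : (T p ℤ (m - 1)).det.natAbs = 1 :=
    det_unit (m - 1) (fun l _ v hv => mid_mod h3 m hm (by omega) l v hv)
  have hnn : 0 ≤ (T p ℤ (m - 1)).det := by
    have h := det_skew_nonneg (T p ℝ (m - 1)) (by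
      ext i j
      have := chi_neg (K := ℝ) h3 (((i : ℕ) : ZMod p) - ((j : ℕ) : ZMod p))
      rw [neg_sub, chi_apply, chi_apply] at this
      simpa [T] using this)
    rw [← det_cast] at h
    exact_mod_cast h
  omega

end final

end Pool.Agent.Helper184.Chapman
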