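import Mathlib

/-!
# A Gurariy type space: elementary estimates

Sequences with `x k = (x (a k) + x (b k)) / 2` for all large `k`, where every pair occurs
infinitely often as `(a k, b k)`.
-/

set_option autoImplicit false

namespace Pool.Agent.Helper184.Gur

/-- first parent of `k` -/
def a (k : ℕ) : ℕ := (Nat.unpair (Nat.unpair k).1).1

/-- second parent of `k` -/
def b (k : ℕ) : ℕ := (Nat.unpair (Nat.unpair k).1).2

lemma a_lt {k : ℕ} (hk : 1 ≤ k) : a k < k :=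
  lt_of_le_of_lt (Nat.unpair_left_le _) (Nat.unpair_lt hk)

lemma b_lt {k : ℕ} (hk : 1 ≤ k) : b k < k :=
  lt_of_le_of_lt (Nat.unpair_right_le _) (Nat.unpair_lt hk)

lemma exists_ab (p q N : ℕ) : ∃ k, N ≤ k ∧ a k = p ∧ b k = q :=
  ⟨Nat.pair (Nat.pair p q) N, Nat.right_le_pair _ _, by simp [a], by simp [b]⟩

section Abstract

variable {X : Type*} [NormedAddCommGroup X] [NormedSpace ℝ X]

/-- from `n` on every coordinate is the average of the two parent coordinates -/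
def Rec (co : ℕ → X →L[ℝ] ℝ) (n : ℕ) (x : X) : Prop :=
  ∀ i, n ≤ i → co i x = (co (a i) x + co (b i) x) / 2

lemma Rec.mono {co : ℕ → X →L[ℝ] ℝ} {n n' : ℕ} {x : X} (h : Rec co n x) (hn : n ≤ n') :
    Rec co n' x := fun i hi => h i (hn.trans hi)

lemma Rec.add {co : ℕ → X →L[ℝ] ℝ} {n : ℕ} {x y : X} (h : Rec co n x) (h' : Rec co n y) :
    Rec co n (x + y) := fun i hi => by
  simp only [map_add]; rw [h i hi, h' i hi]; ring

lemma Rec.smul {co : ℕ → X →L[ℝ] ℝ} {n : ℕ} {x : X} (h : Rec co n x) (t : ℝ) :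
    Rec co n (t • x) := fun i hi => by
  simp only [map_smul, smul_eq_mul]; rw [h i hi]; ring

lemma Rec.neg {co : ℕ → X →L[ℝ] ℝ} {n : ℕ} {x : X} (h : Rec co n x) :
    Rec co n (-x) := fun i hi => by
  simp only [map_neg]; rw [h i hi]; ring

lemma Rec.zero {co : ℕ → X →L[ℝ] ℝ} {n : ℕ} : Rec co n (0 : X) := fun i _ => by
  simp

/-- the properties of the space that are used -/
structure IsG (co : ℕ → X →L[ℝ] ℝ) (z : ℕ → X) : Prop where
  norm_le : ∀ (x : X) (C : ℝ), 0 ≤ C → (∀ i, |co i x| ≤ C) → ‖x‖ ≤ C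
  le_norm : ∀ (x : X) (i : ℕ), |co i x| ≤ ‖x‖
  dense : ∀ (x : X) (δ : ℝ), 0 < δ → ∃ (w : X) (n : ℕ), Rec co n w ∧ ‖x - w‖ ≤ δ
  z_lt : ∀ k i, i < k → co i (z k) = 0
  z_self : ∀ k, co k (z k) = 1
  z_rec : ∀ k, Rec co (k + 1) (z k)

variable {co : ℕ → X →L[ℝ] ℝ} {z : ℕ → X}

lemma abs_le_of_rec {n : ℕ} (hn : 1 ≤ n) {x : X} (h : Rec co n x) {C : ℝ}
    (hC : ∀ i, i < n → |co i x| ≤ C) : ∀ i, |co i x| ≤ C := by
  intro i
  induction i using Nat.strong_induction_on with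
  | _ i ih =>
    rcases lt_or_ge i n with hi | hi
    · exact hC i hi
    · rw [h i hi]
      have h1 := ih (a i) (a_lt (hn.trans hi))
      have h2 := ih (b i) (b_lt (hn.trans hi))
      rw [abs_le] at h1 h2 ⊢
      constructor <;> linarith [h1.1, h1.2, h2.1, h2.2]

/-- the norm after adding a multiple of a bump -/
lemma IsG.norm_add_bump (G : IsG co z) {k : ℕ} {x : X} (hx : Rec co k x)
    {C : ℝ} (hC : ‖x‖ ≤ C) {t : ℝ} (ht : |co k x + t| ≤ C) : ‖x + t • z k‖ ≤ C := by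
  apply G.norm_le _ _ ((norm_nonneg _).trans hC)
  apply abs_le_of_rec (n := k + 1) (Nat.le_add_left 1 k)
    ((hx.mono (Nat.le_succ k)).add ((G.z_rec k).smul t))
  intro i hi
  rcases Nat.lt_succ_iff_lt_or_eq.1 hi with hi' | rfl
  · simp only [map_add, map_smul, smul_eq_mul, G.z_lt k i hi', mul_zero, add_zero]
    exact (G.le_norm x i).trans hC
  · simp only [map_add, map_smul, smul_eq_mul, G.z_self, mul_one]
    exact ht

/-- almost recursion for all elements -/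
lemma IsG.almost (G : IsG co z) (x : X) {δ : ℝ} (hδ : 0 < δ) :
    ∃ n, ∀ i, n ≤ i → |co i x - (co (a i) x + co (b i) x) / 2| ≤ δ := by
  obtain ⟨w, n, hw, hxw⟩ := G.dense x (δ / 2) (by positivity)
  refine ⟨n, fun i hi => ?_⟩
  have h0 := hw i hi
  have h1 := (G.le_norm (x - w) i).trans hxw
  have h2 := (G.le_norm (x - w) (a i)).trans hxw
  have h3 := (G.le_norm (x - w) (b i)).trans hxw
  simp only [map_sub] at h1 h2 h3
  rw [abs_le] at h1 h2 h3 ⊢
  constructor <;> linarith [h1.1, h1.2, h2.1, h2.2, h3.1, h3.2]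

end Abstract

end Pool.Agent.Helper184.Gur
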