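import Pool.Agent.Helper184.GurTree

set_option autoImplicit false

namespace Pool.Agent.Helper184.Gur

section Main

variable {X : Type*} [NormedAddCommGroup X] [NormedSpace ℝ X]
variable {co : ℕ → X →L[ℝ] ℝ} {z : ℕ → X}

/-- `H` bounds the numerical radius of `x ↦ A x x`. -/
def Bound (A : X →L[ℝ] X →L[ℝ] X) (c : ℝ) : Prop :=
  ∀ (x : X) (f : X →L[ℝ] ℝ), ‖x‖ = 1 → ‖f‖ = 1 → f x = 1 → |f (A x x)| ≤ c

lemma upper (G : IsG co z) {A : X →L[ℝ] X →L[ℝ] X} {c : ℝ} (H : Bound A c) {x₀ : X} {n : ℕ}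
    (hx : Rec co n x₀) (hx1 : ‖x₀‖ ≤ 1) (j : ℕ) : co j (A x₀ x₀) ≤ c := by
  apply le_of_forall_pos_le_add
  intro η' hη'
  obtain ⟨η, hη, rfl⟩ : ∃ η : ℝ, 0 < η ∧ 6 * η = η' := ⟨η' / 6, by positivity, by ring⟩
  obtain ⟨w, n', hw, hwd⟩ := G.dense (A x₀ x₀) η hη
  obtain ⟨k, hk, hev, hq⟩ := exists_good G A (j := j) (m := max (max n n') (j + 1))
    (lt_of_lt_of_le (Nat.lt_succ_self j) (le_max_right _ _)) hη
  have hnk : n ≤ k := ((le_max_left _ _).trans (le_max_left _ _)).trans hk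
  have hw' : co k w = co j w :=
    hev w (hw.mono ((le_max_right _ _).trans (le_max_left _ _)))
  have e1 := (G.le_norm (A x₀ x₀ - w) k).trans hwd
  have e2 := (G.le_norm (A x₀ x₀ - w) j).trans hwd
  simp only [map_sub] at e1 e2
  rw [abs_le] at e1 e2
  have ha := (G.le_norm x₀ k).trans hx1
  obtain ⟨l, s, hs, hl, hlc, hl2⟩ : ∃ l s : ℝ, (s = 1 ∨ s = -1) ∧ co k x₀ + l = s ∧
      0 ≤ l * (co k (A x₀ (z k)) + co k (A (z k) x₀)) ∧ l ^ 2 ≤ 4 := by
    rw [abs_le] at ha
    rcases le_total 0 (co k (A x₀ (z k)) + co k (A (z k) x₀)) with hc | hc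
    · refine ⟨1 - co k x₀, 1, Or.inl rfl, by ring, mul_nonneg (by linarith) hc, ?_⟩
      nlinarith [ha.1, ha.2]
    · refine ⟨-1 - co k x₀, -1, Or.inr rfl, by ring, mul_nonneg_of_nonpos_of_nonpos (by linarith) hc, ?_⟩
      nlinarith [ha.1, ha.2]
  have hss : s * s = 1 := by rcases hs with rfl | rfl <;> norm_num
  have habs : |s| = 1 := by rcases hs with rfl | rfl <;> norm_num
  set x' := x₀ + l • z k with hx'
  have hcx : co k x' = s := by
    rw [hx', map_add, map_smul, G.z_self, smul_eq_mul, mul_one, hl]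
  have hn1 : ‖x'‖ ≤ 1 := G.norm_add_bump (hx.mono hnk) hx1 (by rw [hl, habs])
  have hn2 : 1 ≤ ‖x'‖ := by
    have := G.le_norm x' k
    rwa [hcx, habs] at this
  have hn : ‖x'‖ = 1 := le_antisymm hn1 hn2
  have hf1 : ‖s • co k‖ ≤ 1 := by
    apply ContinuousLinearMap.opNorm_le_bound _ zero_le_one
    intro y
    rw [one_mul, _root_.smul_apply, norm_smul, Real.norm_eq_abs, Real.norm_eq_abs, habs, one_mul]
    exact G.le_norm y k
  have hfx : (s • co k) x' = 1 := by
    rw [_root_.smul_apply, hcx, smul_eq_mul, hss]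
  have hf2 : 1 ≤ ‖s • co k‖ := by
    have := (s • co k).le_opNorm x'
    rw [hfx, hn, mul_one] at this
    simpa using this
  have hH := H x' (s • co k) hn (le_antisymm hf1 hf2) hfx
  rw [_root_.smul_apply, smul_eq_mul, abs_mul, habs, one_mul] at hH
  have hval : co k (A x' x') = co k (A x₀ x₀) +
      l * (co k (A x₀ (z k)) + co k (A (z k) x₀)) + l ^ 2 * co k (A (z k) (z k)) := by
    rw [hx', quad_add, quad_smul, cross_smul]
  have h1 : -(4 * η) ≤ l ^ 2 * co k (A (z k) (z k)) := by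
    nlinarith [sq_nonneg l]
  have h2 := le_abs_self (co k (A x' x'))
  linarith [e1.1, e1.2, e2.1, e2.2]

lemma Bound.neg {A : X →L[ℝ] X →L[ℝ] X} {c : ℝ} (H : Bound A c) : Bound (-A) c := by
  intro x f h1 h2 h3
  have := H x f h1 h2 h3
  simpa using this

lemma norm_le_of_rec (G : IsG co z) {A : X →L[ℝ] X →L[ℝ] X} {c : ℝ} (H : Bound A c) {x₀ : X} {n : ℕ}
    (hx : Rec co n x₀) (hx1 : ‖x₀‖ ≤ 1) : ‖A x₀ x₀‖ ≤ c := by
  have h1 : ∀ j, co j (A x₀ x₀) ≤ c := upper G H hx hx1
  have h2 : ∀ j, -co j (A x₀ x₀) ≤ c := by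
    intro j
    have := upper G H.neg hx hx1 j
    simpa using this
  apply G.norm_le _ _ (by linarith [h1 0, h2 0])
  intro i
  rw [abs_le]
  constructor <;> linarith [h1 i, h2 i]

theorem main (G : IsG co z) {A : X →L[ℝ] X →L[ℝ] X} {c : ℝ} (H : Bound A c) (x : X)
    (hx : ‖x‖ ≤ 1) : ‖A x x‖ ≤ c := by
  have hc : 0 ≤ c := (norm_nonneg _).trans
    (norm_le_of_rec G H (x₀ := 0) (n := 0) Rec.zero (by simp))
  have h1 : ∀ (w : X) (n : ℕ), Rec co n w → ‖A w w‖ ≤ c * ‖w‖ ^ 2 := by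
    intro w n hw
    rcases eq_or_ne w 0 with rfl | hw0
    · simp
    · have hpos : 0 < ‖w‖ := norm_pos_iff.2 hw0
      have := norm_le_of_rec G H (hw.smul ‖w‖⁻¹) (by
        rw [norm_smul, norm_inv, norm_norm, inv_mul_cancel₀ hpos.ne'])
      simp only [map_smul, _root_.smul_apply, norm_smul, norm_inv, norm_norm] at this
      have h3 : ‖A w w‖ = ‖w‖ ^ 2 * (‖w‖⁻¹ * (‖w‖⁻¹ * ‖A w w‖)) := by
        field_simp
      rw [h3, mul_comm c]
      exact mul_le_mul_of_nonneg_left this (by positivity)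
  have h2 : ∀ y : X, ‖A y y‖ ≤ c * ‖y‖ ^ 2 := by
    have hd : Dense {w : X | ∃ n, Rec co n w} := by
      rw [Metric.dense_iff]
      intro y r hr
      obtain ⟨w, n, hw, hwd⟩ := G.dense y (r / 2) (by positivity)
      refine ⟨w, ?_, n, hw⟩
      rw [Metric.mem_ball, dist_comm, dist_eq_norm]
      linarith
    have hcl : IsClosed {y : X | ‖A y y‖ ≤ c * ‖y‖ ^ 2} := by
      apply isClosed_le
      · exact (A.continuous.clm_apply continuous_id).norm
      · fun_prop
    intro y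
    have : closure {w : X | ∃ n, Rec co n w} ⊆ {y : X | ‖A y y‖ ≤ c * ‖y‖ ^ 2} :=
      hcl.closure_subset_iff.2 fun w ⟨n, hw⟩ => h1 w n hw
    exact this (hd y)
  calc ‖A x x‖ ≤ c * ‖x‖ ^ 2 := h2 x
    _ ≤ c * 1 ^ 2 := by gcongr
    _ = c := by ring

end Main

section Concrete

open BoundedContinuousFunction

/-- bounded sequences which from some index on follow the averaging rule -/
def S : Submodule ℝ (ℕ →ᵇ ℝ) where
  carrier := {x | ∃ n, ∀ i, n ≤ i → x i = (x (a i) + x (b i)) / 2}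
  zero_mem' := ⟨0, by simp⟩
  add_mem' := by
    rintro x y ⟨n, hx⟩ ⟨m, hy⟩
    refine ⟨max n m, fun i hi => ?_⟩
    simp only [BoundedContinuousFunction.coe_add, Pi.add_apply]
    rw [hx i ((le_max_left _ _).trans hi), hy i ((le_max_right _ _).trans hi)]
    ring
  smul_mem' := by
    rintro t x ⟨n, hx⟩
    refine ⟨n, fun i hi => ?_⟩
    simp only [BoundedContinuousFunction.coe_smul, smul_eq_mul]
    rw [hx i hi]
    ring

/-- the space -/
abbrev GX : Type := S.topologicalClosure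

/-- coordinates -/
noncomputable def coord (i : ℕ) : GX →L[ℝ] ℝ :=
  (BoundedContinuousFunction.evalCLM ℝ i).comp S.topologicalClosure.subtypeL

lemma coord_apply (i : ℕ) (x : GX) : coord i x = (x : ℕ →ᵇ ℝ) i := rfl

/-- values of the bump at `k` -/
noncomputable def bumpFun (k : ℕ) (i : ℕ) : ℝ :=
  if h : k < i then (bumpFun k (a i) + bumpFun k (b i)) / 2 else if i = k then 1 else 0
termination_by i
decreasing_by
  · exact a_lt (by omega)
  · exact b_lt (by omega)

lemma bumpFun_lt {k i : ℕ} (h : i < k) : bumpFun k i = 0 := by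
  rw [bumpFun, dif_neg (by omega), if_neg (by omega)]

lemma bumpFun_self (k : ℕ) : bumpFun k k = 1 := by
  rw [bumpFun, dif_neg (by omega), if_pos rfl]

lemma bumpFun_gt {k i : ℕ} (h : k < i) :
    bumpFun k i = (bumpFun k (a i) + bumpFun k (b i)) / 2 := by
  rw [bumpFun, dif_pos h]

lemma abs_bumpFun_le (k i : ℕ) : |bumpFun k i| ≤ 1 := by
  induction i using Nat.strong_induction_on with
  | _ i ih =>
    rcases lt_trichotomy i k with h | rfl | h
    · rw [bumpFun_lt h]; simp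
    · rw [bumpFun_self]; simp
    · rw [bumpFun_gt h]
      have h1 := ih (a i) (a_lt (by omega))
      have h2 := ih (b i) (b_lt (by omega))
      rw [abs_le] at h1 h2 ⊢
      constructor <;> linarith [h1.1, h1.2, h2.1, h2.2]

/-- the bump as a bounded sequence -/
noncomputable def bumpB (k : ℕ) : ℕ →ᵇ ℝ :=
  BoundedContinuousFunction.ofNormedAddCommGroupDiscrete (bumpFun k) 1
    (fun i => by rw [Real.norm_eq_abs]; exact abs_bumpFun_le k i)

lemma bumpB_apply (k i : ℕ) : bumpB k i = bumpFun k i := rfl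

/-- the bump in the space -/
noncomputable def bump (k : ℕ) : GX :=
  ⟨bumpB k, S.le_topologicalClosure ⟨k + 1, fun i hi => by
    simp only [bumpB_apply]; exact bumpFun_gt (by omega)⟩⟩

lemma coord_bump (k i : ℕ) : coord i (bump k) = bumpFun k i := rfl

theorem isG : IsG coord bump where
  norm_le := by
    intro x C hC h
    rw [Submodule.coe_norm, BoundedContinuousFunction.norm_le hC]
    intro i
    rw [Real.norm_eq_abs]
    exact h i
  le_norm := by
    intro x i
    rw [Submodule.coe_norm, coord_apply, ← Real.norm_eq_abs]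
    exact BoundedContinuousFunction.norm_coe_le_norm _ i
  dense := by
    intro x δ hδ
    have hx : (x : ℕ →ᵇ ℝ) ∈ closure (S : Set (ℕ →ᵇ ℝ)) := by
      rw [← Submodule.topologicalClosure_coe]
      exact x.2
    obtain ⟨y, ⟨n, hy⟩, hxy⟩ := Metric.mem_closure_iff.1 hx δ hδ
    refine ⟨⟨y, S.le_topologicalClosure ⟨n, hy⟩⟩, n, hy, ?_⟩
    rw [dist_eq_norm] at hxy
    exact hxy.le
  z_lt := fun k i hi => bumpFun_lt hi
  z_self := fun k => bumpFun_self k
  z_rec := fun k i hi => bumpFun_gt (by omega)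

theorem rank_gt : 1 < Module.rank ℝ GX := by
  have hli : LinearIndependent ℝ ![bump 1, bump 2] := by
    refine (LinearIndependent.pair_iff (R := ℝ) (M := GX) (x := bump 1) (y := bump 2)).2 ?_
    intro s t hst
    have h1 := congrArg (coord 1) hst
    have h2 := congrArg (coord 2) hst
    simp only [map_add, map_smul, smul_eq_mul, map_zero, coord_bump, bumpFun_self] at h1 h2
    rw [bumpFun_lt (by norm_num : 1 < 2)] at h1
    have hs : s = 0 := by linarith
    subst hs
    exact ⟨rfl, by linarith⟩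
  have := hli.cardinal_le_rank
  rw [Cardinal.mk_fin] at this
  refine lt_of_lt_of_le ?_ this
  norm_num

end Concrete

end Pool.Agent.Helper184.Gur
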