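import Pool.Agent.Helper184.Gur

set_option autoImplicit false

namespace Pool.Agent.Helper184.Gur

section Pair

/-- two indices with small mutual interaction -/
lemma exists_pair (I : ℕ → ℕ → ℝ) (C δ : ℝ) (hδ : 0 < δ) (h0 : ∀ u v, 0 ≤ I u v)
    (hC : ∀ N u, ∑ v ∈ Finset.range N, I u v ≤ C) :
    ∃ u v, u < v ∧ I u v ≤ δ ∧ I v u ≤ δ := by
  by_contra hcon
  push Not at hcon
  have hsum : ∀ u v, u ≠ v → δ ≤ I u v + I v u := by
    intro u v huv
    rcases lt_or_gt_of_ne huv with h | h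
    · by_cases h1 : I u v ≤ δ
      · have := hcon u v h h1
        linarith [h0 u v]
      · push Not at h1
        linarith [h0 v u]
    · by_cases h1 : I v u ≤ δ
      · have := hcon v u h h1
        linarith [h0 v u]
      · push Not at h1
        linarith [h0 u v]
  obtain ⟨N, hN⟩ := exists_nat_gt (2 * C / δ + 1)
  have hN' : 2 * C < ((N : ℝ) - 1) * δ := by
    have : 2 * C / δ < (N : ℝ) - 1 := by linarith
    rwa [div_lt_iff₀ hδ] at this
  have hC0 : 0 ≤ C := le_trans (by simp) (hC 0 0)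
  have hN1 : 1 ≤ N := by
    by_contra h
    have : N = 0 := by omega
    subst this
    have : 0 ≤ 2 * C / δ := by positivity
    norm_num at hN
    linarith
  have h1 : ∑ u ∈ Finset.range N, ∑ v ∈ Finset.range N, I u v ≤ N * C := by
    calc ∑ u ∈ Finset.range N, ∑ v ∈ Finset.range N, I u v
        ≤ ∑ u ∈ Finset.range N, C := Finset.sum_le_sum fun u _ => hC N u
      _ = N * C := by simp
  have h2 : ∑ u ∈ Finset.range N, ∑ v ∈ Finset.range N, (I u v + I v u)
      = 2 * ∑ u ∈ Finset.range N, ∑ v ∈ Finset.range N, I u v := by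
    simp only [Finset.sum_add_distrib]
    rw [Finset.sum_comm (f := fun u v => I v u)]
    ring
  have h3 : (N : ℝ) * (((N : ℝ) - 1) * δ)
      ≤ ∑ u ∈ Finset.range N, ∑ v ∈ Finset.range N, (I u v + I v u) := by
    calc (N : ℝ) * (((N : ℝ) - 1) * δ) = ∑ u ∈ Finset.range N, (((N : ℝ) - 1) * δ) := by simp
      _ ≤ _ := by
        apply Finset.sum_le_sum
        intro u hu
        calc ((N : ℝ) - 1) * δ = ∑ v ∈ (Finset.range N).erase u, δ := by
              rw [Finset.sum_const, Finset.card_erase_of_mem hu, Finset.card_range, nsmul_eq_mul,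
                Nat.cast_sub hN1, Nat.cast_one]
          _ ≤ ∑ v ∈ (Finset.range N).erase u, (I u v + I v u) := by
              apply Finset.sum_le_sum
              intro v hv
              exact hsum u v (Finset.ne_of_mem_erase hv).symm
          _ ≤ ∑ v ∈ Finset.range N, (I u v + I v u) := by
              apply Finset.sum_le_sum_of_subset_of_nonneg (Finset.erase_subset _ _)
              intro v _ _
              exact add_nonneg (h0 _ _) (h0 _ _)
  rw [h2] at h3
  have hNpos : (0 : ℝ) < N := by exact_mod_cast hN1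
  have h4 : (N : ℝ) * (2 * C) < N * (((N : ℝ) - 1) * δ) := mul_lt_mul_of_pos_left hN' hNpos
  linarith

end Pair

section Tree

variable {X : Type*} [NormedAddCommGroup X] [NormedSpace ℝ X]
variable {co : ℕ → X →L[ℝ] ℝ} {z : ℕ → X}

/-- A node `v` and an element `e` living on coordinates from `M` on. -/
structure Tree (co : ℕ → X →L[ℝ] ℝ) (A : X →L[ℝ] X →L[ℝ] X) (j M : ℕ) (r : ℝ) (v : ℕ) (e : X) :
    Prop where
  le : M ≤ v
  isRec : Rec co (v + 1) e
  van : ∀ i, i < M → co i e = 0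
  ev : ∀ x, Rec co M x → co v x = co j x
  np : ∀ x, Rec co M x → co j x = 0 → ‖x‖ ≤ 1 → ‖x + e‖ ≤ 1
  val : co v (A e e) ≤ -r

variable {A : X →L[ℝ] X →L[ℝ] X} {j M : ℕ} {r : ℝ} {v : ℕ} {e : X}

lemma Tree.np' (T : Tree co A j M r v e) (x : X) (h : Rec co M x) (hj : co j x = 0)
    (hx : ‖x‖ ≤ 1) : ‖x - e‖ ≤ 1 := by
  have := T.np (-x) h.neg (by simp [hj]) (by simpa using hx)
  rwa [← norm_neg, neg_sub, sub_eq_neg_add]

lemma Tree.norm_le (T : Tree co A j M r v e) : ‖e‖ ≤ 1 := by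
  have := T.np 0 Rec.zero (by simp) (by simp)
  simpa using this

lemma Tree.mono (T : Tree co A j M r v e) {M' : ℕ} (hM : M' ≤ M) : Tree co A j M' r v e where
  le := hM.trans T.le
  isRec := T.isRec
  van := fun i hi => T.van i (hi.trans_le hM)
  ev := fun x hx => T.ev x (hx.mono hM)
  np := fun x hx => T.np x (hx.mono hM)
  val := T.val

lemma abs_co_le (G : IsG co z) (k : ℕ) (x y : X) : |co k (A x y)| ≤ ‖A‖ * ‖x‖ * ‖y‖ :=
  (G.le_norm _ _).trans (A.le_opNorm₂ x y)

/-- A sequence of trees one after the other. -/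
structure Family (co : ℕ → X →L[ℝ] ℝ) (A : X →L[ℝ] X →L[ℝ] X) (j m : ℕ) (r : ℝ)
    (Ms vs : ℕ → ℕ) (es : ℕ → X) : Prop where
  hj : j < m
  hm : ∀ u, m ≤ Ms u
  tree : ∀ u, Tree co A j (Ms u) r (vs u) (es u)
  next : ∀ u, vs u + 1 ≤ Ms (u + 1)

variable {m : ℕ} {Ms vs : ℕ → ℕ} {es : ℕ → X}

lemma exists_family (hj : j < m) (hM : m ≤ M) (h : ∀ M, m ≤ M → ∃ v e, Tree co A j M r v e) :
    ∃ Ms vs es, Family co A j m r Ms vs es ∧ Ms 0 = M := by
  choose! v e hve using h
  let Ms : ℕ → ℕ := fun u => Nat.rec M (fun _ M' => v M' + 1) u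
  have hs : ∀ u, Ms (u + 1) = v (Ms u) + 1 := fun u => rfl
  have hm : ∀ u, m ≤ Ms u := by
    intro u
    induction u with
    | zero => exact hM
    | succ u ih =>
      rw [hs]
      exact (ih.trans (hve (Ms u) ih).le).trans (Nat.le_succ _)
  exact ⟨Ms, fun u => v (Ms u), fun u => e (Ms u), ⟨hj, hm, fun u => hve _ (hm u),
    fun u => (hs u).ge⟩, rfl⟩

lemma Family.Ms_succ (F : Family co A j m r Ms vs es) (u : ℕ) : Ms u ≤ Ms (u + 1) :=
  ((F.tree u).le.trans (Nat.le_succ _)).trans (F.next u)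

lemma Family.Ms_mono (F : Family co A j m r Ms vs es) : Monotone Ms :=
  monotone_nat_of_le_succ F.Ms_succ

lemma Family.lt (F : Family co A j m r Ms vs es) {u v : ℕ} (h : u < v) : vs u + 1 ≤ Ms v :=
  (F.next u).trans (F.Ms_mono h)

lemma Family.co_j (F : Family co A j m r Ms vs es) (u : ℕ) : co j (es u) = 0 :=
  (F.tree u).van j (F.hj.trans_le (F.hm u))

lemma Family.linear (F : Family co A j m r Ms vs es) (l : X →ₗ[ℝ] ℝ) (n : ℕ) :
    ∃ E, Rec co (Ms n) E ∧ co j E = 0 ∧ ‖E‖ ≤ 1 ∧ l E = ∑ u ∈ Finset.range n, |l (es u)| := by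
  induction n with
  | zero => exact ⟨0, Rec.zero, by simp, by simp, by simp⟩
  | succ n ih =>
    obtain ⟨E, h1, h2, h3, h4⟩ := ih
    rcases le_total 0 (l (es n)) with hn | hn
    · refine ⟨E + es n, (h1.mono (F.Ms_succ n)).add ((F.tree n).isRec.mono (F.next n)), ?_,
        (F.tree n).np E h1 h2 h3, ?_⟩
      · rw [map_add, h2, F.co_j]; simp
      · rw [map_add, h4, Finset.sum_range_succ, abs_of_nonneg hn]
    · refine ⟨E - es n, ?_, ?_, (F.tree n).np' E h1 h2 h3, ?_⟩
      · rw [sub_eq_add_neg]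
        exact (h1.mono (F.Ms_succ n)).add ((F.tree n).isRec.mono (F.next n)).neg
      · rw [map_sub, h2, F.co_j]; simp
      · rw [map_sub, h4, Finset.sum_range_succ, abs_of_nonpos hn]; ring

lemma Family.linear_le (F : Family co A j m r Ms vs es) (l : X →ₗ[ℝ] ℝ) (C : ℝ) (hC : 0 ≤ C)
    (hl : ∀ x, |l x| ≤ C * ‖x‖) (n : ℕ) : ∑ u ∈ Finset.range n, |l (es u)| ≤ C := by
  obtain ⟨E, h1, h2, h3, h4⟩ := F.linear l n
  rw [← h4]
  calc l E ≤ |l E| := le_abs_self _
    _ ≤ C * ‖E‖ := hl E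
    _ ≤ C * 1 := mul_le_mul_of_nonneg_left h3 hC
    _ = C := mul_one C

lemma Family.quad (F : Family co A j m r Ms vs es) (k : ℕ) (n : ℕ) :
    ∃ E, Rec co (Ms n) E ∧ co j E = 0 ∧ ‖E‖ ≤ 1 ∧
      ∑ u ∈ Finset.range n, max (co k (A (es u) (es u))) 0 ≤ co k (A E E) := by
  induction n with
  | zero => exact ⟨0, Rec.zero, by simp, by simp, by simp⟩
  | succ n ih =>
    obtain ⟨E, h1, h2, h3, h4⟩ := ih
    rcases le_total (co k (A (es n) (es n))) 0 with hn | hn
    · refine ⟨E, h1.mono (F.Ms_succ n), h2, h3, ?_⟩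
      rw [Finset.sum_range_succ, max_eq_right hn]
      linarith
    · rcases le_total 0 (co k (A E (es n)) + co k (A (es n) E)) with hc | hc
      · refine ⟨E + es n, (h1.mono (F.Ms_succ n)).add ((F.tree n).isRec.mono (F.next n)), ?_,
          (F.tree n).np E h1 h2 h3, ?_⟩
        · rw [map_add, h2, F.co_j]; simp
        · rw [Finset.sum_range_succ, max_eq_left hn]
          simp only [map_add, _root_.add_apply]
          linarith
      · refine ⟨E - es n, ?_, ?_, (F.tree n).np' E h1 h2 h3, ?_⟩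
        · rw [sub_eq_add_neg]
          exact (h1.mono (F.Ms_succ n)).add ((F.tree n).isRec.mono (F.next n)).neg
        · rw [map_sub, h2, F.co_j]; simp
        · rw [Finset.sum_range_succ, max_eq_left hn]
          simp only [map_sub, _root_.sub_apply]
          linarith

lemma Family.quad_le (G : IsG co z) (F : Family co A j m r Ms vs es) (k : ℕ) (n : ℕ) :
    ∑ u ∈ Finset.range n, max (co k (A (es u) (es u))) 0 ≤ ‖A‖ := by
  obtain ⟨E, h1, h2, h3, h4⟩ := F.quad k n
  have h5 := abs_co_le (A := A) G k E E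
  have h6 : ‖A‖ * ‖E‖ * ‖E‖ ≤ ‖A‖ * 1 * 1 := by gcongr
  linarith [le_abs_self (co k (A E E))]

/-- `x ↦ co k (A e x) + co k (A x e)` -/
noncomputable def crossL (co : ℕ → X →L[ℝ] ℝ) (A : X →L[ℝ] X →L[ℝ] X) (k : ℕ) (e : X) :
    X →ₗ[ℝ] ℝ where
  toFun x := co k (A e x) + co k (A x e)
  map_add' x y := by simp only [map_add, _root_.add_apply]; ring
  map_smul' t x := by
    simp only [map_smul, _root_.smul_apply, smul_eq_mul, RingHom.id_apply]; ring

lemma Family.exists_pair (G : IsG co z) (F : Family co A j m r Ms vs es) {δ : ℝ} (hδ : 0 < δ) :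
    ∃ u v, u < v ∧
      |co (vs u) (A (es u) (es v)) + co (vs u) (A (es v) (es u))| +
        max (co (vs u) (A (es v) (es v))) 0 ≤ δ ∧
      |co (vs v) (A (es v) (es u)) + co (vs v) (A (es u) (es v))| +
        max (co (vs v) (A (es u) (es u))) 0 ≤ δ := by
  apply Gur.exists_pair (fun u v => |co (vs u) (A (es u) (es v)) + co (vs u) (A (es v) (es u))| +
        max (co (vs u) (A (es v) (es v))) 0) (2 * ‖A‖ + ‖A‖) δ hδ
  · intro u v
    positivity
  · intro N u
    rw [Finset.sum_add_distrib]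
    apply add_le_add
    · apply F.linear_le (crossL co A (vs u) (es u)) (2 * ‖A‖) (by positivity)
      intro x
      have h1 := abs_co_le (A := A) G (vs u) (es u) x
      have h2 := abs_co_le (A := A) G (vs u) x (es u)
      have h3 := (F.tree u).norm_le
      have h4 : ‖A‖ * ‖es u‖ * ‖x‖ ≤ ‖A‖ * 1 * ‖x‖ := by gcongr
      have h5 : ‖A‖ * ‖x‖ * ‖es u‖ ≤ ‖A‖ * ‖x‖ * 1 := by gcongr
      show |co (vs u) (A (es u) x) + co (vs u) (A x (es u))| ≤ _
      have := abs_add_le (co (vs u) (A (es u) x)) (co (vs u) (A x (es u)))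
      linarith
    · exact F.quad_le G (vs u) N

lemma quad_add (k : ℕ) (x y : X) : co k (A (x + y) (x + y)) =
    co k (A x x) + (co k (A x y) + co k (A y x)) + co k (A y y) := by
  simp only [map_add, _root_.add_apply]; ring

lemma quad_smul (k : ℕ) (t : ℝ) (x : X) : co k (A (t • x) (t • x)) = t ^ 2 * co k (A x x) := by
  simp only [map_smul, _root_.smul_apply, smul_eq_mul]; ring

lemma cross_smul (k : ℕ) (t : ℝ) (x y : X) : co k (A x (t • y)) + co k (A (t • y) x) =
    t * (co k (A x y) + co k (A y x)) := by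
  simp only [map_smul, _root_.smul_apply, smul_eq_mul]; ring

/-- the induction step: a deeper tree -/
lemma step (G : IsG co z) (hj : j < m) {ε : ℝ} (hε : 0 < ε)
    (hbad : ∀ k, m ≤ k → (∀ x, Rec co m x → co k x = co j x) → co k (A (z k) (z k)) < -ε)
    (h : ∀ M, m ≤ M → ∃ v e, Tree co A j M r v e) (M : ℕ) (hM : m ≤ M) :
    ∃ v e, Tree co A j M (r + ε / 8) v e := by
  obtain ⟨Ms, vs, es, F, hM0⟩ := exists_family hj hM h
  obtain ⟨u, w, huw, h1, h2⟩ := F.exists_pair G (δ := ε / 16) (by positivity)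
  have Tu := F.tree u
  have Tw := F.tree w
  -- choose the sign
  obtain ⟨s, hs, hsum⟩ : ∃ s : ℝ, (s = 1 ∨ s = -1) ∧
      |co (vs u) (es u) + s * co (vs w) (es w)| ≤ 1 := by
    have b1 := (G.le_norm (es u) (vs u)).trans Tu.norm_le
    have b2 := (G.le_norm (es w) (vs w)).trans Tw.norm_le
    rw [abs_le] at b1 b2
    rcases le_total 0 (co (vs u) (es u)) with c1 | c1 <;>
      rcases le_total 0 (co (vs w) (es w)) with c2 | c2
    · exact ⟨-1, Or.inr rfl, by rw [abs_le]; constructor <;> linarith⟩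
    · exact ⟨1, Or.inl rfl, by rw [abs_le]; constructor <;> linarith⟩
    · exact ⟨1, Or.inl rfl, by rw [abs_le]; constructor <;> linarith⟩
    · exact ⟨-1, Or.inr rfl, by rw [abs_le]; constructor <;> linarith⟩
  have hs2 : s ^ 2 = 1 := by rcases hs with rfl | rfl <;> norm_num
  set e := es u + s • es w with he
  -- coordinates of e
  have hlt : vs u + 1 ≤ Ms w := F.lt huw
  have hvw : co (vs w) (es u) = 0 := by
    rw [Tw.ev (es u) (Tu.isRec.mono hlt)]
    exact F.co_j u
  have hvu : co (vs u) (es w) = 0 := Tw.van _ hlt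
  have heu : co (vs u) e = co (vs u) (es u) := by
    rw [he, map_add, map_smul, hvu]; simp
  have hew : co (vs w) e = s * co (vs w) (es w) := by
    rw [he, map_add, map_smul, hvw]; simp
  have hej : co j e = 0 := by
    rw [he, map_add, map_smul, F.co_j, F.co_j]; simp
  -- quadratic values
  have q1 : co (vs u) (A e e) ≤ -r + ε / 16 := by
    rw [he, quad_add, quad_smul, cross_smul, hs2]
    have := Tu.val
    have a1 : s * (co (vs u) (A (es u) (es w)) + co (vs u) (A (es w) (es u))) ≤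
        |co (vs u) (A (es u) (es w)) + co (vs u) (A (es w) (es u))| := by
      rcases hs with rfl | rfl
      · rw [one_mul]; exact le_abs_self _
      · rw [neg_one_mul]; exact neg_le_abs _
    have a2 := le_max_left (co (vs u) (A (es w) (es w))) 0
    linarith
  have q2 : co (vs w) (A e e) ≤ -r + ε / 16 := by
    rw [he, quad_add, quad_smul, cross_smul, hs2]
    have := Tw.val
    have a1 : s * (co (vs w) (A (es u) (es w)) + co (vs w) (A (es w) (es u))) ≤
        |co (vs w) (A (es w) (es u)) + co (vs w) (A (es u) (es w))| := by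
      rw [add_comm (co (vs w) (A (es w) (es u)))]
      rcases hs with rfl | rfl
      · rw [one_mul]; exact le_abs_self _
      · rw [neg_one_mul]; exact neg_le_abs _
    have a2 := le_max_left (co (vs w) (A (es u) (es u))) 0
    linarith
  -- the new node
  obtain ⟨n₀, hn₀⟩ := G.almost (A e e) (δ := ε / 16) (by positivity)
  obtain ⟨k, hk, hak, hbk⟩ := exists_ab (vs u) (vs w) (max n₀ (Ms (w + 1)))
  have hkn : n₀ ≤ k := (le_max_left _ _).trans hk
  have hkM : Ms (w + 1) ≤ k := (le_max_right _ _).trans hk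
  have hwk : vs w + 1 ≤ k := (F.next w).trans hkM
  have huk : vs u + 1 ≤ k := hlt.trans ((F.Ms_succ w).trans hkM)
  have hMk : M ≤ k := by
    rw [← hM0]; exact (F.Ms_mono (Nat.zero_le _)).trans hkM
  have hMu : M ≤ Ms u := by
    rw [← hM0]; exact F.Ms_mono (Nat.zero_le _)
  have hMw : M ≤ Ms w := by
    rw [← hM0]; exact F.Ms_mono (Nat.zero_le _)
  have hrec_e : Rec co k e := (Tu.isRec.mono huk).add ((Tw.isRec.mono hwk).smul s)
  have hev : ∀ x, Rec co M x → co k x = co j x := by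
    intro x hx
    rw [hx k hMk, hak, hbk, Tu.ev x (hx.mono hMu), Tw.ev x (hx.mono hMw)]
    ring
  have hq : co k (A e e) ≤ -r + ε / 8 := by
    have := hn₀ k hkn
    rw [hak, hbk, abs_le] at this
    linarith [this.2]
  have hzk := hbad k (hM.trans hMk) (fun x hx => hev x (hx.mono hM))
  obtain ⟨t, ht, hct⟩ : ∃ t : ℝ, (t = 1 / 2 ∨ t = -1 / 2) ∧
      t * (co k (A e (z k)) + co k (A (z k) e)) ≤ 0 := by
    rcases le_total 0 (co k (A e (z k)) + co k (A (z k) e)) with c | c
    · exact ⟨-1 / 2, Or.inr rfl, by linarith⟩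
    · exact ⟨1 / 2, Or.inl rfl, by linarith⟩
  have ht2 : t ^ 2 = 1 / 4 := by rcases ht with rfl | rfl <;> norm_num
  refine ⟨k, e + t • z k, ⟨hMk, ?_, ?_, hev, ?_, ?_⟩⟩
  · exact (hrec_e.mono (Nat.le_succ k)).add ((G.z_rec k).smul t)
  · intro i hi
    rw [he]
    simp only [map_add, map_smul, smul_eq_mul, Tu.van i (hi.trans_le hMu),
      Tw.van i (hi.trans_le hMw), G.z_lt k i (hi.trans_le hMk)]
    simp
  · intro x hx hxj hx1
    rw [← add_assoc]
    have hn1 : ‖x + es u‖ ≤ 1 := Tu.np x (hx.mono hMu) hxj hx1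
    have hr1 : Rec co (Ms w) (x + es u) := (hx.mono hMw).add (Tu.isRec.mono hlt)
    have hj1 : co j (x + es u) = 0 := by rw [map_add, hxj, F.co_j]; simp
    have hn2 : ‖x + e‖ ≤ 1 := by
      rw [he, ← add_assoc]
      rcases hs with rfl | rfl
      · rw [one_smul]
        exact Tw.np _ hr1 hj1 hn1
      · rw [neg_one_smul, ← sub_eq_add_neg]
        exact Tw.np' _ hr1 hj1 hn1
    have hr2 : Rec co k (x + e) := (hx.mono hMk).add hrec_e
    apply G.norm_add_bump hr2 hn2
    rw [hr2 k le_rfl, hak, hbk, map_add (co (vs u)) x e, map_add (co (vs w)) x e, heu, hew,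
      Tu.ev x (hx.mono hMu),
      Tw.ev x (hx.mono hMw), hxj]
    rw [abs_le] at hsum ⊢
    rcases ht with rfl | rfl <;> constructor <;> linarith [hsum.1, hsum.2]
  · rw [quad_add, quad_smul, cross_smul, ht2]
    linarith

/-- Claim A: good bumps exist. -/
theorem exists_good (G : IsG co z) (A : X →L[ℝ] X →L[ℝ] X) {j m : ℕ} (hj : j < m) {ε : ℝ}
    (hε : 0 < ε) : ∃ k, m ≤ k ∧ (∀ x, Rec co m x → co k x = co j x) ∧
      -ε ≤ co k (A (z k) (z k)) := by
  by_contra hcon
  push Not at hcon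
  have key : ∀ d : ℕ, ∀ M, m ≤ M → ∃ v e, Tree co A j M (d * (ε / 8)) v e := by
    intro d
    induction d with
    | zero =>
      intro M hM
      obtain ⟨k, hk, hak, hbk⟩ := exists_ab j j M
      refine ⟨k, 0, ⟨hk, Rec.zero, by simp, ?_, ?_, by simp⟩⟩
      · intro x hx
        rw [hx k hk, hak, hbk]; ring
      · intro x _ _ hx
        simpa using hx
    | succ d ih =>
      intro M hM
      have := step G hj hε hcon ih M hM
      convert this using 5
      push_cast; ring
  obtain ⟨d, hd⟩ := exists_nat_gt (‖A‖ / (ε / 8))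
  obtain ⟨v, e, T⟩ := key d m le_rfl
  have h1 := abs_co_le (A := A) G v e e
  have h2 : ‖A‖ * ‖e‖ * ‖e‖ ≤ ‖A‖ * 1 * 1 := by
    have := T.norm_le
    gcongr
  have h3 := T.val
  rw [div_lt_iff₀ (by positivity)] at hd
  rw [abs_le] at h1
  linarith [h1.1]

end Tree

end Pool.Agent.Helper184.Gur
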