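import Mathlib

set_option autoImplicit false

namespace Pool.Agent.Helper184.Lsd

open Matrix MvPolynomial

/-- The Latin square of order 16. -/
def L (i j : Fin 16) : Fin 16 :=
  Fin.ofNat 16 (((i.val % 8) ^^^ (j.val % 8)) +
    8 * ((i.val / 8 + j.val / 8 +
      (1491403003315575040 >>> (8 * (i.val % 8) + j.val % 8)) % 2) % 2))

lemma L_row : ∀ i j j' : Fin 16, L i j = L i j' → j = j' := by decide +kernel

lemma L_col : ∀ j i i' : Fin 16, L i j = L i' j → i = i' := by decide +kernel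

/-- The quadrangle criterion fails. -/
lemma L_quad : L 0 0 = L 1 1 ∧ L 0 2 = L 1 11 ∧ L 4 0 = L 5 1 ∧ L 4 2 ≠ L 5 11 := by
  decide +kernel

lemma not_group : ¬ ∃ (G : Type) (_ : Group G) (a : Fin 16 ≃ G) (b : Fin 16 ≃ G) (e : G ≃ Fin 16),
      ∀ i j, L i j = e (a i * b j) := by
  rintro ⟨G, _, a, b, e, h⟩
  obtain ⟨h1, h2, h3, h4⟩ := L_quad
  rw [h, h] at h1 h2 h3
  rw [h, h] at h4
  have e1 := e.injective h1
  have e2 := e.injective h2
  have e3 := e.injective h3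
  apply h4
  congr 1
  have f1 : a 4 * b 2 = (a 4 * b 0) * (a 0 * b 0)⁻¹ * (a 0 * b 2) := by group
  have f2 : a 5 * b 11 = (a 5 * b 1) * (a 1 * b 1)⁻¹ * (a 1 * b 11) := by group
  rw [f1, f2, e1, e2, e3]

/-- exclusive or on `Fin 8` -/
def kap (l j : Fin 8) : Fin 8 := Fin.ofNat 8 (l.val ^^^ j.val)

/-- the sign table -/
def sg (l j : Fin 8) : Bool := (1491403003315575040 >>> (8 * l.val + j.val)) % 2 == 1

lemma hL : ∀ l j : Fin 8,
    (sg l j = false ∧ L (Fin.castAdd 8 l) (Fin.castAdd 8 j) = Fin.castAdd 8 (kap l j) ∧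
      L (Fin.castAdd 8 l) (Fin.natAdd 8 j) = Fin.natAdd 8 (kap l j)) ∨
    (sg l j = true ∧ L (Fin.castAdd 8 l) (Fin.castAdd 8 j) = Fin.natAdd 8 (kap l j) ∧
      L (Fin.castAdd 8 l) (Fin.natAdd 8 j) = Fin.castAdd 8 (kap l j)) := by
  decide +kernel

lemma hL2 : ∀ l j : Fin 8,
    L (Fin.natAdd 8 l) (Fin.natAdd 8 j) = L (Fin.castAdd 8 l) (Fin.castAdd 8 j) ∧
    L (Fin.natAdd 8 l) (Fin.castAdd 8 j) = L (Fin.castAdd 8 l) (Fin.natAdd 8 j) := by
  decide +kernel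

section det

variable {R : Type} [CommRing R]

/-- Determinant of a block matrix with blocks `P, Q, Q, P`. -/
lemma det_blocks {n : Type} [Fintype n] [DecidableEq n] (P Q : Matrix n n R) :
    (fromBlocks P Q Q P).det = (P + Q).det * (P - Q).det := by
  have h : fromBlocks 1 1 0 1 * fromBlocks P Q Q P * fromBlocks 1 (-1) 0 1 =
      fromBlocks (P + Q) 0 Q (P - Q) := by
    rw [fromBlocks_multiply, fromBlocks_multiply]
    simp only [Matrix.one_mul, Matrix.mul_one, Matrix.zero_mul, Matrix.mul_zero, add_zero,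
      zero_add, Matrix.mul_neg]
    congr 1
    · abel
    · abel
  have h2 := congrArg Matrix.det h
  rw [det_mul, det_mul, det_fromBlocks_zero₂₁, det_fromBlocks_zero₂₁, det_fromBlocks_zero₁₂,
    det_one, one_mul, one_mul, mul_one] at h2
  exact h2

/-- `x_k + x_{k+8}` -/
def u (x : Fin 16 → R) (k : Fin 8) : R := x (Fin.castAdd 8 k) + x (Fin.natAdd 8 k)

/-- `x_k - x_{k+8}` -/
def y (x : Fin 16 → R) (k : Fin 8) : R := x (Fin.castAdd 8 k) - x (Fin.natAdd 8 k)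

/-- sum of the first four squares -/
def qA (y : Fin 8 → R) : R := y 0 ^ 2 + y 1 ^ 2 + y 2 ^ 2 + y 3 ^ 2

/-- sum of the last four squares -/
def qB (y : Fin 8 → R) : R := y 4 ^ 2 + y 5 ^ 2 + y 6 ^ 2 + y 7 ^ 2

lemma det_step1 (x : Fin 16 → R) :
    (Matrix.of fun i j => x (L i j)).det =
      (Matrix.of fun l j => u x (kap l j)).det *
      (Matrix.of fun l j => if sg l j then - y x (kap l j) else y x (kap l j)).det := by
  rw [← Matrix.det_submatrix_equiv_self (finSumFinEquiv : Fin 8 ⊕ Fin 8 ≃ Fin 16)]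
  have h : (Matrix.of fun i j => x (L i j)).submatrix
      (finSumFinEquiv : Fin 8 ⊕ Fin 8 ≃ Fin 16) (finSumFinEquiv : Fin 8 ⊕ Fin 8 ≃ Fin 16) =
      fromBlocks (Matrix.of fun l j => x (L (Fin.castAdd 8 l) (Fin.castAdd 8 j)))
        (Matrix.of fun l j => x (L (Fin.castAdd 8 l) (Fin.natAdd 8 j)))
        (Matrix.of fun l j => x (L (Fin.castAdd 8 l) (Fin.natAdd 8 j)))
        (Matrix.of fun l j => x (L (Fin.castAdd 8 l) (Fin.castAdd 8 j))) := by
    ext (i | i) (j | j)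
    · rfl
    · rfl
    · change x (L (Fin.natAdd 8 i) (Fin.castAdd 8 j)) = x (L (Fin.castAdd 8 i) (Fin.natAdd 8 j))
      rw [(hL2 i j).2]
    · change x (L (Fin.natAdd 8 i) (Fin.natAdd 8 j)) = x (L (Fin.castAdd 8 i) (Fin.castAdd 8 j))
      rw [(hL2 i j).1]
  rw [h, det_blocks]
  congr 2
  · ext l j
    simp only [Matrix.add_apply, Matrix.of_apply, u]
    rcases hL l j with ⟨_, h1, h2⟩ | ⟨_, h1, h2⟩
    · rw [h1, h2]
    · rw [h1, h2, add_comm]
  · ext l j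
    simp only [Matrix.sub_apply, Matrix.of_apply, y]
    rcases hL l j with ⟨h0, h1, h2⟩ | ⟨h0, h1, h2⟩
    · rw [h0, h1, h2]; simp
    · rw [h0, h1, h2]; simp

lemma det_U (u : Fin 8 → R) :
    (Matrix.of fun l j => u (kap l j)).det =
      (((u 0 + u 4) + (u 1 + u 5) + (u 2 + u 6) + (u 3 + u 7)) *
      ((u 0 + u 4) - (u 1 + u 5) + (u 2 + u 6) - (u 3 + u 7)) *
      ((u 0 + u 4) + (u 1 + u 5) - (u 2 + u 6) - (u 3 + u 7)) *
      ((u 0 + u 4) - (u 1 + u 5) - (u 2 + u 6) + (u 3 + u 7))) *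
      (((u 0 - u 4) + (u 1 - u 5) + (u 2 - u 6) + (u 3 - u 7)) *
      ((u 0 - u 4) - (u 1 - u 5) + (u 2 - u 6) - (u 3 - u 7)) *
      ((u 0 - u 4) + (u 1 - u 5) - (u 2 - u 6) - (u 3 - u 7)) *
      ((u 0 - u 4) - (u 1 - u 5) - (u 2 - u 6) + (u 3 - u 7))) := by
  have h4 : ∀ a b c d : R, (!![a, b, c, d; b, a, d, c; c, d, a, b; d, c, b, a]).det =
      (a + b + c + d) * (a - b + c - d) * (a + b - c - d) * (a - b - c + d) := by
    intro a b c d
    simp [Matrix.det_succ_row_zero, Fin.sum_univ_succ, Fin.succAbove]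
    ring
  rw [← Matrix.det_submatrix_equiv_self (finSumFinEquiv : Fin 4 ⊕ Fin 4 ≃ Fin 8)]
  have h : (Matrix.of fun l j => u (kap l j)).submatrix
      (finSumFinEquiv : Fin 4 ⊕ Fin 4 ≃ Fin 8) (finSumFinEquiv : Fin 4 ⊕ Fin 4 ≃ Fin 8) =
      fromBlocks !![u 0, u 1, u 2, u 3; u 1, u 0, u 3, u 2; u 2, u 3, u 0, u 1; u 3, u 2, u 1, u 0]
        !![u 4, u 5, u 6, u 7; u 5, u 4, u 7, u 6; u 6, u 7, u 4, u 5; u 7, u 6, u 5, u 4]
        !![u 4, u 5, u 6, u 7; u 5, u 4, u 7, u 6; u 6, u 7, u 4, u 5; u 7, u 6, u 5, u 4]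
        !![u 0, u 1, u 2, u 3; u 1, u 0, u 3, u 2; u 2, u 3, u 0, u 1; u 3, u 2, u 1, u 0] := by
    ext (i | i) (j | j) <;> fin_cases i <;> fin_cases j <;> rfl
  rw [h, det_blocks]
  have e1 : (!![u 0, u 1, u 2, u 3; u 1, u 0, u 3, u 2; u 2, u 3, u 0, u 1; u 3, u 2, u 1, u 0] +
      !![u 4, u 5, u 6, u 7; u 5, u 4, u 7, u 6; u 6, u 7, u 4, u 5; u 7, u 6, u 5, u 4] :
        Matrix (Fin 4) (Fin 4) R) =
      !![u 0 + u 4, u 1 + u 5, u 2 + u 6, u 3 + u 7; u 1 + u 5, u 0 + u 4, u 3 + u 7, u 2 + u 6;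
        u 2 + u 6, u 3 + u 7, u 0 + u 4, u 1 + u 5; u 3 + u 7, u 2 + u 6, u 1 + u 5, u 0 + u 4] := by
    ext i j; fin_cases i <;> fin_cases j <;> rfl
  have e2 : (!![u 0, u 1, u 2, u 3; u 1, u 0, u 3, u 2; u 2, u 3, u 0, u 1; u 3, u 2, u 1, u 0] -
      !![u 4, u 5, u 6, u 7; u 5, u 4, u 7, u 6; u 6, u 7, u 4, u 5; u 7, u 6, u 5, u 4] :
        Matrix (Fin 4) (Fin 4) R) =
      !![u 0 - u 4, u 1 - u 5, u 2 - u 6, u 3 - u 7; u 1 - u 5, u 0 - u 4, u 3 - u 7, u 2 - u 6;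
        u 2 - u 6, u 3 - u 7, u 0 - u 4, u 1 - u 5; u 3 - u 7, u 2 - u 6, u 1 - u 5, u 0 - u 4] := by
    ext i j; fin_cases i <;> fin_cases j <;> rfl
  rw [e1, e2, h4, h4]

lemma det_Y [IsDomain R] (y : Fin 8 → R) (hA : qA y ≠ 0) :
    (Matrix.of fun l j => if sg l j then - y (kap l j) else y (kap l j)).det =
      (qA y + qB y) ^ 2 * (qA y - qB y) ^ 2 := by
  rw [← Matrix.det_submatrix_equiv_self (finSumFinEquiv : Fin 4 ⊕ Fin 4 ≃ Fin 8)]
  set E0 : Matrix (Fin 4) (Fin 4) R :=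
    !![y 0, y 1, y 2, y 3; -y 1, y 0, y 3, -y 2; -y 2, -y 3, y 0, y 1; -y 3, y 2, -y 1, y 0] with hE0
  set O0 : Matrix (Fin 4) (Fin 4) R :=
    !![y 4, y 5, y 6, y 7; -y 5, y 4, -y 7, y 6; -y 6, y 7, y 4, -y 5; -y 7, -y 6, y 5, y 4] with hO0
  set O1 : Matrix (Fin 4) (Fin 4) R :=
    !![-y 4, y 5, y 6, y 7; -y 5, -y 4, -y 7, y 6; y 6, -y 7, y 4, y 5; y 7, y 6, -y 5, y 4] with hO1
  set E1 : Matrix (Fin 4) (Fin 4) R :=
    !![y 0, -y 1, y 2, y 3; y 1, y 0, y 3, -y 2; -y 2, -y 3, y 0, -y 1; -y 3, y 2, y 1, y 0] with hE1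
  have h : (Matrix.of fun l j => if sg l j then - y (kap l j) else y (kap l j)).submatrix
      (finSumFinEquiv : Fin 4 ⊕ Fin 4 ≃ Fin 8) (finSumFinEquiv : Fin 4 ⊕ Fin 4 ≃ Fin 8) =
      fromBlocks E0 O0 O1 E1 := by
    ext (i | i) (j | j) <;> fin_cases i <;> fin_cases j <;> rfl
  rw [h]
  have hT : E0.transpose =
      !![y 0, -y 1, -y 2, -y 3; y 1, y 0, -y 3, y 2; y 2, y 3, y 0, -y 1; y 3, -y 2, y 1, y 0] := by
    rw [hE0]
    ext i j
    fin_cases i <;> fin_cases j <;> rfl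
  have m1 : E0 * E0.transpose = qA y • (1 : Matrix (Fin 4) (Fin 4) R) := by
    rw [hT, hE0]
    ext i j
    fin_cases i <;> fin_cases j <;>
      simp [Matrix.mul_apply, Fin.sum_univ_four, qA] <;> ring
  have m2 : O1 * E0.transpose * O0 = E1 * Matrix.diagonal ![-qB y, -qB y, qB y, qB y] := by
    rw [hT, hO0, hO1, hE1]
    ext i j
    fin_cases i <;> fin_cases j <;>
      simp [Matrix.mul_apply, Fin.sum_univ_four, qB] <;> ring
  have m3 : fromBlocks E0 O0 O1 E1 *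
      fromBlocks E0.transpose (-(E0.transpose * O0)) 0 (qA y • (1 : Matrix (Fin 4) (Fin 4) R)) =
      fromBlocks (qA y • (1 : Matrix (Fin 4) (Fin 4) R)) 0 (O1 * E0.transpose)
        (E1 * Matrix.diagonal ![qA y + qB y, qA y + qB y, qA y - qB y, qA y - qB y]) := by
    rw [fromBlocks_multiply]
    congr 1
    · rw [m1]; simp
    · rw [Matrix.mul_neg, ← Matrix.mul_assoc, m1]; simp
    · simp
    · rw [Matrix.mul_neg, ← Matrix.mul_assoc, m2, ← Matrix.mul_neg, Matrix.mul_smul, Matrix.mul_one]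
      have : qA y • E1 = E1 * Matrix.diagonal ![qA y, qA y, qA y, qA y] := by
        have h1 : Matrix.diagonal ![qA y, qA y, qA y, qA y] =
            qA y • (1 : Matrix (Fin 4) (Fin 4) R) := by
          ext i j
          fin_cases i <;> fin_cases j <;> simp
        rw [h1]; simp
      rw [this, ← Matrix.mul_add]
      congr 1
      ext i j
      fin_cases i <;> fin_cases j <;> simp <;> ring
  have d0 : E0.det = qA y ^ 2 := by
    rw [hE0]
    simp [Matrix.det_succ_row_zero, Fin.sum_univ_succ, Fin.succAbove, qA]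
    ring
  have d1 : E1.det = qA y ^ 2 := by
    rw [hE1]
    simp [Matrix.det_succ_row_zero, Fin.sum_univ_succ, Fin.succAbove, qA]
    ring
  have h2 := congrArg Matrix.det m3
  rw [det_mul, det_fromBlocks_zero₂₁, det_fromBlocks_zero₁₂, det_mul, det_transpose, d0, d1,
    det_diagonal, det_smul, det_one, Fin.prod_univ_four] at h2
  simp only [Fintype.card_fin, mul_one] at h2
  have hA6 : qA y ^ 2 * qA y ^ 4 ≠ 0 := mul_ne_zero (pow_ne_zero _ hA) (pow_ne_zero _ hA)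
  apply mul_right_cancel₀ hA6
  rw [h2]
  simp
  ring

end det

end Pool.Agent.Helper184.Lsd
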