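import Mathlib
import Pool.Agent.Helper184.Lsd

set_option autoImplicit false

namespace Pool.Agent.Helper184.Lsd

open MvPolynomial

/-- polynomials in sixteen variables -/
abbrev MP := MvPolynomial (Fin 16) ℂ

/-- The characters of the elementary abelian group of order 8. -/
def chi (c k : Fin 8) : ℤ :=
  if ((c.val &&& k.val) % 2 + (c.val &&& k.val) / 2 % 2 + (c.val &&& k.val) / 4) % 2 = 0 then 1
  else -1

lemma chi_orth : ∀ c c' : Fin 8, c ≠ c' → ∑ k : Fin 8, chi c k * chi c' k = 0 := by decide +kernel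

lemma chi_self : ∀ c : Fin 8, ∑ k : Fin 8, chi c k * chi c k = 8 := by decide +kernel

/-- the eight linear factors -/
noncomputable def lin (c : Fin 8) : MP := ∑ k : Fin 8, C ((chi c k : ℤ) : ℂ) * u (R := MP) X k

/-- the first quadratic factor -/
noncomputable def qp : MP := qA (y (R := MP) X) + qB (y (R := MP) X)

/-- the second quadratic factor -/
noncomputable def qm : MP := qA (y (R := MP) X) - qB (y (R := MP) X)

/-- the evaluation point attached to `v : Fin 8 → ℂ`, `w : Fin 8 → ℂ` -/
def pt (v w : Fin 8 → ℂ) : Fin 16 → ℂ := Fin.append v w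

lemma eval_u (v w : Fin 8 → ℂ) (k : Fin 8) :
    eval (pt v w) (u (R := MP) X k) = v k + w k := by
  unfold u pt
  rw [map_add, eval_X, eval_X]
  rw [show (Fin.append v w) (Fin.castAdd 8 k) = v k from Fin.append_left v w k,
    show (Fin.append v w) (Fin.natAdd 8 k) = w k from Fin.append_right v w k]

lemma eval_y (v w : Fin 8 → ℂ) (k : Fin 8) :
    eval (pt v w) (y (R := MP) X k) = v k - w k := by
  unfold y pt
  rw [map_sub, eval_X, eval_X]
  rw [show (Fin.append v w) (Fin.castAdd 8 k) = v k from Fin.append_left v w k,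
    show (Fin.append v w) (Fin.natAdd 8 k) = w k from Fin.append_right v w k]

lemma eval_lin (v w : Fin 8 → ℂ) (c : Fin 8) :
    eval (pt v w) (lin c) = ∑ k : Fin 8, ((chi c k : ℤ) : ℂ) * (v k + w k) := by
  unfold lin
  rw [map_sum]
  apply Finset.sum_congr rfl
  intro k _
  rw [map_mul, eval_C, eval_u]

lemma eval_qp (v w : Fin 8 → ℂ) :
    eval (pt v w) qp = qA (fun k => v k - w k) + qB (fun k => v k - w k) := by
  unfold qp qA qB
  simp only [map_add, map_pow, eval_y]

lemma eval_qm (v w : Fin 8 → ℂ) :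
    eval (pt v w) qm = qA (fun k => v k - w k) - qB (fun k => v k - w k) := by
  unfold qm qA qB
  simp only [map_add, map_sub, map_pow, eval_y]

/-- the determinant identity -/
lemma det_eq : (Matrix.of fun i j => (X (L i j) : MP)).det =
    (∏ c : Fin 8, lin c) * (qp ^ 2 * qm ^ 2) := by
  have hA : qA (y (R := MP) X) ≠ 0 := by
    intro h
    have h1 := congrArg (eval (pt (fun k => if k = 0 then 1 else 0) (fun _ => 0))) h
    unfold qA at h1
    simp only [map_add, map_pow, eval_y, map_zero] at h1
    simp at h1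
  have h := det_step1 (R := MP) X
  have hqp : qA (y (R := MP) X) + qB (y (R := MP) X) = qp := rfl
  have hqm : qA (y (R := MP) X) - qB (y (R := MP) X) = qm := rfl
  rw [det_U, det_Y _ hA, hqp, hqm] at h
  rw [h, Fin.prod_univ_eight]
  have e : ∀ c : Fin 8, lin c = C ((chi c 0 : ℤ) : ℂ) * u (R := MP) X 0 +
      C ((chi c 1 : ℤ) : ℂ) * u (R := MP) X 1 + C ((chi c 2 : ℤ) : ℂ) * u (R := MP) X 2 +
      C ((chi c 3 : ℤ) : ℂ) * u (R := MP) X 3 + C ((chi c 4 : ℤ) : ℂ) * u (R := MP) X 4 +
      C ((chi c 5 : ℤ) : ℂ) * u (R := MP) X 5 + C ((chi c 6 : ℤ) : ℂ) * u (R := MP) X 6 +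
      C ((chi c 7 : ℤ) : ℂ) * u (R := MP) X 7 := by
    intro c
    unfold lin
    rw [Fin.sum_univ_eight]
  have e0 : lin 0 = (u (R := MP) X 0 + u X 4) + (u X 1 + u X 5) + (u X 2 + u X 6)
      + (u X 3 + u X 7) := by
    rw [e]; simp [chi]; ring
  have e1 : lin 1 = (u (R := MP) X 0 + u X 4) - (u X 1 + u X 5) + (u X 2 + u X 6)
      - (u X 3 + u X 7) := by
    rw [e]; simp [chi]; ring
  have e2 : lin 2 = (u (R := MP) X 0 + u X 4) + (u X 1 + u X 5) - (u X 2 + u X 6)
      - (u X 3 + u X 7) := by
    rw [e]; simp [chi]; ring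
  have e3 : lin 3 = (u (R := MP) X 0 + u X 4) - (u X 1 + u X 5) - (u X 2 + u X 6)
      + (u X 3 + u X 7) := by
    rw [e]; simp [chi]; ring
  have e4 : lin 4 = (u (R := MP) X 0 - u X 4) + (u X 1 - u X 5) + (u X 2 - u X 6)
      + (u X 3 - u X 7) := by
    rw [e]; simp [chi]; ring
  have e5 : lin 5 = (u (R := MP) X 0 - u X 4) - (u X 1 - u X 5) + (u X 2 - u X 6)
      - (u X 3 - u X 7) := by
    rw [e]; simp [chi]; ring
  have e6 : lin 6 = (u (R := MP) X 0 - u X 4) + (u X 1 - u X 5) - (u X 2 - u X 6)
      - (u X 3 - u X 7) := by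
    rw [e]; simp [chi]; ring
  have e7 : lin 7 = (u (R := MP) X 0 - u X 4) - (u X 1 - u X 5) - (u X 2 - u X 6)
      + (u X 3 - u X 7) := by
    rw [e]; simp [chi]; ring
  rw [e0, e1, e2, e3, e4, e5, e6, e7]
  simp only [mul_assoc]

lemma lin_hom (c : Fin 8) : (lin c).IsHomogeneous 1 := by
  unfold lin
  apply IsHomogeneous.sum
  intro k _
  apply IsHomogeneous.C_mul
  exact (isHomogeneous_X _ _).add (isHomogeneous_X _ _)

lemma y_hom (k : Fin 8) : (y (R := MP) X k).IsHomogeneous 1 :=
  (isHomogeneous_X _ _).sub (isHomogeneous_X _ _)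

lemma ysq_hom (k : Fin 8) : (y (R := MP) X k ^ 2).IsHomogeneous 2 := by
  simpa using (y_hom k).pow 2

lemma qA_hom : (qA (y (R := MP) X)).IsHomogeneous 2 :=
  (((ysq_hom 0).add (ysq_hom 1)).add (ysq_hom 2)).add (ysq_hom 3)

lemma qB_hom : (qB (y (R := MP) X)).IsHomogeneous 2 :=
  (((ysq_hom 4).add (ysq_hom 5)).add (ysq_hom 6)).add (ysq_hom 7)

lemma eval_lin_self (c : Fin 8) :
    eval (pt (fun k => ((chi c k : ℤ) : ℂ)) (fun _ => 0)) (lin c) = 8 := by
  rw [eval_lin]
  have := congrArg (Int.cast : ℤ → ℂ) (chi_self c)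
  push_cast at this
  simp only [add_zero]
  exact this

lemma eval_lin_ne {c c' : Fin 8} (h : c ≠ c') :
    eval (pt (fun k => ((chi c' k : ℤ) : ℂ)) (fun _ => 0)) (lin c) = 0 := by
  rw [eval_lin]
  have := congrArg (Int.cast : ℤ → ℂ) (chi_orth c c' h)
  push_cast at this
  simp only [add_zero]
  exact this

lemma lin_ne (c : Fin 8) : lin c ≠ 0 := by
  intro h
  have := eval_lin_self c
  rw [h, map_zero] at this
  norm_num at this

lemma lin_deg (c : Fin 8) : (lin c).totalDegree = 1 := (lin_hom c).totalDegree (lin_ne c)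

lemma lin_irr (c : Fin 8) : Irreducible (lin c) := by
  apply irreducible_of_totalDegree_eq_one (lin_deg c)
  intro x hx
  rw [isUnit_iff_ne_zero]
  rintro rfl
  apply lin_ne c
  ext i
  have := hx i
  rw [zero_dvd_iff] at this
  rw [this, coeff_zero]

/-- evaluation of a polynomial of degree at most one is an affine function -/
lemma affine {f : MP} (hf : f.totalDegree ≤ 1) (v w : Fin 16 → ℂ) :
    eval (v + w) f + eval 0 f = eval v f + eval w f := by
  rw [eval_eq, eval_eq, eval_eq, eval_eq, ← Finset.sum_add_distrib, ← Finset.sum_add_distrib]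
  apply Finset.sum_congr rfl
  intro d hd
  have hdeg : d.degree ≤ 1 := by
    have h1 := le_totalDegree hd
    have h2 : d.degree = d.sum fun _ e => e := rfl
    omega
  rcases Nat.le_one_iff_eq_zero_or_eq_one.mp hdeg with h0 | h1
  · rw [Finsupp.degree_eq_zero_iff] at h0
    subst h0
    simp
  · obtain ⟨i, hi⟩ := (Finsupp.sum_eq_one_iff d).mp h1
    subst hi
    simp [Finsupp.single_apply, Finset.prod_ite_eq, mul_add]

/-- a quadratic polynomial which restricts to the sum of squares of the first three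
coordinates is irreducible. -/
lemma quad_irr {q : MP} (hq : q.IsHomogeneous 2)
    (h : ∀ v : Fin 16 → ℂ, (∀ i, 3 ≤ i.val → v i = 0) →
      eval v q = v 0 ^ 2 + v 1 ^ 2 + v 2 ^ 2) : Irreducible q := by
  have hq0 : q ≠ 0 := by
    rintro rfl
    have := h (fun i => if i = 0 then 1 else 0) (by
      intro i hi
      have : i ≠ 0 := by rintro rfl; simp at hi
      simp [this])
    simp at this
  have hdeg : q.totalDegree = 2 := hq.totalDegree hq0
  constructor
  · intro hu
    have := (MvPolynomial.isUnit_iff_totalDegree_of_isReduced.mp hu).2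
    omega
  · intro f g hfg
    have hf0 : f ≠ 0 := by rintro rfl; apply hq0; rw [hfg, zero_mul]
    have hg0 : g ≠ 0 := by rintro rfl; apply hq0; rw [hfg, mul_zero]
    have hsum : f.totalDegree + g.totalDegree = 2 := by
      rw [← totalDegree_mul_of_isDomain hf0 hg0, ← hfg, hdeg]
    have hunit : ∀ f : MP, f ≠ 0 → f.totalDegree = 0 → IsUnit f := by
      intro f hf hd
      rw [totalDegree_eq_zero_iff_eq_C] at hd
      rw [hd]
      rw [hd] at hf
      have : coeff 0 f ≠ 0 := by
        intro h0; rw [h0, C_0] at hf; exact hf rfl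
      exact (isUnit_iff_ne_zero.mpr this).map C
    by_cases hfd : f.totalDegree = 0
    · left; exact hunit f hf0 hfd
    by_cases hgd : g.totalDegree = 0
    · right; exact hunit g hg0 hgd
    exfalso
    have hf1 : f.totalDegree ≤ 1 := by omega
    have hg1 : g.totalDegree ≤ 1 := by omega
    set e : Fin 16 → (Fin 16 → ℂ) := fun i => Pi.single i 1 with he
    have haff := fun v w => affine hf1 v w
    have gaff := fun v w => affine hg1 v w
    have hprod : ∀ v : Fin 16 → ℂ, (∀ i, 3 ≤ i.val → v i = 0) →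
        eval v f * eval v g = v 0 ^ 2 + v 1 ^ 2 + v 2 ^ 2 := by
      intro v hv
      rw [← h v hv, hfg, map_mul]
    set φ := eval 0 f with hφ
    set ψ := eval 0 g with hψ
    set a : Fin 16 → ℂ := fun i => eval (e i) f - φ with ha
    set b : Fin 16 → ℂ := fun i => eval (e i) g - ψ with hb
    have fe : ∀ i, eval (e i) f = φ + a i := by intro i; rw [ha]; ring
    have ge : ∀ i, eval (e i) g = ψ + b i := by intro i; rw [hb]; ring
    have fn : ∀ i, eval (-(e i)) f = φ - a i := by
      intro i
      have := haff (e i) (-(e i))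
      rw [add_neg_cancel, fe] at this
      linear_combination -this
    have gn : ∀ i, eval (-(e i)) g = ψ - b i := by
      intro i
      have := gaff (e i) (-(e i))
      rw [add_neg_cancel, ge] at this
      linear_combination -this
    have fee : ∀ i j, eval (e i + e j) f = φ + a i + a j := by
      intro i j
      have := haff (e i) (e j)
      rw [fe, fe] at this
      linear_combination this
    have gee : ∀ i j, eval (e i + e j) g = ψ + b i + b j := by
      intro i j
      have := gaff (e i) (e j)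
      rw [ge, ge] at this
      linear_combination this
    have fnn : ∀ i j, eval (-(e i) + -(e j)) f = φ - a i - a j := by
      intro i j
      have := haff (-(e i)) (-(e j))
      rw [fn, fn] at this
      linear_combination this
    have gnn : ∀ i j, eval (-(e i) + -(e j)) g = ψ - b i - b j := by
      intro i j
      have := gaff (-(e i)) (-(e j))
      rw [gn, gn] at this
      linear_combination this
    have h00 : φ * ψ = 0 := by
      have h1 := hprod 0 (fun _ _ => rfl)
      rw [← hφ, ← hψ] at h1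
      rw [h1]
      simp
    have hsupp : ∀ i : Fin 16, i.val < 3 → ∀ j : Fin 16, 3 ≤ j.val → e i j = 0 := by
      intro i hi j hj
      rw [he]
      simp only
      rw [Pi.single_apply, if_neg]
      intro h; rw [h] at hj; omega
    have key1 : ∀ i : Fin 16, i.val < 3 → (e i 0 ^ 2 + e i 1 ^ 2 + e i 2 ^ 2 = 1) →
        a i * b i = 1 := by
      intro i hi hi1
      have h1 := hprod (e i) (hsupp i hi)
      have h2 := hprod (-(e i)) (fun j hj => by simp [hsupp i hi j hj])
      rw [fe, ge, hi1] at h1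
      simp only [Pi.neg_apply, neg_sq] at h2
      rw [fn, gn, hi1] at h2
      linear_combination (1 / 2) * h1 + (1 / 2) * h2 - h00
    have key2 : ∀ i j : Fin 16, i.val < 3 → j.val < 3 →
        ((e i + e j) 0 ^ 2 + (e i + e j) 1 ^ 2 + (e i + e j) 2 ^ 2 = 2) →
        (a i + a j) * (b i + b j) = 2 := by
      intro i j hi hj hij
      have h1 := hprod (e i + e j) (fun k hk => by simp [hsupp i hi k hk, hsupp j hj k hk])
      have h2 := hprod (-(e i) + -(e j)) (fun k hk => by simp [hsupp i hi k hk, hsupp j hj k hk])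
      rw [fee, gee, hij] at h1
      have h3 : (-(e i) + -(e j)) 0 ^ 2 + (-(e i) + -(e j)) 1 ^ 2 + (-(e i) + -(e j)) 2 ^ 2 =
          (e i + e j) 0 ^ 2 + (e i + e j) 1 ^ 2 + (e i + e j) 2 ^ 2 := by
        simp only [Pi.add_apply, Pi.neg_apply]; ring
      rw [fnn, gnn, h3, hij] at h2
      linear_combination (1 / 2) * h1 + (1 / 2) * h2 - h00
    have k0 := key1 0 (by decide) (by simp [he])
    have k1 := key1 1 (by decide) (by simp [he])
    have k2 := key1 2 (by decide) (by simp [he, Pi.single_apply])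
    have k01 := key2 0 1 (by decide) (by decide) (by simp [he]; norm_num)
    have k02 := key2 0 2 (by decide) (by decide) (by simp [he]; norm_num)
    have k12 := key2 1 2 (by decide) (by decide) (by simp [he]; norm_num)
    have p01 : (a 0 * b 1) ^ 2 = -1 := by
      linear_combination (a 0 * b 1) * k01 - (a 0 * b 1) * k0 - (a 0 * b 1) * k1 -
        (a 1 * b 1) * k0 - k1
    have p02 : (a 0 * b 2) ^ 2 = -1 := by
      linear_combination (a 0 * b 2) * k02 - (a 0 * b 2) * k0 - (a 0 * b 2) * k2 -
        (a 2 * b 2) * k0 - k2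
    have p12 : (a 1 * b 2) ^ 2 = -1 := by
      linear_combination (a 1 * b 2) * k12 - (a 1 * b 2) * k1 - (a 1 * b 2) * k2 -
        (a 2 * b 2) * k1 - k2
    have hmul : (a 0 * b 1) * (a 1 * b 2) = a 0 * b 2 := by
      linear_combination (a 0 * b 2) * k1
    have : (a 0 * b 2) ^ 2 = 1 := by
      rw [← hmul, mul_pow, p01, p12]; norm_num
    rw [p02] at this
    norm_num at this

end Pool.Agent.Helper184.Lsd
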