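import Mathlib
import Pool.Agent.Helper184.Lsd
import Pool.Agent.Helper184.LsdPoly

set_option autoImplicit false

namespace Pool.Agent.Helper184.Lsd

open MvPolynomial

lemma eval_qAB (q : MP) (hq : q = qp ∨ q = qm) (v : Fin 16 → ℂ) (hv : ∀ i, 3 ≤ i.val → v i = 0) :
    eval v q = v 0 ^ 2 + v 1 ^ 2 + v 2 ^ 2 := by
  have hy : ∀ k : Fin 8, eval v (y (R := MP) X k) = if k.val < 3 then v (Fin.castAdd 8 k) else 0 := by
    intro k
    unfold y
    rw [map_sub, eval_X, eval_X, hv (Fin.natAdd 8 k) (by simp), sub_zero]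
    split_ifs with h
    · rfl
    · exact hv _ (by simpa using h)
  have h0 : eval v (y (R := MP) X 0) = v 0 := by rw [hy]; rfl
  have h1 : eval v (y (R := MP) X 1) = v 1 := by rw [hy]; rfl
  have h2 : eval v (y (R := MP) X 2) = v 2 := by rw [hy]; rfl
  have h3 : eval v (y (R := MP) X 3) = 0 := by rw [hy]; rfl
  have h4 : eval v (y (R := MP) X 4) = 0 := by rw [hy]; rfl
  have h5 : eval v (y (R := MP) X 5) = 0 := by rw [hy]; rfl
  have h6 : eval v (y (R := MP) X 6) = 0 := by rw [hy]; rfl
  have h7 : eval v (y (R := MP) X 7) = 0 := by rw [hy]; rfl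
  rcases hq with rfl | rfl
  · unfold qp qA qB
    simp only [map_add, map_pow, h0, h1, h2, h3, h4, h5, h6, h7]
    ring
  · unfold qm qA qB
    simp only [map_add, map_sub, map_pow, h0, h1, h2, h3, h4, h5, h6, h7]
    ring

lemma qp_hom : qp.IsHomogeneous 2 := qA_hom.add qB_hom

lemma qm_hom : qm.IsHomogeneous 2 := qA_hom.sub qB_hom

lemma qp_irr : Irreducible qp := quad_irr qp_hom (eval_qAB qp (Or.inl rfl))

lemma qm_irr : Irreducible qm := quad_irr qm_hom (eval_qAB qm (Or.inr rfl))

lemma qp_deg : qp.totalDegree = 2 := qp_hom.totalDegree qp_irr.ne_zero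

lemma qm_deg : qm.totalDegree = 2 := qm_hom.totalDegree qm_irr.ne_zero

lemma assoc_deg {f g : MP} (h : Associated f g) (hf : f ≠ 0) : f.totalDegree = g.totalDegree := by
  obtain ⟨w, hw⟩ := h
  have h1 := (MvPolynomial.isUnit_iff_totalDegree_of_isReduced.mp w.isUnit).2
  rw [← hw, totalDegree_mul_of_isDomain hf w.ne_zero, h1, add_zero]

lemma assoc_eval {f g : MP} (h : Associated f g) (v : Fin 16 → ℂ) (hf : eval v f = 0) :
    eval v g = 0 := by
  obtain ⟨w, hw⟩ := h
  rw [← hw, map_mul, hf, zero_mul]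

lemma not_assoc_lin {c c' : Fin 8} (h : c ≠ c') : ¬ Associated (lin c) (lin c') := by
  intro ha
  have h1 := assoc_eval ha _ (eval_lin_ne h)
  rw [eval_lin_self] at h1
  norm_num at h1

lemma not_assoc_q : ¬ Associated qp qm := by
  intro ha
  have h1 : eval (pt (fun k => if k = 0 then 1 else if k = 4 then Complex.I else 0)
      (fun _ => 0)) qp = 0 := by
    rw [eval_qp]
    simp [qA, qB]
  have h2 := assoc_eval ha _ h1
  rw [eval_qm] at h2
  simp [qA, qB] at h2

/-- the list of all factors -/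
noncomputable def P : Fin (8 + 2) → MP := Fin.append lin ![qp, qm]

lemma P_irr (j : Fin (8 + 2)) : Irreducible (P j) := by
  refine Fin.addCases (fun c => ?_) (fun c => ?_) j
  · unfold P; rw [Fin.append_left]; exact lin_irr c
  · unfold P; rw [Fin.append_right]
    fin_cases c
    · exact qp_irr
    · exact qm_irr

lemma P_assoc (i j : Fin (8 + 2)) (hij : i ≠ j) : ¬ Associated (P i) (P j) := by
  revert hij
  refine Fin.addCases (fun c => ?_) (fun c => ?_) i <;>
  refine Fin.addCases (fun d => ?_) (fun d => ?_) j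
  · intro h
    unfold P; rw [Fin.append_left, Fin.append_left]
    exact not_assoc_lin (fun h' => h (by rw [h']))
  · intro _
    unfold P; rw [Fin.append_left, Fin.append_right]
    intro ha
    have h1 := assoc_deg ha (lin_ne c)
    rw [lin_deg] at h1
    fin_cases d
    · change 1 = qp.totalDegree at h1; rw [qp_deg] at h1; omega
    · change 1 = qm.totalDegree at h1; rw [qm_deg] at h1; omega
  · intro _
    unfold P; rw [Fin.append_left, Fin.append_right]
    intro ha
    have h1 := assoc_deg ha.symm (lin_ne d)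
    rw [lin_deg] at h1
    fin_cases c
    · change 1 = qp.totalDegree at h1; rw [qp_deg] at h1; omega
    · change 1 = qm.totalDegree at h1; rw [qm_deg] at h1; omega
  · intro h
    unfold P; rw [Fin.append_right, Fin.append_right]
    fin_cases c <;> fin_cases d
    · exact absurd rfl h
    · exact not_assoc_q
    · exact fun ha => not_assoc_q ha.symm
    · exact absurd rfl h

lemma P_prod : ∏ j, P j ^ (P j).totalDegree = (∏ c : Fin 8, lin c) * (qp ^ 2 * qm ^ 2) := by
  have hA : ∏ c : Fin 8, P (Fin.castAdd 2 c) ^ (P (Fin.castAdd 2 c)).totalDegree =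
      ∏ c : Fin 8, lin c := by
    apply Finset.prod_congr rfl
    intro c _
    unfold P; rw [Fin.append_left, lin_deg, pow_one]
  have h0 : P (Fin.natAdd 8 (0 : Fin 2)) = qp := by
    unfold P; rw [Fin.append_right]; rfl
  have h1 : P (Fin.natAdd 8 (1 : Fin 2)) = qm := by
    unfold P; rw [Fin.append_right]; rfl
  have hB : ∏ c : Fin 2, P (Fin.natAdd 8 c) ^ (P (Fin.natAdd 8 c)).totalDegree =
      qp ^ 2 * qm ^ 2 := by
    rw [Fin.prod_univ_two, h0, h1, qp_deg, qm_deg]
  rw [Fin.prod_univ_add, hA, hB]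

theorem main : ¬ (∀ (n : ℕ), 0 < n → ∀ (L : Fin n → Fin n → Fin n),
    (∀ i, Function.Bijective (L i)) →
    (∀ j, Function.Bijective (fun i => L i j)) →
    (∃ (k : ℕ) (P : Fin k → MvPolynomial (Fin n) ℂ) (c : ℂ), c ≠ 0 ∧
      (∀ j, Irreducible (P j)) ∧
      (∀ i j, i ≠ j → ¬ Associated (P i) (P j)) ∧
      (Matrix.of (fun i j => (MvPolynomial.X (L i j) : MvPolynomial (Fin n) ℂ))).det
        = MvPolynomial.C c * ∏ j, P j ^ (P j).totalDegree) →
    ∃ (G : Type) (_ : Group G) (a : Fin n ≃ G) (b : Fin n ≃ G) (e : G ≃ Fin n),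
      ∀ i j, L i j = e (a i * b j)) := by
  intro h
  apply not_group
  apply h 16 (by norm_num) L
  · intro i
    exact Finite.injective_iff_bijective.mp (fun j j' hj => L_row i j j' hj)
  · intro j
    exact Finite.injective_iff_bijective.mp (fun i i' hi => L_col j i i' hi)
  · refine ⟨8 + 2, P, 1, one_ne_zero, P_irr, P_assoc, ?_⟩
    rw [det_eq, P_prod, C_1, one_mul]

end Pool.Agent.Helper184.Lsd
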