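import Mathlib

set_option autoImplicit false

namespace Pool.Agent.Helper184.Mols

/-- `op` is a quasigroup operation on `S`: each of the equations `a * x = b` and `y * a = b`
has exactly one solution. -/
def IsQuasigroup {S : Type} (op : S → S → S) : Prop :=
  (∀ a b : S, ∃! x : S, op a x = b) ∧ (∀ a b : S, ∃! y : S, op y a = b)

/-- `op` is isotopic to a group: there are a group `G` and bijections `α`, `β`, `γ` from `S`
to `G` with `γ (x * y) = α x * β y`. -/
def IsotopicToGroup {S : Type} (op : S → S → S) : Prop :=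
  ∃ (G : Type) (_ : Group G) (α β γ : S ≃ G), ∀ x y : S, γ (op x y) = α x * β y

/-- The Cayley tables of `f` and `g` are orthogonal: the ordered pairs `(f x y, g x y)` are
pairwise distinct. -/
def Orthogonal {S : Type} (f g : S → S → S) : Prop :=
  Function.Injective (fun c : S × S => (f c.1 c.2, g c.1 c.2))

/-- There are `m` quasigroups on `Fin n`, none of them isotopic to a group, whose Cayley tables
are mutually orthogonal. -/
def HasFamily (n m : ℕ) : Prop :=
  ∃ Q : Fin m → Fin n → Fin n → Fin n,
    (∀ i, IsQuasigroup (Q i)) ∧ (∀ i, ¬ IsotopicToGroup (Q i)) ∧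
    (∀ i j, i ≠ j → Orthogonal (Q i) (Q j))

/-- `M n` is the largest `m` such that there are `m` mutually orthogonal quasigroups of order `n`,
none of them isotopic to a group. -/
noncomputable def M (n : ℕ) : ℕ := sSup {m : ℕ | HasFamily n m}

lemma family_zero (n : ℕ) : HasFamily n 0 :=
  ⟨fun i => i.elim0, fun i => i.elim0, fun i => i.elim0, fun i => i.elim0⟩

/-- At most `n - 1` mutually orthogonal quasigroups of order `n ≥ 2`. -/
lemma family_le {n m : ℕ} (hn : 2 ≤ n) (h : HasFamily n m) : m ≤ n - 1 := by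
  obtain ⟨Q, hQ, -, hO⟩ := h
  let z : Fin n := ⟨0, by omega⟩
  let o : Fin n := ⟨1, by omega⟩
  have hzo : o ≠ z := by
    intro h; have := congrArg Fin.val h; simp [z, o] at this
  choose y hy _ using fun i : Fin m => (hQ i).1 z (Q i o z)
  simp only at hy
  have hy0 : ∀ i, y i ≠ z := by
    intro i h0
    have h1 := hy i
    rw [h0] at h1
    exact hzo (((hQ i).2 z (Q i o z)).unique rfl h1)
  have hinj : Function.Injective y := by
    intro i j hij
    by_contra hne
    have h1 := hO i j hne
    have h2 : ((z, y i) : Fin n × Fin n) = (o, z) := by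
      apply h1
      simp only
      rw [hy i, hij, hy j]
    have := congrArg Prod.fst h2
    exact hzo this.symm
  have hcard : Fintype.card (Fin m) ≤ Fintype.card {x : Fin n // x ≠ z} :=
    Fintype.card_le_of_injective (fun i => (⟨y i, hy0 i⟩ : {x : Fin n // x ≠ z}))
      (fun i j hij => hinj (congrArg Subtype.val hij))
  rw [Fintype.card_fin, Fintype.card_subtype_compl, Fintype.card_fin,
    Fintype.card_subtype_eq] at hcard
  exact hcard

/-- For `n ≥ 2` the number `M n` is an attained maximum. -/
lemma M_isGreatest {n : ℕ} (hn : 2 ≤ n) : IsGreatest {m : ℕ | HasFamily n m} (M n) := by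
  have hne : {m : ℕ | HasFamily n m}.Nonempty := ⟨0, family_zero n⟩
  have hbdd : BddAbove {m : ℕ | HasFamily n m} := ⟨n - 1, fun m hm => family_le hn hm⟩
  exact ⟨Nat.sSup_mem hne hbdd, fun m hm => le_csSup hbdd hm⟩

lemma M_eq {n : ℕ} (hn : 2 ≤ n) (h : HasFamily n (n - 1)) : M n = n - 1 :=
  le_antisymm (family_le hn (M_isGreatest hn).1) ((M_isGreatest hn).2 h)

/-- Transport of a family to `Fin n`. -/
lemma family_of {S I : Type} [Fintype S] [Fintype I] (Q : I → S → S → S)
    (hQ : ∀ i, IsQuasigroup (Q i)) (hG : ∀ i, ¬ IsotopicToGroup (Q i))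
    (hO : ∀ i j, i ≠ j → Orthogonal (Q i) (Q j)) :
    HasFamily (Fintype.card S) (Fintype.card I) := by
  let e : S ≃ Fin (Fintype.card S) := Fintype.equivFin S
  let f : I ≃ Fin (Fintype.card I) := Fintype.equivFin I
  refine ⟨fun i x y => e (Q (f.symm i) (e.symm x) (e.symm y)), ?_, ?_, ?_⟩
  · intro i
    constructor
    · intro a b
      obtain ⟨x, hx, hx'⟩ := (hQ (f.symm i)).1 (e.symm a) (e.symm b)
      refine ⟨e x, ?_, ?_⟩
      · simp only [Equiv.symm_apply_apply]; rw [hx]; simp
      · intro y hy
        have := hx' (e.symm y) (by simp only at hy ⊢; rw [← hy]; simp)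
        rw [← this]; simp
    · intro a b
      obtain ⟨x, hx, hx'⟩ := (hQ (f.symm i)).2 (e.symm a) (e.symm b)
      refine ⟨e x, ?_, ?_⟩
      · simp only [Equiv.symm_apply_apply]; rw [hx]; simp
      · intro y hy
        have := hx' (e.symm y) (by simp only at hy ⊢; rw [← hy]; simp)
        rw [← this]; simp
  · intro i hi
    obtain ⟨G, hGG, α, β, γ, h⟩ := hi
    apply hG (f.symm i)
    refine ⟨G, hGG, e.trans α, e.trans β, e.trans γ, ?_⟩
    intro x y
    have := h (e x) (e y)
    simpa using this
  · intro i j hij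
    have h := hO (f.symm i) (f.symm j) (fun h => hij (f.symm.injective h))
    rintro ⟨x, y⟩ ⟨x', y'⟩ hxy
    simp only [Prod.mk.injEq, EmbeddingLike.apply_eq_iff_eq] at hxy
    have h2 : ((e.symm x, e.symm y) : S × S) = (e.symm x', e.symm y') := by
      apply h
      simp only [Prod.mk.injEq]
      exact hxy
    simp only [Prod.mk.injEq, EmbeddingLike.apply_eq_iff_eq] at h2
    exact Prod.ext h2.1 h2.2

end Pool.Agent.Helper184.Mols
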