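import Mathlib
import Pool.Agent.Helper184.MolsDefs

set_option autoImplicit false

namespace Pool.Agent.Helper184.Mols

/-- nearfield structure (right distributive) on an additive group. -/
structure NF (N : Type) [AddCommGroup N] where
  mul : N → N → N
  one : N
  inv : N → N
  one_ne : one ≠ 0
  add_mul : ∀ x y z, mul (x + y) z = mul x z + mul y z
  mul_zero : ∀ x, mul x 0 = 0
  mul_assoc : ∀ x y z, mul (mul x y) z = mul x (mul y z)
  one_mul : ∀ x, mul one x = x
  mul_one : ∀ x, mul x one = x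
  mul_inv : ∀ x, x ≠ 0 → mul x (inv x) = one
  inv_mul : ∀ x, x ≠ 0 → mul (inv x) x = one

namespace NF

variable {N : Type} [AddCommGroup N] (F : NF N)

lemma zero_mul (z : N) : F.mul 0 z = 0 := by
  have h := F.add_mul 0 0 z
  rw [add_zero] at h
  exact left_eq_add.mp h

lemma neg_mul (x z : N) : F.mul (-x) z = - F.mul x z := by
  have h := F.add_mul (-x) x z
  rw [neg_add_cancel, F.zero_mul] at h
  exact eq_neg_of_add_eq_zero_left h.symm

lemma sub_mul (x y z : N) : F.mul (x - y) z = F.mul x z - F.mul y z := by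
  rw [sub_eq_add_neg, F.add_mul, F.neg_mul, ← sub_eq_add_neg]

lemma inv_ne {x : N} (hx : x ≠ 0) : F.inv x ≠ 0 := by
  intro h
  have := F.mul_inv x hx
  rw [h, F.mul_zero] at this
  exact F.one_ne this.symm

lemma mul_left_cancel {x y z : N} (hx : x ≠ 0) (h : F.mul x y = F.mul x z) : y = z := by
  have h2 := congrArg (F.mul (F.inv x)) h
  rw [← F.mul_assoc, ← F.mul_assoc, F.inv_mul x hx, F.one_mul, F.one_mul] at h2
  exact h2

lemma mul_right_cancel {x y z : N} (hz : z ≠ 0) (h : F.mul x z = F.mul y z) : x = y := by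
  have h2 := congrArg (fun t => F.mul t (F.inv z)) h
  rw [F.mul_assoc, F.mul_assoc, F.mul_inv z hz, F.mul_one, F.mul_one] at h2
  exact h2

lemma mul_ne {x y : N} (hx : x ≠ 0) (hy : y ≠ 0) : F.mul x y ≠ 0 := by
  intro h
  apply hy
  apply F.mul_left_cancel hx
  rw [h, F.mul_zero]

lemma inv_inv {x : N} (hx : x ≠ 0) : F.inv (F.inv x) = x := by
  apply F.mul_left_cancel (F.inv_ne hx)
  rw [F.mul_inv _ (F.inv_ne hx), F.inv_mul x hx]

lemma inv_mul_rev {x y : N} (hx : x ≠ 0) (hy : y ≠ 0) :
    F.inv (F.mul x y) = F.mul (F.inv y) (F.inv x) := by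
  apply F.mul_left_cancel (F.mul_ne hx hy)
  rw [F.mul_inv _ (F.mul_ne hx hy), F.mul_assoc, ← F.mul_assoc y, F.mul_inv y hy, F.one_mul,
    F.mul_inv x hx]

lemma neg_one_sq : F.mul (-F.one) (-F.one) = F.one := by
  rw [F.neg_mul, F.one_mul, neg_neg]

lemma inv_neg_one : F.inv (-F.one) = -F.one := by
  have h : -F.one ≠ 0 := neg_ne_zero.mpr F.one_ne
  apply F.mul_left_cancel h
  rw [F.mul_inv _ h, F.neg_one_sq]

open Classical in
/-- The operation `z, u ↦ z ∘ (z⁻¹ ∘ u - a)` (and `0, u ↦ u`). -/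
noncomputable def L (a z u : N) : N := if z = 0 then u else F.mul z (F.mul (F.inv z) u - a)

lemma L_zero (a u : N) : F.L a 0 u = u := by simp [L]

lemma L_ne {a z u : N} (hz : z ≠ 0) : F.L a z u = F.mul z (F.mul (F.inv z) u - a) := by
  simp [L, hz]

/-- `L a z u = w` in terms of `y = z⁻¹`. -/
lemma L_eq_iff {a z u w : N} (hz : z ≠ 0) :
    F.L a z u = w ↔ F.mul (F.inv z) u - F.mul (F.inv z) w = a := by
  rw [F.L_ne hz]
  constructor
  · intro h
    rw [← h, ← F.mul_assoc, F.inv_mul z hz, F.one_mul]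
    abel
  · intro h
    have : F.mul (F.inv z) u - a = F.mul (F.inv z) w := by rw [← h]; abel
    rw [this, ← F.mul_assoc, F.mul_inv z hz, F.one_mul]

lemma phi_inj {u w : N} (huw : u ≠ w) {y y' : N}
    (h : F.mul y u - F.mul y w = F.mul y' u - F.mul y' w) : y = y' := by
  by_contra hne
  have h1 : F.mul (y - y') u = F.mul (y - y') w := by
    rw [F.sub_mul, F.sub_mul]
    have := sub_eq_zero.mpr h
    rw [← sub_eq_zero]
    rw [← this]
    abel
  exact huw (F.mul_left_cancel (sub_ne_zero.mpr hne) h1)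

lemma phi_surj [Finite N] {u w : N} (huw : u ≠ w) (a : N) :
    ∃ y, F.mul y u - F.mul y w = a := by
  have hinj : Function.Injective (fun y => F.mul y u - F.mul y w) := fun y y' h => F.phi_inj huw h
  exact (Finite.surjective_of_injective hinj) a

lemma L_quasigroup [Finite N] {a : N} (ha : a ≠ 0) : IsQuasigroup (F.L a) := by
  constructor
  · intro z w
    by_cases hz : z = 0
    · subst hz
      exact ⟨w, F.L_zero a w, fun y hy => by simpa [F.L_zero] using hy⟩
    · refine ⟨F.mul z (F.mul (F.inv z) w + a), ?_, ?_⟩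
      · simp only
        rw [F.L_eq_iff hz, ← F.mul_assoc, F.inv_mul z hz, F.one_mul]
        abel
      · intro y hy
        rw [F.L_eq_iff hz] at hy
        rw [← hy]
        have : F.mul (F.inv z) w + (F.mul (F.inv z) y - F.mul (F.inv z) w) =
          F.mul (F.inv z) y := by abel
        rw [this, ← F.mul_assoc, F.mul_inv z hz, F.one_mul]
  · intro u w
    by_cases huw : u = w
    · subst huw
      refine ⟨0, F.L_zero a u, ?_⟩
      intro z hz
      by_contra hz0
      rw [F.L_eq_iff hz0, sub_self] at hz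
      exact ha hz.symm
    · obtain ⟨y, hy⟩ := F.phi_surj huw a
      have hy0 : y ≠ 0 := by
        intro h; rw [h, F.zero_mul, F.zero_mul, sub_zero] at hy; exact ha hy.symm
      refine ⟨F.inv y, ?_, ?_⟩
      · simp only
        rw [F.L_eq_iff (F.inv_ne hy0), F.inv_inv hy0]
        exact hy
      · intro z hz
        have hz0 : z ≠ 0 := by
          intro h; rw [h, F.L_zero] at hz; exact huw hz
        rw [F.L_eq_iff hz0] at hz
        have : F.inv z = y := F.phi_inj huw (by rw [hz, hy])
        rw [← this, F.inv_inv hz0]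

lemma L_orthogonal {a b : N} (ha : a ≠ 0) (hb : b ≠ 0) (hab : a ≠ b) :
    Orthogonal (F.L a) (F.L b) := by
  rintro ⟨z, u⟩ ⟨z', u'⟩ h
  simp only [Prod.mk.injEq] at h
  obtain ⟨h1, h2⟩ := h
  have key : ∀ z u : N, z ≠ 0 → F.L a z u ≠ F.L b z u := by
    intro z u hz h
    have e1 := (F.L_eq_iff (a := b) (u := u) hz).mp h.symm
    have e2 := (F.L_eq_iff (a := a) (u := u) hz).mp rfl
    rw [e1] at e2
    exact hab e2.symm
  by_cases hz : z = 0
  · subst hz
    rw [F.L_zero] at h1 h2
    have hz' : z' = 0 := by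
      by_contra hz'
      exact key z' u' hz' (by rw [← h1, ← h2])
    subst hz'
    rw [F.L_zero] at h1
    rw [h1]
  · have hz' : z' ≠ 0 := by
      intro hz'
      subst hz'
      rw [F.L_zero] at h1 h2
      exact key z u hz (by rw [h1, h2])
    set s := F.L a z' u' with hs
    set t := F.L b z' u' with ht
    have e1 := (F.L_eq_iff (a := a) (u := u) (w := s) hz).mp h1
    have e2 := (F.L_eq_iff (a := b) (u := u) (w := t) hz).mp h2
    have e3 := (F.L_eq_iff (a := a) (u := u') (w := s) hz').mp hs.symm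
    have e4 := (F.L_eq_iff (a := b) (u := u') (w := t) hz').mp ht.symm
    have hst : s ≠ t := key z' u' hz'
    have h5 : F.mul (F.inv z) s - F.mul (F.inv z) t = F.mul (F.inv z') s - F.mul (F.inv z') t := by
      have e5 : F.mul (F.inv z) s - F.mul (F.inv z) t = b - a := by rw [← e1, ← e2]; abel
      have e6 : F.mul (F.inv z') s - F.mul (F.inv z') t = b - a := by rw [← e3, ← e4]; abel
      rw [e5, e6]
    have h6 : F.inv z = F.inv z' := F.phi_inj hst h5
    have h7 : z = z' := by rw [← F.inv_inv hz, h6, F.inv_inv hz']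
    subst h7
    have h8 : F.mul (F.inv z) u = F.mul (F.inv z) u' := by
      have : F.mul (F.inv z) u - F.mul (F.inv z) s = F.mul (F.inv z) u' - F.mul (F.inv z) s := by
        rw [e1, e3]
      exact sub_left_injective this
    rw [F.mul_left_cancel (F.inv_ne hz) h8]

lemma L_scale (a z u : N) (ha : a ≠ 0) : F.L a z (F.mul u a) = F.mul (F.L F.one z u) a := by
  by_cases hz : z = 0
  · subst hz; rw [F.L_zero, F.L_zero]
  · rw [F.L_ne hz, F.L_ne hz, F.mul_assoc, F.sub_mul, F.one_mul, F.mul_assoc]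

lemma L_auto {c : N} (hc : c ≠ 0) (z u : N) :
    F.L F.one (F.mul c z) (F.mul c u) = F.mul c (F.L F.one z u) := by
  by_cases hz : z = 0
  · subst hz; rw [F.mul_zero, F.L_zero, F.L_zero]
  · rw [F.L_ne hz, F.L_ne (F.mul_ne hc hz), F.inv_mul_rev hc hz, F.mul_assoc, F.mul_assoc,
      ← F.mul_assoc (F.inv c), F.inv_mul c hc, F.one_mul]

lemma L_at_zero (z : N) : F.L F.one z 0 = F.mul z (-F.one) := by
  by_cases hz : z = 0
  · subst hz; rw [F.L_zero, F.zero_mul]
  · rw [F.L_ne hz, F.mul_zero, zero_sub]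

/-- right multiplication by a nonzero element -/
def rmul {a : N} (ha : a ≠ 0) : N ≃ N where
  toFun x := F.mul x a
  invFun x := F.mul x (F.inv a)
  left_inv x := by simp only; rw [F.mul_assoc, F.mul_inv a ha, F.mul_one]
  right_inv x := by simp only; rw [F.mul_assoc, F.inv_mul a ha, F.mul_one]

/-- If one of the squares is isotopic to a group and the order is a prime power, then a
commutation identity holds in the nearfield. -/
lemma comm_of_group [Finite N] {p : ℕ} [Fact p.Prime] {k : ℕ} (hcard : Nat.card N = p ^ k)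
    {a : N} (ha : a ≠ 0) (hG : IsotopicToGroup (F.L a)) (x : N) :
    F.L F.one (-F.one) (F.mul x (-F.one)) = F.L F.one x F.one := by
  obtain ⟨G, hGG, α, β, γ, h⟩ := hG
  -- normalised bijection
  set δ : N → G := fun y => (α 0)⁻¹ * γ (F.mul y a) * (β 0)⁻¹ with hδ
  have hβ0 : β (F.mul 0 a) = β 0 := by rw [F.zero_mul]
  have h' : ∀ z u : N, γ (F.mul (F.L F.one z u) a) = α z * β (F.mul u a) := by
    intro z u
    rw [← F.L_scale a z u ha, h]
  have hmul : ∀ z u : N, δ (F.L F.one z u) = δ (F.mul z (-F.one)) * δ u := by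
    intro z u
    have e1 := h' z u
    have e2 := h' z 0
    have e3 := h' 0 u
    rw [F.L_at_zero, F.zero_mul] at e2
    rw [F.L_zero] at e3
    rw [hδ]
    simp only
    rw [e1, e2, e3]
    group
  have hδinj : Function.Injective δ := by
    intro y y' hy
    rw [hδ] at hy
    simp only [mul_left_inj, mul_right_inj, EmbeddingLike.apply_eq_iff_eq] at hy
    exact F.mul_right_cancel ha hy
  have hδsurj : Function.Surjective δ := by
    intro g
    obtain ⟨y, hy⟩ := γ.surjective (α 0 * g * β 0)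
    refine ⟨F.mul y (F.inv a), ?_⟩
    rw [hδ]
    simp only
    rw [F.mul_assoc, F.inv_mul a ha, F.mul_one, hy]
    group
  have hfinG : Finite G := Finite.of_surjective δ hδsurj
  have hδbij : Function.Bijective δ := ⟨hδinj, hδsurj⟩
  have hcardG : Nat.card G = p ^ k := by
    rw [← hcard, Nat.card_eq_of_bijective δ hδbij]
  have hδ0 : δ 0 = 1 := by
    have := hmul 0 0
    rw [F.L_zero, F.zero_mul] at this
    exact (mul_eq_left.mp this.symm)
  have hsq : ∀ v : N, F.mul (F.mul v (-F.one)) (-F.one) = v := by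
    intro v; rw [F.mul_assoc, F.neg_one_sq, F.mul_one]
  -- the automorphisms
  have haut : ∀ (c : N), c ≠ 0 → ∀ u v : N, ∀ w : N, δ w = δ v * δ u →
      δ (F.mul c w) = δ (F.mul c v) * δ (F.mul c u) := by
    intro c hc u v w hw
    have e1 := hmul (F.mul v (-F.one)) u
    rw [hsq, ← hw] at e1
    have e2 := hδinj e1
    rw [← e2, ← F.L_auto hc, hmul, ← F.mul_assoc c, F.mul_assoc (F.mul c v), F.neg_one_sq, F.mul_one]
  have hnt : Nontrivial G := by
    refine ⟨δ F.one, δ 0, ?_⟩
    intro h0
    exact F.one_ne (hδinj h0)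
  have hpG : IsPGroup p G := IsPGroup.of_card hcardG
  have hcen := IsPGroup.center_nontrivial hpG
  obtain ⟨g, hg⟩ := exists_ne (1 : Subgroup.center G)
  obtain ⟨c0, hc0⟩ := hδsurj (g : G)
  have hc00 : c0 ≠ 0 := by
    intro h0
    rw [h0, hδ0] at hc0
    exact hg (Subtype.ext hc0.symm)
  have hcentral : ∀ v : N, δ v * δ c0 = δ c0 * δ v := by
    intro v
    have := Subgroup.mem_center_iff.mp g.2 (δ v)
    rw [← hc0] at this
    exact this
  have hcomm : ∀ u v : N, δ v * δ u = δ u * δ v := by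
    intro u v
    by_cases hu : u = 0
    · subst hu; rw [hδ0]; simp
    · set c := F.mul u (F.inv c0) with hc
      have hcne : c ≠ 0 := F.mul_ne hu (F.inv_ne hc00)
      have hcu : F.mul c c0 = u := by rw [hc, F.mul_assoc, F.inv_mul c0 hc00, F.mul_one]
      set v' := F.mul (F.inv c) v with hv'
      have hcv : F.mul c v' = v := by rw [hv', ← F.mul_assoc, F.mul_inv c hcne, F.one_mul]
      obtain ⟨w, hw⟩ := hδsurj (δ v' * δ c0)
      have e1 := haut c hcne c0 v' w hw
      have e2 := haut c hcne v' c0 w (by rw [hw, hcentral])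
      rw [hcu, hcv] at e1 e2
      rw [← e1, ← e2]
  apply hδinj
  rw [hmul, hmul, F.neg_one_sq, hcomm]

end NF

end Pool.Agent.Helper184.Mols
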