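import Mathlib
import Pool.Agent.Helper184.MolsDefs
import Pool.Agent.Helper184.MolsNear

set_option autoImplicit false

namespace Pool.Agent.Helper184.Mols

section dickson

variable {K : Type} [Field K] [Fintype K] [DecidableEq K] {p k : ℕ} [Fact p.Prime] [CharP K p]

/-- Facts needed on the field. -/
structure Good (K : Type) [Field K] [Fintype K] [DecidableEq K] (σ : K →+* K) (q : ℕ) : Prop where
  card : Fintype.card K = q ^ 2
  odd : Odd q
  pow : ∀ x, σ x = x ^ q

variable {σ : K →+* K} {q : ℕ}

lemma Good.ringChar_ne (h : Good K σ q) : ringChar K ≠ 2 := by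
  intro h2
  have hc := h.card
  have := FiniteField.even_card_iff_char_two.mp h2
  rw [hc] at this
  have ho := h.odd.pow (n := 2)
  rw [Nat.odd_iff] at ho
  omega

lemma Good.sigma_sigma (h : Good K σ q) (x : K) : σ (σ x) = x := by
  rw [h.pow, h.pow, ← pow_mul, ← sq, ← h.card, FiniteField.pow_card]

lemma Good.chi_sigma (h : Good K σ q) (x : K) : quadraticChar K (σ x) = quadraticChar K x := by
  rw [h.pow, map_pow]
  obtain ⟨r, hr⟩ := h.odd
  by_cases hx : x = 0
  · subst hx
    simp [hr]
  · rcases quadraticChar_dichotomy hx with h1 | h1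
    · rw [h1]; simp
    · rw [h1]; exact h.odd.neg_one_pow

lemma Good.chi_neg_one (h : Good K σ q) : quadraticChar K (-1) = 1 := by
  rw [quadraticChar_neg_one h.ringChar_ne, h.card]
  obtain ⟨r, hr⟩ := h.odd
  apply ZMod.χ₄_nat_one_mod_four
  rw [hr]
  have : (2 * r + 1) ^ 2 = 4 * (r * r + r) + 1 := by ring
  omega

/-- the Dickson multiplication -/
def dmul (σ : K →+* K) (x m : K) : K := if quadraticChar K m = -1 then σ x * m else x * m

/-- the inverse for the Dickson multiplication -/
def dinv (σ : K →+* K) (x : K) : K := if quadraticChar K x = -1 then σ x⁻¹ else x⁻¹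

lemma chi_dmul (h : Good K σ q) (x m : K) :
    quadraticChar K (dmul σ x m) = quadraticChar K x * quadraticChar K m := by
  unfold dmul
  split_ifs
  · rw [map_mul, h.chi_sigma]
  · rw [map_mul]

/-- The Dickson nearfield. -/
def dNF (h : Good K σ q) : NF K where
  mul := dmul σ
  one := 1
  inv := dinv σ
  one_ne := one_ne_zero
  add_mul x y z := by
    unfold dmul
    split_ifs
    · rw [map_add, _root_.add_mul]
    · rw [_root_.add_mul]
  mul_zero x := by
    unfold dmul
    split_ifs <;> simp
  mul_assoc x y z := by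
    by_cases hz : z = 0
    · subst hz; simp [dmul]
    by_cases hy : y = 0
    · subst hy; simp [dmul]
    have hyz := chi_dmul h y z
    rcases quadraticChar_dichotomy hz with hz1 | hz1 <;>
    rcases quadraticChar_dichotomy hy with hy1 | hy1
    · rw [hz1, hy1, mul_one] at hyz
      have e1 : dmul σ y z = y * z := by unfold dmul; rw [hz1]; norm_num
      rw [e1] at hyz ⊢
      unfold dmul
      rw [hyz, hz1, hy1]; norm_num; ring
    · rw [hz1, hy1, mul_one] at hyz
      have e1 : dmul σ y z = y * z := by unfold dmul; rw [hz1]; norm_num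
      rw [e1] at hyz ⊢
      unfold dmul
      rw [hyz, hz1, hy1]; norm_num; ring
    · rw [hz1, hy1] at hyz
      have e1 : dmul σ y z = σ y * z := by unfold dmul; rw [hz1]; norm_num
      rw [e1] at hyz ⊢
      unfold dmul
      rw [hyz, hz1, hy1]; norm_num; ring
    · rw [hz1, hy1] at hyz
      have e1 : dmul σ y z = σ y * z := by unfold dmul; rw [hz1]; norm_num
      rw [e1] at hyz ⊢
      unfold dmul
      rw [hyz, hz1, hy1]; norm_num
      rw [h.sigma_sigma]; ring
  one_mul x := by
    unfold dmul
    split_ifs <;> simp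
  mul_one x := by
    unfold dmul
    rw [MulChar.map_one]; norm_num
  mul_inv x hx := by
    unfold dmul dinv
    rcases quadraticChar_dichotomy hx with hx1 | hx1
    · have : quadraticChar K x⁻¹ = 1 := by
        have e := map_mul (quadraticChar K) x x⁻¹
        rw [mul_inv_cancel₀ hx, MulChar.map_one, hx1, one_mul] at e
        exact e.symm
      have hne : ¬ ((1 : ℤ) = -1) := by norm_num
      rw [hx1, if_neg hne, this, if_neg hne]
      exact mul_inv_cancel₀ hx
    · have : quadraticChar K x⁻¹ = -1 := by
        have e := map_mul (quadraticChar K) x x⁻¹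
        rw [mul_inv_cancel₀ hx, MulChar.map_one, hx1] at e
        linarith
      rw [hx1, if_pos rfl, h.chi_sigma, this, if_pos rfl, ← map_mul, mul_inv_cancel₀ hx, map_one]
  inv_mul x hx := by
    unfold dmul dinv
    rcases quadraticChar_dichotomy hx with hx1 | hx1
    · rw [hx1, if_neg (by norm_num), if_neg (by norm_num)]
      exact inv_mul_cancel₀ hx
    · rw [hx1, if_pos rfl, if_pos rfl, h.sigma_sigma, inv_mul_cancel₀ hx]

/-- There is a nonzero square `x` with `1 - x` a nonsquare. -/
lemma Good.exists_x (h : Good K σ q) :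
    ∃ x : K, quadraticChar K x = 1 ∧ quadraticChar K (1 - x) = -1 := by
  by_contra hcon
  push Not at hcon
  have hch := h.ringChar_ne
  -- squares are closed under subtraction
  have hsub : ∀ s t : K, IsSquare s → IsSquare t → IsSquare (s - t) := by
    intro s t hs ht
    by_cases hs0 : s = 0
    · subst hs0
      have h1 : IsSquare (-1 : K) := by
        have := (quadraticChar_one_iff_isSquare (a := (-1 : K)) (by simp)).mp h.chi_neg_one
        exact this
      have : (0 : K) - t = (-1) * t := by ring
      rw [this]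
      exact h1.mul ht
    by_cases ht0 : t = 0
    · subst ht0; simpa using hs
    by_cases hst : s = t
    · subst hst; simp
    have h1 : quadraticChar K s = 1 := (quadraticChar_one_iff_isSquare hs0).mpr hs
    have h2 : quadraticChar K t = 1 := (quadraticChar_one_iff_isSquare ht0).mpr ht
    have h3 : quadraticChar K (t / s) = 1 := by
      have e := map_mul (quadraticChar K) (t / s) s
      rw [div_mul_cancel₀ t hs0, h1, h2, mul_one] at e
      exact e.symm
    have h4 := hcon _ h3
    have h5 : (1 : K) - t / s ≠ 0 := by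
      intro h6
      apply hst
      have h7 : t / s = 1 := (sub_eq_zero.mp h6).symm
      rw [div_eq_one_iff_eq hs0] at h7
      exact h7.symm
    have h6 : quadraticChar K (1 - t / s) = 1 := by
      rcases quadraticChar_dichotomy h5 with h7 | h7
      · exact h7
      · exact absurd h7 h4
    have h7 : IsSquare (1 - t / s) := (quadraticChar_one_iff_isSquare h5).mp h6
    have h8 : s - t = s * (1 - t / s) := by field_simp
    rw [h8]
    exact hs.mul h7
  obtain ⟨c, hc⟩ := FiniteField.exists_nonsquare hch
  apply hc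
  have hR : Fintype.card K % 2 = 1 := FiniteField.odd_card_of_char_ne_two hch
  obtain ⟨a, b, hab⟩ := FiniteField.exists_root_sum_quadratic
    (f := (Polynomial.X ^ 2 : Polynomial K)) (g := (Polynomial.X ^ 2 - Polynomial.C c))
    (by simp) (by rw [Polynomial.degree_sub_C] <;> simp) hR
  simp only [Polynomial.eval_pow, Polynomial.eval_X, Polynomial.eval_sub, Polynomial.eval_C] at hab
  have h1 : c = a ^ 2 - (0 - b ^ 2) := by linear_combination -hab
  rw [h1]
  exact hsub _ _ ⟨a, sq a⟩ (hsub _ _ ⟨0, by simp⟩ ⟨b, sq b⟩)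

theorem dickson_not_group (h : Good K σ q) {p k : ℕ} [Fact p.Prime]
    (hcard : Nat.card K = p ^ k) {a : K} (ha : a ≠ 0) :
    ¬ IsotopicToGroup ((dNF h).L a) := by
  intro hG
  obtain ⟨x, hx1, hx2⟩ := h.exists_x
  have hx0 : x ≠ 0 := by
    rintro rfl
    rw [MulChar.map_zero] at hx1
    exact zero_ne_one hx1
  have key := (dNF h).comm_of_group hcard ha hG x
  have hm1 : (-(1 : K)) ≠ 0 := by simp
  have hmul : ∀ u v, (dNF h).mul u v = dmul σ u v := fun _ _ => rfl
  have hone : (dNF h).one = 1 := rfl
  have hinv : ∀ u, (dNF h).inv u = dinv σ u := fun _ => rfl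
  have e1 : dmul σ x (-1) = -x := by
    unfold dmul
    rw [h.chi_neg_one]; norm_num
  have e2 : ∀ y, dmul σ (-1) y = -y := by
    intro y
    unfold dmul
    split_ifs <;> simp
  have e3 : dinv σ (-1) = -1 := by
    unfold dinv
    rw [h.chi_neg_one]; norm_num
  have e4 : ∀ y, dmul σ y 1 = y := (dNF h).mul_one
  have e5 : dinv σ x = x⁻¹ := by
    unfold dinv
    rw [hx1]; norm_num
  rw [hone, (dNF h).L_ne hm1, (dNF h).L_ne hx0] at key
  simp only [hmul, hinv, e1, e2, e3, e4, e5] at key
  have hxinv : quadraticChar K x⁻¹ = 1 := by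
    have e := map_mul (quadraticChar K) x x⁻¹
    rw [mul_inv_cancel₀ hx0, MulChar.map_one, hx1, one_mul] at e
    exact e.symm
  have e6 : quadraticChar K (x⁻¹ - 1) = -1 := by
    have : x⁻¹ - 1 = x⁻¹ * (1 - x) := by field_simp
    rw [this, map_mul, hxinv, hx2]; norm_num
  have e7 : dmul σ x (x⁻¹ - 1) = σ x * (x⁻¹ - 1) := by
    unfold dmul
    rw [e6, if_pos rfl]
  rw [e7] at key
  have h1x : (1 : K) - x ≠ 0 := by
    intro h0
    rw [h0, MulChar.map_zero] at hx2
    norm_num at hx2
  have hσ : σ x = x := by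
    have : (1 - x) * (σ x - x) = 0 := by
      have e8 : -(- -x - 1) = (1 : K) - x := by ring
      rw [e8] at key
      have e9 : x * (σ x * (x⁻¹ - 1)) = σ x * (1 - x) := by field_simp
      have : x * (1 - x) = σ x * (1 - x) := by
        rw [← e9, ← key]
      linear_combination -this
    rcases mul_eq_zero.mp this with h0 | h0
    · exact absurd h0 h1x
    · exact sub_eq_zero.mp h0
  have hσ1 : (1 - x) ^ q = 1 - x := by
    rw [← h.pow, map_sub, map_one, hσ]
  obtain ⟨r, hr⟩ := h.odd
  have h2r : (1 - x) ^ (2 * r) = 1 := by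
    rw [hr, pow_succ] at hσ1
    exact mul_right_cancel₀ h1x (by rw [hσ1, _root_.one_mul])
  have hfin : (quadraticChar K (1 - x) : K) = 1 := by
    rw [quadraticChar_eq_pow_of_char_ne_two' h.ringChar_ne, h.card, hr]
    have : (2 * r + 1) ^ 2 / 2 = 2 * r * (r + 1) := by
      have : (2 * r + 1) ^ 2 = 2 * (2 * r * (r + 1)) + 1 := by ring
      omega
    rw [this, pow_mul, h2r, one_pow]
  rw [hx2] at hfin
  have h2 : (2 : K) ≠ 0 := Ring.two_ne_zero h.ringChar_ne
  apply h2
  push_cast at hfin
  linear_combination -hfin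

end dickson

/-- For each odd prime power `q`, `M (q ^ 2) = q ^ 2 - 1`. -/
theorem M_sq (q : ℕ) (hq : IsPrimePow q) (hodd : Odd q) : M (q ^ 2) = q ^ 2 - 1 := by
  rw [isPrimePow_nat_iff] at hq
  obtain ⟨p, k, hp, hk, rfl⟩ := hq
  have : Fact p.Prime := ⟨hp⟩
  let K := GaloisField p (2 * k)
  let _ : Fintype K := Fintype.ofFinite K
  classical
  have hKN : Nat.card K = p ^ (2 * k) := GaloisField.card p (2 * k) (by omega)
  have hK : Fintype.card K = (p ^ k) ^ 2 := by
    rw [← Nat.card_eq_fintype_card, hKN, ← pow_mul, mul_comm]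
  have hgood : Good K (iterateFrobenius K p k) (p ^ k) :=
    ⟨hK, hodd, fun x => iterateFrobenius_def p k x⟩
  have hfam : HasFamily (Fintype.card K) (Fintype.card {a : K // a ≠ 0}) := by
    apply family_of (fun a : {a : K // a ≠ 0} => (dNF hgood).L (a : K))
    · intro a; exact (dNF hgood).L_quasigroup a.2
    · intro a; exact dickson_not_group hgood hKN a.2
    · intro a b hab
      exact (dNF hgood).L_orthogonal a.2 b.2 (fun h => hab (Subtype.ext h))
  have hc2 : Fintype.card {a : K // a ≠ 0} = (p ^ k) ^ 2 - 1 := by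
    rw [Fintype.card_subtype_compl, hK, Fintype.card_subtype_eq]
  rw [hc2, hK] at hfam
  apply M_eq _ hfam
  have h1 : 2 ≤ p ^ k := by
    calc 2 ≤ p := hp.two_le
      _ = p ^ 1 := (pow_one p).symm
      _ ≤ p ^ k := Nat.pow_le_pow_right hp.pos hk
  nlinarith

end Pool.Agent.Helper184.Mols
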