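import Mathlib

set_option autoImplicit false

namespace Pool.Agent.Helper184.QG

universe u

/-- `(Q, m)` is a quasigroup: `m a x = b` and `m y a = b` have exactly one solution. -/
def IsQuasigroup {Q : Type*} (m : Q → Q → Q) : Prop :=
  (∀ a b, ∃! x, m a x = b) ∧ (∀ a b, ∃! y, m y a = b)

/-- The automorphism group of `(Q, m)`, as a group of permutations of `Q`. -/
def autGroup {Q : Type*} (m : Q → Q → Q) : Subgroup (Equiv.Perm Q) where
  carrier := {φ | ∀ x y, φ (m x y) = m (φ x) (φ y)}
  mul_mem' := by
    intro φ ψ hφ hψ x y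
    rw [Equiv.Perm.mul_apply, Equiv.Perm.mul_apply, Equiv.Perm.mul_apply, hψ, hφ]
  one_mem' := fun _ _ => rfl
  inv_mem' := by
    intro φ hφ x y
    rw [Equiv.Perm.inv_eq_iff_eq, hφ]
    simp

/-- `G` admits a transitive representation by a quasigroup: it is isomorphic to the automorphism
group of some quasigroup on which that automorphism group is transitive. -/
def AdmitsTransitive (G : Type u) [Group G] : Prop :=
  ∃ (Q : Type u) (m : Q → Q → Q), Nonempty Q ∧ IsQuasigroup m ∧ Nonempty (G ≃* autGroup m) ∧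
    ∀ x y : Q, ∃ φ ∈ autGroup m, φ x = y

/-- `G` admits a regular representation by a quasigroup. -/
def AdmitsRegular (G : Type u) [Group G] : Prop :=
  ∃ (Q : Type u) (m : Q → Q → Q), Nonempty Q ∧ IsQuasigroup m ∧ Nonempty (G ≃* autGroup m) ∧
    ∀ x y : Q, ∃! φ : Equiv.Perm Q, φ ∈ autGroup m ∧ φ x = y

/-- `G` has a complete mapping: a bijection `θ` such that `z ↦ z θ(z)` is a bijection. -/
def HasCompleteMapping (G : Type*) [Group G] : Prop :=
  ∃ θ : G → G, Function.Bijective θ ∧ Function.Bijective (fun z => z * θ z)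

end Pool.Agent.Helper184.QG
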