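import Mathlib
import Pool.Agent.Helper184.QGDefs

set_option autoImplicit false

namespace Pool.Agent.Helper184.QG

universe u

lemma cm_of_index {G I : Type*} [Group G] {P R : I → G} (hP : Function.Bijective P)
    (hR : Function.Bijective R) (hPR : Function.Bijective (fun i => P i * R i)) :
    HasCompleteMapping G := by
  set e := Equiv.ofBijective P hP with he
  refine ⟨fun z => R (e.symm z), hR.comp e.symm.bijective, ?_⟩
  have : (fun z => z * R (e.symm z)) = (fun i => P i * R i) ∘ e.symm := by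
    funext z
    have : P (e.symm z) = z := e.apply_symm_apply z
    simp only [Function.comp_apply, this]
  rw [this]
  exact hPR.comp e.symm.bijective

lemma cm_congr {G G' : Type*} [Group G] [Group G'] (e : G ≃* G') (h : HasCompleteMapping G) :
    HasCompleteMapping G' := by
  obtain ⟨θ, h1, h2⟩ := h
  refine cm_of_index (P := e) (R := fun z => e (θ z)) e.bijective (e.bijective.comp h1) ?_
  have : (fun i => e i * e (θ i)) = e ∘ (fun z => z * θ z) := by
    funext z
    simp
  rw [this]
  exact e.bijective.comp h2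

lemma cm_of_injective {G : Type*} [Group G] [Finite G] {θ : G → G} (h1 : Function.Injective θ)
    (h2 : Function.Injective (fun z => z * θ z)) : HasCompleteMapping G :=
  ⟨θ, Finite.injective_iff_bijective.mp h1, Finite.injective_iff_bijective.mp h2⟩

/-- groups of odd order -/
lemma cm_of_odd {G : Type*} [Group G] [Finite G] (h : Odd (Nat.card G)) :
    HasCompleteMapping G := by
  refine ⟨id, Function.bijective_id, ?_⟩
  have h2 : (fun z : G => z * id z) = fun z => z ^ 2 := by
    funext z
    simp [pow_two]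
  rw [h2]
  have hc : (Nat.card G).Coprime 2 := Nat.Coprime.symm (Nat.coprime_two_left.mpr h)
  exact (powCoprime hc).bijective

/-- extensions -/
lemma cm_ext {G : Type*} [Group G] [Finite G] (N : Subgroup G) [N.Normal]
    (h1 : HasCompleteMapping N) (h2 : HasCompleteMapping (G ⧸ N)) : HasCompleteMapping G := by
  obtain ⟨θ1, a1, a2⟩ := h1
  obtain ⟨θ2, b1, b2⟩ := h2
  choose rep hrep using QuotientGroup.mk_surjective (s := N)
  have hmem : ∀ g : G, (rep (QuotientGroup.mk g))⁻¹ * g ∈ N := fun g =>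
    QuotientGroup.eq.mp (hrep _)
  set n : G → N := fun g => ⟨(rep (QuotientGroup.mk g))⁻¹ * g, hmem g⟩ with hn
  have hg : ∀ g : G, g = rep (QuotientGroup.mk g) * n g := by
    intro g
    simp only [hn, mul_inv_cancel_left]
  apply cm_of_injective (θ := fun g => (θ1 (n g) : G) * rep (θ2 (QuotientGroup.mk g)))
  · intro g g' hgg
    simp only at hgg
    have e1 := congrArg (QuotientGroup.mk (s := N)) hgg
    rw [QuotientGroup.mk_mul, QuotientGroup.mk_mul, hrep, hrep,
      (QuotientGroup.eq_one_iff _).mpr (θ1 (n g)).2, (QuotientGroup.eq_one_iff _).mpr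
      (θ1 (n g')).2, one_mul, one_mul] at e1
    have e2 := b1.1 e1
    rw [e2] at hgg
    have e3 : θ1 (n g) = θ1 (n g') := Subtype.ext (mul_right_cancel hgg)
    rw [hg g, hg g', e2, a1.1 e3]
  · intro g g' hgg
    simp only at hgg
    have e1 := congrArg (QuotientGroup.mk (s := N)) hgg
    rw [QuotientGroup.mk_mul, QuotientGroup.mk_mul, QuotientGroup.mk_mul, QuotientGroup.mk_mul,
      hrep, hrep, (QuotientGroup.eq_one_iff _).mpr (θ1 (n g)).2, (QuotientGroup.eq_one_iff _).mpr
      (θ1 (n g')).2, one_mul, one_mul] at e1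
    have e2 : (QuotientGroup.mk g : G ⧸ N) = QuotientGroup.mk g' := b2.1 e1
    have e3 : g * (θ1 (n g) : G) = g' * (θ1 (n g') : G) := by
      rw [e2, ← mul_assoc, ← mul_assoc] at hgg
      exact mul_right_cancel hgg
    have e4 : (n g : G) * θ1 (n g) = n g' * θ1 (n g') := by
      have h1 : (n g : G) = (rep (QuotientGroup.mk g))⁻¹ * g := rfl
      have h2 : (n g' : G) = (rep (QuotientGroup.mk g'))⁻¹ * g' := rfl
      calc (n g : G) * θ1 (n g) = (rep (QuotientGroup.mk g))⁻¹ * (g * θ1 (n g)) := by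
            rw [← mul_assoc, ← h1]
        _ = (rep (QuotientGroup.mk g'))⁻¹ * (g' * θ1 (n g')) := by rw [e3, e2]
        _ = n g' * θ1 (n g') := by rw [← mul_assoc, ← h2]
    have e5 : n g = n g' := a2.1 (Subtype.ext e4)
    rw [hg g, hg g', e2, e5]

/-- exact factorisations -/
lemma cm_fact {G : Type*} [Group G] [Finite G] (A T : Subgroup G)
    (h : Subgroup.IsComplement' A T) (hA : HasCompleteMapping A) (hT : HasCompleteMapping T) :
    HasCompleteMapping G := by
  obtain ⟨φ, a1, a2⟩ := hA
  obtain ⟨θ, b1, b2⟩ := hT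
  have h' : Subgroup.IsComplement' T A := h.symm
  -- uniqueness of decompositions
  have uAT : ∀ (a a' : A) (t t' : T), (a : G) * t = a' * t' → a = a' ∧ t = t' := by
    intro a a' t t' hh
    have := h.1 (a₁ := (a, t)) (a₂ := (a', t')) hh
    exact ⟨congrArg Prod.fst this, congrArg Prod.snd this⟩
  have uTA : ∀ (t t' : T) (a a' : A), (t : G) * a = t' * a' → t = t' ∧ a = a' := by
    intro t t' a a' hh
    have := h'.1 (a₁ := (t, a)) (a₂ := (t', a')) hh
    exact ⟨congrArg Prod.fst this, congrArg Prod.snd this⟩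
  have eTA : ∀ g : G, ∃ p : T × A, (p.1 : G) * p.2 = g := fun g => h'.2 g
  choose d hd using eTA
  -- the second factor
  set w : A × T → T := fun p => (d (((p.1 * φ p.1 : A) : G)⁻¹ * (θ p.2 : G))).1 with hw
  set b : A × T → A := fun p => (d (((p.1 * φ p.1 : A) : G)⁻¹ * (θ p.2 : G))).2 with hb
  have hwb : ∀ p : A × T, ((p.1 * φ p.1 : A) : G) * w p = θ p.2 * (b p : G)⁻¹ := by
    intro p
    have := hd (((p.1 * φ p.1 : A) : G)⁻¹ * (θ p.2 : G))
    rw [eq_inv_mul_iff_mul_eq] at this
    rw [eq_mul_inv_iff_mul_eq, mul_assoc]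
    exact this
  have hcard : Nat.card (A × T) = Nat.card G := by
    rw [Nat.card_prod]
    exact h.card_mul_card
  have hbij : ∀ f : A × T → G, Function.Injective f → Function.Bijective f := fun f hf =>
    (Nat.bijective_iff_injective_and_card f).mpr ⟨hf, hcard⟩
  apply cm_of_index (I := A × T) (P := fun p => (p.2 : G) * p.1) (R := fun p => (φ p.1 : G) * w p)
  · apply hbij
    rintro ⟨a, t⟩ ⟨a', t'⟩ hh
    obtain ⟨rfl, rfl⟩ := uTA t t' a a' hh
    rfl
  · apply hbij
    rintro ⟨a, t⟩ ⟨a', t'⟩ hh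
    obtain ⟨e1, e2⟩ := uAT (φ a) (φ a') (w (a, t)) (w (a', t')) hh
    have e3 := a1.1 e1
    subst e3
    have h1 := hwb (a, t)
    have h2 := hwb (a, t')
    simp only at h1 h2
    rw [e2, h2] at h1
    obtain ⟨e4, -⟩ := uTA (θ t') (θ t) (b (a, t'))⁻¹ (b (a, t))⁻¹ (by simpa using h1)
    rw [b1.1 e4]
  · apply hbij
    rintro ⟨a, t⟩ ⟨a', t'⟩ hh
    simp only at hh
    have key : ∀ (x : A) (y : T), (y : G) * x * (φ x * w (x, y)) =
        ((y * θ y : T) : G) * ((b (x, y))⁻¹ : A) := by
      intro x y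
      have := hwb (x, y)
      simp only at this
      push_cast at this ⊢
      calc (y : G) * x * (φ x * w (x, y)) = y * (x * φ x * w (x, y)) := by group
        _ = y * (θ y * (b (x, y) : G)⁻¹) := by rw [this]
        _ = y * θ y * (b (x, y) : G)⁻¹ := by group
    rw [key, key] at hh
    obtain ⟨e1, e2⟩ := uTA _ _ _ _ hh
    have e3 : t = t' := b2.1 e1
    subst e3
    have e4 : b (a, t) = b (a', t) := inv_injective e2
    have h1 := hwb (a, t)
    have h2 := hwb (a', t)
    simp only at h1 h2
    rw [← e4, ← h1] at h2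
    obtain ⟨e5, -⟩ := uAT _ _ _ _ h2
    have e6 : a' = a := a2.1 e5
    rw [e6]

end Pool.Agent.Helper184.QG
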