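import Mathlib
import Pool.Agent.Helper184.QGDefs

set_option autoImplicit false

namespace Pool.Agent.Helper184.QG

open scoped Classical in
/-- sums over an orbit map of a transitive action are constant multiples of sums over the set -/
lemma sum_orbit {Q G : Type*} [Fintype Q] [Group G] [Fintype G] (e : G →* Equiv.Perm Q)
    (htrans : ∀ x y, ∃ g, e g x = y) (q : Q) :
    ∃ c : ℕ, 0 < c ∧ ∀ F : Q → ℕ, ∑ g, F (e g q) = c * ∑ y, F y := by
  have hN : ∀ y, (Finset.univ.filter (fun g => e g q = y)).card =
      (Finset.univ.filter (fun g => e g q = q)).card := by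
    intro y
    obtain ⟨h, hh⟩ := htrans q y
    symm
    apply Finset.card_bij' (fun g _ => h * g) (fun g _ => h⁻¹ * g)
    · intro g hg
      simp only [Finset.mem_filter, Finset.mem_univ, true_and] at hg ⊢
      rw [map_mul, Equiv.Perm.mul_apply, hg, hh]
    · intro g hg
      simp only [Finset.mem_filter, Finset.mem_univ, true_and] at hg ⊢
      rw [map_mul, Equiv.Perm.mul_apply, hg, map_inv, Equiv.Perm.inv_eq_iff_eq, hh]
    · intro g _
      group
    · intro g _
      group
  refine ⟨(Finset.univ.filter (fun g => e g q = q)).card, ?_, fun F => ?_⟩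
  · apply Finset.card_pos.mpr
    exact ⟨1, by simp⟩
  · rw [← Finset.sum_fiberwise (s := Finset.univ) (g := fun g => e g q), Finset.mul_sum]
    refine Finset.sum_congr rfl fun y _ => ?_
    rw [← hN y, ← smul_eq_mul, ← Finset.sum_const]
    refine Finset.sum_congr rfl fun g hg => ?_
    rw [(Finset.mem_filter.mp hg).2]

/-- The parity lemma. -/
theorem parity {Q G : Type*} [Finite Q] [Group G] [Finite G] {m : Q → Q → Q}
    (hm : IsQuasigroup m) (e : G →* Equiv.Perm Q)
    (haut : ∀ g x y, e g (m x y) = m (e g x) (e g y)) (htrans : ∀ x y, ∃ g, e g x = y) (q : Q)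
    (n : ℕ) (hn : Even n) (hn0 : n ≠ 0) (χ : G → ZMod n) (hχ : ∀ a b, χ (a * b) = χ a + χ b)
    (hsurj : Function.Surjective χ) (hker : ∀ g, e g q = q → χ g = 0) :
    2 * n ∣ Nat.card Q := by
  classical
  have : NeZero n := ⟨hn0⟩
  have := Fintype.ofFinite Q
  have := Fintype.ofFinite G
  have hχ1 : χ 1 = 0 := hker 1 (by simp)
  have hχinv : ∀ g, χ g⁻¹ = - χ g := by
    intro g
    have := hχ g⁻¹ g
    rw [inv_mul_cancel, hχ1] at this
    exact (neg_eq_of_add_eq_zero_left this.symm).symm
  choose γ hγ using fun x => htrans q x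
  set π : Q → ZMod n := fun x => χ (γ x) with hπ
  have hπg : ∀ g x, π (e g x) = χ g + π x := by
    intro g x
    have h1 : e ((γ (e g x))⁻¹ * (g * γ x)) q = q := by
      rw [map_mul, Equiv.Perm.mul_apply, map_mul, Equiv.Perm.mul_apply, hγ, map_inv,
        Equiv.Perm.inv_eq_iff_eq, hγ]
    have h2 := hker _ h1
    rw [hχ, hχ, hχinv] at h2
    simp only [hπ]
    exact (neg_add_eq_zero.mp h2)
  have hπq : π q = 0 := hker _ (hγ q)
  -- the sum is zero
  have hsum : ∑ x, π x = 0 := by
    set d : Q → Q → ZMod n := fun x y => π (m x y) - π x with hd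
    have hdg : ∀ g x y, d (e g x) (e g y) = d x y := by
      intro g x y
      simp only [hd]
      rw [← haut, hπg, hπg]
      ring
    obtain ⟨c, hc, hcF⟩ := sum_orbit e htrans q
    have h1 : ∑ g, (d q (e g q)).val = c * ∑ y, (d q y).val := hcF fun y => (d q y).val
    have h2 : ∑ g, (d (e g q) q).val = c * ∑ y, (d y q).val := hcF fun y => (d y q).val
    have h3 : ∑ g, (d q (e g q)).val = ∑ g, (d (e g q) q).val := by
      rw [← Equiv.sum_comp (Equiv.inv G)]
      refine Finset.sum_congr rfl fun g _ => ?_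
      have := hdg g q (e g⁻¹ q)
      have h4 : e g (e g⁻¹ q) = q := by
        rw [← Equiv.Perm.mul_apply, ← map_mul, mul_inv_cancel, map_one, Equiv.Perm.one_apply]
      rw [h4] at this
      simp only [Equiv.inv_apply]
      rw [← this]
    rw [h1, h2] at h3
    have h4 : ∑ y, (d q y).val = ∑ y, (d y q).val := Nat.eq_of_mul_eq_mul_left hc h3
    have h5 : ∑ y, d q y = ∑ y, d y q := by
      have := congrArg (Nat.cast : ℕ → ZMod n) h4
      simpa using this
    have hL : Function.Bijective (fun y => m q y) :=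
      Function.bijective_iff_existsUnique _ |>.mpr (hm.1 q)
    have hR : Function.Bijective (fun y => m y q) :=
      Function.bijective_iff_existsUnique _ |>.mpr (hm.2 q)
    have h6 : ∑ y, π (m q y) = ∑ y, π y := hL.sum_comp π
    have h7 : ∑ y, π (m y q) = ∑ y, π y := hR.sum_comp π
    simp only [hd, Finset.sum_sub_distrib] at h5
    rw [h6, h7, hπq] at h5
    simpa using h5
  -- all fibres of `π` have the same size
  have hfib : ∀ a : ZMod n, (Finset.univ.filter (fun x => π x = a)).card =
      (Finset.univ.filter (fun x => π x = 0)).card := by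
    intro a
    obtain ⟨g, hg⟩ := hsurj a
    symm
    apply Finset.card_bij' (fun x _ => e g x) (fun x _ => e g⁻¹ x)
    · intro x hx
      simp only [Finset.mem_filter, Finset.mem_univ, true_and] at hx ⊢
      rw [hπg, hx, hg, add_zero]
    · intro x hx
      simp only [Finset.mem_filter, Finset.mem_univ, true_and] at hx ⊢
      rw [hπg, hx, hχinv, hg, neg_add_cancel]
    · intro x _
      rw [← Equiv.Perm.mul_apply, ← map_mul, inv_mul_cancel, map_one, Equiv.Perm.one_apply]
    · intro x _
      rw [← Equiv.Perm.mul_apply, ← map_mul, mul_inv_cancel, map_one, Equiv.Perm.one_apply]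
  set c := (Finset.univ.filter (fun x => π x = 0)).card with hc
  have hcard : Nat.card Q = n * c := by
    rw [Nat.card_eq_fintype_card, ← Finset.card_univ,
      Finset.card_eq_sum_card_fiberwise (f := π) (t := Finset.univ) (fun _ _ => by simp)]
    rw [Finset.sum_congr rfl fun a _ => hfib a, Finset.sum_const, Finset.card_univ, ZMod.card,
      smul_eq_mul]
  have hsum2 : ∑ x, π x = c • ∑ a : ZMod n, a := by
    rw [← Finset.sum_fiberwise (s := Finset.univ) (g := π), Finset.smul_sum]
    refine Finset.sum_congr rfl fun a _ => ?_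
    rw [← hfib a, ← Finset.sum_const]
    exact Finset.sum_congr rfl fun x hx => (Finset.mem_filter.mp hx).2
  have hsum3 : ∑ a : ZMod n, a = ((n / 2 * (n - 1) : ℕ) : ZMod n) := by
    have h1 : ∑ a : ZMod n, a = ∑ i ∈ Finset.range n, ((i : ℕ) : ZMod n) := by
      rw [Finset.sum_range fun i => ((i : ℕ) : ZMod n)]
      obtain ⟨k, rfl⟩ : ∃ k, n = k + 1 := ⟨n - 1, by omega⟩
      refine Finset.sum_congr rfl fun a _ => ?_
      exact (ZMod.natCast_zmod_val a).symm
    rw [h1, ← Nat.cast_sum, Finset.sum_range_id]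
    congr 1
    obtain ⟨k, rfl⟩ := hn
    have : k + k = 2 * k := by ring
    rw [this, Nat.mul_div_cancel_left _ (by norm_num : 0 < 2), mul_assoc,
      Nat.mul_div_cancel_left _ (by norm_num : 0 < 2)]
  rw [hsum, hsum3, nsmul_eq_mul, ← Nat.cast_mul] at hsum2
  have hdvd : n ∣ c * (n / 2 * (n - 1)) := (ZMod.natCast_eq_zero_iff _ _).mp hsum2.symm
  have hcop : Nat.Coprime n (n - 1) := by
    have : n = (n - 1) + 1 := by omega
    rw [this]
    simp
  have hdvd2 : n ∣ c * (n / 2) := by
    rw [← mul_assoc] at hdvd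
    exact hcop.dvd_of_dvd_mul_right hdvd
  obtain ⟨k, hk⟩ := hn
  have hk2 : n / 2 = k := by omega
  rw [hk2] at hdvd2
  have hk0 : 0 < k := by omega
  have hc2 : 2 ∣ c := by
    have : 2 * k ∣ c * k := by rwa [show 2 * k = n by omega]
    exact Nat.dvd_of_mul_dvd_mul_right hk0 this
  rw [hcard, mul_comm 2 n]
  exact Nat.mul_dvd_mul_left n hc2

end Pool.Agent.Helper184.QG
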