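import Mathlib
import Pool.Agent.Helper184.QGDefs
import Pool.Agent.Helper184.QGNeg

set_option autoImplicit false

namespace Pool.Agent.Helper184.QG

universe u

/-- If a finite group with a cyclic Sylow 2-subgroup acts transitively by automorphisms on a
quasigroup, then the order of the quasigroup is odd. -/
theorem odd_card_of_cyclic_sylow {Q G : Type*} [Finite Q] [Group G] [Finite G] {m : Q → Q → Q}
    (hm : IsQuasigroup m) (e : G →* Equiv.Perm Q)
    (haut : ∀ g x y, e g (m x y) = m (e g x) (e g y)) (htrans : ∀ x y, ∃ g, e g x = y) (q : Q)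
    (P : Sylow 2 G) (hP : IsCyclic P) : Odd (Nat.card Q) := by
  classical
  -- the orbit-stabiliser relation
  set H : Subgroup G :=
    { carrier := {g | e g q = q}
      mul_mem' := by
        intro a b ha hb
        simp only [Set.mem_ofPred_eq] at ha hb ⊢
        rw [map_mul, Equiv.Perm.mul_apply, hb, ha]
      one_mem' := by simp
      inv_mem' := by
        intro a ha
        simp only [Set.mem_ofPred_eq] at ha ⊢
        rw [map_inv, Equiv.Perm.inv_eq_iff_eq, ha] } with hH
  have hHmem : ∀ g, g ∈ H ↔ e g q = q := fun g => Iff.rfl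
  have hGQ : Nat.card G = Nat.card Q * Nat.card H := by
    have hinj : Function.Bijective (fun x : G ⧸ H => Quotient.liftOn' x (fun g => e g q) (by
        intro a b hab
        rw [QuotientGroup.leftRel_apply, hHmem, map_mul, Equiv.Perm.mul_apply, map_inv,
          Equiv.Perm.inv_eq_iff_eq] at hab
        exact hab.symm)) := by
      constructor
      · rintro ⟨a⟩ ⟨b⟩ hab
        apply QuotientGroup.eq.mpr
        rw [hHmem, map_mul, Equiv.Perm.mul_apply, map_inv, Equiv.Perm.inv_eq_iff_eq]
        exact hab.symm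
      · intro y
        obtain ⟨g, hg⟩ := htrans q y
        exact ⟨QuotientGroup.mk g, hg⟩
    rw [← Nat.card_eq_of_bijective _ hinj]
    exact Subgroup.card_eq_card_quotient_mul_card_subgroup H
  by_cases hodd : Odd (Nat.card G)
  · exact (Nat.odd_mul.mp (hGQ ▸ hodd)).1
  rw [Nat.not_odd_iff_even] at hodd
  have hmin : (Nat.card G).minFac = 2 := (Nat.minFac_eq_two_iff _).mpr hodd.two_dvd
  have hNC := hP.normalizer_le_centralizer hmin
  have hcompl := hP.isComplement' hmin
  set τ := MonoidHom.transferSylow P hNC with hτ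
  -- the kernel has odd order
  have hKodd : ¬ 2 ∣ Nat.card τ.ker := MonoidHom.not_dvd_card_ker_transferSylow P hNC
  have hτsurj : Function.Surjective τ := by
    have h1 : Nat.card τ.ker * Nat.card P = Nat.card G := hcompl.card_mul_card
    have h2 : Nat.card (G ⧸ τ.ker) * Nat.card τ.ker = Nat.card G :=
      (Subgroup.card_eq_card_quotient_mul_card_subgroup τ.ker).symm
    have h3 : Nat.card τ.range = Nat.card (G ⧸ τ.ker) :=
      (Nat.card_congr (QuotientGroup.quotientKerEquivRange τ).toEquiv).symm
    have h4 : 0 < Nat.card τ.ker := Nat.card_pos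
    have h5 : Nat.card τ.range = Nat.card P := by
      rw [h3]
      apply Nat.eq_of_mul_eq_mul_right h4
      rw [h2, ← h1, mul_comm]
    rw [← MonoidHom.range_eq_top]
    exact Subgroup.eq_top_of_card_eq _ h5
  -- make the target commutative
  set E := zmodCyclicMulEquiv hP with hE
  set χ1 : G →* Multiplicative (ZMod (Nat.card P)) := E.symm.toMonoidHom.comp τ with hχ1
  have hχ1surj : Function.Surjective χ1 := E.symm.surjective.comp hτsurj
  have hχ1ker : ∀ g, χ1 g = 1 ↔ g ∈ τ.ker := by
    intro g
    rw [MonoidHom.mem_ker]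
    simp [hχ1]
  set H1 := H.map χ1 with hH1
  set χ2 : G →* (Multiplicative (ZMod (Nat.card P)) ⧸ H1) :=
    (QuotientGroup.mk' H1).comp χ1 with hχ2
  have hχ2surj : Function.Surjective χ2 := (QuotientGroup.mk'_surjective H1).comp hχ1surj
  have hcyc : IsCyclic (Multiplicative (ZMod (Nat.card P)) ⧸ H1) :=
    isCyclic_of_surjective (QuotientGroup.mk' H1) (QuotientGroup.mk'_surjective H1)
  set n := Nat.card (Multiplicative (ZMod (Nat.card P)) ⧸ H1) with hn
  set E2 := zmodCyclicMulEquiv hcyc with hE2
  have hPpos : 0 < Nat.card P := Nat.card_pos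
  have : NeZero (Nat.card P) := ⟨hPpos.ne'⟩
  have hn0 : n ≠ 0 := Nat.card_pos.ne'
  -- sizes
  have c1 : Nat.card G = Nat.card P * Nat.card τ.ker := by
    rw [mul_comm]
    exact hcompl.card_mul_card.symm
  have c2 : Nat.card P = n * Nat.card H1 := by
    have h1 := Subgroup.card_eq_card_quotient_mul_card_subgroup H1
    rw [← hn] at h1
    rw [← h1]
    simp
  obtain ⟨t, ht, c3⟩ : ∃ t, 0 < t ∧ Nat.card H = Nat.card H1 * t := by
    set ρ : H →* Multiplicative (ZMod (Nat.card P)) := χ1.comp H.subtype with hρ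
    refine ⟨Nat.card ρ.ker, Nat.card_pos, ?_⟩
    have h1 := Subgroup.card_eq_card_quotient_mul_card_subgroup ρ.ker
    have h2 : Nat.card (H ⧸ ρ.ker) = Nat.card ρ.range :=
      Nat.card_congr (QuotientGroup.quotientKerEquivRange ρ).toEquiv
    have h3 : ρ.range = H1 := by
      rw [hρ, MonoidHom.range_comp, Subgroup.range_subtype]
    rw [h1, h2, h3]
  have hH1pos : 0 < Nat.card H1 := Nat.card_pos
  have c4 : Nat.card Q * t = n * Nat.card τ.ker := by
    apply Nat.eq_of_mul_eq_mul_left hH1pos
    calc Nat.card H1 * (Nat.card Q * t) = Nat.card Q * (Nat.card H1 * t) := by ring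
      _ = Nat.card G := by rw [← c3, ← hGQ]
      _ = Nat.card P * Nat.card τ.ker := c1
      _ = (n * Nat.card H1) * Nat.card τ.ker := congrArg (fun x => x * Nat.card τ.ker) c2
      _ = Nat.card H1 * (n * Nat.card τ.ker) := by ring
  by_contra hnodd
  rw [Nat.not_odd_iff_even] at hnodd
  -- `n` is even
  have hneven : Even n := by
    have h1 : 2 ∣ n * Nat.card τ.ker := by
      rw [← c4]
      exact hnodd.two_dvd.mul_right t
    exact even_iff_two_dvd.mpr ((Nat.prime_two.dvd_mul.mp h1).resolve_right hKodd)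
  have hpar := parity hm e haut htrans q n hneven hn0
    (fun g => Multiplicative.toAdd (E2.symm (χ2 g)))
    (fun a b => by simp) ?_ ?_
  · obtain ⟨r, hr⟩ := hpar
    apply hKodd
    have h1 : n * Nat.card τ.ker = n * (2 * (r * t)) := by
      rw [← c4, hr]
      ring
    have h2 := Nat.eq_of_mul_eq_mul_left (Nat.pos_of_ne_zero hn0) h1
    rw [h2]
    exact dvd_mul_right _ _
  · intro a
    obtain ⟨g, hg⟩ := hχ2surj (E2 (Multiplicative.ofAdd a))
    refine ⟨g, ?_⟩
    simp only [hg, MulEquiv.symm_apply_apply, toAdd_ofAdd]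
  · intro g hg
    have h1 : χ2 g = 1 := by
      simp only [hχ2, MonoidHom.comp_apply, QuotientGroup.mk'_apply]
      rw [QuotientGroup.eq_one_iff]
      exact Subgroup.mem_map_of_mem χ1 ((hHmem g).mpr hg)
    simp only [h1, map_one, toAdd_one]

/-- A finite group with a cyclic Sylow 2-subgroup and a nontrivial normal 2-subgroup admits no
transitive representation by a quasigroup. -/
theorem not_admitsTransitive {G : Type u} [Group G] [Finite G] (P : Sylow 2 G)
    (hP : IsCyclic P) (T : Subgroup G) [hT : T.Normal] (hT2 : IsPGroup 2 T) (hTb : T ≠ ⊥) :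
    ¬ AdmitsTransitive G := by
  classical
  rintro ⟨Q, m, ⟨q⟩, hm, ⟨E⟩, htr⟩
  set e : G →* Equiv.Perm Q := (autGroup m).subtype.comp E.toMonoidHom with he
  have haut : ∀ g x y, e g (m x y) = m (e g x) (e g y) := fun g => (E g).2
  have htrans : ∀ x y, ∃ g, e g x = y := by
    intro x y
    obtain ⟨φ, hφ, hxy⟩ := htr x y
    refine ⟨E.symm ⟨φ, hφ⟩, ?_⟩
    simp only [he, MonoidHom.comp_apply, MulEquiv.coe_toMonoidHom, MulEquiv.apply_symm_apply,
      Subgroup.subtype_apply]
    exact hxy
  have hfin : Finite Q := Finite.of_surjective (fun g => e g q) (htrans q)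
  have hodd := odd_card_of_cyclic_sylow hm e haut htrans q P hP
  -- `T` has a fixed point
  let _ : MulAction T Q := MulAction.compHom Q (e.comp T.subtype)
  have hsmul : ∀ (t : T) (x : Q), t • x = e t x := fun _ _ => rfl
  have hfix : (MulAction.fixedPoints T Q).Nonempty := by
    have h1 := hT2.card_modEq_card_fixedPoints Q
    by_contra h
    rw [Set.not_nonempty_iff_eq_empty] at h
    rw [h] at h1
    have h2 : Nat.card (∅ : Set Q) = 0 := by simp
    rw [h2] at h1
    have h3 : 2 ∣ Nat.card Q := (Nat.modEq_zero_iff_dvd).mp h1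
    exact (Nat.not_even_iff_odd.mpr hodd) (even_iff_two_dvd.mpr h3)
  obtain ⟨x, hx⟩ := hfix
  apply hTb
  rw [eq_bot_iff]
  intro t ht
  have h1 : e t = 1 := by
    ext y
    obtain ⟨g, hg⟩ := htrans x y
    have h2 : g⁻¹ * t * g ∈ T := by
      have := hT.conj_mem t ht g⁻¹
      simpa using this
    have h3 : e (g⁻¹ * t * g) x = x := hx ⟨_, h2⟩
    rw [map_mul, map_mul, Equiv.Perm.mul_apply, Equiv.Perm.mul_apply, hg, map_inv,
      Equiv.Perm.inv_eq_iff_eq, hg] at h3
    simpa using h3
  have h2 : E t = 1 := Subtype.ext h1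
  rw [Subgroup.mem_bot]
  exact E.injective (h2.trans (map_one E).symm)

end Pool.Agent.Helper184.QG
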