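import Mathlib

set_option autoImplicit false

namespace Pool.Agent.Helper184.QG

universe u

/-- `f` is an orthomorphism of `G`: `f` and `z ↦ z⁻¹ f(z)` are bijections. -/
def IsOrtho {G : Type*} [Group G] (f : G → G) : Prop :=
  Function.Bijective f ∧ Function.Bijective (fun z => z⁻¹ * f z)

/-- no proper subgroup is invariant under `f` -/
def Good {G : Type*} [Group G] (f : G → G) : Prop :=
  ∀ B : Subgroup G, (∀ z ∈ B, f z ∈ B) → B = ⊤

section

variable {G : Type*} [Group G] [Finite G]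

lemma IsOrtho.mul_right {f : G → G} (hf : IsOrtho f) (c : G) : IsOrtho (fun z => f z * c) := by
  refine ⟨(Equiv.mulRight c).bijective.comp hf.1, ?_⟩
  have : (fun z => z⁻¹ * (f z * c)) = (Equiv.mulRight c) ∘ (fun z => z⁻¹ * f z) := by
    funext z
    simp [mul_assoc]
  rw [this]
  exact (Equiv.mulRight c).bijective.comp hf.2

lemma mem_iff_of_inv {f : G → G} (hf : Function.Injective f) {H : Subgroup G}
    (hH : ∀ z ∈ H, f z ∈ H) (z : G) : f z ∈ H ↔ z ∈ H := by
  refine ⟨fun h => ?_, hH z⟩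
  have hinj : Function.Injective (fun h : H => (⟨f h, hH h h.2⟩ : H)) := by
    intro a b hab
    have : f a = f b := congrArg Subtype.val hab
    exact Subtype.ext (hf this)
  obtain ⟨w, hw⟩ := Finite.surjective_of_injective hinj ⟨f z, h⟩
  have : f w = f z := congrArg Subtype.val hw
  rw [← hf this]
  exact w.2

lemma isOrtho_of_injective {f : G → G} (h1 : Function.Injective f)
    (h2 : Function.Injective (fun z => z⁻¹ * f z)) : IsOrtho f :=
  ⟨Finite.injective_iff_bijective.mp h1, Finite.injective_iff_bijective.mp h2⟩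

/-- the modification of `f` on the invariant subgroup `H` -/
noncomputable def modif (f : G → G) (H : Subgroup G) (θ : H → H) (z : G) : G :=
  open Classical in if h : z ∈ H then (θ ⟨z, h⟩ : G) else f z

lemma modif_mem (f : G → G) (H : Subgroup G) (θ : H → H) {z : G} (h : z ∈ H) :
    modif f H θ z = θ ⟨z, h⟩ := by
  simp [modif, h]

lemma modif_not_mem (f : G → G) (H : Subgroup G) (θ : H → H) {z : G} (h : z ∉ H) :
    modif f H θ z = f z := by
  simp [modif, h]

lemma modif_isOrtho {f : G → G} (hf : IsOrtho f) {H : Subgroup G} (hH : ∀ z ∈ H, f z ∈ H)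
    {θ : H → H} (hθ : IsOrtho θ) : IsOrtho (modif f H θ) := by
  have hmem := mem_iff_of_inv hf.1.1 hH
  apply isOrtho_of_injective
  · intro a b hab
    by_cases ha : a ∈ H
    · by_cases hb : b ∈ H
      · rw [modif_mem f H θ ha, modif_mem f H θ hb] at hab
        have := hθ.1.1 (Subtype.ext hab)
        exact congrArg Subtype.val this
      · rw [modif_mem f H θ ha, modif_not_mem f H θ hb] at hab
        exfalso
        apply hb
        rw [← hmem, ← hab]
        exact (θ ⟨a, ha⟩).2
    · by_cases hb : b ∈ H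
      · rw [modif_not_mem f H θ ha, modif_mem f H θ hb] at hab
        exfalso
        apply ha
        rw [← hmem, hab]
        exact (θ ⟨b, hb⟩).2
      · rw [modif_not_mem f H θ ha, modif_not_mem f H θ hb] at hab
        exact hf.1.1 hab
  · have hg : Function.Injective (fun z => z⁻¹ * f z) := hf.2.1
    have hmem' := mem_iff_of_inv (f := fun z => z⁻¹ * f z) hg
      (fun z hz => H.mul_mem (H.inv_mem hz) (hH z hz))
    intro a b hab
    simp only at hab
    by_cases ha : a ∈ H
    · by_cases hb : b ∈ H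
      · rw [modif_mem f H θ ha, modif_mem f H θ hb] at hab
        have := hθ.2.1 (a₁ := ⟨a, ha⟩) (a₂ := ⟨b, hb⟩) (Subtype.ext hab)
        exact congrArg Subtype.val this
      · rw [modif_mem f H θ ha, modif_not_mem f H θ hb] at hab
        exfalso
        apply hb
        rw [← hmem' b, ← hab]
        exact H.mul_mem (H.inv_mem ha) (θ ⟨a, ha⟩).2
    · by_cases hb : b ∈ H
      · rw [modif_not_mem f H θ ha, modif_mem f H θ hb] at hab
        exfalso
        apply ha
        rw [← hmem' a, hab]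
        exact H.mul_mem (H.inv_mem hb) (θ ⟨b, hb⟩).2
      · rw [modif_not_mem f H θ ha, modif_not_mem f H θ hb] at hab
        exact hg hab

end

/-- Main lemma: a finite group with an orthomorphism has an orthomorphism without invariant
proper subgroups. -/
theorem exists_good_aux (n : ℕ) : ∀ (G : Type u) [Group G] [Finite G], Nat.card G = n →
    (∃ f : G → G, IsOrtho f) → ∃ F : G → G, IsOrtho F ∧ Good F := by
  induction n using Nat.strong_induction_on with
  | _ n ih =>
  intro G _ _ hcard ⟨f0, hf0⟩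
  by_contra hcon
  push Not at hcon
  -- normalise
  obtain ⟨f, hf, hf1⟩ : ∃ f : G → G, IsOrtho f ∧ f 1 = 1 :=
    ⟨fun z => f0 z * (f0 1)⁻¹, hf0.mul_right _, by simp⟩
  -- the group is nontrivial
  have hbt : (⊥ : Subgroup G) ≠ ⊤ := by
    intro h
    apply hcon f hf
    intro B _
    exact le_antisymm le_top (h ▸ bot_le)
  -- a maximal proper invariant subgroup
  obtain ⟨H, ⟨hHtop, hHinv⟩, hHmax⟩ := (wellFounded_gt : WellFounded
    ((· > ·) : Subgroup G → Subgroup G → Prop)).has_min
    {B : Subgroup G | B ≠ ⊤ ∧ ∀ z ∈ B, f z ∈ B}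
    ⟨⊥, hbt, fun z hz => by rw [Subgroup.mem_bot] at hz; rw [hz, hf1]; exact Subgroup.one_mem _⟩
  obtain ⟨y, hy⟩ : ∃ y : G, y ∉ H := by
    by_contra h
    push Not at h
    exact hHtop (Subgroup.eq_top_iff' H |>.mpr h)
  have hHf := mem_iff_of_inv hf.1.1 hHinv
  -- the induction hypothesis for `H`
  obtain ⟨θ, hθ, hθg⟩ : ∃ θ : H → H, IsOrtho θ ∧ Good θ := by
    apply ih (Nat.card H) _ H rfl
    · refine ⟨fun h => ⟨f h, hHinv h h.2⟩, isOrtho_of_injective ?_ ?_⟩
      · intro a b hab
        exact Subtype.ext (hf.1.1 (congrArg Subtype.val hab))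
      · intro a b hab
        exact Subtype.ext (hf.2.1 (congrArg Subtype.val hab))
    · rw [← hcard]
      refine lt_of_le_of_ne (Subgroup.card_le_card_group H) (fun h => hHtop ?_)
      exact Subgroup.eq_top_of_card_eq H h
  set k : H := θ 1 with hk
  -- the family
  set Fam : H → Set (Subgroup G) := fun s =>
    {B | y ∈ B ∧ ∀ z, z ∉ H → (z ∈ B ↔ f z * (s : G)⁻¹ ∈ B)} with hFam
  have hex : ∀ s : H, ∃ B ∈ Fam s, (k : G) ∉ B := by
    intro s
    set θs : H → H := fun h => θ h * (k⁻¹ * s) with hθs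
    have hθs' : IsOrtho θs := hθ.mul_right _
    set Fs : G → G := fun z => modif f H θs z * ((s : G)⁻¹ * y) with hFs
    have hFs' : IsOrtho Fs := (modif_isOrtho hf hHinv hθs').mul_right _
    have hng := hcon Fs hFs'
    rw [Good] at hng
    push Not at hng
    obtain ⟨B, hB, hBtop⟩ := hng
    have hBiff := mem_iff_of_inv hFs'.1.1 hB
    have hyB : y ∈ B := by
      have h1 := hB 1 B.one_mem
      have e : Fs 1 = y := by
        have e1 : Fs 1 = modif f H θs 1 * ((s : G)⁻¹ * y) := rfl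
        have e2 : θs ⟨1, H.one_mem⟩ = k * (k⁻¹ * s) := rfl
        rw [e1, modif_mem f H θs H.one_mem, e2]
        push_cast
        group
      rw [e] at h1
      exact h1
    have hout : ∀ z, z ∉ H → (z ∈ B ↔ f z * (s : G)⁻¹ ∈ B) := by
      intro z hz
      rw [← hBiff z]
      simp only [hFs, modif_not_mem f H θs hz]
      rw [← mul_assoc]
      exact Subgroup.mul_mem_cancel_right B hyB
    refine ⟨B, ⟨hyB, hout⟩, fun hkB => ?_⟩
    -- `k ∈ B` forces `H ≤ B`
    have hK : (B.subgroupOf H) = ⊤ := by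
      apply hθg
      intro h hh
      rw [Subgroup.mem_subgroupOf] at hh ⊢
      have h1 := hB h hh
      have e : Fs h = (θ h : G) * ((k : G)⁻¹ * y) := by
        have e1 : Fs h = modif f H θs h * ((s : G)⁻¹ * y) := rfl
        have e2 : θs ⟨(h : G), h.2⟩ = θ h * (k⁻¹ * s) := rfl
        rw [e1, modif_mem f H θs h.2, e2]
        push_cast
        group
      rw [e] at h1
      exact (Subgroup.mul_mem_cancel_right B (B.mul_mem (B.inv_mem hkB) hyB)).mp h1
    have hHB : H ≤ B := Subgroup.subgroupOf_eq_top.mp hK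
    apply hHmax B
    · refine ⟨hBtop, fun z hz => ?_⟩
      by_cases hzH : z ∈ H
      · exact hHB (hHinv z hzH)
      · have := (hout z hzH).mp hz
        exact (Subgroup.mul_mem_cancel_right B (B.inv_mem (hHB s.2))).mp this
    · exact lt_of_le_of_ne hHB (fun e => hy (e ▸ hyB))
  set Bs : H → Subgroup G := fun s => sInf (Fam s) with hBs
  have hBsmem : ∀ s, Bs s ∈ Fam s := by
    intro s
    refine ⟨?_, fun z hz => ?_⟩
    · rw [Subgroup.mem_sInf]
      exact fun B hB => hB.1
    · rw [Subgroup.mem_sInf, Subgroup.mem_sInf]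
      exact forall₂_congr fun B hB => hB.2 z hz
  have hkBs : ∀ s, (k : G) ∉ Bs s := by
    intro s hks
    obtain ⟨B, hB, hkB⟩ := hex s
    exact hkB ((Subgroup.mem_sInf.mp hks) B hB)
  have key : ∀ s s' : H, ∃ s'' : H, Bs s'' ≤ Bs s ∧ Bs s'' ≤ Bs s' ∧
      (s'' : G) * (s : G)⁻¹ ∈ Bs s ∧ (s'' : G) * (s' : G)⁻¹ ∈ Bs s' := by
    intro s s'
    set D : Subgroup G := Bs s ⊓ Bs s' with hD
    have e1 : f y * (s : G)⁻¹ ∈ Bs s := ((hBsmem s).2 y hy).mp (hBsmem s).1
    have e2 : f y * (s' : G)⁻¹ ∈ Bs s' := ((hBsmem s').2 y hy).mp (hBsmem s').1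
    have hDz : ∀ z, z ∉ H → (z ∈ D ↔ f z * (f y)⁻¹ ∈ D) := by
      intro z hz
      rw [hD, Subgroup.mem_inf, Subgroup.mem_inf, (hBsmem s).2 z hz, (hBsmem s').2 z hz]
      have a1 : f z * (s : G)⁻¹ = (f z * (f y)⁻¹) * (f y * (s : G)⁻¹) := by group
      have a2 : f z * (s' : G)⁻¹ = (f z * (f y)⁻¹) * (f y * (s' : G)⁻¹) := by group
      rw [a1, a2, Subgroup.mul_mem_cancel_right _ e1, Subgroup.mul_mem_cancel_right _ e2]
    have hs'' : ∃ s'' : H, (s'' : G) * (f y)⁻¹ ∈ D := by
      by_contra hno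
      push Not at hno
      set fe := Equiv.ofBijective f hf.1 with hfe
      have hfe1 : ∀ w, f (fe.symm w) = w := fun w => (Equiv.ofBijective f hf.1).apply_symm_apply w
      have hout : ∀ d ∈ D, fe.symm (d * f y) ∉ H := by
        intro d hd hz
        apply hno ⟨f (fe.symm (d * f y)), hHinv _ hz⟩
        simp only [hfe1]
        simpa using hd
      have hin : ∀ d ∈ D, fe.symm (d * f y) ∈ D := by
        intro d hd
        rw [hDz _ (hout d hd), hfe1]
        simpa using hd
      have hinj : Function.Injective (fun d : D => (⟨fe.symm (d * f y), hin d d.2⟩ : D)) := by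
        intro a b hab
        have h0 : fe.symm ((a : G) * f y) = fe.symm ((b : G) * f y) :=
          congrArg (Subtype.val : D → G) hab
        exact Subtype.ext (mul_right_cancel (fe.symm.injective h0))
      obtain ⟨d, hd⟩ := Finite.surjective_of_injective hinj 1
      have h2 : fe.symm ((d : G) * f y) = 1 := congrArg (Subtype.val : D → G) hd
      exact hout d d.2 (h2 ▸ H.one_mem)
    obtain ⟨s'', hs''⟩ := hs''
    have hDF : D ∈ Fam s'' := by
      refine ⟨Subgroup.mem_inf.mpr ⟨(hBsmem s).1, (hBsmem s').1⟩, fun z hz => ?_⟩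
      rw [hDz z hz]
      have a1 : f z * (s'' : G)⁻¹ = (f z * (f y)⁻¹) * ((s'' : G) * (f y)⁻¹)⁻¹ := by group
      rw [a1, Subgroup.mul_mem_cancel_right _ (D.inv_mem hs'')]
    have hle : Bs s'' ≤ D := sInf_le hDF
    refine ⟨s'', hle.trans inf_le_left, hle.trans inf_le_right, ?_, ?_⟩
    · have a1 : (s'' : G) * (s : G)⁻¹ = ((s'' : G) * (f y)⁻¹) * (f y * (s : G)⁻¹) := by group
      rw [a1]
      exact (Bs s).mul_mem (Subgroup.mem_inf.mp hs'').1 e1
    · have a1 : (s'' : G) * (s' : G)⁻¹ = ((s'' : G) * (f y)⁻¹) * (f y * (s' : G)⁻¹) := by group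
      rw [a1]
      exact (Bs s').mul_mem (Subgroup.mem_inf.mp hs'').2 e2
  -- a minimal member
  obtain ⟨_, ⟨s0, rfl⟩, hmin⟩ := (wellFounded_lt : WellFounded
    ((· < ·) : Subgroup G → Subgroup G → Prop)).has_min (Set.range Bs) ⟨Bs 1, 1, rfl⟩
  obtain ⟨s'', h1, h2, h3, h4⟩ := key (k⁻¹ * s0) s0
  have heq : Bs s'' = Bs s0 := by
    by_contra hne
    exact hmin _ ⟨s'', rfl⟩ (lt_of_le_of_ne h2 hne)
  apply hkBs (k⁻¹ * s0)
  have h5 : (s'' : G) * (s0 : G)⁻¹ ∈ Bs (k⁻¹ * s0) := by
    rw [← heq] at h4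
    exact h1 h4
  have h6 := (Bs (k⁻¹ * s0)).mul_mem ((Bs (k⁻¹ * s0)).inv_mem h5) h3
  have e : ((s'' : G) * (s0 : G)⁻¹)⁻¹ * ((s'' : G) * ((k⁻¹ * s0 : H) : G)⁻¹) = (k : G) := by
    push_cast
    group
  rw [e] at h6
  exact h6

theorem exists_good {G : Type u} [Group G] [Finite G] (h : ∃ f : G → G, IsOrtho f) :
    ∃ F : G → G, IsOrtho F ∧ Good F :=
  exists_good_aux _ G rfl h

end Pool.Agent.Helper184.QG
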