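import Mathlib
import Pool.Agent.Helper184.QGDefs
import Pool.Agent.Helper184.QGOrtho

set_option autoImplicit false

namespace Pool.Agent.Helper184.QG

universe u

lemma AdmitsRegular.transitive {G : Type u} [Group G] (h : AdmitsRegular G) :
    AdmitsTransitive G := by
  obtain ⟨Q, m, h1, h2, h3, h4⟩ := h
  refine ⟨Q, m, h1, h2, h3, fun x y => ?_⟩
  obtain ⟨φ, ⟨hφ, hxy⟩, -⟩ := h4 x y
  exact ⟨φ, hφ, hxy⟩

section

variable {G : Type u} [Group G]

/-- the elements of the subquasigroup generated by `1` -/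
inductive Gen (F : G → G) : G → Prop
  | one : Gen F 1
  | op (a b : G) : Gen F a → Gen F b → Gen F (a * F (a⁻¹ * b))

lemma Gen.mul {F : G → G} {a b : G} (ha : Gen F a) (hb : Gen F b) : Gen F (a * b) := by
  induction hb with
  | one => rwa [mul_one]
  | op b c _ _ ihb ihc =>
    have := Gen.op (F := F) (a * b) (a * c) ihb ihc
    have e : (a * b)⁻¹ * (a * c) = b⁻¹ * c := by group
    rw [e, mul_assoc] at this
    exact this

lemma Gen.pow {F : G → G} {a : G} (ha : Gen F a) (n : ℕ) : Gen F (a ^ n) := by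
  induction n with
  | zero => rw [pow_zero]; exact Gen.one
  | succ n ih => rw [pow_succ]; exact ih.mul ha

lemma Gen.inv [Finite G] {F : G → G} {a : G} (ha : Gen F a) : Gen F a⁻¹ := by
  have : a⁻¹ = a ^ (orderOf a - 1) := by
    rw [inv_eq_iff_mul_eq_one, ← pow_succ', Nat.sub_add_cancel (orderOf_pos a), pow_orderOf_eq_one]
  rw [this]
  exact ha.pow _

lemma Gen.apply {F : G → G} {a : G} (ha : Gen F a) : Gen F (F a) := by
  have := Gen.op (F := F) 1 a Gen.one ha
  simpa using this

lemma Good.gen [Finite G] {F : G → G} (hF : Good F) (a : G) : Gen F a := by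
  let B : Subgroup G :=
    { carrier := {a | Gen F a}
      mul_mem' := fun ha hb => Gen.mul ha hb
      one_mem' := Gen.one
      inv_mem' := fun ha => Gen.inv ha }
  have h : B = ⊤ := hF B fun z hz => Gen.apply hz
  have : a ∈ B := by rw [h]; trivial
  exact this

/-- the quasigroup operation attached to `F` -/
def qop (F : G → G) (a b : G) : G := a * F (a⁻¹ * b)

lemma qop_isQuasigroup {F : G → G} (hF : IsOrtho F) : IsQuasigroup (qop F) := by
  constructor
  · intro a b
    obtain ⟨z, hz, hz'⟩ := hF.1.existsUnique (a⁻¹ * b)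
    refine ⟨a * z, ?_, ?_⟩
    · simp only [qop, inv_mul_cancel_left, hz, mul_inv_cancel_left]
    · intro x hx
      have := hz' (a⁻¹ * x) (by simp only [qop] at hx; rw [← hx]; group)
      rw [← this]
      group
  · intro a b
    obtain ⟨z, hz, hz'⟩ := hF.2.existsUnique (a⁻¹ * b)
    refine ⟨a * z⁻¹, ?_, ?_⟩
    · have hz : z⁻¹ * F z = a⁻¹ * b := hz
      simp only [qop]
      have e : (a * z⁻¹)⁻¹ * a = z := by group
      rw [e, mul_assoc, hz]
      group
    · intro y hy
      have := hz' (y⁻¹ * a) (by simp only [qop] at hy ⊢; rw [← hy]; group)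
      rw [← this]
      group

lemma mulLeft_mem_autGroup (F : G → G) (g : G) : Equiv.mulLeft g ∈ autGroup (qop F) := by
  intro x y
  simp only [qop, Equiv.coe_mulLeft]
  have e : (g * x)⁻¹ * (g * y) = x⁻¹ * y := by group
  rw [e, mul_assoc]

lemma fix_gen {F : G → G} {φ : Equiv.Perm G} (hφ : φ ∈ autGroup (qop F)) (h1 : φ 1 = 1) {a : G}
    (ha : Gen F a) : φ a = a := by
  induction ha with
  | one => exact h1
  | op a b _ _ iha ihb =>
    have := hφ a b
    simp only [qop] at this
    rw [iha, ihb] at this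
    exact this

lemma mem_autGroup_iff [Finite G] {F : G → G} (hF : Good F) (φ : Equiv.Perm G) :
    φ ∈ autGroup (qop F) ↔ φ = Equiv.mulLeft (φ 1) := by
  constructor
  · intro hφ
    have h1 : (Equiv.mulLeft (φ 1))⁻¹ * φ ∈ autGroup (qop F) :=
      (autGroup (qop F)).mul_mem ((autGroup (qop F)).inv_mem (mulLeft_mem_autGroup F _)) hφ
    have h2 : ((Equiv.mulLeft (φ 1))⁻¹ * φ) 1 = 1 := by
      rw [Equiv.Perm.mul_apply, Equiv.Perm.inv_eq_iff_eq]
      simp
    have h3 : (Equiv.mulLeft (φ 1))⁻¹ * φ = 1 := by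
      ext a
      exact fix_gen h1 h2 (hF.gen a)
    rw [inv_mul_eq_one] at h3
    exact h3.symm
  · intro h
    rw [h]
    exact mulLeft_mem_autGroup F _

theorem admitsRegular_of_good [Finite G] {F : G → G} (hF : IsOrtho F) (hg : Good F) :
    AdmitsRegular G := by
  refine ⟨G, qop F, ⟨1⟩, qop_isQuasigroup hF, ⟨?_⟩, ?_⟩
  · refine MulEquiv.ofBijective (MonoidHom.mk' (fun g =>
      (⟨Equiv.mulLeft g, mulLeft_mem_autGroup F g⟩ : autGroup (qop F))) ?_) ⟨?_, ?_⟩
    · intro a b
      apply Subtype.ext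
      ext x
      simp
    · intro a b hab
      have h := congrArg (fun φ : autGroup (qop F) => (φ : Equiv.Perm G) 1) hab
      simpa using h
    · rintro ⟨φ, hφ⟩
      refine ⟨φ 1, Subtype.ext ?_⟩
      exact ((mem_autGroup_iff hg φ).mp hφ).symm
  · intro x y
    refine ⟨Equiv.mulLeft (y * x⁻¹), ⟨mulLeft_mem_autGroup F _, by simp⟩, ?_⟩
    rintro φ ⟨hφ, hxy⟩
    rw [mem_autGroup_iff hg] at hφ
    rw [hφ] at hxy ⊢
    simp only [Equiv.coe_mulLeft] at hxy
    rw [← hxy]
    congr 1
    group

lemma hasCompleteMapping_of_ortho {f : G → G} (hf : IsOrtho f) : HasCompleteMapping G :=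
  ⟨fun z => z⁻¹ * f z, hf.2, by simpa using hf.1⟩

lemma ortho_of_completeMapping (h : HasCompleteMapping G) : ∃ f : G → G, IsOrtho f := by
  obtain ⟨θ, h1, h2⟩ := h
  exact ⟨fun z => z * θ z, h2, by simpa using h1⟩

/-- the orthomorphism attached to a quasigroup with a regular automorphism group -/
theorem hasCompleteMapping_of_admitsRegular [Finite G] (h : AdmitsRegular G) :
    HasCompleteMapping G := by
  obtain ⟨Q, m, ⟨q⟩, hm, ⟨e⟩, hreg⟩ := h
  -- the orbit map
  set orb : G → Q := fun g => (e g : Equiv.Perm Q) q with horb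
  have horb_inj : Function.Injective orb := by
    intro a b hab
    obtain ⟨φ, -, hφ⟩ := hreg q (orb b)
    have h1 := hφ (e a) ⟨(e a).2, hab⟩
    have h2 := hφ (e b) ⟨(e b).2, rfl⟩
    exact e.injective (Subtype.ext (h1.trans h2.symm))
  have horb_surj : Function.Surjective orb := by
    intro y
    obtain ⟨φ, ⟨hφ, hy⟩, -⟩ := hreg q y
    refine ⟨e.symm ⟨φ, hφ⟩, ?_⟩
    simp only [horb, MulEquiv.apply_symm_apply]
    exact hy
  have hmul : ∀ a b : G, orb (a * b) = (e a : Equiv.Perm Q) (orb b) := by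
    intro a b
    simp only [horb, map_mul, Subgroup.coe_mul, Equiv.Perm.mul_apply]
  have hone : orb 1 = q := by simp [horb]
  have hex : ∀ z : G, ∃ w : G, orb w = m q (orb z) := fun z => horb_surj _
  choose f hf using hex
  have haut : ∀ (g : G) (x y : Q), (e g : Equiv.Perm Q) (m x y) =
      m ((e g : Equiv.Perm Q) x) ((e g : Equiv.Perm Q) y) := fun g => (e g).2
  apply hasCompleteMapping_of_ortho (f := f)
  apply isOrtho_of_injective
  · intro a b hab
    have h1 : m q (orb a) = m q (orb b) := by rw [← hf, ← hf, hab]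
    obtain ⟨x, -, hx⟩ := hm.1 q (m q (orb b))
    exact horb_inj ((hx _ h1).trans (hx _ rfl).symm)
  · intro a b hab
    simp only at hab
    have key : ∀ z : G, orb (z⁻¹ * f z) = m (orb z⁻¹) q := by
      intro z
      rw [hmul, hf, haut, ← hmul, inv_mul_cancel, hone]
    have h1 : m (orb a⁻¹) q = m (orb b⁻¹) q := by rw [← key, ← key, hab]
    obtain ⟨x, -, hx⟩ := hm.2 q (m (orb b⁻¹) q)
    exact inv_injective (horb_inj ((hx _ h1).trans (hx _ rfl).symm))

/-- A finite group admits a regular representation by a quasigroup iff it has a complete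
mapping. -/
theorem admitsRegular_iff [Finite G] : AdmitsRegular G ↔ HasCompleteMapping G := by
  refine ⟨hasCompleteMapping_of_admitsRegular, fun h => ?_⟩
  obtain ⟨F, hF, hg⟩ := exists_good (ortho_of_completeMapping h)
  exact admitsRegular_of_good hF hg

end

end Pool.Agent.Helper184.QG
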