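import Mathlib
import Pool.Agent.Helper184.QGDefs
import Pool.Agent.Helper184.QGHP

set_option autoImplicit false

namespace Pool.Agent.Helper184.QG

universe u

/-- elementary abelian 2-groups of order at least four -/
lemma cm_exp2 {G : Type u} [Group G] [Finite G] (h2 : ∀ x : G, x * x = 1)
    (hc : 4 ≤ Nat.card G) : HasCompleteMapping G := by
  classical
  have hcomm : ∀ x y : G, x * y = y * x := by
    intro x y
    have hinv : ∀ z : G, z⁻¹ = z := fun z => inv_eq_of_mul_eq_one_left (h2 z)
    have := hinv (x * y)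
    rw [mul_inv_rev, hinv, hinv] at this
    exact this.symm
  let _ : CommGroup G := { (inferInstance : Group G) with mul_comm := hcomm }
  let _ : Module (ZMod 2) (Additive G) := AddCommGroup.zmodModule (n := 2) (by
    intro x
    rw [two_nsmul]
    exact h2 x.toMul)
  have hfin : Finite (Additive G) := inferInstanceAs (Finite G)
  have : Module.Finite (ZMod 2) (Additive G) := Module.Finite.of_finite
  set k := Module.finrank (ZMod 2) (Additive G) with hk
  have hcard : Nat.card (Additive G) = 2 ^ k := by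
    have := Module.natCard_eq_pow_finrank (K := ZMod 2) (V := Additive G)
    rw [this, Nat.card_zmod]
  have hcard' : Nat.card G = 2 ^ k := hcard
  have hk0 : k ≠ 0 := by
    intro h
    rw [hcard', h] at hc
    norm_num at hc
  have : Fact (Nat.Prime 2) := ⟨Nat.prime_two⟩
  set F := GaloisField 2 k with hF
  have hFr : Module.finrank (ZMod 2) F = k := GaloisField.finrank 2 hk0
  have hFc : Nat.card F = 2 ^ k := GaloisField.card 2 k hk0
  have hFfin : Finite F := Nat.finite_of_card_ne_zero (by rw [hFc]; positivity)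
  have : Module.Finite (ZMod 2) F := Module.Finite.of_finite
  let e : Additive G ≃ₗ[ZMod 2] F := LinearEquiv.ofFinrankEq _ _ (by rw [hFr])
  obtain ⟨a, ha0, ha1⟩ : ∃ a : F, a ≠ 0 ∧ a ≠ 1 := by
    by_contra hno
    push Not at hno
    have hle : Nat.card F ≤ 2 := by
      have hs : Function.Surjective (fun b : Bool => if b then (1 : F) else 0) := by
        intro a
        by_cases ha : a = 0
        · exact ⟨false, by simp [ha]⟩
        · exact ⟨true, by simp [hno a ha]⟩
      have := Nat.card_le_card_of_surjective _ hs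
      simpa using this
    rw [hFc, ← hcard'] at hle
    omega
  have ha1' : (1 + a : F) ≠ 0 := by
    intro h
    apply ha1
    have h3 : (1 : F) + 1 = 0 := by
      have := CharTwo.add_self_eq_zero (1 : F)
      exact this
    have : 1 + a = 1 + 1 := by rw [h, h3]
    exact add_left_cancel this
  apply cm_of_injective
    (θ := fun g => (e.symm (a * e (Additive.ofMul g))).toMul)
  · intro x y hxy
    have h1 : e.symm (a * e (Additive.ofMul x)) = e.symm (a * e (Additive.ofMul y)) := hxy
    have h2 := mul_left_cancel₀ ha0 (e.symm.injective h1)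
    exact e.injective h2
  · intro x y hxy
    have key : ∀ g : G, g * (e.symm (a * e (Additive.ofMul g))).toMul =
        (e.symm ((1 + a) * e (Additive.ofMul g))).toMul := by
      intro g
      have : e.symm ((1 + a) * e (Additive.ofMul g)) =
          Additive.ofMul g + e.symm (a * e (Additive.ofMul g)) := by
        rw [add_mul, one_mul, map_add, e.symm_apply_apply]
      rw [this]
      rfl
    simp only [key] at hxy
    have h1 : e.symm ((1 + a) * e (Additive.ofMul x)) =
      e.symm ((1 + a) * e (Additive.ofMul y)) := hxy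
    have h2 := mul_left_cancel₀ ha1' (e.symm.injective h1)
    exact e.injective h2

/-- groups with a cyclic subgroup of index two -/
lemma cm_index_two {G : Type u} [Group G] [Finite G] (c b : G) (m : ℕ)
    (hc : orderOf c = 2 * m) (hcard : Nat.card G = 4 * m) (hb : b ∉ Subgroup.zpowers c)
    (β γ : ℤ) (hβ : b * c * b⁻¹ = c ^ β) (hγ : b * b = c ^ (2 * γ)) : HasCompleteMapping G := by
  have hpow : ∀ x y : ℤ, c ^ x = c ^ y ↔ x ≡ y [ZMOD (2 * m : ℕ)] := by
    intro x y
    rw [zpow_eq_zpow_iff_modEq, hc]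
  have hconj : ∀ x : ℤ, b * c ^ x = c ^ (β * x) * b := by
    intro x
    have : b * c ^ x * b⁻¹ = c ^ (β * x) := by
      rw [← conj_zpow, hβ, ← zpow_mul]
    rw [← this]
    group
  have hne : ∀ x y : ℤ, c ^ x ≠ c ^ y * b := by
    intro x y h
    apply hb
    rw [Subgroup.mem_zpowers_iff]
    refine ⟨-y + x, ?_⟩
    rw [zpow_add, h]
    group
  have hβinj : ∀ x y : ℤ, c ^ (β * x) = c ^ (β * y) → c ^ x = c ^ y := by
    intro x y h
    have h1 : b * c ^ x = b * c ^ y := by rw [hconj, hconj, h]
    exact mul_left_cancel h1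
  have hIcard : Nat.card (Bool × Fin (2 * m)) = Nat.card G := by
    rw [Nat.card_prod, hcard]
    simp
    ring
  have hbij : ∀ f : Bool × Fin (2 * m) → G, Function.Injective f → Function.Bijective f :=
    fun f hf => (Nat.bijective_iff_injective_and_card f).mpr ⟨hf, hIcard⟩
  have hfin : ∀ i j : Fin (2 * m), c ^ ((i : ℕ) : ℤ) = c ^ ((j : ℕ) : ℤ) → i = j := by
    intro i j h
    rw [hpow, Int.natCast_modEq_iff] at h
    have := Nat.ModEq.eq_of_lt_of_lt h i.2 j.2
    exact Fin.ext this
  -- half-range injectivity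
  have hhalf : ∀ i j : Fin (2 * m), ((i : ℕ) < m ↔ (j : ℕ) < m) →
      c ^ (2 * ((i : ℕ) : ℤ)) = c ^ (2 * ((j : ℕ) : ℤ)) → i = j := by
    intro i j hij h
    rw [hpow] at h
    have h1 : (2 * (i : ℕ)) ≡ (2 * (j : ℕ)) [MOD 2 * m] := by
      rw [← Int.natCast_modEq_iff]
      push_cast at h ⊢
      exact h
    have hm : 0 < m := by
      have := i.2
      omega
    have h2 : (i : ℕ) ≡ j [MOD m] := Nat.ModEq.mul_left_cancel' (by norm_num) h1
    have hi := i.2
    have hj := j.2
    apply Fin.ext
    by_cases hi' : (i : ℕ) < m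
    · exact Nat.ModEq.eq_of_lt_of_lt h2 hi' (hij.mp hi')
    · have hj' : ¬ (j : ℕ) < m := fun h => hi' (hij.mpr h)
      have h3 : (i : ℕ) - m ≡ (j : ℕ) - m [MOD m] := by
        have e1 : (i : ℕ) = ((i : ℕ) - m) + m := by omega
        have e2 : (j : ℕ) = ((j : ℕ) - m) + m := by omega
        rw [e1, e2] at h2
        exact Nat.ModEq.add_right_cancel' m h2
      have h4 := Nat.ModEq.eq_of_lt_of_lt h3 (by omega) (by omega)
      omega
  have hpar : ∀ x y : ℤ, c ^ (2 * x) ≠ c ^ (2 * y + 1) := by
    intro x y h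
    rw [hpow] at h
    have h1 : (2 : ℤ) ∣ (2 * y + 1) - (2 * x) := by
      have h2 := h.dvd
      push_cast at h2
      exact (dvd_mul_right 2 (m : ℤ)).trans h2
    omega
  classical
  set P : Bool × Fin (2 * m) → G := fun p =>
    if p.1 then c ^ (β * ((p.2 : ℕ) : ℤ) + 1) * b else c ^ ((p.2 : ℕ) : ℤ) with hP
  set R : Bool × Fin (2 * m) → G := fun p =>
    if p.1 then (if (p.2 : ℕ) < m then c ^ ((p.2 : ℕ) : ℤ) * b else c ^ ((p.2 : ℕ) : ℤ))
    else (if (p.2 : ℕ) < m then c ^ ((p.2 : ℕ) : ℤ) else c ^ ((p.2 : ℕ) : ℤ) * b) with hR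
  have PR : ∀ p, P p * R p =
      if p.1 then (if (p.2 : ℕ) < m then c ^ (2 * (β * ((p.2 : ℕ) : ℤ) + γ) + 1)
        else c ^ (2 * (β * ((p.2 : ℕ) : ℤ)) + 1) * b)
      else (if (p.2 : ℕ) < m then c ^ (2 * ((p.2 : ℕ) : ℤ)) else c ^ (2 * ((p.2 : ℕ) : ℤ)) * b) := by
    rintro ⟨t, j⟩
    cases t
    · by_cases hj : (j : ℕ) < m
      · simp only [hP, hR, Bool.false_eq_true, if_false, hj, if_true]
        rw [← zpow_add]
        congr 1
        ring
      · simp only [hP, hR, Bool.false_eq_true, if_false, hj]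
        rw [← mul_assoc, ← zpow_add]
        congr 2
        ring
    · by_cases hj : (j : ℕ) < m
      · simp only [hP, hR, if_true, hj]
        calc c ^ (β * ((j : ℕ) : ℤ) + 1) * b * (c ^ ((j : ℕ) : ℤ) * b)
            = c ^ (β * ((j : ℕ) : ℤ) + 1) * (b * c ^ ((j : ℕ) : ℤ)) * b := by group
          _ = c ^ (β * ((j : ℕ) : ℤ) + 1) * (c ^ (β * ((j : ℕ) : ℤ)) * b) * b := by rw [hconj]
          _ = c ^ (β * ((j : ℕ) : ℤ) + 1) * c ^ (β * ((j : ℕ) : ℤ)) * (b * b) := by group
          _ = c ^ (β * ((j : ℕ) : ℤ) + 1) * c ^ (β * ((j : ℕ) : ℤ)) * c ^ (2 * γ) := by rw [hγ]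
          _ = c ^ (2 * (β * ((j : ℕ) : ℤ) + γ) + 1) := by
            rw [← zpow_add, ← zpow_add]
            congr 1
            ring
      · simp only [hP, hR, if_true, hj, if_false]
        calc c ^ (β * ((j : ℕ) : ℤ) + 1) * b * c ^ ((j : ℕ) : ℤ)
            = c ^ (β * ((j : ℕ) : ℤ) + 1) * (b * c ^ ((j : ℕ) : ℤ)) := by group
          _ = c ^ (β * ((j : ℕ) : ℤ) + 1) * (c ^ (β * ((j : ℕ) : ℤ)) * b) := by rw [hconj]
          _ = c ^ (2 * (β * ((j : ℕ) : ℤ)) + 1) * b := by
            rw [← mul_assoc, ← zpow_add]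
            congr 2
            ring
  apply cm_of_index (P := P) (R := R)
  · apply hbij
    rintro ⟨t, i⟩ ⟨t', j⟩ h
    cases t <;> cases t' <;> simp only [hP, Bool.false_eq_true, if_false, if_true] at h
    · rw [hfin i j h]
    · exact absurd h (hne _ _)
    · exact absurd h.symm (hne _ _)
    · have h1 := mul_right_cancel h
      rw [zpow_add, zpow_add] at h1
      rw [hfin i j (hβinj _ _ (mul_right_cancel h1))]
  · apply hbij
    rintro ⟨t, i⟩ ⟨t', j⟩ h
    cases t <;> cases t' <;> by_cases hi : (i : ℕ) < m <;> by_cases hj : (j : ℕ) < m <;>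
      simp only [hR, Bool.false_eq_true, if_false, if_true, hi, hj] at h
    · rw [hfin i j h]
    · exact absurd h (hne _ _)
    · exact absurd h.symm (hne _ _)
    · rw [hfin i j (mul_right_cancel h)]
    · exact absurd h (hne _ _)
    · exact absurd (hfin i j h) (fun e => hj (e ▸ hi))
    · exact absurd (hfin i j (mul_right_cancel h)) (fun e => hi (e ▸ hj))
    · exact absurd h.symm (hne _ _)
    · exact absurd h.symm (hne _ _)
    · exact absurd (hfin i j (mul_right_cancel h)) (fun e => hj (e ▸ hi))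
    · exact absurd (hfin i j h) (fun e => hi (e ▸ hj))
    · exact absurd h (hne _ _)
    · rw [hfin i j (mul_right_cancel h)]
    · exact absurd h.symm (hne _ _)
    · exact absurd h (hne _ _)
    · rw [hfin i j h]
  · apply hbij
    rintro ⟨t, i⟩ ⟨t', j⟩ h
    simp only [PR] at h
    cases t <;> cases t' <;> by_cases hi : (i : ℕ) < m <;> by_cases hj : (j : ℕ) < m <;>
      simp only [Bool.false_eq_true, if_false, if_true, hi, hj] at h
    · rw [hhalf i j (by simp [hi, hj]) h]
    · exact absurd h (hne _ _)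
    · exact absurd h.symm (hne _ _)
    · rw [hhalf i j (by simp [hi, hj]) (mul_right_cancel h)]
    · exact absurd h (hpar _ _)
    · exact absurd h (hne _ _)
    · exact absurd h.symm (hne _ _)
    · exact absurd (mul_right_cancel h) (hpar _ _)
    · exact absurd h.symm (hpar _ _)
    · exact absurd h (hne _ _)
    · exact absurd h.symm (hne _ _)
    · exact absurd (mul_right_cancel h).symm (hpar _ _)
    · have h1 : c ^ (β * (2 * ((i : ℕ) : ℤ))) = c ^ (β * (2 * ((j : ℕ) : ℤ))) := by
        have e : ∀ x : ℤ, c ^ (2 * (β * x + γ) + 1) = c ^ (β * (2 * x)) * c ^ (2 * γ + 1) := by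
          intro x
          rw [← zpow_add]
          congr 1
          ring
        rw [e, e] at h
        exact mul_right_cancel h
      rw [hhalf i j (by simp [hi, hj]) (hβinj _ _ h1)]
    · exact absurd h (hne _ _)
    · exact absurd h.symm (hne _ _)
    · have h1 : c ^ (β * (2 * ((i : ℕ) : ℤ))) = c ^ (β * (2 * ((j : ℕ) : ℤ))) := by
        have e : ∀ x : ℤ, c ^ (2 * (β * x) + 1) = c ^ (β * (2 * x)) * c := by
          intro x
          rw [← zpow_add_one]
          congr 1
          ring
        have h2 := mul_right_cancel h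
        rw [e, e] at h2
        exact mul_right_cancel h2
      rw [hhalf i j (by simp [hi, hj]) (hβinj _ _ h1)]

end Pool.Agent.Helper184.QG
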