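import Mathlib
import Pool.Agent.Helper184.QGDefs
import Pool.Agent.Helper184.QGHP
import Pool.Agent.Helper184.QGTwo

set_option autoImplicit false

namespace Pool.Agent.Helper184.QG

universe u

/-- in a finite 2-group an element is a power of each of its odd powers -/
lemma mem_zpowers_odd {G : Type u} [Group G] [Finite G] (hG : IsPGroup 2 G) (u : G) {i : ℤ}
    (hi : Odd i) : u ∈ Subgroup.zpowers (u ^ i) := by
  obtain ⟨s, hs⟩ := hG u
  have hcop : IsCoprime i ((2 : ℤ) ^ s) := by
    apply IsCoprime.pow_right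
    obtain ⟨k, rfl⟩ := hi
    exact ⟨1, -k, by ring⟩
  obtain ⟨a, b, hab⟩ := hcop
  rw [Subgroup.mem_zpowers_iff]
  refine ⟨a, ?_⟩
  calc (u ^ i) ^ a = u ^ (a * i) := by rw [← zpow_mul, mul_comm]
    _ = u ^ (1 - b * 2 ^ s) := by rw [← hab]; congr 1; ring
    _ = u := by
      rw [zpow_sub, zpow_one, mul_comm b, zpow_mul]
      have : u ^ ((2 : ℤ) ^ s) = 1 := by
        have h2 : ((2 : ℤ) ^ s) = ((2 ^ s : ℕ) : ℤ) := by push_cast; rfl
        rw [h2, zpow_natCast, hs]
      rw [this, one_zpow, inv_one, mul_one]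

/-- a maximal subgroup of a finite 2-group has index two -/
lemma coatom_index {G : Type u} [Group G] [Finite G] (hG : IsPGroup 2 G) {M : Subgroup G}
    (hM : IsCoatom M) : M.Normal ∧ M.index = 2 := by
  have : Fact (Nat.Prime 2) := ⟨Nat.prime_two⟩
  have hnil : Group.IsNilpotent G := hG.isNilpotent
  have hn : M.Normal := Subgroup.NormalizerCondition.normal_of_coatom M
    Group.normalizerCondition_of_isNilpotent hM
  refine ⟨hn, ?_⟩
  have hq : IsPGroup 2 (G ⧸ M) := hG.to_quotient M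
  have hnt : Nontrivial (G ⧸ M) := by
    rw [QuotientGroup.nontrivial_iff]
    exact hM.1
  have hdvd : 2 ∣ Nat.card (G ⧸ M) := by
    obtain ⟨k, hk⟩ := hq.exists_card_eq
    have h1 : 1 < Nat.card (G ⧸ M) := Finite.one_lt_card
    rw [hk] at h1 ⊢
    have : k ≠ 0 := by rintro rfl; simp at h1
    exact dvd_pow_self 2 this
  obtain ⟨z, hz⟩ := exists_prime_orderOf_dvd_card' 2 hdvd
  have htop : Subgroup.zpowers z = ⊤ := by
    have h1 : M ≤ (Subgroup.zpowers z).comap (QuotientGroup.mk' M) := by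
      intro x hx
      rw [Subgroup.mem_comap, QuotientGroup.mk'_apply, (QuotientGroup.eq_one_iff x).mpr hx]
      exact Subgroup.one_mem _
    obtain ⟨w, hw⟩ := QuotientGroup.mk_surjective z
    have h2 : (Subgroup.zpowers z).comap (QuotientGroup.mk' M) = ⊤ := by
      apply hM.2
      refine lt_of_le_of_ne h1 (fun e => ?_)
      have : w ∈ M := by
        rw [e, Subgroup.mem_comap, QuotientGroup.mk'_apply, hw]
        exact Subgroup.mem_zpowers z
      rw [← QuotientGroup.eq_one_iff, hw] at this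
      rw [this, orderOf_one] at hz
      omega
    rw [eq_top_iff]
    intro x _
    obtain ⟨v, rfl⟩ := QuotientGroup.mk_surjective x
    have : v ∈ (Subgroup.zpowers z).comap (QuotientGroup.mk' M) := by rw [h2]; trivial
    exact this
  rw [Subgroup.index, ← hz, ← Nat.card_zpowers, htop]
  exact (Nat.card_congr Subgroup.topEquiv.toEquiv).symm

/-- a noncyclic finite 2-group has a normal subgroup with quotient of order 4 and exponent 2 -/
lemma exists_V4 {G : Type u} [Group G] [Finite G] (hG : IsPGroup 2 G) (hnc : ¬ IsCyclic G) :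
    ∃ M K : Subgroup G, M.Normal ∧ K.Normal ∧ M.index = 2 ∧ K.index = 4 ∧ K < M ∧
      ∀ x : G, x * x ∈ K := by
  have hsq : ∀ M : Subgroup G, IsCoatom M → ∀ x : G, x * x ∈ M := by
    intro M hM x
    have h := (coatom_index hG hM)
    have := h.1
    exact Subgroup.mul_self_mem_of_index_two h.2 x
  -- some maximal subgroup
  have hnt : Nontrivial G := by
    by_contra h
    rw [not_nontrivial_iff_subsingleton] at h
    exact hnc (isCyclic_of_subsingleton)
  obtain ⟨M, hM, -⟩ := (eq_top_or_exists_le_coatom (⊥ : Subgroup G)).resolve_left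
    (fun h => by
      have := (Subgroup.nontrivial_iff (G := G)).mpr hnt
      exact bot_ne_top h)
  obtain ⟨x, hx⟩ : ∃ x, x ∉ M := by
    by_contra h
    push Not at h
    exact hM.1 ((Subgroup.eq_top_iff' M).mpr h)
  have hxt : Subgroup.zpowers x ≠ ⊤ := by
    intro h
    apply hnc
    exact ⟨x, fun g => (by rw [h]; trivial : g ∈ Subgroup.zpowers x)⟩
  obtain ⟨M', hM', hxM'⟩ := (eq_top_or_exists_le_coatom (Subgroup.zpowers x)).resolve_left hxt
  have hxM : x ∈ M' := hxM' (Subgroup.mem_zpowers x)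
  obtain ⟨n1, i1⟩ := coatom_index hG hM
  obtain ⟨n2, i2⟩ := coatom_index hG hM'
  have hlt : M ⊓ M' < M := by
    refine lt_of_le_of_ne inf_le_left (fun e => ?_)
    have h1 : M ≤ M' := inf_eq_left.mp e
    have h2 : M = M' := by
      by_contra hne
      exact hM'.1 (hM.2 M' (lt_of_le_of_ne h1 hne))
    exact hx (h2 ▸ hxM)
  refine ⟨M, M ⊓ M', n1, inferInstance, i1, ?_, hlt, fun y => ⟨hsq M hM y, hsq M' hM' y⟩⟩
  apply le_antisymm
  · have := Subgroup.index_inf_le (H := M) (K := M')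
    rw [i1, i2] at this
    exact this
  · have h1 := Subgroup.relIndex_mul_index (inf_le_left : M ⊓ M' ≤ M)
    rw [i1] at h1
    have h2 : (M ⊓ M').relIndex M ≠ 1 := by
      intro h
      rw [Subgroup.relIndex_eq_one] at h
      exact absurd h (not_le_of_gt hlt)
    have h3 : (M ⊓ M').relIndex M ≠ 0 := by
      intro h
      rw [h] at h1
      have h5 : (M ⊓ M').index ≠ 0 := Subgroup.index_ne_zero_of_finite
      omega
    omega

theorem cm_two_group (n : ℕ) : ∀ (G : Type u) [Group G] [Finite G], Nat.card G = n →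
    IsPGroup 2 G → ¬ IsCyclic G → HasCompleteMapping G := by
  induction n using Nat.strong_induction_on with
  | _ n ih =>
  intro G _ _ hn hG hnc
  obtain ⟨M, K, hMn, hKn, hMi, hKi, hKM, hsqK⟩ := exists_V4 hG hnc
  -- quotients of exponent two
  have hquot : ∀ N : Subgroup G, N.Normal → (∀ x, x * x ∈ N) → 4 ≤ N.index →
      (N ≠ ⊤ → HasCompleteMapping N) → HasCompleteMapping G := by
    intro N hN hsq hi hcm
    have hN1 : HasCompleteMapping N := by
      apply hcm
      intro h
      rw [h, Subgroup.index_top] at hi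
      omega
    apply cm_ext N hN1
    apply cm_exp2
    · intro x
      obtain ⟨y, rfl⟩ := QuotientGroup.mk_surjective x
      rw [← QuotientGroup.mk_mul]
      exact (QuotientGroup.eq_one_iff _).mpr (hsq y)
    · exact hi
  have hlt : ∀ N : Subgroup G, N ≠ ⊤ → Nat.card N < n := by
    intro N hN
    rw [← hn]
    exact lt_of_le_of_ne (Subgroup.card_le_card_group N)
      (fun h => hN (Subgroup.eq_top_of_card_eq N h))
  by_cases hKc : IsCyclic K
  swap
  · exact hquot K hKn hsqK hKi.ge fun hne => ih _ (hlt K hne) K rfl (hG.to_subgroup K) hKc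
  -- `K` is cyclic
  obtain ⟨k, hk⟩ : ∃ k : G, Subgroup.zpowers k = K := by
    obtain ⟨⟨k, hk⟩, hgen⟩ := hKc
    refine ⟨k, le_antisymm ?_ ?_⟩
    · rw [Subgroup.zpowers_le]
      exact hk
    · intro x hx
      obtain ⟨i, hi⟩ := hgen ⟨x, hx⟩
      rw [Subgroup.mem_zpowers_iff]
      exact ⟨i, congrArg Subtype.val hi⟩
  have hkK : k ∈ K := hk ▸ Subgroup.mem_zpowers k
  have hcardG : Nat.card G = 4 * Nat.card K := by
    rw [← hKi, mul_comm]
    exact (Subgroup.card_mul_index K).symm
  by_cases hgen : ∃ x, x ∉ K ∧ Subgroup.zpowers (x * x) = K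
  · -- a cyclic subgroup of index two
    obtain ⟨x, hxK, hx⟩ := hgen
    have hKx : K ≤ Subgroup.zpowers x := by
      rw [← hx, Subgroup.zpowers_le]
      exact Subgroup.mul_mem _ (Subgroup.mem_zpowers x) (Subgroup.mem_zpowers x)
    have hxx : ∀ g ∈ K, ∃ γ : ℤ, g = x ^ (2 * γ) := by
      intro g hg
      rw [← hx, Subgroup.mem_zpowers_iff] at hg
      obtain ⟨γ, hγ⟩ := hg
      refine ⟨γ, ?_⟩
      rw [← hγ, zpow_mul]
      congr 1
      rw [zpow_two]
    -- order of `x`
    have hord : orderOf x = 2 * Nat.card K := by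
      have h1 : orderOf (x * x) = Nat.card K := by rw [← Nat.card_zpowers, hx]
      rw [← pow_two] at h1
      have h2 : Even (orderOf x) := by
        obtain ⟨s, hs⟩ := (IsPGroup.iff_orderOf.mp hG) x
        have : s ≠ 0 := by
          rintro rfl
          rw [pow_zero, orderOf_eq_one_iff] at hs
          exact hxK (hs ▸ K.one_mem)
        rw [hs]
        exact Nat.even_pow.mpr ⟨even_two, this⟩
      rw [orderOf_pow, Nat.gcd_eq_right h2.two_dvd] at h1
      obtain ⟨t, ht⟩ := h2
      omega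
    obtain ⟨b, hb⟩ : ∃ b, b ∉ Subgroup.zpowers x := by
      by_contra h
      push Not at h
      exact hnc ⟨x, h⟩
    -- `zpowers x` is normal of index two
    have hnorm : (b * x * b⁻¹) ∈ Subgroup.zpowers x := by
      -- commutator lies in `K`
      have h1 : b * x * b⁻¹ * x⁻¹ ∈ K := by
        have : b * x * b⁻¹ * x⁻¹ = (b * x) * (b * x) * ((x⁻¹ * b⁻¹ * b⁻¹ * x)) * (x⁻¹ * x⁻¹) := by
          group
        rw [this]
        refine K.mul_mem (K.mul_mem (hsqK _) ?_) (hsqK _)
        have h3 := hKn.conj_mem _ (hsqK b⁻¹) x⁻¹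
        rw [inv_inv] at h3
        have h4 : x⁻¹ * b⁻¹ * b⁻¹ * x = x⁻¹ * (b⁻¹ * b⁻¹) * x := by group
        rw [h4]
        exact h3
      have h2 := (Subgroup.zpowers x).mul_mem (hKx h1) (Subgroup.mem_zpowers x)
      simpa using h2
    obtain ⟨β, hβ⟩ := Subgroup.mem_zpowers_iff.mp hnorm
    obtain ⟨γ, hγ⟩ := hxx _ (hsqK b)
    exact cm_index_two x b (Nat.card K) hord hcardG hb β γ hβ.symm hγ
  push Not at hgen
  -- all squares are squares of elements of `K`
  have hsq2 : ∀ x : G, x * x ∈ Subgroup.zpowers (k ^ 2) := by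
    intro x
    by_cases hxK : x ∈ K
    · rw [← hk, Subgroup.mem_zpowers_iff] at hxK
      obtain ⟨i, hi⟩ := hxK
      rw [Subgroup.mem_zpowers_iff]
      refine ⟨i, ?_⟩
      rw [← hi, ← zpow_natCast, ← zpow_mul, ← zpow_add]
      congr 1
      push_cast
      ring
    · have h1 := hsqK x
      rw [← hk, Subgroup.mem_zpowers_iff] at h1
      obtain ⟨i, hi⟩ := h1
      rcases Int.even_or_odd i with he | ho
      · obtain ⟨j, rfl⟩ := he
        rw [Subgroup.mem_zpowers_iff]
        refine ⟨j, ?_⟩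
        rw [← hi, ← zpow_natCast, ← zpow_mul]
        congr 1
        push_cast
        ring
      · exfalso
        apply hgen x hxK
        rw [← hi]
        apply le_antisymm
        · rw [Subgroup.zpowers_le]
          exact K.zpow_mem hkK i
        · nth_rewrite 1 [← hk]
          rw [Subgroup.zpowers_le]
          exact mem_zpowers_odd hG k ho
  set K2 := Subgroup.zpowers (k ^ 2) with hK2
  have hK2K : K2 ≤ K := by
    rw [hK2, Subgroup.zpowers_le]
    exact K.pow_mem hkK 2
  have hconjk : ∀ g : G, ∃ β : ℤ, g * k * g⁻¹ = k ^ β := by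
    intro g
    have := hKn.conj_mem k hkK g
    rw [← hk, Subgroup.mem_zpowers_iff] at this
    obtain ⟨β, hβ⟩ := this
    exact ⟨β, hβ.symm⟩
  have hK2n : K2.Normal := by
    refine ⟨fun x hx g => ?_⟩
    rw [hK2, Subgroup.mem_zpowers_iff] at hx
    obtain ⟨i, rfl⟩ := hx
    obtain ⟨β, hβ⟩ := hconjk g
    rw [← conj_zpow, ← conj_pow, hβ]
    apply Subgroup.zpow_mem
    rw [hK2, Subgroup.mem_zpowers_iff]
    refine ⟨β, ?_⟩
    rw [← zpow_natCast, ← zpow_natCast, ← zpow_mul, ← zpow_mul, mul_comm]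
  have hK2i : 4 ≤ K2.index := by
    rw [← hKi]
    exact Nat.le_of_dvd (Nat.pos_of_ne_zero Subgroup.index_ne_zero_of_finite)
      (Subgroup.index_dvd_of_le hK2K)
  by_cases hk2 : k ^ 2 = 1
  · -- `K2` is trivial
    apply hquot K2 hK2n hsq2 hK2i
    intro _
    apply cm_of_odd
    rw [hK2, hk2, Subgroup.zpowers_one_eq_bot, Subgroup.card_bot]
    exact odd_one
  -- the order of `k` is divisible by 4
  have hk4 : 4 ∣ orderOf k := by
    obtain ⟨s, hs⟩ := (IsPGroup.iff_orderOf.mp hG) k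
    have : 2 ≤ s := by
      by_contra h
      apply hk2
      rw [← orderOf_dvd_iff_pow_eq_one, hs]
      exact pow_dvd_pow 2 (by omega : s ≤ 1)
    rw [hs]
    exact pow_dvd_pow 2 this
  have hcong : ∀ x y : ℤ, k ^ x = k ^ y → (4 : ℤ) ∣ x - y := by
    intro x y h
    rw [zpow_eq_zpow_iff_modEq] at h
    have h1 := h.symm.dvd
    exact (Int.natCast_dvd_natCast.mpr hk4).trans h1
  have hoddβ : ∀ (g : G) (β : ℤ), g * k * g⁻¹ = k ^ β → Odd β := by
    intro g β h
    by_contra hno
    rw [Int.not_odd_iff_even] at hno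
    obtain ⟨j, rfl⟩ := hno
    -- then `k` would be a conjugate of an element of `K2`, so `k ∈ K2`
    have h1 : g * k * g⁻¹ ∈ K2 := by
      rw [h, hK2, Subgroup.mem_zpowers_iff]
      refine ⟨j, ?_⟩
      rw [← zpow_natCast, ← zpow_mul]
      congr 1
      push_cast
      ring
    have h2 : k ∈ K2 := by
      have := hK2n.conj_mem _ h1 g⁻¹
      have e : g⁻¹ * (g * k * g⁻¹) * g⁻¹⁻¹ = k := by group
      rwa [e] at this
    rw [hK2, Subgroup.mem_zpowers_iff] at h2
    obtain ⟨i, hi⟩ := h2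
    rw [← zpow_natCast, ← zpow_mul] at hi
    have := hcong _ 1 (by rw [hi, zpow_one])
    push_cast at this
    omega
  -- an element outside `K` commuting with `k` modulo `k ^ 4`
  obtain ⟨x0, hx0K, β, hβ, hβ1⟩ : ∃ x0, x0 ∉ K ∧ ∃ β : ℤ, x0 * k * x0⁻¹ = k ^ β ∧
      (4 : ℤ) ∣ β - 1 := by
    obtain ⟨y, hyM, hyK⟩ : ∃ y ∈ M, y ∉ K := Set.exists_of_ssubset hKM
    obtain ⟨x, hxM⟩ : ∃ x, x ∉ M := by
      by_contra h
      push Not at h
      rw [(Subgroup.eq_top_iff' M).mpr h, Subgroup.index_top] at hMi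
      omega
    obtain ⟨βx, hβx⟩ := hconjk x
    obtain ⟨βy, hβy⟩ := hconjk y
    have ox := hoddβ x βx hβx
    have oy := hoddβ y βy hβy
    by_cases c1 : (4 : ℤ) ∣ βx - 1
    · exact ⟨x, fun h => hxM (hKM.le h), βx, hβx, c1⟩
    by_cases c2 : (4 : ℤ) ∣ βy - 1
    · exact ⟨y, hyK, βy, hβy, c2⟩
    have hxyM : x * y ∉ M := fun h => hxM ((Subgroup.mul_mem_cancel_right M hyM).mp h)
    refine ⟨x * y, fun h => hxyM (hKM.le h), βx * βy, ?_, ?_⟩
    · have e : x * y * k * (x * y)⁻¹ = x * (y * k * y⁻¹) * x⁻¹ := by group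
      rw [e, hβy, ← conj_zpow, hβx, zpow_mul]
    · obtain ⟨a, rfl⟩ := ox
      obtain ⟨b, rfl⟩ := oy
      have ha : a % 2 = 1 := by omega
      have hb : b % 2 = 1 := by omega
      obtain ⟨a', rfl⟩ : ∃ a', a = 2 * a' + 1 := ⟨a / 2, by omega⟩
      obtain ⟨b', rfl⟩ : ∃ b', b = 2 * b' + 1 := ⟨b / 2, by omega⟩
      exact ⟨4 * a' * b' + 3 * a' + 3 * b' + 2, by ring⟩
  -- an element outside `K` whose square is in `⟨k ^ 4⟩`
  obtain ⟨w, hwK, j, hwj⟩ : ∃ w, w ∉ K ∧ ∃ j : ℤ, w * w = k ^ (4 * j) := by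
    obtain ⟨i, hi⟩ := Subgroup.mem_zpowers_iff.mp (hsq2 x0)
    rw [← zpow_natCast, ← zpow_mul] at hi
    push_cast at hi
    rcases Int.even_or_odd i with he | ho
    · obtain ⟨j, rfl⟩ := he
      exact ⟨x0, hx0K, j, by rw [← hi]; congr 1; ring⟩
    · obtain ⟨j, rfl⟩ := ho
      obtain ⟨b, hb⟩ := hβ1
      refine ⟨x0 * k, fun h => hx0K ((Subgroup.mul_mem_cancel_right K hkK).mp h),
        b + j + 1, ?_⟩
      have e : x0 * k * (x0 * k) = (x0 * k * x0⁻¹) * (x0 * x0) * k := by group
      rw [e, hβ, ← hi, ← zpow_add, ← zpow_add_one]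
      congr 1
      have : β = 4 * b + 1 := by omega
      rw [this]
      ring
  -- the subgroup generated by `w` and `k ^ 2`
  have hww : w * w ∈ K2 := by
    rw [hwj, hK2, Subgroup.mem_zpowers_iff]
    refine ⟨2 * j, ?_⟩
    rw [← zpow_natCast, ← zpow_mul]
    congr 1
    push_cast
    ring
  have hcomm : ∀ a b : G, a * b * a⁻¹ * b⁻¹ ∈ K2 := by
    intro a b
    have : a * b * a⁻¹ * b⁻¹ = (a * b) * (a * b) * (b⁻¹ * (a⁻¹ * a⁻¹) * b⁻¹⁻¹) * (b⁻¹ * b⁻¹) := by
      group
    rw [this]
    exact K2.mul_mem (K2.mul_mem (hsq2 _) (hK2n.conj_mem _ (hsq2 _) _)) (hsq2 _)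
  let K' : Subgroup G :=
    { carrier := {g | g ∈ K2 ∨ w * g ∈ K2}
      one_mem' := Or.inl K2.one_mem
      inv_mem' := by
        rintro a (ha | ha)
        · exact Or.inl (K2.inv_mem ha)
        · right
          have e : w * a⁻¹ = (w * w) * (w⁻¹ * (w * a)⁻¹ * w⁻¹⁻¹) := by group
          rw [e]
          exact K2.mul_mem hww (hK2n.conj_mem _ (K2.inv_mem ha) _)
      mul_mem' := by
        rintro a b (ha | ha) (hb | hb)
        · exact Or.inl (K2.mul_mem ha hb)
        · right
          have e : w * (a * b) = (w * a * w⁻¹) * (w * b) := by group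
          rw [e]
          exact K2.mul_mem (hK2n.conj_mem _ ha _) hb
        · right
          have e : w * (a * b) = (w * a) * b := by group
          rw [e]
          exact K2.mul_mem ha hb
        · left
          have e : a * b = (w⁻¹ * (w * a) * w⁻¹⁻¹) * (w⁻¹ * w⁻¹) * (w * b) := by group
          rw [e]
          exact K2.mul_mem (K2.mul_mem (hK2n.conj_mem _ ha _) (hsq2 _)) hb }
  have hK'mem : ∀ g, g ∈ K' ↔ (g ∈ K2 ∨ w * g ∈ K2) := fun g => Iff.rfl
  have hK2K' : K2 ≤ K' := fun g hg => Or.inl hg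
  have hK'n : K'.Normal := by
    refine ⟨fun x hx g => ?_⟩
    have e : g * x * g⁻¹ = (g * x * g⁻¹ * x⁻¹) * x := by group
    rw [e]
    exact K'.mul_mem (hK2K' (hcomm g x)) hx
  have hwK' : w ∈ K' := Or.inr hww
  -- the index of `K'`
  have hK'i : 4 ≤ K'.index := by
    have h1 : Nat.card K' ≤ 2 * Nat.card K2 := by
      classical
      have hinj : Function.Injective (fun g : K' =>
          if h : (g : G) ∈ K2 then ((false, ⟨g, h⟩) : Bool × K2)
          else (true, ⟨w * g, g.2.resolve_left h⟩)) := by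
        intro a b hab
        simp only at hab
        by_cases ha : (a : G) ∈ K2 <;> by_cases hb : (b : G) ∈ K2
        · simp only [ha, hb, dif_pos, Prod.mk.injEq, true_and, Subtype.mk.injEq] at hab
          exact Subtype.ext hab
        · simp [ha, hb] at hab
        · simp [ha, hb] at hab
        · simp only [ha, hb, dif_neg, not_false_eq_true, Prod.mk.injEq, true_and,
            Subtype.mk.injEq] at hab
          exact Subtype.ext (mul_left_cancel hab)
      have := Nat.card_le_card_of_injective _ hinj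
      rw [Nat.card_prod] at this
      simpa using this
    have h2 : 2 * Nat.card K2 = Nat.card K := by
      rw [hK2, Nat.card_zpowers, ← hk, Nat.card_zpowers, orderOf_pow,
        Nat.gcd_eq_right ((by norm_num : 2 ∣ 4).trans hk4)]
      exact Nat.mul_div_cancel' ((by norm_num : 2 ∣ 4).trans hk4)
    have h3 := Subgroup.card_mul_index K'
    rw [hcardG] at h3
    have h4 : 0 < Nat.card K' := Nat.card_pos
    by_contra hlt4
    have h5 : K'.index ≤ 3 := by omega
    have h6 : Nat.card K' * K'.index ≤ Nat.card K * 3 := Nat.mul_le_mul (h1.trans h2.le) h5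
    have h7 : 0 < Nat.card K := Nat.card_pos
    omega
  have hsqK' : ∀ x : G, x * x ∈ K' := fun x => hK2K' (hsq2 x)
  refine hquot K' hK'n hsqK' hK'i fun hne => ih _ (hlt K' hne) K' rfl (hG.to_subgroup K') ?_
  -- `K'` is not cyclic
  rintro ⟨⟨v, hv⟩, hgenv⟩
  obtain ⟨i, hi⟩ := hgenv ⟨w, hwK'⟩
  have hi' : v ^ i = w := congrArg Subtype.val hi
  obtain ⟨l, hl⟩ := hgenv ⟨k ^ 2, hK2K' (Subgroup.mem_zpowers _)⟩
  have hl' : v ^ l = k ^ 2 := congrArg Subtype.val hl
  rcases Int.even_or_odd i with he | ho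
  · obtain ⟨t, rfl⟩ := he
    apply hwK
    apply hK2K
    rw [← hi', zpow_add]
    exact hsq2 _
  · -- `k ^ 2` is a power of `w`
    have h1 : k ^ 2 ∈ Subgroup.zpowers w := by
      rw [← hl']
      apply Subgroup.zpow_mem
      rw [← hi']
      exact mem_zpowers_odd hG v ho
    obtain ⟨s, hs⟩ := Subgroup.mem_zpowers_iff.mp h1
    rcases Int.even_or_odd s with he | ho'
    · obtain ⟨t, rfl⟩ := he
      have h2 : k ^ (4 * j * t) = k ^ (2 : ℤ) := by
        rw [zpow_mul, ← hwj, ← zpow_two, ← zpow_mul, two_mul, hs]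
        exact_mod_cast rfl
      obtain ⟨u, hu⟩ := hcong _ _ h2
      have h4 : 4 * (j * t) - 2 = 4 * u := by rw [← hu]; ring
      omega
    · apply hwK
      have h2 : w ∈ Subgroup.zpowers (w ^ s) := mem_zpowers_odd hG w ho'
      rw [hs] at h2
      exact hK2K h2

end Pool.Agent.Helper184.QG
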