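import Mathlib
import Pool.Agent.Helper184.QGDefs
import Pool.Agent.Helper184.QGHP
import Pool.Agent.Helper184.QGTwo
import Pool.Agent.Helper184.QGTwoGroup

set_option autoImplicit false

namespace Pool.Agent.Helper184.QG

universe u

/-- a nontrivial solvable group has a nontrivial abelian normal subgroup -/
lemma exists_abelian_normal {G : Type u} [Group G] [Group.IsSolvable G] [Nontrivial G] :
    ∃ A : Subgroup G, A.Normal ∧ A ≠ ⊥ ∧ ∀ a ∈ A, ∀ b ∈ A, a * b = b * a := by
  classical
  have hex : ∃ n, derivedSeries G n = ⊥ := Group.IsSolvable.solvable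
  set n := Nat.find hex with hn
  have hn1 : derivedSeries G n = ⊥ := Nat.find_spec hex
  have hn0 : n ≠ 0 := by
    intro h
    rw [h, derivedSeries_zero] at hn1
    exact top_ne_bot hn1
  obtain ⟨m, hm⟩ := Nat.exists_eq_succ_of_ne_zero hn0
  refine ⟨derivedSeries G m, inferInstance, Nat.find_min hex (by omega), ?_⟩
  intro a ha b hb
  rw [hm, Nat.succ_eq_add_one, derivedSeries_succ] at hn1
  have := Subgroup.commutator_mem_commutator ha hb
  rw [hn1, Subgroup.mem_bot, commutatorElement_eq_one_iff_mul_comm] at this
  exact this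

/-- P. Hall: a finite solvable group has a 2-complement -/
theorem exists_two_complement (n : ℕ) : ∀ (G : Type u) [Group G] [Finite G]
    [Group.IsSolvable G], Nat.card G = n →
    ∃ T : Subgroup G, Odd (Nat.card T) ∧ ∃ k, Nat.card G = Nat.card T * 2 ^ k := by
  induction n using Nat.strong_induction_on with
  | _ n ih =>
  intro G _ _ _ hn
  by_cases hodd : Odd (Nat.card G)
  · refine ⟨⊤, ?_, 0, ?_⟩
    · rwa [Subgroup.card_top]
    · rw [Subgroup.card_top]
      simp
  have hnt : Nontrivial G := by
    by_contra h
    rw [not_nontrivial_iff_subsingleton] at h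
    apply hodd
    rw [Nat.card_unique]
    exact odd_one
  obtain ⟨A, hA, hAb, hAc⟩ := exists_abelian_normal (G := G)
  -- the general step
  have step : ∀ N : Subgroup G, N.Normal → N ≠ ⊥ → (Odd (Nat.card N) ∨ ∃ j, Nat.card N = 2 ^ j) →
      ∃ T : Subgroup G, Odd (Nat.card T) ∧ ∃ k, Nat.card G = Nat.card T * 2 ^ k := by
    intro N hN hNb hcase
    have hcGN : Nat.card G = Nat.card (G ⧸ N) * Nat.card N :=
      Subgroup.card_eq_card_quotient_mul_card_subgroup N
    have hNc : 1 < Nat.card N := by
      by_contra h
      apply hNb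
      apply Subgroup.eq_bot_of_card_le
      omega
    have hpos : 0 < Nat.card (G ⧸ N) := Nat.card_pos
    have hlt : Nat.card (G ⧸ N) < n := by
      rw [← hn, hcGN]
      nlinarith
    obtain ⟨T', hT', k, hk⟩ := ih _ hlt (G ⧸ N) rfl
    set K := T'.comap (QuotientGroup.mk' N) with hK
    have hNK : N ≤ K := by
      intro x hx
      rw [hK, Subgroup.mem_comap, QuotientGroup.mk'_apply, (QuotientGroup.eq_one_iff x).mpr hx]
      exact T'.one_mem
    have hKcard : Nat.card K = Nat.card N * Nat.card T' := by
      have h1 : K.index = T'.index :=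
        Subgroup.index_comap_of_surjective _ (QuotientGroup.mk'_surjective N)
      have h2 := Subgroup.card_mul_index K
      have h3 := Subgroup.card_mul_index T'
      have h4 : 0 < T'.index := Nat.pos_of_ne_zero Subgroup.index_ne_zero_of_finite
      rw [h1, hcGN, ← h3] at h2
      have h5 : Nat.card K * T'.index = (Nat.card N * Nat.card T') * T'.index := by
        rw [h2]; ring
      exact Nat.eq_of_mul_eq_mul_right h4 h5
    rcases hcase with hNodd | ⟨j, hj⟩
    · refine ⟨K, ?_, k, ?_⟩
      · rw [hKcard]
        exact hNodd.mul hT'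
      · rw [hKcard, hcGN, hk]
        ring
    · -- Schur–Zassenhaus in `K`
      have hN'c : Nat.card (N.subgroupOf K) = Nat.card N :=
        Nat.card_congr (Subgroup.subgroupOfEquivOfLe hNK).toEquiv
      have hidx : (N.subgroupOf K).index = Nat.card T' := by
        have h1 := Subgroup.card_mul_index (N.subgroupOf K)
        rw [hN'c, hKcard] at h1
        exact Nat.eq_of_mul_eq_mul_left (by omega : 0 < Nat.card N) h1
      have hcop : Nat.Coprime (Nat.card (N.subgroupOf K)) (N.subgroupOf K).index := by
        rw [hN'c, hidx, hj]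
        exact Nat.Coprime.pow_left _ (Nat.coprime_two_left.mpr hT')
      obtain ⟨H, hH⟩ := Subgroup.exists_right_complement'_of_coprime hcop
      have hHc : Nat.card H = Nat.card T' := by
        have h1 := hH.card_mul_card
        rw [hN'c, hKcard] at h1
        exact Nat.eq_of_mul_eq_mul_left (by omega : 0 < Nat.card N) h1
      have hHm : Nat.card (H.map K.subtype) = Nat.card T' := by
        rw [← hHc]
        exact Nat.card_congr (H.equivMapOfInjective K.subtype K.subtype_injective).symm.toEquiv
      refine ⟨H.map K.subtype, ?_, k + j, ?_⟩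
      · rw [hHm]
        exact hT'
      · rw [hHm, hcGN, hk, hj, pow_add]
        ring
  by_cases h2 : Odd (Nat.card A)
  · exact step A hA hAb (Or.inl h2)
  · rw [Nat.not_odd_iff_even] at h2
    -- the subgroup of elements of order at most two
    let N : Subgroup G :=
      { carrier := {a | a ∈ A ∧ a * a = 1}
        one_mem' := ⟨A.one_mem, by simp⟩
        mul_mem' := by
          rintro a b ⟨ha, ha2⟩ ⟨hb, hb2⟩
          refine ⟨A.mul_mem ha hb, ?_⟩
          have : a * b * (a * b) = a * (b * a) * b := by group
          rw [this, ← hAc a ha b hb]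
          have : a * (a * b) * b = (a * a) * (b * b) := by group
          rw [this, ha2, hb2, one_mul]
        inv_mem' := by
          rintro a ⟨ha, ha2⟩
          refine ⟨A.inv_mem ha, ?_⟩
          rw [← mul_inv_rev, ha2, inv_one] }
    have hNmem : ∀ a, a ∈ N ↔ a ∈ A ∧ a * a = 1 := fun a => Iff.rfl
    have hNn : N.Normal := by
      refine ⟨fun x hx g => ?_⟩
      rw [hNmem] at hx ⊢
      refine ⟨hA.conj_mem x hx.1 g, ?_⟩
      have : g * x * g⁻¹ * (g * x * g⁻¹) = g * (x * x) * g⁻¹ := by group
      rw [this, hx.2]
      group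
    have hfact : Fact (Nat.Prime 2) := ⟨Nat.prime_two⟩
    have hNb : N ≠ ⊥ := by
      obtain ⟨z, hz⟩ := exists_prime_orderOf_dvd_card' (G := A) 2 h2.two_dvd
      intro h
      have hzz : z * z = 1 := by
        rw [← pow_two, ← hz, pow_orderOf_eq_one]
      have : (z : G) ∈ N := ⟨z.2, by
        have := congrArg Subtype.val hzz
        simpa using this⟩
      rw [h, Subgroup.mem_bot] at this
      have hz1 : z = 1 := Subtype.ext this
      rw [hz1, orderOf_one] at hz
      omega
    have hN2 : IsPGroup 2 N := by
      rintro ⟨a, ha⟩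
      refine ⟨1, Subtype.ext ?_⟩
      have := ha.2
      simpa [pow_two] using this
    exact step N hNn hNb (Or.inr hN2.exists_card_eq)

/-- Hall–Paige for solvable groups: a finite solvable group of odd order or with non-cyclic Sylow
2-subgroups has a complete mapping. -/
theorem cm_solvable {G : Type u} [Group G] [Finite G] [Group.IsSolvable G] (P : Sylow 2 G)
    (h : Odd (Nat.card G) ∨ ¬ IsCyclic P) : HasCompleteMapping G := by
  rcases h with h | h
  · exact cm_of_odd h
  obtain ⟨T, hT, k, hk⟩ := exists_two_complement _ G rfl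
  have hfact : Fact (Nat.Prime 2) := ⟨Nat.prime_two⟩
  have hP : HasCompleteMapping P := cm_two_group _ P rfl P.isPGroup' h
  have hT' : HasCompleteMapping T := cm_of_odd hT
  have hPc : Nat.card P = 2 ^ k := by
    have h1 := P.card_eq_multiplicity
    rw [h1]
    congr 1
    rw [hk, Nat.factorization_mul Nat.card_pos.ne' (by positivity)]
    have h2 : (Nat.card T).factorization 2 = 0 := by
      apply Nat.factorization_eq_zero_of_not_dvd
      rw [← even_iff_two_dvd, Nat.not_even_iff_odd]
      exact hT
    rw [Finsupp.add_apply, h2, Nat.factorization_pow, Finsupp.smul_apply,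
      Nat.prime_two.factorization_self]
    simp
  apply cm_fact (P : Subgroup G) T _ hP hT'
  apply Subgroup.isComplement'_of_coprime
  · rw [hk]
    change Nat.card P * Nat.card T = _
    rw [hPc]
    ring
  · change Nat.Coprime (Nat.card P) (Nat.card T)
    rw [hPc]
    exact Nat.Coprime.pow_left _ (Nat.coprime_two_left.mpr hT)

end Pool.Agent.Helper184.QG
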