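import Mathlib

set_option autoImplicit false

namespace Pool.Agent.Helper184.SylStar

/-- The property `(∗)` of the problem: for all Sylow 2-subgroups `P`, `Q` of `G` there is a Sylow
2-subgroup `S` of the subgroup `⟨P, Q⟩` such that `P ∩ Q` is a normal subgroup of `S`. -/
def HasStar (G : Type*) [Group G] : Prop :=
  ∀ P Q : Sylow 2 G, ∃ S : Sylow 2 ↥((P : Subgroup G) ⊔ (Q : Subgroup G)),
    (((P : Subgroup G) ⊓ (Q : Subgroup G)).subgroupOf ((P : Subgroup G) ⊔ (Q : Subgroup G))) ≤
      (S : Subgroup ↥((P : Subgroup G) ⊔ (Q : Subgroup G))) ∧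
    ((((P : Subgroup G) ⊓ (Q : Subgroup G)).subgroupOf
      ((P : Subgroup G) ⊔ (Q : Subgroup G))).subgroupOf
        (S : Subgroup ↥((P : Subgroup G) ⊔ (Q : Subgroup G)))).Normal

/-- minimal normal subgroups -/
def IsMinNormal {G : Type*} [Group G] (V : Subgroup G) : Prop :=
  V.Normal ∧ V ≠ ⊥ ∧ ∀ W : Subgroup G, W.Normal → W ≤ V → W = ⊥ ∨ W = V

/-- every element of `P` normalises `A` -/
def Normalises {L : Type*} [Group L] (P A : Subgroup L) : Prop :=
  ∀ x ∈ P, ∀ a ∈ A, x * a * x⁻¹ ∈ A

/-- `x` acts trivially (by conjugation) on the section `B / A` -/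
def ActsTrivially {L : Type*} [Group L] (x : L) (A B : Subgroup L) : Prop :=
  ∀ b ∈ B, x * b * x⁻¹ * b⁻¹ ∈ A

/-- `B / A` is a `P`-composition factor of `V` -/
structure IsFactor {L : Type*} [Group L] (P V A B : Subgroup L) : Prop where
  lt : A < B
  le : B ≤ V
  normA : Normalises P A
  normB : Normalises P B
  irr : ∀ C : Subgroup L, A ≤ C → C ≤ B → Normalises P C → C = A ∨ C = B

/-- `P / C_P(B/A)` has at most one involution -/
def AtMostOneInvolution {L : Type*} [Group L] (P A B : Subgroup L) : Prop :=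
  ∀ x ∈ P, ∀ y ∈ P, ActsTrivially (x * x) A B → ActsTrivially (y * y) A B →
    ¬ ActsTrivially x A B → ¬ ActsTrivially y A B → ActsTrivially (x⁻¹ * y) A B

/-- `CondBelow R`: for every normal subgroup `N ≤ R` of `G` and every minimal normal subgroup `V`
of `G / N` that has odd order and lies in `R / N`, each Sylow 2-subgroup `P` of `G / N` induces on
each `P`-composition factor `B / A` of `V` a group with at most one involution. -/
def CondBelow {G : Type*} [Group G] (R : Subgroup G) : Prop :=
  ∀ (N : Subgroup G) [N.Normal], N ≤ R → ∀ V : Subgroup (G ⧸ N), IsMinNormal V →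
    V ≤ R.map (QuotientGroup.mk' N) → Odd (Nat.card V) →
      ∀ (P : Sylow 2 (G ⧸ N)) (A B : Subgroup (G ⧸ N)),
        IsFactor (P : Subgroup (G ⧸ N)) V A B →
          AtMostOneInvolution (P : Subgroup (G ⧸ N)) A B

end Pool.Agent.Helper184.SylStar
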