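import Mathlib
import Pool.Agent.Helper184.SylStarDefs

set_option autoImplicit false
set_option linter.unusedSectionVars false

namespace Pool.Agent.Helper184.SylStar

open Subgroup
open scoped commutatorElement

universe u

/-! ## basic Sylow facts -/

section basics

variable {G : Type*} [Group G] {p : ℕ}

theorem mem_smul_sylow (P : Sylow p G) (g x : G) : x ∈ g • P ↔ g⁻¹ * x * g ∈ P := by
  have h1 : x ∈ g • P ↔ x ∈ ((g • P : Sylow p G) : Subgroup G) := Iff.rfl
  rw [h1, Sylow.coe_subgroup_smul, Subgroup.mem_pointwise_smul_iff_inv_smul_mem]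
  rw [← map_inv, MulAut.smul_def, MulAut.conj_apply, inv_inv]
  exact Iff.rfl

/-- the internal form of the property for a pair of Sylow subgroups -/
def Pair (P Q : Sylow p G) : Prop :=
  ∃ S : Sylow p G, (S : Subgroup G) ≤ (P : Subgroup G) ⊔ (Q : Subgroup G) ∧
    ∀ s ∈ S, ∀ x, x ∈ P → x ∈ Q → s * x * s⁻¹ ∈ P ∧ s * x * s⁻¹ ∈ Q

/-- the internal form of the property -/
def Star (p : ℕ) (G : Type*) [Group G] : Prop := ∀ P Q : Sylow p G, Pair P Q

variable [Finite G] [Fact p.Prime]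

theorem le_sylow_of_normalized (S : Sylow p G) (D : Subgroup G) (hD : IsPGroup p D)
    (h : ∀ s ∈ S, ∀ x ∈ D, s * x * s⁻¹ ∈ D) : D ≤ (S : Subgroup G) := by
  have hn : (S : Subgroup G) ≤ Subgroup.normalizer (D : Set G) := by
    intro s hs
    rw [Subgroup.mem_normalizer_iff]
    intro x
    constructor
    · exact h s hs x
    · intro hx
      have := h s⁻¹ (inv_mem hs) _ hx
      have e : s⁻¹ * (s * x * s⁻¹) * s⁻¹⁻¹ = x := by group
      rwa [e] at this
  have h2 : IsPGroup p ((S : Subgroup G) ⊔ D : Subgroup G) :=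
    IsPGroup.to_sup_of_normal_right' S.2 hD hn
  have h3 : (S : Subgroup G) ⊔ D = S := S.3 h2 le_sup_left
  rw [← h3]
  exact le_sup_right

/-- two Sylow subgroups inside `H` are conjugate in `H` -/
theorem conj_in (P S : Sylow p G) (H : Subgroup G) (hP : (P : Subgroup G) ≤ H)
    (hS : (S : Subgroup G) ≤ H) : ∃ h ∈ H, S = h • P := by
  obtain ⟨h, hh⟩ := MulAction.exists_smul_eq H (P.subtype hP) (S.subtype hS)
  refine ⟨h, h.2, ?_⟩
  rw [Sylow.smul_subtype] at hh
  exact (Sylow.subtype_injective hh).symm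

/-- a `p`-subgroup of `H` lies in an `H`-conjugate of a Sylow subgroup inside `H` -/
theorem conj_sub (Q : Sylow p G) (E H : Subgroup G) (hE : IsPGroup p E) (hEH : E ≤ H)
    (hQ : (Q : Subgroup G) ≤ H) : ∃ h ∈ H, E ≤ ((h • Q : Sylow p G) : Subgroup G) := by
  have hE' : IsPGroup p (E.subgroupOf H) := hE.comap_subtype
  obtain ⟨T, hT⟩ := hE'.exists_le_sylow
  obtain ⟨h, hh⟩ := MulAction.exists_smul_eq H (Q.subtype hQ) T
  refine ⟨h, h.2, ?_⟩
  intro x hx
  have h1 : (⟨x, hEH hx⟩ : H) ∈ T := hT (by rw [Subgroup.mem_subgroupOf]; exact hx)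
  rw [← hh, mem_smul_sylow] at h1
  have h2 : ((h⁻¹ * ⟨x, hEH hx⟩ * h : H) : G) ∈ (Q : Subgroup G) := by
    have h3 : (h⁻¹ * ⟨x, hEH hx⟩ * h : H) ∈ ((Q.subtype hQ : Sylow p H) : Subgroup H) := h1
    rw [Sylow.coe_subtype, Subgroup.mem_subgroupOf] at h3
    exact h3
  change x ∈ (h : G) • Q
  rw [mem_smul_sylow]
  exact h2

theorem disj_of_coprime (S : Sylow p G) (V : Subgroup G) (hV : (Nat.card V).Coprime p)
    {x : G} (hx : x ∈ S) (hxV : x ∈ V) : x = 1 := by
  have h1 : orderOf x ∣ Nat.card V := by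
    have := orderOf_dvd_natCard (⟨x, hxV⟩ : V)
    rwa [Subgroup.orderOf_mk] at this
  obtain ⟨k, hk⟩ := (IsPGroup.iff_orderOf.mp S.2) ⟨x, hx⟩
  rw [Subgroup.orderOf_mk] at hk
  have h2 : (orderOf x).Coprime (Nat.card V) := by
    rw [hk]; exact (Nat.Coprime.pow_right k hV).symm
  have h3 : orderOf x = 1 := Nat.Coprime.eq_one_of_dvd h2 h1
  exact orderOf_eq_one_iff.mp h3

end basics

/-! ## passing to quotients -/

section quot

variable {G : Type*} [Group G] {L : Type*} [Group L] {p : ℕ} [Finite G] [Fact p.Prime]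

theorem star_of_surjective (f : G →* L) (hf : Function.Surjective f) (h : Star p G) :
    Star p L := by
  intro P' Q'
  obtain ⟨P, rfl⟩ := Sylow.mapSurjective_surjective hf p P'
  obtain ⟨Q, rfl⟩ := Sylow.mapSurjective_surjective hf p Q'
  have memP : ∀ (P : Sylow p G) (y : L), y ∈ P.mapSurjective hf ↔ ∃ x ∈ P, f x = y := by
    intro P y
    have : y ∈ P.mapSurjective hf ↔ y ∈ ((P.mapSurjective hf : Sylow p L) : Subgroup L) := Iff.rfl
    rw [this, Sylow.coe_mapSurjective, Subgroup.mem_map]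
    exact Iff.rfl
  -- `H` is the preimage of the image of `Q`
  set H : Subgroup G := ((Q.mapSurjective hf : Sylow p L) : Subgroup L).comap f with hH
  set E : Subgroup G := (P : Subgroup G) ⊓ H with hE
  have hQH : (Q : Subgroup G) ≤ H := by
    intro x hx
    rw [hH, Subgroup.mem_comap]
    exact (memP Q (f x)).2 ⟨x, hx, rfl⟩
  have hEp : IsPGroup p E := P.2.to_le inf_le_left
  obtain ⟨h0, h0H, hEQ⟩ := conj_sub Q E H hEp inf_le_right hQH
  have h0' : f h0 ∈ Q.mapSurjective hf := h0H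
  obtain ⟨S, hS1, hS2⟩ := h P (h0 • Q)
  have hQ'H : ((h0 • Q : Sylow p G) : Subgroup G) ≤ H := by
    intro x hx
    have hx' : x ∈ h0 • Q := hx
    rw [mem_smul_sylow] at hx'
    have := H.mul_mem (H.mul_mem h0H (hQH hx')) (H.inv_mem h0H)
    have e : h0 * (h0⁻¹ * x * h0) * h0⁻¹ = x := by group
    rwa [e] at this
  refine ⟨S.mapSurjective hf, ?_, ?_⟩
  · rw [Sylow.coe_mapSurjective, Sylow.coe_mapSurjective, Sylow.coe_mapSurjective]
    refine (Subgroup.map_mono hS1).trans ?_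
    rw [Subgroup.map_sup]
    refine sup_le_sup_left ?_ _
    rintro _ ⟨x, hx, rfl⟩
    have := hQ'H hx
    rw [hH, Subgroup.mem_comap, Sylow.coe_mapSurjective] at this
    exact this
  · intro s' hs' x' hxP' hxQ'
    obtain ⟨s, hs, rfl⟩ := (memP S s').1 hs'
    obtain ⟨x, hx, rfl⟩ := (memP P x').1 hxP'
    have hxH : x ∈ H := hxQ'
    have hxE : x ∈ E := ⟨hx, hxH⟩
    have hxQ : x ∈ h0 • Q := hEQ hxE
    obtain ⟨h1, h2⟩ := hS2 s hs x hx hxQ
    refine ⟨?_, ?_⟩
    · exact (memP P _).2 ⟨_, h1, by simp⟩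
    · have : s * x * s⁻¹ ∈ H := hQ'H h2
      have h3 : f (s * x * s⁻¹) ∈ Q.mapSurjective hf := this
      simpa using h3

theorem star_of_equiv (e : G ≃* L) (h : Star p G) : Star p L :=
  star_of_surjective e.toMonoidHom e.surjective h

end quot

section necessity

variable {G : Type*} [Group G] {p : ℕ} [Finite G] [Fact p.Prime]

/-- the centralizer condition for a normal subgroup `V` of order prime to `p` -/
def CC (p : ℕ) {G : Type*} [Group G] (V : Subgroup G) : Prop :=
  ∀ P : Sylow p G, ∀ v ∈ V, ∀ x ∈ P, x * v = v * x → ∀ g ∈ P,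
    (g * x * g⁻¹) * v = v * (g * x * g⁻¹)

theorem cc_of_star (h : Star p G) (V : Subgroup G) [hn : V.Normal]
    (hV : (Nat.card V).Coprime p) : CC p V := by
  intro P v hv
  -- elements of `P ∩ v P v⁻¹` commute with `v`
  have key : ∀ w ∈ V, ∀ x ∈ P, w⁻¹ * x * w ∈ P → x * w = w * x := by
    intro w hw x hx hxw
    have h1 : x⁻¹ * (w⁻¹ * x * w) ∈ P := mul_mem (inv_mem hx) hxw
    have h2 : x⁻¹ * (w⁻¹ * x * w) ∈ V := by
      have : x⁻¹ * (w⁻¹ * x * w) = (x⁻¹ * w⁻¹ * x⁻¹⁻¹) * w := by group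
      rw [this]
      exact V.mul_mem (hn.conj_mem _ (V.inv_mem hw) _) hw
    have h3 := disj_of_coprime P V hV h1 h2
    have h4 : w⁻¹ * x * w = x := by
      have := congrArg (fun t => x * t) h3
      simpa using this
    calc x * w = w * (w⁻¹ * x * w) := by group
      _ = w * x := by rw [h4]
  obtain ⟨S, hS1, hS2⟩ := h P (v • P)
  have hle : (P : Subgroup G) ⊔ ((v • P : Sylow p G) : Subgroup G) ≤ V ⊔ (P : Subgroup G) := by
    refine sup_le le_sup_right ?_
    intro x hx
    have hx' : x ∈ v • P := hx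
    rw [mem_smul_sylow] at hx'
    have e : x = v * (v⁻¹ * x * v) * v⁻¹ := by group
    rw [e]
    have hv' : v ∈ V ⊔ (P : Subgroup G) := (le_sup_left : V ≤ _) hv
    have hx'' : v⁻¹ * x * v ∈ V ⊔ (P : Subgroup G) := (le_sup_right : (P : Subgroup G) ≤ _) hx'
    exact mul_mem (mul_mem hv' hx'') (inv_mem hv')
  obtain ⟨k0, hk0, hSk⟩ := conj_in P S (V ⊔ (P : Subgroup G)) le_sup_right (hS1.trans hle)
  obtain ⟨k, hk, q, hq, rfl⟩ := Subgroup.mem_sup_of_normal_left.mp hk0
  have hmemS : ∀ x, x ∈ S ↔ k⁻¹ * x * k ∈ P := by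
    intro x
    rw [hSk, mem_smul_sylow]
    have hq' : q ∈ P := hq
    constructor
    · intro h1
      have := mul_mem (mul_mem hq' h1) (inv_mem hq')
      have e : q * ((k * q)⁻¹ * x * (k * q)) * q⁻¹ = k⁻¹ * x * k := by group
      rwa [e] at this
    · intro h1
      have := mul_mem (mul_mem (inv_mem hq') h1) hq'
      have e : q⁻¹ * (k⁻¹ * x * k) * q = (k * q)⁻¹ * x * (k * q) := by group
      rwa [e] at this
  -- the intersection is the centralizer of `v`
  have hD1 : ∀ x ∈ P, x * v = v * x → x ∈ v • P := by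
    intro x hx hxv
    rw [mem_smul_sylow]
    have : v⁻¹ * x * v = x := by
      rw [mul_assoc, hxv]; group
    rwa [this]
  have hDS : ((P : Subgroup G) ⊓ ((v • P : Sylow p G) : Subgroup G)) ≤ (S : Subgroup G) := by
    apply le_sylow_of_normalized S _ (P.2.to_le inf_le_left)
    intro s hs x hx
    exact ⟨(hS2 s hs x hx.1 hx.2).1, (hS2 s hs x hx.1 hx.2).2⟩
  have hcomm : ∀ x ∈ P, x ∈ v • P → x * k = k * x := by
    intro x hx hx'
    have : x ∈ S := hDS ⟨hx, hx'⟩
    exact key k hk x hx ((hmemS x).1 this)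
  intro x hx hxv g hg
  have hxQ := hD1 x hx hxv
  have hs : k * g * k⁻¹ ∈ S := by
    rw [hmemS]
    have : k⁻¹ * (k * g * k⁻¹) * k = g := by group
    rwa [this]
  obtain ⟨h1, h2⟩ := hS2 _ hs x hx hxQ
  have hxk := hcomm x hx hxQ
  have e1 : (k * g * k⁻¹) * x * (k * g * k⁻¹)⁻¹ = k * (g * x * g⁻¹) * k⁻¹ := by
    have : k⁻¹ * x * k = x := by rw [mul_assoc, hxk]; group
    calc (k * g * k⁻¹) * x * (k * g * k⁻¹)⁻¹ = k * g * (k⁻¹ * x * k) * g⁻¹ * k⁻¹ := by group
      _ = k * (g * x * g⁻¹) * k⁻¹ := by rw [this]; group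
  rw [e1] at h1 h2
  have h3 := hcomm _ h1 h2
  have e2 : k * (g * x * g⁻¹) * k⁻¹ = g * x * g⁻¹ := by
    have h4 : k * (k * (g * x * g⁻¹) * k⁻¹) = k * ((g * x * g⁻¹)) := by
      rw [← h3]; group
    exact mul_left_cancel h4
  rw [e2] at h1 h2
  -- so `g x g⁻¹` lies in both, hence commutes with `v`
  rw [mem_smul_sylow] at h2
  exact key v hv _ h1 h2

end necessity

section sufficiency

variable {G : Type*} [Group G] {L : Type*} [Group L] {p : ℕ} [Finite G] [Fact p.Prime]

theorem mem_mapSurj (f : G →* L) (hf : Function.Surjective f) (P : Sylow p G) (y : L) :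
    y ∈ P.mapSurjective hf ↔ ∃ x ∈ P, f x = y := by
  have : y ∈ P.mapSurjective hf ↔ y ∈ ((P.mapSurjective hf : Sylow p L) : Subgroup L) := Iff.rfl
  rw [this, Sylow.coe_mapSurjective, Subgroup.mem_map]
  exact Iff.rfl

/-- lifting step for a normal subgroup of order prime to `p` -/
theorem star_lift_coprime (f : G →* L) (hf : Function.Surjective f)
    (hV : (Nat.card f.ker).Coprime p) (hL : Star p L) (hC : CC p f.ker) : Star p G := by
  intro P Q
  set H : Subgroup G := (P : Subgroup G) ⊔ (Q : Subgroup G) with hH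
  have hPH : (P : Subgroup G) ≤ H := le_sup_left
  have hQH : (Q : Subgroup G) ≤ H := le_sup_right
  set E : Subgroup G := (P : Subgroup G) ⊓ ((Q.mapSurjective hf : Sylow p L) : Subgroup L).comap f
    with hE
  have hEp : IsPGroup p E := P.2.to_le inf_le_left
  have hEH : E ≤ H := inf_le_left.trans hPH
  -- a `p`-subgroup `E ≤ H` whose image lies in the image of `T ≤ H` is moved into `T` by `w`
  have move : ∀ T : Sylow p G, (T : Subgroup G) ≤ H →
      (∀ x ∈ E, f x ∈ T.mapSurjective hf) →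
      ∃ w ∈ H, w ∈ f.ker ∧ ∀ x ∈ E, w⁻¹ * x * w ∈ T := by
    intro T hT hET
    set J : Subgroup G := H ⊓ ((T.mapSurjective hf : Sylow p L) : Subgroup L).comap f with hJ
    have hTJ : (T : Subgroup G) ≤ J := by
      refine le_inf hT ?_
      intro x hx
      exact (mem_mapSurj f hf T (f x)).2 ⟨x, hx, rfl⟩
    have hEJ : E ≤ J := le_inf hEH (fun x hx => hET x hx)
    obtain ⟨j, hj, hEj⟩ := conj_sub T E J hEp hEJ hTJ
    have hj2 : f j ∈ T.mapSurjective hf := hj.2
    obtain ⟨t, ht, htj⟩ := (mem_mapSurj f hf T (f j)).1 hj2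
    refine ⟨j * t⁻¹, mul_mem hj.1 (inv_mem (hT ht)), ?_, ?_⟩
    · rw [MonoidHom.mem_ker]; simp [htj]
    · intro x hx
      have h1 : x ∈ j • T := hEj hx
      rw [mem_smul_sylow] at h1
      have := mul_mem (mul_mem ht h1) (inv_mem ht)
      have e : t * (j⁻¹ * x * j) * t⁻¹ = (j * t⁻¹)⁻¹ * x * (j * t⁻¹) := by group
      rwa [e] at this
  obtain ⟨w, hwH, hwV, hw⟩ := move Q hQH (fun x hx => hx.2)
  -- `P ∩ Q` is the set of elements of `E` commuting with `w`
  have hPQ : ∀ x, x ∈ P → x ∈ Q → x ∈ E ∧ x * w = w * x := by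
    intro x hxP hxQ
    have hxE : x ∈ E := ⟨hxP, (mem_mapSurj f hf Q (f x)).2 ⟨x, hxQ, rfl⟩⟩
    refine ⟨hxE, ?_⟩
    have h1 : x⁻¹ * (w⁻¹ * x * w) ∈ Q := mul_mem (inv_mem hxQ) (hw x hxE)
    have h2 : x⁻¹ * (w⁻¹ * x * w) ∈ f.ker := by
      rw [MonoidHom.mem_ker] at hwV ⊢
      simp [hwV]
    have h3 := disj_of_coprime Q f.ker hV h1 h2
    have h4 : w⁻¹ * x * w = x := by
      have := congrArg (fun t => x * t) h3
      simpa using this
    calc x * w = w * (w⁻¹ * x * w) := by group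
      _ = w * x := by rw [h4]
  have hPQ' : ∀ x ∈ E, x * w = w * x → x ∈ P ∧ x ∈ Q := by
    intro x hx hxw
    refine ⟨hx.1, ?_⟩
    have h1 := hw x hx
    have h4 : w⁻¹ * x * w = x := by rw [mul_assoc, hxw]; group
    rwa [h4] at h1
  -- the Sylow subgroup downstairs
  obtain ⟨S', hS'1, hS'2⟩ := hL (P.mapSurjective hf) (Q.mapSurjective hf)
  have hHmap : ((P.mapSurjective hf : Sylow p L) : Subgroup L) ⊔
      ((Q.mapSurjective hf : Sylow p L) : Subgroup L) = H.map f := by
    rw [Sylow.coe_mapSurjective, Sylow.coe_mapSurjective, hH, Subgroup.map_sup]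
  have : Finite L := Finite.of_surjective f hf
  obtain ⟨h', hh', hS'⟩ := conj_in (P.mapSurjective hf) S' (H.map f)
    (by rw [← hHmap]; exact le_sup_left) (by rw [← hHmap]; exact hS'1)
  obtain ⟨h, hh, rfl⟩ := hh'
  -- `S1 = h P h⁻¹`
  have hS1H : ((h • P : Sylow p G) : Subgroup G) ≤ H := by
    intro x hx
    have hx' : x ∈ h • P := hx
    rw [mem_smul_sylow] at hx'
    have := H.mul_mem (H.mul_mem hh (hPH hx')) (H.inv_mem hh)
    have e : h * (h⁻¹ * x * h) * h⁻¹ = x := by group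
    rwa [e] at this
  have hS1map : ∀ x ∈ h • P, f x ∈ S' := by
    intro x hx
    rw [hS', mem_smul_sylow]
    rw [mem_smul_sylow] at hx
    exact (mem_mapSurj f hf P _).2 ⟨_, hx, by simp⟩
  have hS1map' : ∀ y ∈ S', ∃ x ∈ h • P, f x = y := by
    intro y hy
    rw [hS', mem_smul_sylow] at hy
    obtain ⟨x, hx, hxy⟩ := (mem_mapSurj f hf P _).1 hy
    refine ⟨h * x * h⁻¹, ?_, ?_⟩
    · rw [mem_smul_sylow]
      have e : h⁻¹ * (h * x * h⁻¹) * h = x := by group
      rwa [e]
    · rw [map_mul, map_mul, hxy, map_inv]; group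
  have hDbar : ((((P.mapSurjective hf : Sylow p L) : Subgroup L)) ⊓
      ((Q.mapSurjective hf : Sylow p L) : Subgroup L)) ≤ (S' : Subgroup L) := by
    apply le_sylow_of_normalized S' _ ((P.mapSurjective hf).2.to_le inf_le_left)
    intro s hs x hx
    exact ⟨(hS'2 s hs x hx.1 hx.2).1, (hS'2 s hs x hx.1 hx.2).2⟩
  have hEbar : ∀ x ∈ E, f x ∈ P.mapSurjective hf ∧ f x ∈ Q.mapSurjective hf := by
    intro x hx
    exact ⟨(mem_mapSurj f hf P _).2 ⟨x, hx.1, rfl⟩, hx.2⟩
  obtain ⟨w2, hw2H, hw2V, hw2⟩ := move (h • P) hS1H (by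
    intro x hx
    have h1 : f x ∈ S' := hDbar ⟨(hEbar x hx).1, (hEbar x hx).2⟩
    obtain ⟨y, hy, hyx⟩ := hS1map' _ h1
    exact (mem_mapSurj f hf _ _).2 ⟨y, hy, hyx⟩)
  -- `S2 = w2 S1 w2⁻¹`
  have hES2 : ∀ x ∈ E, x ∈ w2 • (h • P) := by
    intro x hx
    rw [mem_smul_sylow]
    exact hw2 x hx
  have hS2map : ∀ x ∈ w2 • (h • P), f x ∈ S' := by
    intro x hx
    rw [mem_smul_sylow] at hx
    have h1 := hS1map _ hx
    rw [MonoidHom.mem_ker] at hw2V
    simpa [hw2V] using h1
  have hS2E : ∀ s ∈ w2 • (h • P), ∀ x ∈ E, s * x * s⁻¹ ∈ E := by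
    intro s hs x hx
    have h1 : s * x * s⁻¹ ∈ w2 • (h • P) := mul_mem (mul_mem hs (hES2 x hx)) (inv_mem hs)
    have h2 := hS'2 (f s) (hS2map s hs) (f x) (hEbar x hx).1 (hEbar x hx).2
    obtain ⟨e, he, hee⟩ := (mem_mapSurj f hf P _).1 h2.1
    have heE : e ∈ E := by
      refine ⟨he, ?_⟩
      change f e ∈ Q.mapSurjective hf
      rw [hee]; exact h2.2
    have h3 : (s * x * s⁻¹) * e⁻¹ ∈ w2 • (h • P) := mul_mem h1 (inv_mem (hES2 e heE))
    have h4 : (s * x * s⁻¹) * e⁻¹ ∈ f.ker := by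
      rw [MonoidHom.mem_ker]; simp [hee]
    have h5 := disj_of_coprime _ f.ker hV h3 h4
    have h6 : s * x * s⁻¹ = e := by
      have := congrArg (fun t => t * e) h5
      simpa using this
    rw [h6]; exact heE
  refine ⟨w2 • (h • P), ?_, ?_⟩
  · intro x hx
    have hx' : x ∈ w2 • (h • P) := hx
    rw [mem_smul_sylow] at hx'
    have := H.mul_mem (H.mul_mem hw2H (hS1H hx')) (H.inv_mem hw2H)
    have e : w2 * (w2⁻¹ * x * w2) * w2⁻¹ = x := by group
    rwa [e] at this
  · intro s hs x hxP hxQ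
    obtain ⟨hxE, hxw⟩ := hPQ x hxP hxQ
    apply hPQ' _ (hS2E s hs x hxE)
    exact hC (w2 • (h • P)) w hwV x (hES2 x hxE) hxw s hs

/-- lifting step for a normal `p`-subgroup -/
theorem star_lift_pgroup (f : G →* L) (hf : Function.Surjective f)
    (hV : IsPGroup p f.ker) (hL : Star p L) : Star p G := by
  intro P Q
  have hle : ∀ T : Sylow p G, f.ker ≤ (T : Subgroup G) := fun T =>
    IsPGroup.le_sylow_of_normal hV T
  have hlift : ∀ (T : Subgroup G), f.ker ≤ T → ∀ x, f x ∈ T.map f → x ∈ T := by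
    intro T hT x hx
    obtain ⟨t, ht, htx⟩ := hx
    have : x * t⁻¹ ∈ f.ker := by rw [MonoidHom.mem_ker]; simp [htx]
    have h2 := T.mul_mem (hT this) ht
    have e : x * t⁻¹ * t = x := by group
    rwa [e] at h2
  obtain ⟨S', hS'1, hS'2⟩ := hL (P.mapSurjective hf) (Q.mapSurjective hf)
  obtain ⟨S, rfl⟩ := Sylow.mapSurjective_surjective hf p S'
  refine ⟨S, ?_, ?_⟩
  · intro s hs
    apply hlift _ ((hle P).trans le_sup_left)
    rw [Subgroup.map_sup]
    have h1 := hS'1 ((mem_mapSurj f hf S _).2 ⟨s, hs, rfl⟩)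
    rw [Sylow.coe_mapSurjective, Sylow.coe_mapSurjective] at h1
    exact h1
  · intro s hs x hxP hxQ
    have h1 := hS'2 (f s) ((mem_mapSurj f hf S _).2 ⟨s, hs, rfl⟩) (f x)
      ((mem_mapSurj f hf P _).2 ⟨x, hxP, rfl⟩) ((mem_mapSurj f hf Q _).2 ⟨x, hxQ, rfl⟩)
    have e : f s * f x * (f s)⁻¹ = f (s * x * s⁻¹) := by simp
    rw [e] at h1
    refine ⟨?_, ?_⟩
    · apply hlift _ (hle P)
      obtain ⟨y, hy, hyx⟩ := (mem_mapSurj f hf P _).1 h1.1
      exact ⟨y, hy, hyx⟩
    · apply hlift _ (hle Q)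
      obtain ⟨y, hy, hyx⟩ := (mem_mapSurj f hf Q _).1 h1.2
      exact ⟨y, hy, hyx⟩

end sufficiency

section minnormal

variable {G : Type*} [Group G]

variable [Finite G]

theorem exists_minNormal (K : Subgroup G) (hK : K.Normal) (hK1 : K ≠ ⊥) :
    ∃ V : Subgroup G, IsMinNormal V ∧ V ≤ K := by
  have hfin : ({V : Subgroup G | V.Normal ∧ V ≠ ⊥ ∧ V ≤ K}).Finite := Set.toFinite _
  obtain ⟨V, hV⟩ := hfin.exists_minimal ⟨K, hK, hK1, le_rfl⟩
  refine ⟨V, ⟨hV.1.1, hV.1.2.1, ?_⟩, hV.1.2.2⟩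
  intro W hW hWV
  by_cases h0 : W = ⊥
  · exact Or.inl h0
  · right
    exact le_antisymm hWV (hV.2 ⟨hW, h0, hWV.trans hV.1.2.2⟩ hWV)

theorem minNormal_comm (V : Subgroup G) (hV : IsMinNormal V) (hs : Group.IsSolvable V) :
    ∀ a ∈ V, ∀ b ∈ V, a * b = b * a := by
  obtain ⟨hn, h1, hmin⟩ := hV
  have hW : ((commutator V).map V.subtype).Normal := inferInstance
  rcases hmin _ hW (Subgroup.map_subtype_le _) with h | h
  · rw [Subgroup.map_eq_bot_iff_of_injective _ V.subtype_injective] at h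
    intro a ha b hb
    have hmem : ⁅(⟨a, ha⟩ : V), (⟨b, hb⟩ : V)⁆ ∈ commutator V :=
      Subgroup.commutator_mem_commutator (Subgroup.mem_top _) (Subgroup.mem_top _)
    rw [h, Subgroup.mem_bot, commutatorElement_eq_one_iff_mul_comm] at hmem
    exact congrArg Subtype.val hmem
  · exfalso
    have hnt : Nontrivial V := (Subgroup.nontrivial_iff_ne_bot V).2 h1
    have hlt := Group.IsSolvable.commutator_lt_top_of_nontrivial V
    have : commutator V = ⊤ := by
      rw [eq_top_iff]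
      intro x _
      have hx : (x : G) ∈ (commutator V).map V.subtype := by rw [h]; exact x.2
      obtain ⟨y, hy, hyx⟩ := hx
      have : y = x := Subtype.ext hyx
      rwa [← this]
    exact absurd this hlt.ne

theorem minNormal_pgroup (p : ℕ) [hp : Fact p.Prime] (V : Subgroup G) (hV : IsMinNormal V)
    (hs : Group.IsSolvable V) : IsPGroup p V ∨ (Nat.card V).Coprime p := by
  have hcomm := minNormal_comm V hV hs
  obtain ⟨hn, h1, hmin⟩ := hV
  have T : Sylow p V := default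
  have hTn : (T : Subgroup V).Normal := by
    refine ⟨fun n hn' g => ?_⟩
    have : g * n * g⁻¹ = n := by
      have := hcomm g g.2 n n.2
      have h2 : g * n = n * g := Subtype.ext this
      rw [h2]; group
    rwa [this]
  have hTc : (T : Subgroup V).Characteristic := Sylow.characteristic_of_normal T hTn
  have hW : ((T : Subgroup V).map V.subtype).Normal := inferInstance
  rcases hmin _ hW (Subgroup.map_subtype_le _) with h | h
  · right
    rw [Subgroup.map_eq_bot_iff_of_injective _ V.subtype_injective] at h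
    by_contra hcop
    have hdvd : p ∣ Nat.card V := by
      rw [Nat.coprime_comm] at hcop
      exact (Nat.Prime.dvd_iff_not_coprime hp.1).2 hcop
    exact T.ne_bot_of_dvd_card hdvd h
  · left
    have hT : IsPGroup p ((T : Subgroup V).map V.subtype) := T.2.map _
    rwa [h] at hT

end minnormal

section induction

/-- the condition on all minimal normal subgroups of quotients below `ker f` -/
def CondHom (p : ℕ) {G K : Type u} [Group G] [Group K] (f : G →* K) : Prop :=
  ∀ (L : Type u) [Group L] [Finite L] (g : G →* L), Function.Surjective g → g.ker ≤ f.ker →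
    ∀ V : Subgroup L, IsMinNormal V → V ≤ f.ker.map g → (Nat.card V).Coprime p → CC p V

theorem main_induction (p : ℕ) [hp : Fact p.Prime] (K : Type u) [Group K] [Finite K]
    (hK : Star p K) (n : ℕ) :
    ∀ (G : Type u) [Group G] [Finite G] (f : G →* K), Function.Surjective f →
      Group.IsSolvable f.ker → Nat.card f.ker ≤ n → CondHom p f → Star p G := by
  induction n with
  | zero =>
    intro G _ _ f _ _ hn _
    have : 0 < Nat.card f.ker := Nat.card_pos
    omega
  | succ n ih =>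
    intro G _ _ f hf hs hn hc
    by_cases hker : f.ker = ⊥
    · have hinj : Function.Injective f := (MonoidHom.ker_eq_bot_iff f).1 hker
      exact star_of_equiv (MulEquiv.ofBijective f ⟨hinj, hf⟩).symm hK
    · obtain ⟨V, hV, hVK⟩ := exists_minNormal f.ker inferInstance hker
      have hVs : Group.IsSolvable V := Group.isSolvable_of_isSolvable_injective
        (Subgroup.inclusion_injective hVK)
      have hVn : V.Normal := hV.1
      -- the quotient
      have hVker : ∀ v ∈ V, f v = 1 := fun v hv => hVK hv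
      set f' : G ⧸ V →* K := QuotientGroup.lift V f hVker with hf'
      have hf's : Function.Surjective f' := by
        intro y
        obtain ⟨x, hx⟩ := hf y
        exact ⟨(x : G ⧸ V), by rw [hf']; simpa using hx⟩
      have hkerf' : f'.ker = f.ker.map (QuotientGroup.mk' V) := by
        ext y
        obtain ⟨x, rfl⟩ := QuotientGroup.mk'_surjective V y
        rw [MonoidHom.mem_ker, Subgroup.mem_map]
        constructor
        · intro h
          refine ⟨x, ?_, rfl⟩
          rw [MonoidHom.mem_ker]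
          simpa [hf'] using h
        · rintro ⟨z, hz, hzx⟩
          rw [← hzx]
          rw [MonoidHom.mem_ker] at hz
          simpa [hf'] using hz
      have hs' : Group.IsSolvable f'.ker := by
        rw [hkerf']
        have h1 : Function.Surjective ((QuotientGroup.mk' V).subgroupMap f.ker) :=
          MonoidHom.subgroupMap_surjective _ _
        exact Group.isSolvable_of_surjective h1
      have hcard : Nat.card f'.ker ≤ n := by
        have h1 : Nat.card f'.ker < Nat.card f.ker := by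
          rw [hkerf']
          have h2 : V.relIndex f.ker = Nat.card (f.ker.map (QuotientGroup.mk' V)) := by
            rw [← Subgroup.relIndex_ker, QuotientGroup.ker_mk']
          rw [← h2]
          have h3 : V.relIndex f.ker * Nat.card V = Nat.card f.ker := by
            rw [mul_comm, ← Subgroup.relIndex_bot_left, ← Subgroup.relIndex_bot_left,
              Subgroup.relIndex_mul_relIndex _ _ _ bot_le hVK]
          have h4 : 1 < Nat.card V := (Subgroup.one_lt_card_iff_ne_bot V).2 hV.2.1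
          have h5 : 0 < V.relIndex f.ker := by
            rw [h2]; exact Nat.card_pos
          nlinarith
        omega
      have hc' : CondHom p f' := by
        intro L _ _ g hg hgk W hW hWle hWc
        refine hc L (g.comp (QuotientGroup.mk' V)) (hg.comp (QuotientGroup.mk'_surjective V))
          ?_ W hW ?_ hWc
        · intro x hx
          rw [MonoidHom.mem_ker] at hx ⊢
          have h1 : QuotientGroup.mk' V x ∈ g.ker := hx
          have h2 := hgk h1
          rw [MonoidHom.mem_ker] at h2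
          simpa [hf'] using h2
        · rw [← Subgroup.map_map, ← hkerf']
          exact hWle
      have hL : Star p (G ⧸ V) := ih (G ⧸ V) f' hf's hs' hcard hc'
      rcases minNormal_pgroup p V hV hVs with hpg | hcop
      · refine star_lift_pgroup (QuotientGroup.mk' V) (QuotientGroup.mk'_surjective V) ?_ hL
        rw [QuotientGroup.ker_mk']; exact hpg
      · refine star_lift_coprime (QuotientGroup.mk' V) (QuotientGroup.mk'_surjective V) ?_ hL ?_
        · rw [QuotientGroup.ker_mk']; exact hcop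
        · rw [QuotientGroup.ker_mk']
          refine hc G (MonoidHom.id G) Function.surjective_id ?_ V hV ?_ hcop
          · intro x hx
            have : x = 1 := hx
            rw [this]; exact one_mem _
          · rw [Subgroup.map_id]; exact hVK

end induction

section localpart

variable {L : Type*} [Group L]

/-- every element of `P` acts trivially or fixed-point-freely on each `P`-composition factor -/
def SemiReg {L : Type*} [Group L] (P V : Subgroup L) : Prop :=
  ∀ A B : Subgroup L, IsFactor P V A B → ∀ x ∈ P,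
    (∃ b ∈ B, b ∉ A ∧ x * b * x⁻¹ * b⁻¹ ∈ A) → ActsTrivially x A B

theorem fixed_point [Finite L] {p : ℕ} [Fact p.Prime] (X : Subgroup L) (hX : IsPGroup p X)
    (A : Subgroup L) (hA : (Nat.card A).Coprime p) (b : L)
    (hXA : ∀ x ∈ X, ∀ a ∈ A, x * a * x⁻¹ ∈ A)
    (hb : ∀ x ∈ X, b⁻¹ * (x * b * x⁻¹) ∈ A) :
    ∃ a ∈ A, ∀ x ∈ X, x * (b * a) = (b * a) * x := by
  let act : MulAction X A :=
    { smul := fun x a => ⟨b⁻¹ * (x : L) * b * (a : L) * (x : L)⁻¹, by
        have h := A.mul_mem (hb x x.2) (hXA x x.2 a a.2)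
        have e : b⁻¹ * ((x : L) * b * (x : L)⁻¹) * ((x : L) * (a : L) * (x : L)⁻¹)
          = b⁻¹ * (x : L) * b * (a : L) * (x : L)⁻¹ := by group
        rwa [e] at h⟩
      one_smul := fun a => by
        apply Subtype.ext
        change b⁻¹ * ((1 : X) : L) * b * (a : L) * ((1 : X) : L)⁻¹ = a
        simp
      mul_smul := fun x y a => by
        apply Subtype.ext
        change b⁻¹ * ((x * y : X) : L) * b * (a : L) * ((x * y : X) : L)⁻¹
          = b⁻¹ * (x : L) * b * (b⁻¹ * (y : L) * b * (a : L) * (y : L)⁻¹) * (x : L)⁻¹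
        rw [Subgroup.coe_mul]
        group }
  have hndvd : ¬ p ∣ Nat.card A := by
    rw [Nat.coprime_comm] at hA
    exact (Nat.Prime.coprime_iff_not_dvd (Fact.out)).1 hA
  obtain ⟨a, ha⟩ := hX.nonempty_fixed_point_of_prime_not_dvd_card A hndvd
  refine ⟨a, a.2, fun x hx => ?_⟩
  have h1 := congrArg Subtype.val (ha ⟨x, hx⟩)
  change b⁻¹ * x * b * (a : L) * x⁻¹ = a at h1
  calc x * (b * a) = b * (b⁻¹ * x * b * (a : L) * x⁻¹) * x := by group
    _ = (b * a) * x := by rw [h1]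

variable (V : Subgroup L) (hVn : V.Normal) (hVc : ∀ a ∈ V, ∀ b ∈ V, a * b = b * a)

include hVn hVc in
/-- `[y, ·]` is multiplicative on `V` -/
theorem comm_mul (y c d : L) (hc : c ∈ V) (hd : d ∈ V) :
    y * (c * d) * y⁻¹ * (c * d)⁻¹ = (y * c * y⁻¹ * c⁻¹) * (y * d * y⁻¹ * d⁻¹) := by
  have h1 : y * d * y⁻¹ * d⁻¹ ∈ V := V.mul_mem (hVn.conj_mem d hd y) (V.inv_mem hd)
  have h2 := hVc c hc _ h1
  calc y * (c * d) * y⁻¹ * (c * d)⁻¹
      = (y * c * y⁻¹) * (y * d * y⁻¹ * d⁻¹ * c⁻¹) := by group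
    _ = (y * c * y⁻¹) * (c⁻¹ * (c * (y * d * y⁻¹ * d⁻¹)) * c⁻¹) := by group
    _ = (y * c * y⁻¹) * (c⁻¹ * ((y * d * y⁻¹ * d⁻¹) * c) * c⁻¹) := by rw [h2]
    _ = _ := by group

include hVn hVc in
theorem comm_inv (y c : L) (hc : c ∈ V) :
    y * c⁻¹ * y⁻¹ * c⁻¹⁻¹ = (y * c * y⁻¹ * c⁻¹)⁻¹ := by
  have h := comm_mul V hVn hVc y c c⁻¹ hc (V.inv_mem hc)
  have h1 : y * (c * c⁻¹) * y⁻¹ * (c * c⁻¹)⁻¹ = 1 := by group
  rw [h1] at h
  exact (inv_eq_of_mul_eq_one_right h.symm).symm

include hVn hVc in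
/-- the subgroup of elements of `B` on which all elements of a set act trivially modulo `A` -/
theorem exists_fix (A B : Subgroup L) (hB : B ≤ V) (X : Set L) :
    ∃ F : Subgroup L, ∀ c, c ∈ F ↔ c ∈ B ∧ ∀ y ∈ X, y * c * y⁻¹ * c⁻¹ ∈ A := by
  refine ⟨{ carrier := {c | c ∈ B ∧ ∀ y ∈ X, y * c * y⁻¹ * c⁻¹ ∈ A}
            one_mem' := ⟨B.one_mem, fun y _ => by simp⟩
            mul_mem' := ?_
            inv_mem' := ?_ }, fun c => Iff.rfl⟩
  · rintro c d ⟨hc, hc'⟩ ⟨hd, hd'⟩
    refine ⟨B.mul_mem hc hd, fun y hy => ?_⟩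
    rw [comm_mul V hVn hVc y c d (hB hc) (hB hd)]
    exact A.mul_mem (hc' y hy) (hd' y hy)
  · rintro c ⟨hc, hc'⟩
    refine ⟨B.inv_mem hc, fun y hy => ?_⟩
    rw [comm_inv V hVn hVc y c (hB hc)]
    exact A.inv_mem (hc' y hy)

/-- the subgroup of elements of `P` fixing `b` modulo `A` -/
theorem exists_stab (P A : Subgroup L) (hA : Normalises P A) (b : L) :
    ∃ X : Subgroup L, ∀ y, y ∈ X ↔ y ∈ P ∧ y * b * y⁻¹ * b⁻¹ ∈ A := by
  refine ⟨{ carrier := {y | y ∈ P ∧ y * b * y⁻¹ * b⁻¹ ∈ A}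
            one_mem' := ⟨P.one_mem, by simp⟩
            mul_mem' := ?_
            inv_mem' := ?_ }, fun c => Iff.rfl⟩
  · rintro y z ⟨hy, hy'⟩ ⟨hz, hz'⟩
    refine ⟨P.mul_mem hy hz, ?_⟩
    have h := A.mul_mem (hA y hy _ hz') hy'
    have e : y * (z * b * z⁻¹ * b⁻¹) * y⁻¹ * (y * b * y⁻¹ * b⁻¹) =
      y * z * b * (y * z)⁻¹ * b⁻¹ := by group
    rwa [e] at h
  · rintro y ⟨hy, hy'⟩
    refine ⟨P.inv_mem hy, ?_⟩
    have h := hA y⁻¹ (P.inv_mem hy) _ (A.inv_mem hy')
    have e : y⁻¹ * (y * b * y⁻¹ * b⁻¹)⁻¹ * y⁻¹⁻¹ = y⁻¹ * b * y⁻¹⁻¹ * b⁻¹ := by group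
    rwa [e] at h

/-- the local centralizer condition for a single `p`-group -/
def CCL {L : Type*} [Group L] (P V : Subgroup L) : Prop :=
  ∀ v ∈ V, ∀ x ∈ P, x * v = v * x → ∀ g ∈ P, (g * x * g⁻¹) * v = v * (g * x * g⁻¹)

include hVn hVc in
theorem semiReg_of_CCL [Finite L] {p : ℕ} [Fact p.Prime] (hVo : (Nat.card V).Coprime p)
    (P : Subgroup L) (hP : IsPGroup p P) (h : CCL P V) : SemiReg P V := by
  rintro A B hF x hx ⟨b, hb, hbA, hxb⟩
  have hBV := hF.le
  have hAV : A ≤ V := hF.lt.le.trans hBV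
  have hAo : (Nat.card A).Coprime p :=
    Nat.Coprime.coprime_dvd_left (Subgroup.card_dvd_of_le hAV) hVo
  obtain ⟨X, hX⟩ := exists_stab P A hF.normA b
  have hXP : X ≤ P := fun y hy => ((hX y).1 hy).1
  obtain ⟨a, ha, hfix⟩ := fixed_point X (hP.to_le hXP) A hAo b
    (fun y hy a ha => hF.normA y (hXP hy) a ha) (by
      intro y hy
      have h1 := ((hX y).1 hy).2
      have h2 : y * b * y⁻¹ ∈ V := hVn.conj_mem b (hBV hb) y
      rw [← hVc _ h2 _ (V.inv_mem (hBV hb))]
      exact h1)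
  -- an element of `P` commuting with `b * a` lies in `X`
  have hXc : ∀ y ∈ P, y * (b * a) = (b * a) * y → y ∈ X := by
    intro y hy hyc
    rw [hX]
    refine ⟨hy, ?_⟩
    have h1 := comm_mul V hVn hVc y b a (hBV hb) (hAV ha)
    have h2 : y * (b * a) * y⁻¹ * (b * a)⁻¹ = 1 := by rw [hyc]; group
    rw [h2] at h1
    have h3 : y * a * y⁻¹ * a⁻¹ ∈ A := A.mul_mem (hF.normA y hy a ha) (A.inv_mem ha)
    have h4 : y * b * y⁻¹ * b⁻¹ = (y * a * y⁻¹ * a⁻¹)⁻¹ := by
      exact eq_inv_of_mul_eq_one_left h1.symm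
    rw [h4]; exact A.inv_mem h3
  have hbaV : b * a ∈ V := V.mul_mem (hBV hb) (hAV ha)
  have hXn : ∀ g ∈ P, ∀ y ∈ X, g * y * g⁻¹ ∈ X := by
    intro g hg y hy
    exact hXc _ (P.mul_mem (P.mul_mem hg (hXP hy)) (P.inv_mem hg))
      (h _ hbaV y (hXP hy) (hfix y hy) g hg)
  obtain ⟨F, hFm⟩ := exists_fix V hVn hVc A B hBV (X : Set L)
  have hAF : A ≤ F := by
    intro c hc
    rw [hFm]
    exact ⟨hF.lt.le hc, fun y hy => A.mul_mem (hF.normA y (hXP hy) c hc) (A.inv_mem hc)⟩
  have hFB : F ≤ B := fun c hc => ((hFm c).1 hc).1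
  have hFn : Normalises P F := by
    intro g hg c hc
    rw [hFm] at hc ⊢
    refine ⟨hF.normB g hg c hc.1, fun y hy => ?_⟩
    have h1 : g⁻¹ * y * g ∈ X := by
      have := hXn g⁻¹ (P.inv_mem hg) y hy
      rwa [inv_inv] at this
    have h2 := hF.normA g hg _ (hc.2 _ h1)
    have e : g * (g⁻¹ * y * g * c * (g⁻¹ * y * g)⁻¹ * c⁻¹) * g⁻¹
      = y * (g * c * g⁻¹) * y⁻¹ * (g * c * g⁻¹)⁻¹ := by group
    rwa [e] at h2
  have hbF : b ∈ F := by
    rw [hFm]
    exact ⟨hb, fun y hy => ((hX y).1 hy).2⟩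
  rcases hF.irr F hAF hFB hFn with h0 | h0
  · exact absurd (h0 ▸ hbF) hbA
  · intro c hc
    have : c ∈ F := by rw [h0]; exact hc
    exact ((hFm c).1 this).2 x ((hX x).2 ⟨hx, hxb⟩)

include hVn hVc in
theorem CCL_of_semiReg [Finite L] {p : ℕ} [Fact p.Prime] (hVo : (Nat.card V).Coprime p)
    (P : Subgroup L) (hP : IsPGroup p P) (h : SemiReg P V) : CCL P V := by
  have key : ∀ n : ℕ, ∀ U : Subgroup L, U ≤ V → Normalises P U → Nat.card U ≤ n →
      ∀ v ∈ U, ∀ x ∈ P, x * v = v * x → ∀ g ∈ P, (g * x * g⁻¹) * v = v * (g * x * g⁻¹) := by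
    intro n
    induction n with
    | zero =>
      intro U _ _ hn
      have : 0 < Nat.card U := Nat.card_pos
      omega
    | succ n ih =>
      intro U hUV hUn hcard v hv x hx hxv g hg
      by_cases hU : U = ⊥
      · have : v = 1 := by
          rw [hU, Subgroup.mem_bot] at hv; exact hv
        rw [this]; simp
      have hfin : ({C : Subgroup L | Normalises P C ∧ C < U}).Finite := Set.toFinite _
      obtain ⟨U1, hU1⟩ := hfin.exists_maximal ⟨⊥, by
        refine ⟨?_, bot_lt_iff_ne_bot.mpr hU⟩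
        intro y _ a ha
        rw [Subgroup.mem_bot] at ha ⊢
        rw [ha]; group⟩
      obtain ⟨⟨hU1n, hU1lt⟩, hmax⟩ := hU1
      have hU1V : U1 ≤ V := hU1lt.le.trans hUV
      have hcard1 : Nat.card U1 ≤ n := by
        have h1 : Nat.card U1 < Nat.card U := by
          by_contra hge
          have hge' : Nat.card U ≤ Nat.card U1 := Nat.le_of_not_lt hge
          exact hU1lt.ne (Subgroup.eq_of_le_of_card_ge hU1lt.le hge')
        omega
      by_cases hvU1 : v ∈ U1
      · exact ih U1 hU1V hU1n hcard1 v hvU1 x hx hxv g hg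
      have hF : IsFactor P V U1 U := by
        refine ⟨hU1lt, hUV, hU1n, hUn, ?_⟩
        intro C hC1 hC2 hCn
        by_cases hCU : C = U
        · exact Or.inr hCU
        · left
          exact le_antisymm (hmax ⟨hCn, lt_of_le_of_ne hC2 hCU⟩ hC1) hC1
      have hU1o : (Nat.card U1).Coprime p :=
        Nat.Coprime.coprime_dvd_left (Subgroup.card_dvd_of_le hU1V) hVo
      obtain ⟨X, hX⟩ := exists_stab P U1 hU1n v
      have hXP : X ≤ P := fun y hy => ((hX y).1 hy).1
      obtain ⟨a, ha, hfix⟩ := fixed_point X (hP.to_le hXP) U1 hU1o v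
        (fun y hy a ha => hU1n y (hXP hy) a ha) (by
          intro y hy
          have h1 := ((hX y).1 hy).2
          have h2 : y * v * y⁻¹ ∈ V := hVn.conj_mem v (hUV hv) y
          rw [← hVc _ h2 _ (V.inv_mem (hUV hv))]
          exact h1)
      have htriv : ∀ y ∈ X, ActsTrivially y U1 U := by
        intro y hy
        exact h U1 U hF y (hXP hy) ⟨v, hv, hvU1, ((hX y).1 hy).2⟩
      have hxX : x ∈ X := by
        rw [hX]
        refine ⟨hx, ?_⟩
        have : x * v * x⁻¹ * v⁻¹ = 1 := by rw [hxv]; group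
        rw [this]; exact U1.one_mem
      have hgxX : g * x * g⁻¹ ∈ X := by
        rw [hX]
        refine ⟨P.mul_mem (P.mul_mem hg hx) (P.inv_mem hg), ?_⟩
        have h1 : g⁻¹ * v * g ∈ U := by
          have := hUn g⁻¹ (P.inv_mem hg) v hv
          rwa [inv_inv] at this
        have h2 := hU1n g hg _ (htriv x hxX _ h1)
        have e : g * (x * (g⁻¹ * v * g) * x⁻¹ * (g⁻¹ * v * g)⁻¹) * g⁻¹
          = g * x * g⁻¹ * v * (g * x * g⁻¹)⁻¹ * v⁻¹ := by group
        rwa [e] at h2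
      -- `x` commutes with `a`
      have hxa : x * a = a * x := by
        have h1 := hfix x hxX
        have h2 : v * (x * a) = v * (a * x) := by
          calc v * (x * a) = (v * x) * a := by group
            _ = (x * v) * a := by rw [hxv]
            _ = x * (v * a) := by group
            _ = (v * a) * x := h1
            _ = v * (a * x) := by group
        exact mul_left_cancel h2
      have hga := ih U1 hU1V hU1n hcard1 a ha x hx hxa g hg
      have hgva := hfix _ hgxX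
      set y := g * x * g⁻¹ with hy
      have h2 : (y * v) * a = (v * y) * a := by
        calc (y * v) * a = y * (v * a) := by group
          _ = (v * a) * y := hgva
          _ = v * (a * y) := by group
          _ = v * (y * a) := by rw [hga]
          _ = (v * y) * a := by group
      exact mul_right_cancel h2
  intro v hv
  exact key (Nat.card V) V le_rfl (fun x _ a ha => hVn.conj_mem a ha x) le_rfl v hv

include hVn hVc in
theorem oneInv_of_semiReg (P : Subgroup L) (h : SemiReg P V) :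
    ∀ A B, IsFactor P V A B → AtMostOneInvolution P A B := by
  intro A B hF x hx y hy hx2 hy2 hxn hyn
  have hBV := hF.le
  have hAV : A ≤ V := hF.lt.le.trans hBV
  -- an element acting as an involution inverts
  have inv : ∀ z ∈ P, ActsTrivially (z * z) A B → ¬ ActsTrivially z A B →
      ∀ b ∈ B, b * (z * b * z⁻¹) ∈ A := by
    intro z hz hz2 hzn b hb
    by_contra hcon
    apply hzn
    refine h A B hF z hz ⟨b * (z * b * z⁻¹), B.mul_mem hb (hF.normB z hz b hb), hcon, ?_⟩
    have h1 := hz2 b hb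
    have hzb : z * b * z⁻¹ ∈ V := hVn.conj_mem b (hBV hb) z
    have hzzb : z * z * b * (z * z)⁻¹ ∈ V := hVn.conj_mem b (hBV hb) (z * z)
    have hc1 := hVc _ hzb _ hzzb
    have e : z * (b * (z * b * z⁻¹)) * z⁻¹ * (b * (z * b * z⁻¹))⁻¹
      = z * z * b * (z * z)⁻¹ * b⁻¹ := by
      calc z * (b * (z * b * z⁻¹)) * z⁻¹ * (b * (z * b * z⁻¹))⁻¹
          = ((z * b * z⁻¹) * (z * z * b * (z * z)⁻¹)) * (z * b * z⁻¹)⁻¹ * b⁻¹ := by group
        _ = ((z * z * b * (z * z)⁻¹) * (z * b * z⁻¹)) * (z * b * z⁻¹)⁻¹ * b⁻¹ := by rw [hc1]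
        _ = z * z * b * (z * z)⁻¹ * b⁻¹ := by group
    rw [e]; exact h1
  intro b hb
  have h1 := inv y hy hy2 hyn b hb
  have hb' : x⁻¹ * b * x ∈ B := by
    have := hF.normB x⁻¹ (P.inv_mem hx) b hb
    rwa [inv_inv] at this
  have h2 := inv x hx hx2 hxn _ hb'
  have e2 : x⁻¹ * b * x * (x * (x⁻¹ * b * x) * x⁻¹) = (x⁻¹ * b * x) * b := by group
  rw [e2] at h2
  -- `y b y⁻¹ = b⁻¹ a₁`
  have h3 : x⁻¹ * (b * (y * b * y⁻¹)) * x ∈ A := by
    have := hF.normA x⁻¹ (P.inv_mem hx) _ h1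
    rwa [inv_inv] at this
  have h4 := A.mul_mem (A.inv_mem h2) h3
  have hb1V : x⁻¹ * b * x ∈ V := hBV hb'
  have hkV : (x⁻¹ * y) * b * (x⁻¹ * y)⁻¹ ∈ V := hVn.conj_mem b (hBV hb) _
  have hc2 := hVc _ (V.inv_mem (hBV hb)) _ hkV
  have e3 : ((x⁻¹ * b * x) * b)⁻¹ * (x⁻¹ * (b * (y * b * y⁻¹)) * x)
      = x⁻¹ * y * b * (x⁻¹ * y)⁻¹ * b⁻¹ := by
    calc ((x⁻¹ * b * x) * b)⁻¹ * (x⁻¹ * (b * (y * b * y⁻¹)) * x)
        = b⁻¹ * (x⁻¹ * y * b * (x⁻¹ * y)⁻¹) := by group
      _ = x⁻¹ * y * b * (x⁻¹ * y)⁻¹ * b⁻¹ := hc2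
  rwa [e3] at h4

include hVn hVc in
theorem semiReg_of_oneInv (P : Subgroup L) (hP : IsPGroup 2 P)
    (h : ∀ A B, IsFactor P V A B → AtMostOneInvolution P A B) : SemiReg P V := by
  rintro A B hF x hx ⟨b, hb, hbA, hxb⟩
  have hBV := hF.le
  have hAV : A ≤ V := hF.lt.le.trans hBV
  by_contra hxn
  obtain ⟨X, hX⟩ := exists_stab P A hF.normA b
  -- a power of `x` acting as an involution
  have hex : ∃ k : ℕ, ActsTrivially (x ^ 2 ^ k) A B := by
    obtain ⟨k, hk⟩ := hP ⟨x, hx⟩
    refine ⟨k, ?_⟩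
    have h1 : x ^ 2 ^ k = 1 := congrArg Subtype.val hk
    intro c _
    rw [h1]; simp
  classical
  obtain ⟨k, hk, hkmin⟩ : ∃ k : ℕ, ActsTrivially (x ^ 2 ^ k) A B ∧
      ∀ j < k, ¬ ActsTrivially (x ^ 2 ^ j) A B :=
    ⟨Nat.find hex, Nat.find_spec hex, fun j hj => Nat.find_min hex hj⟩
  have hk0 : k ≠ 0 := by
    rintro rfl
    apply hxn
    simpa using hk
  obtain ⟨j, rfl⟩ := Nat.exists_eq_succ_of_ne_zero hk0
  set z := x ^ 2 ^ j with hz
  have hzP : z ∈ P := P.pow_mem hx _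
  have hzn : ¬ ActsTrivially z A B := hkmin j (Nat.lt_succ_self j)
  have hz2 : ActsTrivially (z * z) A B := by
    have e : x ^ 2 ^ (j + 1) = z * z := by
      rw [hz, pow_succ, pow_mul, pow_two]
    rw [← e]; exact hk
  have hzX : z ∈ X := X.pow_mem ((hX x).2 ⟨hx, hxb⟩) _
  -- acting trivially is invariant under conjugation by `P`
  have hconj : ∀ g ∈ P, ∀ y, ActsTrivially y A B → ActsTrivially (g * y * g⁻¹) A B := by
    intro g hg y hy c hc
    have h1 : g⁻¹ * c * g ∈ B := by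
      have := hF.normB g⁻¹ (P.inv_mem hg) c hc
      rwa [inv_inv] at this
    have h2 := hF.normA g hg _ (hy _ h1)
    have e : g * (y * (g⁻¹ * c * g) * y⁻¹ * (g⁻¹ * c * g)⁻¹) * g⁻¹
      = g * y * g⁻¹ * c * (g * y * g⁻¹)⁻¹ * c⁻¹ := by group
    rwa [e] at h2
  obtain ⟨F, hFm⟩ := exists_fix V hVn hVc A B hBV {z}
  have hAF : A ≤ F := by
    intro c hc
    rw [hFm]
    refine ⟨hF.lt.le hc, fun y hy => ?_⟩
    rw [Set.mem_singleton_iff] at hy
    rw [hy]
    exact A.mul_mem (hF.normA z hzP c hc) (A.inv_mem hc)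
  have hFB : F ≤ B := fun c hc => ((hFm c).1 hc).1
  have hFn : Normalises P F := by
    intro g hg c hc
    rw [hFm] at hc ⊢
    refine ⟨hF.normB g hg c hc.1, fun y hy => ?_⟩
    rw [Set.mem_singleton_iff] at hy
    rw [hy]
    have hgi := P.inv_mem hg
    set w := g⁻¹ * z * g with hw
    have hwP : w ∈ P := P.mul_mem (P.mul_mem hgi hzP) hg
    have hwn : ¬ ActsTrivially w A B := by
      intro hcon
      apply hzn
      have := hconj g hg w hcon
      have e : g * w * g⁻¹ = z := by rw [hw]; group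
      rwa [e] at this
    have hw2 : ActsTrivially (w * w) A B := by
      have := hconj g⁻¹ hgi (z * z) hz2
      have e : g⁻¹ * (z * z) * g⁻¹⁻¹ = w * w := by rw [hw]; group
      rwa [e] at this
    have hk' := h A B hF z hzP w hwP hz2 hw2 hzn hwn
    have h1 := hF.normA z hzP _ (hk' c hc.1)
    have h2 := hc.2 z rfl
    have h3 := hF.normA g hg _ (A.mul_mem h1 h2)
    have e : g * (z * (z⁻¹ * w * c * (z⁻¹ * w)⁻¹ * c⁻¹) * z⁻¹ * (z * c * z⁻¹ * c⁻¹)) * g⁻¹
      = z * (g * c * g⁻¹) * z⁻¹ * (g * c * g⁻¹)⁻¹ := by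
      rw [hw]; group
    rwa [e] at h3
  have hbF : b ∈ F := by
    rw [hFm]
    refine ⟨hb, fun y hy => ?_⟩
    rw [Set.mem_singleton_iff] at hy
    rw [hy]; exact ((hX z).1 hzX).2
  rcases hF.irr F hAF hFB hFn with h0 | h0
  · exact hbA (h0 ▸ hbF)
  · apply hzn
    intro c hc
    have : c ∈ F := by rw [h0]; exact hc
    exact ((hFm c).1 this).2 z rfl

end localpart

section final

theorem exists_sylow_iff {G : Type*} [Group G] [Finite G] (H D : Subgroup G) (P : Sylow 2 G)
    (hPH : (P : Subgroup G) ≤ H) (hDP : D ≤ (P : Subgroup G)) :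
    (∃ S : Sylow 2 H, (D.subgroupOf H) ≤ (S : Subgroup H) ∧
      ((D.subgroupOf H).subgroupOf (S : Subgroup H)).Normal) ↔
    ∃ S : Sylow 2 G, (S : Subgroup G) ≤ H ∧ ∀ s ∈ S, ∀ x ∈ D, s * x * s⁻¹ ∈ D := by
  constructor
  · rintro ⟨S, hS1, hS2⟩
    obtain ⟨k, hk⟩ := MulAction.exists_smul_eq H (P.subtype hPH) S
    have hmem : ∀ s : H, s ∈ S ↔ (s : G) ∈ (k : G) • P := by
      intro s
      rw [← hk, mem_smul_sylow, mem_smul_sylow]
      have h1 : k⁻¹ * s * k ∈ P.subtype hPH ↔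
        k⁻¹ * s * k ∈ ((P.subtype hPH : Sylow 2 H) : Subgroup H) := Iff.rfl
      rw [h1, Sylow.coe_subtype, Subgroup.mem_subgroupOf]
      exact Iff.rfl
    have hle : (((k : G) • P : Sylow 2 G) : Subgroup G) ≤ H := Sylow.smul_le hPH k
    refine ⟨(k : G) • P, hle, ?_⟩
    intro s hs x hx
    have hsH : s ∈ H := hle hs
    have hxH : x ∈ H := hPH (hDP hx)
    have hsS : (⟨s, hsH⟩ : H) ∈ S := (hmem _).2 hs
    have hxD : (⟨x, hxH⟩ : H) ∈ D.subgroupOf H := by
      rw [Subgroup.mem_subgroupOf]; exact hx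
    have hxS : (⟨x, hxH⟩ : H) ∈ S := hS1 hxD
    have h3 := hS2.conj_mem ⟨⟨x, hxH⟩, hxS⟩ (by rw [Subgroup.mem_subgroupOf]; exact hxD)
      ⟨⟨s, hsH⟩, hsS⟩
    rw [Subgroup.mem_subgroupOf, Subgroup.mem_subgroupOf] at h3
    exact h3
  · rintro ⟨S, hS1, hS2⟩
    have hDS : D ≤ (S : Subgroup G) := le_sylow_of_normalized S _ (P.2.to_le hDP) hS2
    refine ⟨S.subtype hS1, ?_, ?_⟩
    · intro x hx
      rw [Sylow.coe_subtype, Subgroup.mem_subgroupOf]
      rw [Subgroup.mem_subgroupOf] at hx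
      exact hDS hx
    · refine ⟨?_⟩
      intro n hn g
      rw [Subgroup.mem_subgroupOf, Subgroup.mem_subgroupOf] at hn ⊢
      have hg : ((g : H) : G) ∈ S := by
        have h1 : (g : H) ∈ (S : Subgroup G).subgroupOf H := g.2
        rw [Subgroup.mem_subgroupOf] at h1
        exact h1
      exact hS2 _ hg _ hn

theorem hasStar_iff_star (G : Type*) [Group G] [Finite G] : HasStar G ↔ Star 2 G := by
  constructor
  · intro h P Q
    obtain ⟨S, hS1, hS2⟩ := (exists_sylow_iff _ _ P le_sup_left inf_le_left).1 (h P Q)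
    exact ⟨S, hS1, fun s hs x hx hx' => hS2 s hs x ⟨hx, hx'⟩⟩
  · intro h P Q
    obtain ⟨S, hS1, hS2⟩ := h P Q
    exact (exists_sylow_iff _ _ P le_sup_left inf_le_left).2
      ⟨S, hS1, fun s hs x hx => hS2 s hs x hx.1 hx.2⟩

theorem minNormal_comap {G L : Type*} [Group G] [Group L] (e : G ≃* L) (V : Subgroup L)
    (hV : IsMinNormal V) : IsMinNormal (V.comap e.toMonoidHom) := by
  obtain ⟨hn, h1, hmin⟩ := hV
  refine ⟨hn.comap _, ?_, ?_⟩
  · intro h0
    apply h1
    rw [eq_bot_iff]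
    intro y hy
    have : e.symm y ∈ V.comap e.toMonoidHom := by
      rw [Subgroup.mem_comap]; simpa using hy
    rw [h0, Subgroup.mem_bot] at this
    rw [Subgroup.mem_bot]
    have h2 := congrArg e this
    simpa using h2
  · intro W hW hWV
    have hWn : (W.map e.toMonoidHom).Normal := hW.map _ e.surjective
    have hWle : W.map e.toMonoidHom ≤ V := by
      rintro _ ⟨w, hw, rfl⟩
      exact hWV hw
    rcases hmin _ hWn hWle with h | h
    · left
      rwa [Subgroup.map_eq_bot_iff_of_injective _ e.injective] at h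
    · right
      rw [← h, Subgroup.comap_map_eq_self_of_injective e.injective]

theorem condHom_of_quot {G K : Type u} [Group G] [Finite G] [Group K] (f : G →* K)
    (h : ∀ (N : Subgroup G) [N.Normal], N ≤ f.ker → ∀ V : Subgroup (G ⧸ N), IsMinNormal V →
      V ≤ f.ker.map (QuotientGroup.mk' N) → (Nat.card V).Coprime 2 → CC 2 V) :
    CondHom 2 f := by
  intro L _ _ g hg hgf V hV hVle hVc P v hv x hx hxv s hs
  set e : (G ⧸ g.ker) ≃* L := QuotientGroup.quotientKerEquivOfSurjective g hg with he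
  have hemk : ∀ y : G, e (QuotientGroup.mk' g.ker y) = g y := fun y => rfl
  have hP0 : ∀ y : G ⧸ g.ker,
      y ∈ P.mapSurjective (f := e.symm.toMonoidHom) e.symm.surjective ↔ e y ∈ P := by
    intro y
    rw [mem_mapSurj]
    constructor
    · rintro ⟨z, hz, rfl⟩
      simpa using hz
    · intro hy
      exact ⟨e y, hy, by simp⟩
  have hle : V.comap e.toMonoidHom ≤ f.ker.map (QuotientGroup.mk' g.ker) := by
    intro y hy
    obtain ⟨z, hz, hzy⟩ := hVle hy
    refine ⟨z, hz, ?_⟩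
    apply e.injective
    rw [hemk]; exact hzy
  have hcard : Nat.card (V.comap e.toMonoidHom) = Nat.card V := by
    apply Nat.card_congr
    refine Equiv.subtypeEquiv e.toEquiv ?_
    intro a
    exact Iff.rfl
  have h1 := h g.ker hgf (V.comap e.toMonoidHom) (minNormal_comap e V hV) hle
    (by rw [hcard]; exact hVc) (P.mapSurjective (f := e.symm.toMonoidHom) e.symm.surjective)
    (e.symm v) (by rw [Subgroup.mem_comap]; simpa using hv)
    (e.symm x) (by rw [hP0]; simpa using hx)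
    (by rw [← map_mul, ← map_mul, hxv])
    (e.symm s) (by rw [hP0]; simpa using hs)
  have h2 := congrArg e h1
  simpa using h2

theorem cond_iff {G : Type u} [Group G] [Finite G] (R : Subgroup G) [hR : Group.IsSolvable R] :
    CondBelow R ↔ ∀ (N : Subgroup G) [N.Normal], N ≤ R → ∀ V : Subgroup (G ⧸ N), IsMinNormal V →
      V ≤ R.map (QuotientGroup.mk' N) → (Nat.card V).Coprime 2 → CC 2 V := by
  have hcomm : ∀ (N : Subgroup G) [N.Normal], ∀ V : Subgroup (G ⧸ N), IsMinNormal V →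
      V ≤ R.map (QuotientGroup.mk' N) → ∀ a ∈ V, ∀ b ∈ V, a * b = b * a := by
    intro N _ V hV hVR
    apply minNormal_comm V hV
    have h1 : Function.Surjective ((QuotientGroup.mk' N).subgroupMap R) :=
      MonoidHom.subgroupMap_surjective _ _
    have h2 : Group.IsSolvable (R.map (QuotientGroup.mk' N)) := Group.isSolvable_of_surjective h1
    exact Group.isSolvable_of_isSolvable_injective (Subgroup.inclusion_injective hVR)
  constructor
  · intro h N _ hN V hV hVR hVo P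
    have h1 := h N hN V hV hVR (Nat.coprime_two_right.1 hVo) P
    have h2 := semiReg_of_oneInv V hV.1 (hcomm N V hV hVR) (P : Subgroup (G ⧸ N)) P.2 h1
    exact CCL_of_semiReg V hV.1 (hcomm N V hV hVR) hVo (P : Subgroup (G ⧸ N)) P.2 h2
  · intro h N _ hN V hV hVR hVo P
    have hVo' : (Nat.card V).Coprime 2 := Nat.coprime_two_right.2 hVo
    have h1 := h N hN V hV hVR hVo' P
    have h2 := semiReg_of_CCL V hV.1 (hcomm N V hV hVR) hVo' (P : Subgroup (G ⧸ N)) P.2 h1
    exact oneInv_of_semiReg V hV.1 (hcomm N V hV hVR) (P : Subgroup (G ⧸ N)) h2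

theorem reduction {G : Type u} [Group G] [Finite G] (R : Subgroup G) [hn : R.Normal]
    [hR : Group.IsSolvable R] :
    HasStar G ↔ HasStar (G ⧸ R) ∧ CondBelow R := by
  rw [hasStar_iff_star, hasStar_iff_star, cond_iff]
  constructor
  · intro h
    refine ⟨star_of_surjective (QuotientGroup.mk' R) (QuotientGroup.mk'_surjective R) h, ?_⟩
    intro N _ _ V hV _ hVo
    have h1 : Star 2 (G ⧸ N) :=
      star_of_surjective (QuotientGroup.mk' N) (QuotientGroup.mk'_surjective N) h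
    have := hV.1
    exact cc_of_star h1 V hVo
  · rintro ⟨h1, h2⟩
    have hk : (QuotientGroup.mk' R).ker = R := QuotientGroup.ker_mk' R
    refine main_induction 2 (G ⧸ R) h1 (Nat.card (QuotientGroup.mk' R).ker) G
      (QuotientGroup.mk' R) (QuotientGroup.mk'_surjective R) (by rw [hk]; exact hR) le_rfl ?_
    apply condHom_of_quot
    rw [hk]
    exact h2

theorem hasStar_of_subsingleton (G : Type*) [Group G] [Finite G] [Subsingleton G] :
    HasStar G := by
  rw [hasStar_iff_star]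
  intro P Q
  refine ⟨P, le_sup_left, ?_⟩
  intro s _ x hx hx'
  have : s * x * s⁻¹ = x := Subsingleton.elim _ _
  rw [this]; exact ⟨hx, hx'⟩

end final

end Pool.Agent.Helper184.SylStar
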