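import Mathlib
import Pool.Agent.Helper184.SylStarDefs
import Pool.Agent.Helper184.SylStarMain

set_option autoImplicit false
set_option linter.unusedSectionVars false

namespace Pool.Agent.Helper184.SylStar

open Subgroup
open scoped commutatorElement

section commuting

variable {G : Type*} [Group G] {p : ℕ} [Finite G] [Fact p.Prime]

/-- the key step: `P ∩ S₁` is normalised by `S₁` -/
theorem inf_normal_of_star (h : Star p G) (N S₁ : Subgroup G) (hN : N.Normal) (hSN : S₁ ≤ N)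
    (hSn : ∀ n ∈ N, ∀ s ∈ S₁, n * s * n⁻¹ ∈ S₁) (P : Sylow p G) (g : G) (hg : g ∈ P)
    (hc : ∀ s ∈ S₁, ∀ t ∈ S₁, s * (g * t * g⁻¹) = (g * t * g⁻¹) * s) :
    ∀ a ∈ S₁, ∀ x ∈ P, x ∈ S₁ → a⁻¹ * x * a ∈ P := by
  intro a ha x hx hxS
  obtain ⟨S, hS1, hS2⟩ := h P (a • P)
  have hle : (P : Subgroup G) ⊔ ((a • P : Sylow p G) : Subgroup G) ≤ N ⊔ (P : Subgroup G) := by
    refine sup_le le_sup_right ?_
    intro x hx
    have hx' : x ∈ a • P := hx
    rw [mem_smul_sylow] at hx'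
    have e : x = a * (a⁻¹ * x * a) * a⁻¹ := by group
    rw [e]
    have hv' : a ∈ N ⊔ (P : Subgroup G) := (le_sup_left : N ≤ _) (hSN ha)
    have hx'' : a⁻¹ * x * a ∈ N ⊔ (P : Subgroup G) := (le_sup_right : (P : Subgroup G) ≤ _) hx'
    exact mul_mem (mul_mem hv' hx'') (inv_mem hv')
  obtain ⟨k0, hk0, hSk⟩ := conj_in P S (N ⊔ (P : Subgroup G)) le_sup_right (hS1.trans hle)
  obtain ⟨k, hk, q, hq, rfl⟩ := Subgroup.mem_sup_of_normal_left.mp hk0
  have hmemS : ∀ x, x ∈ S ↔ k⁻¹ * x * k ∈ P := by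
    intro x
    rw [hSk, mem_smul_sylow]
    have hq' : q ∈ P := hq
    constructor
    · intro h1
      have := mul_mem (mul_mem hq' h1) (inv_mem hq')
      have e : q * ((k * q)⁻¹ * x * (k * q)) * q⁻¹ = k⁻¹ * x * k := by group
      rwa [e] at this
    · intro h1
      have := mul_mem (mul_mem (inv_mem hq') h1) hq'
      have e : q⁻¹ * (k⁻¹ * x * k) * q = (k * q)⁻¹ * x * (k * q) := by group
      rwa [e] at this
  -- the element `m`
  set m : G := k * (g⁻¹ * k * g)⁻¹ with hm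
  have hkg : g⁻¹ * k * g ∈ N := by
    have := hN.conj_mem k hk g⁻¹
    rwa [inv_inv] at this
  have hmN : m ∈ N := N.mul_mem hk (N.inv_mem hkg)
  have hkey : ∀ t ∈ P, t ∈ S₁ → (m * t * m⁻¹ ∈ P ∧ m * t * m⁻¹ ∈ a • P) ∧ m * t * m⁻¹ ∈ S₁ := by
    intro t ht htS
    have hu : g * t * g⁻¹ ∈ P := mul_mem (mul_mem hg ht) (inv_mem hg)
    have hu' : g * t * g⁻¹ ∈ a • P := by
      rw [mem_smul_sylow]
      have : a⁻¹ * (g * t * g⁻¹) * a = g * t * g⁻¹ := by
        rw [mul_assoc, ← hc a ha t htS]; group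
      rwa [this]
    have hs : k * g⁻¹ * k⁻¹ ∈ S := by
      rw [hmemS]
      have : k⁻¹ * (k * g⁻¹ * k⁻¹) * k = g⁻¹ := by group
      rw [this]; exact inv_mem hg
    have h1 := hS2 _ hs _ hu hu'
    have e : (k * g⁻¹ * k⁻¹) * (g * t * g⁻¹) * (k * g⁻¹ * k⁻¹)⁻¹ = m * t * m⁻¹ := by
      rw [hm]; group
    rw [e] at h1
    exact ⟨h1, hSn m hmN t htS⟩
  -- injection, hence surjection
  let T₁ : Subgroup G := (P : Subgroup G) ⊓ S₁
  let f : T₁ → T₁ := fun t => ⟨m * t * m⁻¹, (hkey t t.2.1 t.2.2).1.1, (hkey t t.2.1 t.2.2).2⟩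
  have hf : Function.Injective f := by
    intro s t hst
    have h1 : m * (s : G) * m⁻¹ = m * (t : G) * m⁻¹ := congrArg Subtype.val hst
    apply Subtype.ext
    exact mul_left_cancel (mul_right_cancel h1)
  obtain ⟨t, ht⟩ := Finite.surjective_of_injective hf ⟨x, hx, hxS⟩
  have h1 : m * (t : G) * m⁻¹ = x := congrArg Subtype.val ht
  have h2 := (hkey t t.2.1 t.2.2).1.2
  rw [h1, mem_smul_sylow] at h2
  exact h2

theorem sylow_normal_of_star (h : Star p G) (N S₁ : Subgroup G) (hN : N.Normal) (hSN : S₁ ≤ N)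
    (hSn : ∀ n ∈ N, ∀ s ∈ S₁, n * s * n⁻¹ ∈ S₁) (g : G) (hg : ∃ k : ℕ, g ^ p ^ k = 1)
    (hc : ∀ s ∈ S₁, ∀ t ∈ S₁, s * (g * t * g⁻¹) = (g * t * g⁻¹) * s) (T : Sylow p S₁) :
    (T : Subgroup S₁).Normal := by
  -- a Sylow subgroup containing `g`
  have hgp : IsPGroup p (Subgroup.zpowers g) := by
    intro ⟨y, hy⟩
    obtain ⟨k, hk⟩ := hg
    obtain ⟨i, rfl⟩ := Subgroup.mem_zpowers_iff.1 hy
    refine ⟨k, ?_⟩
    apply Subtype.ext
    change (g ^ i) ^ p ^ k = 1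
    rw [← zpow_natCast, ← zpow_mul, mul_comm, zpow_mul, zpow_natCast, hk, one_zpow]
  obtain ⟨P, hP⟩ := hgp.exists_le_sylow
  have hgP : g ∈ P := hP (Subgroup.mem_zpowers g)
  have hnorm := inf_normal_of_star h N S₁ hN hSN hSn P g hgP hc
  set T₁ : Subgroup S₁ := (P : Subgroup G).subgroupOf S₁ with hT₁
  have hT₁n : T₁.Normal := by
    refine ⟨fun x hx a => ?_⟩
    rw [hT₁, Subgroup.mem_subgroupOf] at hx ⊢
    have := hnorm (a : G)⁻¹ (S₁.inv_mem a.2) (x : G) hx x.2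
    rw [inv_inv] at this
    exact this
  have hT₁p : IsPGroup p T₁ := P.2.comap_subtype
  have hT₁T : T₁ ≤ (T : Subgroup S₁) := IsPGroup.le_sylow_of_normal hT₁p T
  -- `T` is not larger
  have hTG : IsPGroup p ((T : Subgroup S₁).map S₁.subtype) := T.2.map _
  obtain ⟨h0, hh0, hTh⟩ := conj_sub P ((T : Subgroup S₁).map S₁.subtype) (N ⊔ (P : Subgroup G)) hTG
    ((Subgroup.map_subtype_le _).trans (hSN.trans le_sup_left)) le_sup_right
  obtain ⟨k, hk, q, hq, rfl⟩ := Subgroup.mem_sup_of_normal_left.mp hh0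
  have hmem : ∀ t ∈ T, k⁻¹ * (t : G) * k ∈ P := by
    intro t ht
    have h1 : (t : G) ∈ (k * q) • P := hTh ⟨t, ht, rfl⟩
    rw [mem_smul_sylow] at h1
    have hq' : q ∈ P := hq
    have := mul_mem (mul_mem hq' h1) (inv_mem hq')
    have e : q * ((k * q)⁻¹ * (t : G) * (k * q)) * q⁻¹ = k⁻¹ * (t : G) * k := by group
    rwa [e] at this
  have hmem' : ∀ t : S₁, k⁻¹ * (t : G) * k ∈ S₁ := by
    intro t
    have := hSn k⁻¹ (N.inv_mem hk) t t.2
    rwa [inv_inv] at this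
  let f : ↥(T : Subgroup S₁) → T₁ := fun t =>
    ⟨⟨k⁻¹ * ((t : S₁) : G) * k, hmem' t⟩, by
      rw [hT₁, Subgroup.mem_subgroupOf]; exact hmem t t.2⟩
  have hf : Function.Injective f := by
    intro s t hst
    have h1 : k⁻¹ * ((s : S₁) : G) * k = k⁻¹ * ((t : S₁) : G) * k :=
      congrArg (fun z : T₁ => ((z : S₁) : G)) hst
    apply Subtype.ext
    apply Subtype.ext
    exact mul_left_cancel (mul_right_cancel h1)
  have hcard : Nat.card (T : Subgroup S₁) ≤ Nat.card T₁ := Nat.card_le_card_of_injective f hf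
  have heq : T₁ = (T : Subgroup S₁) := Subgroup.eq_of_le_of_card_ge hT₁T hcard
  rw [← heq]; exact hT₁n

/-- elements of `p`-power order normalise non-abelian simple normal subgroups of normal
subgroups, provided that `p` divides the order -/
theorem normalises_simple (h : Star p G) (N S₁ : Subgroup G) (hN : N.Normal) (hSN : S₁ ≤ N)
    (hSn : ∀ n ∈ N, ∀ s ∈ S₁, n * s * n⁻¹ ∈ S₁) (hsimp : IsSimpleGroup S₁)
    (hna : ∃ a ∈ S₁, ∃ b ∈ S₁, a * b ≠ b * a) (hdvd : p ∣ Nat.card S₁)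
    (g : G) (hg : ∃ k : ℕ, g ^ p ^ k = 1) : ∀ s ∈ S₁, g * s * g⁻¹ ∈ S₁ := by
  by_contra hcon
  have hN' : ∀ y : G, y ∈ N → ∀ x : G, x * y * x⁻¹ ∈ N := fun y hy x => hN.conj_mem y hy x
  -- the conjugate subgroup
  set S₂ : Subgroup G := S₁.map (MulAut.conj g).toMonoidHom with hS₂
  have hS₂m : ∀ y, y ∈ S₂ ↔ g⁻¹ * y * g ∈ S₁ := by
    intro y
    rw [hS₂, Subgroup.mem_map]
    constructor
    · rintro ⟨s, hs, rfl⟩
      have : g⁻¹ * ((MulAut.conj g).toMonoidHom s) * g = s := by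
        change g⁻¹ * (g * s * g⁻¹) * g = s
        group
      rwa [this]
    · intro hy
      refine ⟨g⁻¹ * y * g, hy, ?_⟩
      change g * (g⁻¹ * y * g) * g⁻¹ = y
      group
  have hS₂n : ∀ n ∈ N, ∀ s ∈ S₂, n * s * n⁻¹ ∈ S₂ := by
    intro n hn s hs
    rw [hS₂m] at hs ⊢
    have h1 : g⁻¹ * n * g ∈ N := by
      have := hN' n hn g⁻¹
      rwa [inv_inv] at this
    have h2 := hSn _ h1 _ hs
    have e : g⁻¹ * n * g * (g⁻¹ * s * g) * (g⁻¹ * n * g)⁻¹ = g⁻¹ * (n * s * n⁻¹) * g := by group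
    rwa [e] at h2
  have hS₂N : S₂ ≤ N := by
    intro y hy
    rw [hS₂m] at hy
    have := hN' _ (hSN hy) g
    have e : g * (g⁻¹ * y * g) * g⁻¹ = y := by group
    rwa [e] at this
  -- the intersection is normal in `S₁`
  have hI : ((S₂).subgroupOf S₁).Normal := by
    refine ⟨fun x hx a => ?_⟩
    rw [Subgroup.mem_subgroupOf] at hx ⊢
    exact hS₂n a (hSN a.2) x hx
  rcases hI.eq_bot_or_eq_top with h0 | h0
  · -- they commute
    have hcomm : ∀ s ∈ S₁, ∀ t ∈ S₂, s * t = t * s := by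
      intro s hs t ht
      have h1 : s * t * s⁻¹ * t⁻¹ ∈ S₂ := S₂.mul_mem (hS₂n s (hSN hs) t ht) (S₂.inv_mem ht)
      have h2 : s * t * s⁻¹ * t⁻¹ ∈ S₁ := by
        have h3 := S₁.mul_mem hs (hSn t (hS₂N ht) s⁻¹ (S₁.inv_mem hs))
        have e : s * (t * s⁻¹ * t⁻¹) = s * t * s⁻¹ * t⁻¹ := by group
        rwa [e] at h3
      have h3 : (⟨s * t * s⁻¹ * t⁻¹, h2⟩ : S₁) ∈ (S₂).subgroupOf S₁ := by
        rw [Subgroup.mem_subgroupOf]; exact h1
      rw [h0, Subgroup.mem_bot] at h3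
      have h4 : s * t * s⁻¹ * t⁻¹ = 1 := congrArg Subtype.val h3
      have h5 : s * t * (t * s)⁻¹ = 1 := by rw [← h4]; group
      exact mul_inv_eq_one.1 h5
    have hc : ∀ s ∈ S₁, ∀ t ∈ S₁, s * (g * t * g⁻¹) = (g * t * g⁻¹) * s := by
      intro s hs t ht
      apply hcomm s hs
      rw [hS₂m]
      have : g⁻¹ * (g * t * g⁻¹) * g = t := by group
      rwa [this]
    have T : Sylow p S₁ := default
    have hT := sylow_normal_of_star h N S₁ hN hSN hSn g hg hc T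
    rcases hT.eq_bot_or_eq_top with h1 | h1
    · exact T.ne_bot_of_dvd_card hdvd h1
    · -- `S₁` is a `p`-group, hence abelian
      have hp1 : IsPGroup p S₁ := by
        have h2 := T.2
        rw [h1] at h2
        exact h2.of_equiv Subgroup.topEquiv
      have hnt : Nontrivial S₁ := hsimp.toNontrivial
      have hcen := hp1.bot_lt_center
      rcases (inferInstance : (Subgroup.center S₁).Normal).eq_bot_or_eq_top with h3 | h3
      · exact hcen.ne h3.symm
      · obtain ⟨a, ha, b, hb, hab⟩ := hna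
        have : (⟨a, ha⟩ : S₁) ∈ Subgroup.center S₁ := by rw [h3]; exact Subgroup.mem_top _
        rw [Subgroup.mem_center_iff] at this
        exact hab (congrArg Subtype.val (this ⟨b, hb⟩)).symm
  · -- `S₁ ≤ S₂`, hence equal
    apply hcon
    have hle : S₁ ≤ S₂ := by
      rw [Subgroup.subgroupOf_eq_top] at h0; exact h0
    have hcard : Nat.card S₂ ≤ Nat.card S₁ := by
      rw [hS₂]
      exact (Subgroup.card_map_of_injective (MulAut.conj g).injective).le
    have heq : S₁ = S₂ := Subgroup.eq_of_le_of_card_ge hle hcard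
    intro s hs
    rw [heq, hS₂m]
    have : g⁻¹ * (g * s * g⁻¹) * g = s := by group
    rwa [this]

end commuting

section pgroup

variable {G : Type*} [Group G] {p : ℕ} [Finite G] [Fact p.Prime]

theorem star_of_pgroup (hG : IsPGroup p G) : Star p G := by
  intro P Q
  have hP : ∀ T : Sylow p G, (T : Subgroup G) = ⊤ := by
    intro T
    have h1 : IsPGroup p (⊤ : Subgroup G) := hG.to_subgroup ⊤
    exact (T.3 h1 le_top).symm
  have hm : ∀ (T : Sylow p G) (x : G), x ∈ T := by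
    intro T x
    have : x ∈ (T : Subgroup G) := by rw [hP T]; exact Subgroup.mem_top _
    exact this
  exact ⟨P, le_sup_left, fun s _ x _ _ => ⟨hm P _, hm Q _⟩⟩

end pgroup

end Pool.Agent.Helper184.SylStar
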