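import Mathlib
import Pool.Agent.Helper184.SylStarDefs
import Pool.Agent.Helper184.SylStarMain
import Pool.Agent.Helper184.SylStarMore

set_option autoImplicit false
set_option linter.unusedSectionVars false

namespace Pool.Agent.Helper184.SylStar

open Subgroup

section wreath

variable {A Q : Type*} [Group A] [Finite A] [Group Q] [Finite Q]

/-- the base group element supported at `1` -/
theorem conj_left (s b : RegularWreathProduct A Q) (hb : b.right = 1) (x : Q) :
    (s * b * s⁻¹).left x = s.left x * b.left (s.right⁻¹ * x) * (s.left x)⁻¹ := by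
  simp [hb]

/-- if the wreath product with a non-trivial `p`-group has the property then the Sylow subgroups
of the base factor are normal -/
theorem wreath_normal {p : ℕ} [Fact p.Prime] [Nontrivial Q] (hQ : IsPGroup p Q)
    (h : Star p (RegularWreathProduct A Q)) (T : Sylow p A) : (T : Subgroup A).Normal := by
  classical
  obtain ⟨q0, hq0⟩ := exists_ne (1 : Q)
  -- the base group and its first factor
  let N : Subgroup (RegularWreathProduct A Q) := (RegularWreathProduct.rightHom).ker
  have hNm : ∀ w : RegularWreathProduct A Q, w ∈ N ↔ w.right = 1 := fun w => MonoidHom.mem_ker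
  let ι : A →* RegularWreathProduct A Q :=
    { toFun := fun a => ⟨Pi.mulSingle 1 a, 1⟩
      map_one' := by ext <;> simp
      map_mul' := fun a b => by
        apply RegularWreathProduct.ext
        · funext x
          rw [RegularWreathProduct.mul_left]
          simp only [inv_one, one_mul, Pi.mul_apply]
          rw [Pi.mulSingle_mul, Pi.mul_apply]
        · simp }
  have hι : Function.Injective ι := by
    intro a b hab
    have h1 : (ι a).left 1 = (ι b).left 1 := by rw [hab]
    have h2 : ∀ c : A, (ι c).left 1 = c := fun c => by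
      change (Pi.mulSingle (1 : Q) c : Q → A) 1 = c
      exact Pi.mulSingle_eq_same (M := fun _ : Q => A) (1 : Q) c
    rwa [h2, h2] at h1
  let S₁ : Subgroup (RegularWreathProduct A Q) := ι.range
  have hS₁m : ∀ w, w ∈ S₁ ↔ w.right = 1 ∧ ∀ x : Q, x ≠ 1 → w.left x = 1 := by
    intro w
    constructor
    · rintro ⟨a, rfl⟩
      refine ⟨rfl, fun x hx => ?_⟩
      change (Pi.mulSingle (1 : Q) a : Q → A) x = 1
      exact Pi.mulSingle_eq_of_ne (M := fun _ : Q => A) hx a
    · rintro ⟨h1, h2⟩
      refine ⟨w.left 1, ?_⟩
      apply RegularWreathProduct.ext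
      · funext x
        by_cases hx : x = 1
        · rw [hx]
          change (Pi.mulSingle (1 : Q) (w.left 1) : Q → A) 1 = w.left 1
          exact Pi.mulSingle_eq_same (1 : Q) _
        · rw [h2 x hx]
          change (Pi.mulSingle (1 : Q) (w.left 1) : Q → A) x = 1
          exact Pi.mulSingle_eq_of_ne hx _
      · exact h1.symm
  have hN : N.Normal := inferInstance
  have hSN : S₁ ≤ N := fun w hw => (hNm w).2 ((hS₁m w).1 hw).1
  have hSn : ∀ n ∈ N, ∀ s ∈ S₁, n * s * n⁻¹ ∈ S₁ := by
    intro n hn s hs
    rw [hNm] at hn
    rw [hS₁m] at hs ⊢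
    refine ⟨by simp [hn, hs.1], fun x hx => ?_⟩
    rw [conj_left n s hs.1, hn]
    have : (1 : Q)⁻¹ * x ≠ 1 := by simpa using hx
    rw [hs.2 _ this]
    group
  have hg : ∃ k : ℕ, (RegularWreathProduct.inl q0 : RegularWreathProduct A Q) ^ p ^ k = 1 := by
    obtain ⟨k, hk⟩ := hQ q0
    exact ⟨k, by rw [← map_pow, hk, map_one]⟩
  set g : RegularWreathProduct A Q := RegularWreathProduct.inl q0 with hgdef
  have hgr : g.right = q0 := rfl
  have hgl : ∀ x, g.left x = 1 := fun x => rfl
  have hc : ∀ s ∈ S₁, ∀ t ∈ S₁, s * (g * t * g⁻¹) = (g * t * g⁻¹) * s := by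
    intro s hs t ht
    rw [hS₁m] at hs ht
    have hur : (g * t * g⁻¹).right = 1 := by simp [ht.1]
    have hul : ∀ x, x ≠ q0 → (g * t * g⁻¹).left x = 1 := by
      intro x hx
      rw [conj_left g t ht.1, hgr]
      have : q0⁻¹ * x ≠ 1 := by
        intro hcon
        apply hx
        have := congrArg (fun z => q0 * z) hcon
        simpa using this
      rw [ht.2 _ this, hgl]
      group
    generalize g * t * g⁻¹ = u at hur hul
    apply RegularWreathProduct.ext
    · funext x
      rw [RegularWreathProduct.mul_left, RegularWreathProduct.mul_left, Pi.mul_apply, Pi.mul_apply,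
        hs.1, hur, inv_one, one_mul]
      by_cases hx : x = 1
      · rw [hul x (by rw [hx]; exact hq0.symm)]; simp
      · rw [hs.2 x hx]; simp
    · rw [RegularWreathProduct.mul_right, RegularWreathProduct.mul_right, hs.1, hur]
  -- transfer the Sylow subgroup
  let e : A ≃* S₁ := MonoidHom.ofInjective hι
  have hT' := sylow_normal_of_star h N S₁ hN hSN hSn g hg hc
    (T.mapSurjective (f := e.toMonoidHom) e.surjective)
  refine ⟨fun x hx a => ?_⟩
  have hx' : e x ∈ ((T.mapSurjective (f := e.toMonoidHom) e.surjective : Sylow p S₁) :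
      Subgroup S₁) := (mem_mapSurj _ _ _ _).2 ⟨x, hx, rfl⟩
  have h1 := hT'.conj_mem _ hx' (e a)
  obtain ⟨y, hy, hye⟩ := (mem_mapSurj _ _ _ _).1 h1
  have h2 : y = a * x * a⁻¹ := by
    apply e.injective
    have h3 : e y = e a * e x * (e a)⁻¹ := hye
    rw [h3, map_mul, map_mul, map_inv]
  rw [← h2]; exact hy

/-- the functoriality of the wreath product in the base factor -/
def wreathMap {A B : Type*} [Group A] [Group B] (Q : Type*) [Group Q] (f : A →* B) :
    RegularWreathProduct A Q →* RegularWreathProduct B Q where
  toFun w := ⟨fun q => f (w.left q), w.right⟩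
  map_one' := by ext <;> simp
  map_mul' a b := by ext <;> simp

theorem wreathMap_surj {B : Type*} [Group B] (f : A →* B) (hf : Function.Surjective f) :
    Function.Surjective (wreathMap Q f) := by
  intro w
  choose g hg using fun q => hf (w.left q)
  exact ⟨⟨g, w.right⟩, by
    apply RegularWreathProduct.ext
    · funext q; exact hg q
    · rfl⟩

/-- card of the base group -/
theorem card_base (A Q : Type*) [Group A] [Finite A] [Group Q] [Finite Q] :
    Nat.card (RegularWreathProduct.rightHom : RegularWreathProduct A Q →* Q).ker =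
      Nat.card A ^ Nat.card Q := by
  have e : (RegularWreathProduct.rightHom : RegularWreathProduct A Q →* Q).ker ≃ (Q → A) :=
    { toFun := fun w => w.1.left
      invFun := fun f => ⟨⟨f, 1⟩, rfl⟩
      left_inv := fun w => by
        apply Subtype.ext
        apply RegularWreathProduct.ext
        · rfl
        · exact (MonoidHom.mem_ker.1 w.2).symm
      right_inv := fun f => rfl }
  rw [Nat.card_congr e, Nat.card_fun]

/-- for an odd base factor the top group is Dedekind -/
theorem wreath_dedekind {p : ℕ} [Fact p.Prime] (hQ : IsPGroup p Q) [Nontrivial A]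
    (hA : (Nat.card A).Coprime p) (h : Star p (RegularWreathProduct A Q)) (H : Subgroup Q) :
    H.Normal := by
  classical
  obtain ⟨a, ha⟩ := exists_ne (1 : A)
  set V : Subgroup (RegularWreathProduct A Q) := (RegularWreathProduct.rightHom).ker with hV
  have hVn : V.Normal := inferInstance
  have hVc : (Nat.card V).Coprime p := by
    rw [hV, card_base]
    exact Nat.Coprime.pow_left _ hA
  have hcc := cc_of_star h V hVc
  have hr : IsPGroup p (RegularWreathProduct.inl : Q →* RegularWreathProduct A Q).range := by
    have h1 : IsPGroup p (⊤ : Subgroup Q) := hQ.to_subgroup ⊤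
    have h2 := h1.map (RegularWreathProduct.inl : Q →* RegularWreathProduct A Q)
    rwa [← MonoidHom.range_eq_map] at h2
  obtain ⟨P, hP⟩ := hr.exists_le_sylow
  let v : RegularWreathProduct A Q := ⟨fun q => if q ∈ H then a else 1, 1⟩
  have hv : v ∈ V := by rw [hV, MonoidHom.mem_ker]; rfl
  have hcomm : ∀ q : Q, (RegularWreathProduct.inl q * v = v * RegularWreathProduct.inl q) ↔
      ∀ x : Q, v.left (q⁻¹ * x) = v.left x := by
    intro q
    constructor
    · intro h1 x
      have h2 := congrArg (fun w => w.left x) h1
      simpa [v] using h2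
    · intro h1
      apply RegularWreathProduct.ext
      · funext x
        have := h1 x
        simpa [v] using this
      · simp [v]
  refine ⟨fun h0 hh0 g => ?_⟩
  have h1 : RegularWreathProduct.inl h0 * v = v * RegularWreathProduct.inl h0 := by
    rw [hcomm]
    intro x
    have : (h0⁻¹ * x ∈ H) ↔ x ∈ H := Subgroup.mul_mem_cancel_left H (H.inv_mem hh0)
    change (if h0⁻¹ * x ∈ H then a else 1) = (if x ∈ H then a else 1)
    simp [this]
  have h2 := hcc P v hv (RegularWreathProduct.inl h0) (hP ⟨h0, rfl⟩) h1
    (RegularWreathProduct.inl g) (hP ⟨g, rfl⟩)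
  rw [← map_mul, ← map_inv, ← map_mul, hcomm] at h2
  have h3 := h2 1
  have h4 : v.left 1 = a := by
    change (if (1 : Q) ∈ H then a else 1) = a
    simp [H.one_mem]
  rw [h4] at h3
  by_contra hcon
  have h5 : v.left ((g * h0 * g⁻¹)⁻¹ * 1) = 1 := by
    change (if (g * h0 * g⁻¹)⁻¹ * 1 ∈ H then a else 1) = 1
    rw [mul_one, if_neg]
    intro h6
    exact hcon ((H.inv_mem_iff).1 h6)
  rw [h5] at h3
  exact ha h3.symm

/-- an odd base factor with a Dedekind top group -/
theorem star_wreath_odd {p : ℕ} [Fact p.Prime] (hQ : IsPGroup p Q)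
    (hA : (Nat.card A).Coprime p) (hD : ∀ H : Subgroup Q, H.Normal) :
    Star p (RegularWreathProduct A Q) := by
  have hsurj : Function.Surjective
      (RegularWreathProduct.rightHom : RegularWreathProduct A Q →* Q) :=
    fun q => ⟨RegularWreathProduct.inl q, rfl⟩
  have hc : (Nat.card (RegularWreathProduct.rightHom : RegularWreathProduct A Q →* Q).ker).Coprime
      p := by
    rw [card_base]; exact Nat.Coprime.pow_left _ hA
  refine star_lift_coprime RegularWreathProduct.rightHom hsurj hc (star_of_pgroup hQ) ?_
  intro P v hv x hx hxv g hg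
  -- the centralizer of `v` in `P`
  let C : Subgroup (RegularWreathProduct A Q) := (P : Subgroup _) ⊓ Subgroup.centralizer {v}
  have hCm : ∀ y, y ∈ C ↔ y ∈ P ∧ y * v = v * y := by
    intro y
    change (y ∈ (P : Subgroup _) ∧ y ∈ Subgroup.centralizer {v}) ↔ _
    rw [Subgroup.mem_centralizer_singleton_iff]
    exact Iff.rfl
  have hn := hD (C.map RegularWreathProduct.rightHom)
  have h1 : RegularWreathProduct.rightHom x ∈ C.map RegularWreathProduct.rightHom :=
    ⟨x, (hCm x).2 ⟨hx, hxv⟩, rfl⟩
  have h2 := hn.conj_mem _ h1 (RegularWreathProduct.rightHom g)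
  obtain ⟨y, hy, hye⟩ := h2
  have hy' := (hCm y).1 hy
  have h3 : g * x * g⁻¹ * y⁻¹ ∈ P :=
    mul_mem (mul_mem (mul_mem hg hx) (inv_mem hg)) (inv_mem hy'.1)
  have h4 : g * x * g⁻¹ * y⁻¹ ∈
      (RegularWreathProduct.rightHom : RegularWreathProduct A Q →* Q).ker := by
    rw [MonoidHom.mem_ker, map_mul, map_mul, map_mul, map_inv, map_inv, hye]
    group
  have h5 := disj_of_coprime P _ hc h3 h4
  have h6 : g * x * g⁻¹ = y := by
    have := congrArg (fun t => t * y) h5
    simpa using this
  rw [h6]; exact hy'.2

theorem star_wreath_iff {p : ℕ} [Fact p.Prime] [Nontrivial Q] (hQ : IsPGroup p Q) :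
    Star p (RegularWreathProduct A Q) ↔
      (IsPGroup p A ∨ ((∀ T : Sylow p A, (T : Subgroup A).Normal) ∧
        ∀ H : Subgroup Q, H.Normal)) := by
  constructor
  · intro h
    by_cases hA : IsPGroup p A
    · exact Or.inl hA
    right
    have hT := fun T => wreath_normal hQ h T
    refine ⟨hT, ?_⟩
    have T : Sylow p A := default
    have hTn := hT T
    have hstar : Star p (RegularWreathProduct (A ⧸ (T : Subgroup A)) Q) :=
      star_of_surjective _ (wreathMap_surj (QuotientGroup.mk' (T : Subgroup A))
        (QuotientGroup.mk'_surjective _)) h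
    have hndvd : ¬ p ∣ (T : Subgroup A).index := T.not_dvd_index
    have hcop : (Nat.card (A ⧸ (T : Subgroup A))).Coprime p := by
      rw [← Subgroup.index_eq_card, Nat.coprime_comm]
      exact (Nat.Prime.coprime_iff_not_dvd Fact.out).2 hndvd
    have hnt : Nontrivial (A ⧸ (T : Subgroup A)) := by
      rw [QuotientGroup.nontrivial_iff]
      intro h0
      apply hA
      have h2 := T.2
      rw [h0] at h2
      exact h2.of_equiv Subgroup.topEquiv
    exact wreath_dedekind hQ hcop hstar
  · rintro (hA | ⟨hT, hD⟩)
    · apply star_of_pgroup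
      have hA' := hA
      obtain ⟨n, hn⟩ := IsPGroup.iff_card.1 hA
      obtain ⟨m, hm⟩ := IsPGroup.iff_card.1 hQ
      refine IsPGroup.of_card (n := n * Nat.card Q + m) ?_
      rw [RegularWreathProduct.card, hn, pow_add, pow_mul, ← hm]
    · have T : Sylow p A := default
      have hTn := hT T
      have hndvd : ¬ p ∣ (T : Subgroup A).index := T.not_dvd_index
      have hcop : (Nat.card (A ⧸ (T : Subgroup A))).Coprime p := by
        rw [← Subgroup.index_eq_card, Nat.coprime_comm]
        exact (Nat.Prime.coprime_iff_not_dvd Fact.out).2 hndvd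
      refine star_lift_pgroup (wreathMap Q (QuotientGroup.mk' (T : Subgroup A)))
        (wreathMap_surj _ (QuotientGroup.mk'_surjective _)) ?_ (star_wreath_odd hQ hcop hD)
      -- the kernel is a `p`-group
      have hk : ∀ w : RegularWreathProduct A Q,
          w ∈ (wreathMap Q (QuotientGroup.mk' (T : Subgroup A))).ker ↔
            w.right = 1 ∧ ∀ q, w.left q ∈ (T : Subgroup A) := by
        intro w
        rw [MonoidHom.mem_ker]
        constructor
        · intro h
          refine ⟨congrArg RegularWreathProduct.right h, fun q => ?_⟩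
          have h1 := congrArg (fun z => RegularWreathProduct.left z q) h
          have h2 : QuotientGroup.mk' (T : Subgroup A) (w.left q) = 1 := h1
          rwa [← MonoidHom.mem_ker, QuotientGroup.ker_mk'] at h2
        · rintro ⟨h1, h2⟩
          apply RegularWreathProduct.ext
          · funext q
            change QuotientGroup.mk' (T : Subgroup A) (w.left q) = 1
            rw [← MonoidHom.mem_ker, QuotientGroup.ker_mk']
            exact h2 q
          · exact h1
      intro ⟨w, hw⟩
      rw [hk] at hw
      obtain ⟨n, hn⟩ := IsPGroup.iff_card.1 T.2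
      refine ⟨n, ?_⟩
      apply Subtype.ext
      change w ^ p ^ n = 1
      have hpow : ∀ j : ℕ, (w ^ j).right = 1 ∧ ∀ q, (w ^ j).left q = (w.left q) ^ j := by
        intro j
        induction j with
        | zero => simp
        | succ j ih =>
          rw [pow_succ]
          refine ⟨by simp [ih.1, hw.1], fun q => ?_⟩
          rw [RegularWreathProduct.mul_left, Pi.mul_apply, ih.1, ih.2, inv_one, one_mul, pow_succ]
      apply RegularWreathProduct.ext
      · funext q
        rw [(hpow _).2]
        have h1 : (⟨w.left q, hw.2 q⟩ : (T : Subgroup A)) ^ Nat.card (T : Subgroup A) = 1 :=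
          pow_card_eq_one'
        have h2 := congrArg Subtype.val h1
        rw [hn] at h2
        exact h2
      · exact (hpow _).1

end wreath

end Pool.Agent.Helper184.SylStar
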